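import Pool.Agent.Mg.Fdbdb85.Gefe8eb

/-! The growth bound. -/

namespace Pool.Agent.MP_dbdb85_co.L

open Multiset

theorem final_GU {a b c d e f P Q n t T : ℕ} (e1 : a ≤ f * b) (e2 : b ≤ P * t * c)
    (e3 : c ≤ Q * d) (e4 : d ≤ e * T) (hf : f ≤ n + 1) (hP : P ≤ n + 1) (hQ : Q ≤ n + 1)
    (he : e = (n + 1) * (n + 1)) : a ≤ (n + 1) ^ 5 * t * T := by
  subst he
  calc a ≤ f * b := e1
    _ ≤ f * (P * t * (Q * ((n + 1) * (n + 1) * T))) :=
      Nat.mul_le_mul_left _ (e2.trans (Nat.mul_le_mul_left _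
        (e3.trans (Nat.mul_le_mul_left _ e4))))
    _ ≤ (n + 1) * ((n + 1) * t * ((n + 1) * ((n + 1) * (n + 1) * T))) := by gcongr
    _ = (n + 1) ^ 5 * t * T := by ring

theorem GU_pf (h1 : G1_st) (h2 : G2a_st) (h3 : G2b_st) (h4 : G3_st) (h5 : FILL_st)
    (h6 : GN_st) : GU_st := by
  intro n s w u τ D0 E0 h X hok hX
  obtain ⟨hev, hs1, hs2, hu, hw, P, A0, hP, hE, hA1, hA2, hA3, hh⟩ := hok
  rcases X.eq_empty_or_nonempty with rfl | ⟨x0, hx0⟩
  · simp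
  have hD0 : 3 ≤ D0 := by
    by_contra hc
    have : D0 - 2 = 0 := by omega
    rw [this] at hw
    omega
  have hs : 1 ≤ s := by
    by_contra hc
    have e : s = 0 := by omega
    subst e
    obtain ⟨-, a1, -, -, a2, -⟩ := hX x0 hx0
    have a3 : x0.1 ≤ x0.1 ^ 2 := Nat.le_self_pow (by norm_num) _
    simp only [sz] at a2
    omega
  have hus : 44 * u * P ≤ s := by
    refine Nat.le_of_mul_le_mul_right (c := s) ?_ hs
    calc 44 * u * P * s = 44 * u * s * P := by ring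
      _ ≤ A0 ^ 2 := hA3
      _ ≤ s ^ 2 := Nat.pow_le_pow_left hA2 2
      _ = s * s := by ring
  have hu2 : 2 * u ≤ s := by nlinarith
  have hPs : P ≤ s := by nlinarith
  have hsn : s ≤ n := le_trans (Nat.le_self_pow (by norm_num) s) hs1
  have husn : u * (2 * s) ≤ n := by nlinarith
  obtain ⟨Y1, a1, b1⟩ := h1 n s w u τ D0 E0 X (by omega) hs2 hX
  rcases Y1.eq_empty_or_nonempty with rfl | ⟨y0, hy0⟩
  · simp at b1
    simp [b1]
  have hD1 : D0 ≤ s + u := by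
    obtain ⟨-, c1, -, -, -, -, c2, -⟩ := a1 y0 hy0
    omega
  have hwn : w + u + 1 ≤ n := by
    refine hw.trans (le_trans ?_ husn)
    rw [mul_comm]
    exact Nat.mul_le_mul_left _ (by omega)
  obtain ⟨Y2, a2, b2⟩ := h2 P h (2 * s) Y1 hP (by omega) (fun y hy => by
    obtain ⟨c0, -, -, -, -, -, c2, -⟩ := a1 y hy
    exact ⟨c0, by omega⟩)
  obtain ⟨Y3, a3, b3⟩ := h4 (τ + 1) (2 * s) Y2 (fun y hy => by
    obtain ⟨x, hx, ht⟩ := a2 y hy
    obtain ⟨c0, -, -, -, -, -, c2, c3, c4⟩ := a1 x hx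
    obtain ⟨d1, -, d2, d3⟩ := h3 P x y hP c0 ht
    exact ⟨d1, by rw [ht.1]; omega, d2 τ c3, d3 τ c4⟩)
  have key : ∀ z ∈ Y3, Tp (sz z) (wd z) z ∧ Even (sz z) ∧ D0 ≤ z.1 ∧ wd z + u ≤ w ∧
      sz z + 4 * (w - wd z) ≤ n ∧ n ≤ sz z + 2 * (wd z + 1) * (w - wd z - u) := by
    intro z hz
    obtain ⟨y, hy, f1, f2, f3, f4, f5, f6⟩ := a3 z hz
    obtain ⟨x, hx, ht⟩ := a2 y hy
    obtain ⟨c0, c1, c2, c3, c4, c5, c6, -, k, k1, k2, k3⟩ := a1 x hx
    obtain ⟨-, ⟨dA, dE, d1, d2, d3, d4, d5, d6⟩, -⟩ := h3 P x y hP c0 ht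
    obtain ⟨-, g1, g2⟩ := near_size c0 (by omega) k2 k3
    have e1 : y.1 = x.1 := ht.1
    have e2 : sz x = sz y + dE := by
      simp only [sz, e1]
      omega
    refine ⟨f2, f3, by omega, ?_⟩
    refine h6 n s w u τ D0 E0 P A0 x.1 (card x.2.1) (ms x) (sz x) dA dE (sz z) (wd z) hu hw hP
      hE hA1 hA2 hA3 c1 c6 c5 c2 ?_ c3 c4 hs (by omega) d3 d4 d5 d6 ?_ (by omega) ?_
    · have : (2 * card x.2.1 + τ) * x.1 = (card x.2.1 + τ) * x.1 + card x.2.1 * x.1 := by ring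
      simp only [ms]
      omega
    · simp only [wd] at f4 c5 ⊢
      omega
    · rw [e1] at f6
      have e3 : (τ + 1 + 2) * x.1 = (τ + 3) * x.1 := by ring
      have e4 : (6 * (τ + 1) + 3) * (x.1 + 2) = (6 * τ + 9) * (x.1 + 2) := by ring
      omega
  have b4 := cover_bound Y3 (Finset.range (n + 1) ×ˢ Finset.range (n + 1))
    (fun p z => sz z = p.1 ∧ wd z = p.2) 1 (Tf n w).card (fun z hz => by
      obtain ⟨-, -, -, c1, c2, -⟩ := key z hz
      refine ⟨(sz z, wd z), ?_, rfl, rfl⟩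
      simp only [Finset.mem_product, Finset.mem_range]
      omega) (fun p _ Z hZ => by
      rw [one_mul]
      rcases Z.eq_empty_or_nonempty with rfl | ⟨z0, hz0⟩
      · simp
      obtain ⟨m1, m2, m3⟩ := hZ z0 hz0
      obtain ⟨-, c0, -, c1, c2, c3⟩ := key z0 m1
      rw [m2] at c0 c2 c3
      rw [m3] at c1 c2 c3
      refine h5 n w p.1 p.2 u D0 Z hev c0 (fun z hz => ?_) c1 c2 c3 (by omega)
      obtain ⟨n1, n2, n3⟩ := hZ z hz
      obtain ⟨c4, -, c5, -⟩ := key z n1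
      rw [n2, n3] at c4
      exact ⟨c4, c5⟩)
  rw [one_mul, Finset.card_product, Finset.card_range] at b4
  refine final_GU b1 b2 b3 b4 (by omega) (by omega) ?_ rfl
  exact le_trans (Nat.mul_le_mul_right _ (by omega)) (husn.trans (Nat.le_succ n))

end Pool.Agent.MP_dbdb85_co.L
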