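import Pool.Agent.MP_dbdb85_co.Defs

section

namespace Pool.Agent.MP_dbdb85_co

open Multiset

theorem EG_zero_Suf {d : Multiset ℕ} (h : EG (0 ::ₘ d)) : EG d := by
  intro K hK hb
  have := h K (hK.trans (le_cons_self _ _)) hb
  simpa using this

theorem Cs_map_Suf (d : Multiset ℕ) (k : ℕ) :
    Cs (d.map (· + 1)) (k + 1) = Cs d k + card d := by
  induction d using Multiset.induction_on with
  | empty => simp
  | cons a d ih =>
    simp only [map_cons, Cs_cons, ih, card_cons]
    omega

theorem sum_map_Suf (d : Multiset ℕ) : (d.map (· + 1)).sum = d.sum + card d := by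
  induction d using Multiset.induction_on with
  | empty => simp
  | cons a d ih =>
    simp only [map_cons, sum_cons, ih, card_cons]
    omega

theorem EG_dom_Suf {d : Multiset ℕ} (hd : ∀ x ∈ d, x + 1 ≤ card d)
    (h : EG (card d ::ₘ d.map (· + 1))) : EG d := by
  intro K hK hb
  rcases Nat.eq_zero_or_pos (card K) with h0 | h0
  · rw [card_eq_zero.1 h0]; simp
  obtain ⟨x, hx⟩ := card_pos_iff_exists_mem.1 h0
  have h1 := hb x hx
  have h2 := hd x (mem_of_le hK hx)
  have h3 := h (card d ::ₘ K.map (· + 1)) (cons_le_cons _ (map_le_map hK)) (by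
    intro y hy
    rw [card_cons, card_map]
    rcases mem_cons.1 hy with rfl | hy
    · omega
    · obtain ⟨z, hz, rfl⟩ := mem_map.1 hy
      have := hb z hz
      show card K + 1 ≤ z + 1
      omega)
  rw [card_cons, card_map, Cs_cons, Cs_map_Suf, sum_cons, sum_map_Suf] at h3
  omega

theorem Cs_lb_Suf {d : Multiset ℕ} (hd : ∀ x ∈ d, 0 < x) {j y : ℕ} (hy : j + 1 ≤ y) :
    card d + j * cn d y ≤ Cs d (j + 1) := by
  induction d using Multiset.induction_on with
  | empty => simp [cn]
  | cons a d ih =>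
    have h1 := ih fun x hx => hd x (mem_cons_of_mem hx)
    have h2 := hd a (mem_cons_self _ _)
    simp only [Cs_cons, cn, filter_cons, card_cons] at h1 ⊢
    split_ifs with h
    · rw [card_add, card_singleton, mul_add, mul_one]
      omega
    · rw [zero_add]
      omega

theorem cn_ge_Suf {B R : Multiset ℕ} (h : B ≤ R) {y : ℕ} (hy : ∀ x ∈ B, y ≤ x) :
    card B ≤ cn R y := by
  have h1 : B.filter (y ≤ ·) = B := filter_eq_self.2 hy
  rw [cn, ← h1]
  exact card_le_card (filter_le_filter _ h)

theorem EG_move_Suf {a c : ℕ} {R : Multiset ℕ} (hca : c + 1 ≤ a) (hR : ∀ x ∈ R, x ≤ c + 1)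
    (hp : ∀ x ∈ R, 0 < x) (ha : a ≤ card R) (he : Even (a + (c + 1) + R.sum))
    (h : EG (a ::ₘ (c + 1) ::ₘ R)) : EG ((a + 1) ::ₘ c ::ₘ R) := by
  intro K hK hb
  rcases Nat.eq_zero_or_pos (card K) with h0 | h0
  · rw [card_eq_zero.1 h0]; simp
  have hT : ∀ x ∈ ({a + 1} : Multiset ℕ), ∀ y ∈ c ::ₘ R, y ≤ x := by
    intro x hx y hy
    rw [mem_singleton.1 hx]
    rcases mem_cons.1 hy with rfl | hy
    · omega
    · have := hR y hy
      omega
  obtain ⟨B, hB1, hB2, hB3, hB4⟩ := exch hT (K := K) (by rwa [singleton_add])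
    (by rw [card_singleton]; exact h0)
  rw [card_singleton] at hB3
  rw [sum_singleton] at hB4
  have hBk : ∀ x ∈ B, card B + 1 ≤ x := fun x hx => hB3 ▸ hb x (mem_of_le hB2 hx)
  rw [← hB3, Cs_cons, Cs_cons]
  generalize K.sum = s at hB4
  rcases Nat.eq_zero_or_pos (card B) with hj | hj
  · have hB : B = 0 := card_eq_zero.1 hj
    subst hB
    have h1 := Cs_lb_Suf hp (j := 0) (y := 1) le_rfl
    simp only [card_zero, sum_zero, zero_add, add_zero, zero_mul] at h1 hB4 ⊢
    rcases Nat.eq_zero_or_pos c with hc | hc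
    · subst hc
      have h2 : R.sum ≤ card R * 1 := sum_le_of_le (by simpa using hR)
      have h3 : Cs R 1 = R.sum := Cs_of_le (by simpa using hR)
      obtain ⟨t, ht⟩ := he
      omega
    · omega
  obtain ⟨x, hx⟩ := card_pos_iff_exists_mem.1 hj
  have hxk := hBk x hx
  have hxc : x ≤ c + 1 := by
    rcases mem_cons.1 (mem_of_le hB1 hx) with rfl | hy
    · omega
    · exact hR x hy
  have key : ∀ (z : ℕ) (B' : Multiset ℕ), B = z ::ₘ B' → B' ≤ R → z ≤ c →
      s + (card B + 1) ≤ min (card B + 1) (a + 1) + (min (card B + 1) c + Cs R (card B + 1)) := by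
    intro z B' e hB' hz
    have hz1 := hBk z (e ▸ mem_cons_self _ _)
    have e1 : card B = card B' + 1 := by rw [e, card_cons]
    have e2 : B.sum = z + B'.sum := by rw [e, sum_cons]
    have h1 := h (a ::ₘ (c + 1) ::ₘ B') (cons_le_cons _ (cons_le_cons _ hB')) (by
      intro y hy
      rw [card_cons, card_cons]
      rcases mem_cons.1 hy with rfl | hy
      · omega
      rcases mem_cons.1 hy with rfl | hy
      · omega
      · have := hBk y (e ▸ mem_cons_of_mem hy)
        omega)
    rw [card_cons, card_cons, Cs_cons, Cs_cons, sum_cons, sum_cons, ← e1] at h1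
    omega
  by_cases hc : c ∈ B
  · obtain ⟨B', e⟩ := exists_cons_of_mem hc
    exact key c B' e ((cons_le_cons_iff c).1 (e ▸ hB1)) le_rfl
  have hBR : B ≤ R := (le_cons_of_notMem hc).1 hB1
  by_cases hlt : ∃ z ∈ B, z ≤ c
  · obtain ⟨z, hz, hzc⟩ := hlt
    obtain ⟨B', e⟩ := exists_cons_of_mem hz
    exact key z B' e ((le_cons_self _ _).trans (e ▸ hBR)) hzc
  have hall : ∀ z ∈ B, c + 1 ≤ z := by
    intro z hz
    by_contra hn
    exact hlt ⟨z, hz, by omega⟩
  have hs : B.sum ≤ card B * (c + 1) := sum_le_of_le fun z hz => hR z (mem_of_le hBR hz)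
  have hs' : card B * (c + 1) ≤ B.sum := by
    simpa using Multiset.card_nsmul_le_sum hall
  rw [mul_add, mul_one] at hs hs'
  rcases Nat.lt_or_ge (card B) c with hk | hk
  · rcases Nat.lt_or_ge (cn R (card B + 2)) c with h1 | h1
    · have h2 := h (a ::ₘ (c + 1) ::ₘ B) (cons_le_cons _ (cons_le_cons _ hBR)) (by
        intro y hy
        rw [card_cons, card_cons]
        rcases mem_cons.1 hy with rfl | hy
        · omega
        rcases mem_cons.1 hy with rfl | hy
        · omega
        · have := hall y hy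
          omega)
      rw [card_cons, card_cons, Cs_cons, Cs_cons, sum_cons, sum_cons, Cs_succ] at h2
      have e : card B + 1 + 1 = card B + 2 := rfl
      rw [e] at h2
      omega
    · have h2 := Cs_lb_Suf hp (j := card B) (y := card B + 2) (by omega)
      have h3 := Nat.mul_le_mul_left (card B) h1
      omega
  · have hc' : c = card B := by omega
    have h1 := cn_ge_Suf hBR hBk
    have h2 := Cs_lb_Suf hp (j := card B) (y := card B + 1) le_rfl
    have h3 := Nat.mul_le_mul_left (card B) h1
    have h4 : Cs R (card B + 1) = R.sum := Cs_of_le (by rw [← hc']; exact hR)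
    obtain ⟨t, ht⟩ := he
    obtain ⟨u, hu⟩ := Nat.even_mul_succ_self (card B)
    rw [mul_add, mul_one] at hu
    rw [hc'] at hs hs' ht ⊢
    omega

theorem s_suf (ho : S_ops) : S_suf := by
  have main : ∀ n m : ℕ, ∀ d : Multiset ℕ, card d = n → n - d.sup = m → Even d.sum → EG d →
      Gr d := by
    intro n
    induction n using Nat.strong_induction_on with
    | _ n ihn =>
    intro m
    induction m using Nat.strong_induction_on with
    | _ m ihm =>
    intro d hn hm he h
    by_cases hd : d = 0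
    · rw [hd]; exact ho.2.2.2
    by_cases h0 : 0 ∈ d
    · obtain ⟨d0, rfl⟩ := exists_cons_of_mem h0
      rw [card_cons] at hn
      exact ho.2.1 d0 (ihn (card d0) (by omega) _ d0 rfl rfl (by simpa using he) (EG_zero_Suf h))
    have hp : ∀ x ∈ d, 0 < x := fun x hx => Nat.pos_of_ne_zero fun e => h0 (e ▸ hx)
    obtain ⟨R, e, hR⟩ := exists_top hd
    generalize d.sup = a at e hR hm
    subst e
    have h1 := h.lt_card (mem_cons_self a R)
    rw [card_cons] at h1 hn
    have hpR : ∀ x ∈ R, 0 < x := fun x hx => hp x (mem_cons_of_mem hx)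
    rcases Nat.lt_or_ge a (card R) with hlt | hge
    · obtain ⟨R', e', hR'⟩ := exists_top (d := R) (by rintro rfl; simp at hlt)
      generalize R.sup = b at e' hR'
      subst e'
      have hb := hpR b (mem_cons_self _ _)
      obtain ⟨c, rfl⟩ : ∃ c, b = c + 1 := ⟨b - 1, by omega⟩
      have hca := hR _ (mem_cons_self _ _)
      rw [card_cons] at hlt hn
      rw [sum_cons, sum_cons, ← add_assoc] at he
      have h2 := EG_move_Suf hca hR' (fun x hx => hpR x (mem_cons_of_mem hx)) (by omega) he h
      have h3 : ((a + 1) ::ₘ c ::ₘ R').sup = a + 1 := by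
        refine sup_cons_of fun y hy => ?_
        rcases mem_cons.1 hy with rfl | hy
        · omega
        · have := hR' y hy
          omega
      refine ho.1 a c R' hca (ihm (n - (a + 1)) (by omega) _ (by simp; omega) (by rw [h3]) ?_ h2)
      rw [sum_cons, sum_cons]
      have e : a + 1 + (c + R'.sum) = a + (c + 1) + R'.sum := by omega
      rwa [e]
    · have ha : a = card R := by omega
      have e : (R.map (· - 1)).map (· + 1) = R := by
        rw [map_map]
        refine (Multiset.map_congr rfl fun x hx => ?_).trans (map_id' R)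
        have := hpR x hx
        show x - 1 + 1 = x
        omega
      have hc : card (R.map (· - 1)) = card R := card_map _ _
      have hx : ∀ x ∈ R.map (· - 1), x + 1 ≤ card (R.map (· - 1)) := by
        intro x hx
        obtain ⟨y, hy, rfl⟩ := mem_map.1 hx
        have := hpR y hy
        have := hR y hy
        show y - 1 + 1 ≤ _
        omega
      have hs := sum_map_Suf (R.map (· - 1))
      rw [e] at hs
      generalize R.map (· - 1) = d0 at e hc hx hs
      have e2 : a ::ₘ R = card d0 ::ₘ d0.map (· + 1) := by rw [e, hc, ha]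
      rw [sum_cons] at he
      rw [e2] at h ⊢
      refine ho.2.2.1 d0 (ihn (card d0) (by omega) _ d0 rfl rfl ?_ (EG_dom_Suf hx h))
      obtain ⟨t, ht⟩ := he
      exact ⟨t - a, by omega⟩
  intro d he h
  exact main _ _ d rfl rfl he h

end Pool.Agent.MP_dbdb85_co

end

section

/-! Two graphs glued at a vertex. -/

namespace Pool.Agent.MP_dbdb85_co

open Multiset

lemma pick_Gluing {V : Type} [Fintype V] [DecidableEq V] {f : V → ℕ} {a : ℕ} {R : Multiset ℕ}
    (h : Finset.univ.val.map f = a ::ₘ R) :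
    ∃ x, f x = a ∧ (Finset.univ.erase x).val.map f = R := by
  obtain ⟨x, -, h1, h2⟩ := (Multiset.map_eq_cons f _ R a).2 h
  exact ⟨x, h1, by rw [Finset.erase_val]; exact h2⟩

/-- the glued graph -/
def glueG {V W : Type} (G : SimpleGraph V) (H : SimpleGraph W) (x : V) (y : W) :
    SimpleGraph ({v // v ≠ x} ⊕ W) where
  Adj
    | .inl a, .inl b => G.Adj a b
    | .inr a, .inr b => H.Adj a b
    | .inl a, .inr b => b = y ∧ G.Adj a x
    | .inr b, .inl a => b = y ∧ G.Adj a x
  symm := ⟨by rintro (a | a) (b | b) h <;> first | exact h.symm | exact h⟩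
  loopless := ⟨by rintro (a | a) h <;> exact h.ne rfl⟩

lemma deg_inl_Gluing {V W : Type} (G : SimpleGraph V) (H : SimpleGraph W) (x : V) (y : W)
    (a : {v // v ≠ x}) :
    ((glueG G H x y).neighborSet (.inl a)).ncard = (G.neighborSet a).ncard := by
  refine Set.ncard_congr (fun u _ => Sum.elim Subtype.val (fun _ => x) u) ?_ ?_ ?_
  · rintro (b | b) h
    · exact h
    · exact h.2
  · rintro (b | b) (c | c) hb hc h
    · exact congrArg _ (Subtype.ext h)
    · exact absurd h b.2
    · exact absurd h.symm c.2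
    · rw [hb.1, hc.1]
  · intro v hv
    by_cases h : v = x
    · exact ⟨.inr y, ⟨rfl, h ▸ hv⟩, h.symm⟩
    · exact ⟨.inl ⟨v, h⟩, hv, rfl⟩

lemma deg_inr_Gluing {V W : Type} [Finite V] [Finite W] [DecidableEq W] (G : SimpleGraph V)
    (H : SimpleGraph W) (x : V) (y b : W) :
    ((glueG G H x y).neighborSet (.inr b)).ncard =
      (if b = y then (G.neighborSet x).ncard else 0) + (H.neighborSet b).ncard := by
  have e : (glueG G H x y).neighborSet (.inr b) =
      Sum.inl '' {a : {v // v ≠ x} | b = y ∧ G.Adj a x} ∪ Sum.inr '' H.neighborSet b := by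
    ext (c | c) <;> simp [glueG]
  rw [e, Set.ncard_union_eq (by simp [Set.disjoint_left]),
    Set.ncard_image_of_injective _ Sum.inl_injective,
    Set.ncard_image_of_injective _ Sum.inr_injective]
  congr 1
  split_ifs with h
  · refine Set.ncard_congr (fun u _ => u.1) (fun _ h => h.2.symm)
      (fun _ _ _ _ h => Subtype.ext h) ?_
    intro v hv
    exact ⟨⟨v, hv.ne'⟩, ⟨h, hv.symm⟩, rfl⟩
  · simp [h]

theorem s_gluing : S_glue := by
  classical
  rintro a₁ a₂ R₁ R₂ ⟨V, _, G, hG⟩ ⟨W, _, H, hH⟩ h1 h2 ⟨-, hfb⟩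
  obtain ⟨x, hx, hx'⟩ := pick_Gluing hG
  obtain ⟨y, hy, hy'⟩ := pick_Gluing hH
  have e1 : (Finset.univ : Finset {v // v ≠ x}).val.map (fun a => (G.neighborSet a.1).ncard) =
      R₁ := by
    have : (Finset.univ : Finset {v // v ≠ x}).map (Function.Embedding.subtype _) =
        Finset.univ.erase x := by
      ext v; simp
    rw [← hx', ← this, Finset.map_val, Multiset.map_map]
    rfl
  have hd : degs (glueG G H x y) = (a₁ + a₂) ::ₘ (R₁ + R₂) := by
    rw [degs, ← Finset.univ_disjSum_univ, Finset.val_disjSum, Multiset.disjSum, Multiset.map_add,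
      Multiset.map_map, Multiset.map_map]
    simp only [Function.comp_def, deg_inl_Gluing, deg_inr_Gluing]
    rw [e1, ← Finset.insert_erase (Finset.mem_univ y),
      Finset.insert_val_of_notMem (Finset.notMem_erase _ _), map_cons, if_pos rfl, hx, hy,
      add_cons, ← hy']
    congr 2
    refine Multiset.map_congr rfl fun b hb => ?_
    rw [if_neg (Finset.mem_erase.1 hb).1, zero_add]
  obtain ⟨a, -⟩ : ∃ a : {v // v ≠ x}, True := by
    obtain ⟨r, hr⟩ := exists_mem_of_ne_zero h1
    obtain ⟨v, hv, -⟩ := mem_map.1 (hx' ▸ hr)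
    exact ⟨⟨v, (Finset.mem_erase.1 hv).1⟩, trivial⟩
  obtain ⟨b, hb⟩ : ∃ b : W, b ≠ y := by
    obtain ⟨r, hr⟩ := exists_mem_of_ne_zero h2
    obtain ⟨v, hv, -⟩ := mem_map.1 (hy' ▸ hr)
    exact ⟨v, (Finset.mem_erase.1 hv).1⟩
  have key : ∀ p q : ({Sum.inr y}ᶜ : Set ({v // v ≠ x} ⊕ W)),
      ((glueG G H x y).induce _).Walk p q → p.1.isLeft = q.1.isLeft := by
    intro p q w
    induction w with
    | nil => rfl
    | @cons p r q h _ ih =>
      rw [← ih]
      obtain ⟨p | p, hp⟩ := p <;> obtain ⟨r | r, hr⟩ := r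
      · rfl
      · exact absurd (congrArg Sum.inr h.1) hr
      · exact absurd (congrArg Sum.inr h.1) hp
      · rfl
  obtain ⟨w⟩ := ((hfb _ _ hd).2.2 (.inr y)).preconnected ⟨.inl a, by simp⟩ ⟨.inr b, by simpa⟩
  simpa using key _ _ w

end Pool.Agent.MP_dbdb85_co

end

section

namespace Pool.Agent.MP_dbdb85_co

open Multiset

theorem top_Ffive (hn : S_nec) {d : Multiset ℕ} {D : ℕ} (hg : Gr d) (hc : card d + 1 = D) :
    ∀ y ∈ d.map (· + 2), y ≤ D := by
  intro y hy
  obtain ⟨x, hx, rfl⟩ := mem_map.1 hy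
  have := (hn d hg).2.lt_card hx
  omega

theorem join_Ffive (hn : S_nec) (hj : S_join) {d : Multiset ℕ} {n D : ℕ} (hg : Gr d)
    (hc : card d + 1 = D) (hD : 2 ≤ D) (hs : d.sum + 4 * D = n + 2) :
    D ::ₘ D ::ₘ d.map (· + 2) ∈ Lf n D := by
  have h0 : d ≠ 0 := by
    rintro rfl
    simp at hc
    omega
  have h1 := hj d hg h0
  rw [hc] at h1
  refine mem_Lf.2 ⟨?_, ?_, ?_, h1⟩
  · intro x hx
    rcases mem_cons.1 hx with rfl | hx
    · omega
    rcases mem_cons.1 hx with rfl | hx
    · omega
    obtain ⟨y, -, rfl⟩ := mem_map.1 hx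
    omega
  · have : (d.map (· + 2)).sum = d.sum + card d * 2 := by
      rw [sum_map_add]
      simp
    rw [sum_cons, sum_cons, this]
    omega
  · refine sup_cons_of ?_
    intro y hy
    rcases mem_cons.1 hy with rfl | hy
    · exact le_rfl
    · exact top_Ffive hn hg hc y hy

theorem pad_Ffive (ho : S_ops) {d : Multiset ℕ} (hg : Gr d) (k : ℕ) : Gr (d + replicate k 0) := by
  induction k with
  | zero => simpa using hg
  | succ k ih =>
    rw [replicate_succ, add_cons]
    exact ho.2.1 _ ih

theorem unpad_Ffive {d : Multiset ℕ} (h : ∀ x ∈ d, 0 < x) (k : ℕ) :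
    (d + replicate k 0).filter (0 < ·) = d := by
  rw [filter_add, filter_eq_self.2 h, filter_eq_nil.2, add_zero]
  intro a ha
  rw [eq_of_mem_replicate ha]
  exact lt_irrefl _

theorem s_F5 (hn : S_nec) (ho : S_ops) (hj : S_join) : S_F5 := by
  classical
  intro n D q h4 hD hq
  unfold Lc
  refine Finset.card_le_card_of_injOn
    (fun v => D ::ₘ D ::ₘ (v + replicate (D - 1 - card v) 0).map (· + 2)) ?_ ?_
  · intro v hv
    obtain ⟨h1, h2, h3, h5⟩ := Finset.mem_filter.1 (Finset.mem_coe.1 hv)
    obtain ⟨-, h6⟩ := mem_Par.1 h1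
    have hg := pad_Ffive ho h2 (D - 1 - card v)
    have hc : card (v + replicate (D - 1 - card v) 0) + 1 = D := by
      rw [card_add, card_replicate]; omega
    refine Finset.mem_coe.2 (Finset.mem_filter.2 ⟨join_Ffive hn hj hg hc (by omega) ?_, ?_, ?_⟩)
    · rw [sum_add, sum_replicate, h6]
      simp only [smul_zero]
      omega
    · rw [sec_cons (top_Ffive hn hg hc), card_cons, card_cons, card_map]
      omega
    · have e : count 3 ((v + replicate (D - 1 - card v) 0).map (· + 2)) =
          count 1 (v + replicate (D - 1 - card v) 0) :=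
        count_map_eq_count' (· + 2) _ (add_left_injective 2) 1
      rw [count_cons_of_ne (by omega), count_cons_of_ne (by omega), e, count_add, count_replicate]
      simpa using h5
  · intro v hv v' hv' h
    have h1 := (mem_Par.1 (Finset.mem_filter.1 (Finset.mem_coe.1 hv)).1).1
    have h2 := (mem_Par.1 (Finset.mem_filter.1 (Finset.mem_coe.1 hv')).1).1
    have h3 := map_injective (add_left_injective 2)
      ((cons_inj_right D).1 ((cons_inj_right D).1 h))
    rw [← unpad_Ffive h1 (D - 1 - card v), h3, unpad_Ffive h2]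

theorem s_path (hs : S_suf) : S_path := by
  classical
  intro M q hM hq
  rcases Nat.eq_zero_or_pos M with rfl | h0
  · refine ⟨0, Finset.mem_filter.2 ⟨mem_Par.2 (by simp), hs 0 (by simp) ?_, by simp⟩⟩
    intro K hK _
    rw [le_zero.1 hK]
    simp
  obtain ⟨t, rfl⟩ : ∃ t, M = 2 * (t + 1) := by
    obtain ⟨r, hr⟩ := hM
    exact ⟨r - 1, by omega⟩
  have hsum : (replicate 2 1 + replicate t 2 : Multiset ℕ).sum = 2 * (t + 1) := by
    rw [sum_add, sum_replicate, sum_replicate]
    simp only [smul_eq_mul]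
    omega
  have hmem : ∀ x ∈ (replicate 2 1 + replicate t 2 : Multiset ℕ), x = 1 ∨ x = 2 := by
    intro x hx
    exact (mem_add.1 hx).imp eq_of_mem_replicate eq_of_mem_replicate
  have hcnt : count 2 (replicate 2 1 + replicate t 2 : Multiset ℕ) = t := by
    rw [count_add, count_replicate, count_replicate]
    simp
  refine ⟨replicate 2 1 + replicate t 2, Finset.mem_filter.2 ⟨mem_Par.2 ⟨?_, hsum⟩,
    hs _ (hsum ▸ hM) ?_, ?_, ?_⟩⟩
  · intro x hx
    have := hmem x hx
    omega
  · intro K hK hb
    have h2 := count_le_of_le 2 hK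
    rw [hcnt] at h2
    rw [Cs_add, Cs_replicate, Cs_replicate]
    rcases Nat.lt_or_ge (card K) 1 with h | h
    · have : K = 0 := card_eq_zero.1 (by omega)
      subst this
      simp
    rcases Nat.lt_or_ge (card K) 2 with h' | h'
    · obtain ⟨x, rfl⟩ := card_eq_one.1 (show card K = 1 by omega)
      rcases hmem x (mem_of_le hK (mem_singleton_self x)) with rfl | rfl
      · simp
      · simp at h2 ⊢
        omega
    · have hx : ∀ x ∈ K, x = 2 := by
        intro x hx
        have := hmem x (mem_of_le hK hx)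
        have := hb x hx
        omega
      obtain ⟨x, hx'⟩ := card_pos_iff_exists_mem.1 (show 0 < card K by omega)
      have hc : card K = 2 := by
        have := hb x hx'
        have := hx x hx'
        omega
      have hK2 : K = replicate 2 2 := eq_replicate.2 ⟨hc, hx⟩
      subst hK2
      simp at h2 ⊢
      omega
  · rw [card_add, card_replicate, card_replicate]
    omega
  · rw [count_add, count_replicate, count_replicate]
    simp

theorem near_Ffive {p q t : ℕ} (h : t ≤ p) :
    card (replicate t (q + 1) + replicate (p - t) q) = p ∧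
      (replicate t (q + 1) + replicate (p - t) q).sum = p * q + t := by
  obtain ⟨s, rfl⟩ := Nat.exists_eq_add_of_le h
  rw [card_add, card_replicate, card_replicate, sum_add, sum_replicate, sum_replicate,
    Nat.add_sub_cancel_left]
  simp only [smul_eq_mul]
  exact ⟨trivial, by ring⟩

theorem s_fill (hn : S_nec) (hj : S_join) (hr : S_near) (hd : S_dense) : S_fill := by
  intro n D he h3 h4 h2
  obtain ⟨p, rfl⟩ : ∃ p, D = p + 1 := ⟨D - 1, by omega⟩
  rcases le_or_gt n ((p + 1) ^ 2) with h | h
  · obtain ⟨M, hM⟩ : ∃ M, M + 4 * (p + 1) = n + 2 := ⟨n + 2 - 4 * (p + 1), by omega⟩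
    have hp : 0 < p := by omega
    have ht : M % p ≤ p := (Nat.mod_lt _ hp).le
    have e : p * (M / p) + M % p = M := Nat.div_add_mod M p
    have hq : M / p + 2 ≤ p := by
      by_contra hc
      have h5 : p ≤ M / p + 1 := by omega
      have h6 := Nat.mul_le_mul_left p h5
      have h7 : p * (M / p) ≤ M := Nat.mul_div_le M p
      generalize M / p = z at h6 h7
      nlinarith
    have hev : Even (p * (M / p) + M % p) := by
      rw [e]
      obtain ⟨r, hr⟩ := he
      exact ⟨r + 1 - 2 * (p + 1), by omega⟩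
    obtain ⟨c1, c2⟩ := near_Ffive (q := M / p) ht
    exact ⟨_, join_Ffive hn hj (hr p _ _ ht hq hev) (by rw [c1]) (by omega) (by rw [c2, e, hM])⟩
  · obtain ⟨u, hu⟩ : ∃ u, u = (n + p) / (p + 1) := ⟨_, rfl⟩
    have e : (p + 1) * u + (n + p) % (p + 1) = n + p := hu ▸ Nat.div_add_mod _ _
    have hm : (n + p) % (p + 1) < p + 1 := Nat.mod_lt _ (by omega)
    have a1 : n ≤ (p + 1) * u := by omega
    have a2 : (p + 1) * u ≤ n + p := by omega
    have a3 : p + 2 ≤ u := by
      by_contra hc
      have : u ≤ p + 1 := by omega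
      nlinarith [Nat.mul_le_mul_left (p + 1) this]
    have a4 : u ≤ 2 * (p + 1) := by
      by_contra hc
      have : 2 * (p + 1) + 1 ≤ u := by omega
      nlinarith [Nat.mul_le_mul_left (p + 1) this]
    obtain ⟨t, ht⟩ : ∃ t, u * p + t = n := ⟨n - u * p, by
      have : u * p ≤ n := by nlinarith
      omega⟩
    have t1 : 0 < t := by nlinarith
    have t2 : t ≤ u := by nlinarith
    obtain ⟨c1, c2⟩ := near_Ffive (q := p) t2
    have hmem : ∀ x ∈ replicate t (p + 1) + replicate (u - t) p, p + 1 ≤ x + 1 ∧ x ≤ p + 1 := by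
      intro x hx
      rcases mem_add.1 hx with hx | hx <;> rw [eq_of_mem_replicate hx] <;> omega
    refine ⟨replicate t (p + 1) + replicate (u - t) p, mem_Lf.2 ⟨?_, by rw [c2, ht], ?_,
      hd (p + 1) _ (hr u p t t2 a3 (ht ▸ he)) h3 hmem (by rw [c1]; exact a4) ?_⟩⟩
    · intro x hx
      have := hmem x hx
      omega
    · refine le_antisymm (Multiset.sup_le.2 fun x hx => (hmem x hx).2) (le_sup ?_)
      exact mem_add.2 (Or.inl (mem_replicate.2 ⟨by omega, rfl⟩))
    · rw [c1, c2, ht]
      obtain ⟨v, rfl⟩ : ∃ v, u = v + 1 := ⟨u - 1, by omega⟩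
      rw [Nat.add_sub_cancel]
      nlinarith

end Pool.Agent.MP_dbdb85_co

end
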