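import Pool.Agent.Mg.Fdbdb85.Gefe8eb

namespace Pool.Agent.MP_dbdb85_co.L

open Multiset

theorem ypow_KA {y s : ℕ} (h2 : s < (y + 1) ^ 20) (h3 : (y + 1) ^ 40 ≤ 2 ^ y) (h4 : 2048 ≤ y) :
    2048 * y * (s + 1) ≤ 2 ^ y := by
  have a1 : 2048 * y ≤ (y + 1) ^ 2 := by nlinarith
  have a2 : (y + 1) ^ 2 ≤ (y + 1) ^ 20 := Nat.pow_le_pow_right y.succ_pos (by norm_num)
  refine le_trans (Nat.mul_le_mul (a1.trans a2) h2) (le_trans (le_of_eq ?_) h3)
  rw [← pow_add]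

theorem KA_pf (hF : HF_st) (hC : AC_st) (hT : TL_st) : KA_st := by
  classical
  intro n Δ s y lam N2 N6 C3 Θ H X hX
  obtain ⟨-, -, -, -, -, -, -, -, f9, -, -, -, f13, f14, -⟩ := hF _ _ _ _ _ _ _ _ _ H
  have y0 : 2048 ≤ y := le_trans (by norm_num) H.y4
  have y1 : 2 * y ≤ y ^ 19 :=
    le_trans (by nlinarith) (Nat.pow_le_pow_right (n := y) (by omega) (show 2 ≤ 19 by norm_num))
  have n2 := H.n2
  have z1 : N2 * (s / N2) ≤ s := Nat.mul_div_le _ _
  have z2 : s < N2 * (s / N2 + 1) := Nat.lt_mul_div_succ _ (by omega)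
  have d1 : N6 * (s / N6) ≤ s := Nat.mul_div_le _ _
  have d2 : s / N6 ≤ s := Nat.div_le_self _ _
  have lo := H.lo
  generalize s / N2 = z at *
  generalize s / N6 = D0 at *
  have t1 : 2 ^ z ≤ (Tf n (Δ + 1)).card :=
    hT n (Δ + 1) s z H.ev H.s1 H.s2 (by omega) ((Nat.mul_le_mul_right z n2).trans z1) lo
      (by nlinarith)
  obtain ⟨r, r1, r2⟩ : ∃ r, 4 * r ≤ z ∧ z < 4 * r + 4 := ⟨z / 4, by omega, by omega⟩
  have r3 : s + 1 ≤ 8 * N2 * r := by
    have : z + 1 ≤ 8 * r := by omega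
    nlinarith
  have r4 : 2 ^ 19 * (N2 ^ 2 * D0) ≤ r := by
    refine Nat.le_of_mul_le_mul_left (c := 8 * N2) ?_ (by omega)
    rw [H.n6] at d1
    exact le_trans (le_of_eq (by ring)) (d1.trans (Nat.le_of_succ_le r3))
  have c1 := hC D0 n (256 * N2 ^ 2 * r) r (X.filter fun x => x.1 < D0)
    (Nat.mul_pos (by positivity) (by omega))
    (by
      have := H.s2.le.trans (Nat.pow_le_pow_left r3 2)
      nlinarith)
    (by
      have := Nat.mul_le_mul_right r r4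
      nlinarith)
    fun x hx => by
      obtain ⟨h1, h2⟩ := Finset.mem_filter.1 hx
      obtain ⟨h3, h4, -⟩ := hX x h1
      simp only [sz, ms] at h4
      exact ⟨h3, h2.le, by omega, by omega⟩
  have c2 := hC s (s * D0) (32 * N2 * D0) r (X.filter fun x => ¬ x.1 < D0)
    (Nat.mul_pos (by positivity) (by omega))
    (by
      have := Nat.mul_le_mul_right D0 (Nat.le_of_succ_le r3)
      nlinarith)
    (by
      have a1 := Nat.mul_le_mul_right r r4
      have a2 := Nat.mul_le_mul_right (N2 * D0) (Nat.le_of_succ_le r3)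
      nlinarith)
    fun x hx => by
      obtain ⟨h1, h2⟩ := Finset.mem_filter.1 hx
      obtain ⟨h3, h4, h5⟩ := hX x h1
      have h6 := h5.resolve_left h2
      have h7 := H.s2
      simp only [sz, ms] at h4 h6
      have h8 : x.1 ^ 2 < (s + 1) ^ 2 := by omega
      exact ⟨h3, Nat.le_of_lt_succ (lt_of_pow_lt_pow_left₀ 2 (Nat.zero_le _) h8),
        by omega, by omega⟩
  have c3 := Finset.card_filter_add_card_filter_not (s := X) fun x => x.1 < D0
  have c4 : X.card ≤ 2 * ((s + 1) * 4 ^ r) := by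
    have := Nat.mul_le_mul_right (4 ^ r) (Nat.succ_le_succ d2)
    simp only [Nat.succ_eq_add_one] at this
    omega
  calc 1024 * y * X.card ≤ 1024 * y * (2 * ((s + 1) * 4 ^ r)) := Nat.mul_le_mul_left _ c4
    _ = 2048 * y * (s + 1) * 2 ^ (2 * r) := by rw [pow_mul]; ring
    _ ≤ 2 ^ y * 2 ^ (2 * r) := Nat.mul_le_mul_right _ (ypow_KA H.y2 H.y3 y0)
    _ ≤ 2 ^ z := by rw [← pow_add]; exact Nat.pow_le_pow_right two_pos (by omega)
    _ ≤ _ := t1

theorem KBad_pf (hF : HF_st) (hG : KG_st) (hI : INS_st) (hU : GU_st) : KBad_st := by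
  intro n Δ s y lam N2 N6 C3 Θ H lo len h1 h2 h3 X hX
  obtain ⟨f1, -, f3, f4, f5, f6, -⟩ := hF _ _ _ _ _ _ _ _ _ H
  have y0 : 2048 ≤ y := le_trans (by norm_num) H.y4
  have n2 := H.n2
  have d1 : N6 * (s / N6) ≤ s := Nat.mul_div_le _ _
  have u1 : Θ * (len / Θ) ≤ len := Nat.mul_div_le _ _
  generalize len / Θ = u at *
  have u2 : 6 * y ≤ u := le_trans (by nlinarith) h3
  obtain ⟨Y, hY, c1⟩ := hI n s (Δ + 1) u 4 _ _ lo len Θ X h1 h2 (Nat.div_le_self _ _) u1 hX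
  have c2 := hU n s (Δ + 1) (2 * u) 4 _ _ _ Y (hG _ _ _ _ _ _ _ _ _ H (2 * u) 4 _ (by omega)
    (by
      have a1 := Nat.mul_le_mul_right u f6
      have a2 := Nat.mul_le_mul_right (s / N6) (show 4 ≤ N6 by omega)
      nlinarith)
    (by omega) (by nlinarith)) hY
  have c3 : 2 ^ (16 * C3 * (2 * u)) * 4 ^ u * 2 ^ u ≤ Θ ^ u := by
    refine le_trans (le_of_eq ?_) (Nat.pow_le_pow_left H.th u)
    rw [show 4 = 2 ^ 2 from rfl, ← pow_mul, ← pow_mul, ← pow_add, ← pow_add]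
    congr 1
    ring
  have c4 : 2 ^ u * X.card ≤ (n + 1) ^ 5 * (Tf n (Δ + 1)).card := by
    refine Nat.le_of_mul_le_mul_left (c := 2 ^ (16 * C3 * (2 * u)) * 4 ^ u) ?_ (by positivity)
    rw [← mul_assoc]
    refine (Nat.mul_le_mul_right _ c3).trans (c1.trans ((Nat.mul_le_mul_left _ c2).trans
      (le_of_eq (by ring))))
  have c5 : 1024 * y ≤ 2 ^ y := le_trans (by nlinarith) (ypow_KA H.y2 H.y3 y0)
  refine Nat.le_of_mul_le_mul_left (c := (2 ^ y) ^ 5) ?_ (by positivity)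
  refine le_trans ?_ (c4.trans (Nat.mul_le_mul_right _ (Nat.pow_le_pow_left f1 5)))
  rw [← mul_assoc]
  refine Nat.mul_le_mul_right _ ((Nat.mul_le_mul_left _ c5).trans ?_)
  rw [← pow_succ, ← pow_mul]
  exact Nat.pow_le_pow_right two_pos (by omega)

end Pool.Agent.MP_dbdb85_co.L
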