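import Pool.Agent.MP_dbdb85_co.Defs

section

namespace Pool.Agent.MP_dbdb85_co
open Multiset

theorem deg_Cut {V : Type} (G : SimpleGraph V) (v : V) [Fintype (G.neighborSet v)] :
    (G.neighborSet v).ncard = G.degree v := by
  rw [← SimpleGraph.card_neighborSet_eq_degree, Set.fintypeCard_eq_ncard]

theorem reach_Cut {V : Type} [Fintype V] (G : SimpleGraph V)
    (hc : ∀ (z : V) (A : Finset V), z ∉ A → A.Nonempty →
      (∀ a ∈ A, ∀ x, G.Adj a x → x ∈ A ∨ x = z) → ∀ b, b ≠ z → b ∈ A)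
    (z : V) (a b : ({z}ᶜ : Set V)) : (G.induce {z}ᶜ).Reachable a b := by
  classical
  have h := hc z (Finset.univ.filter fun b => ∃ h : b ∈ ({z}ᶜ : Set V),
    (G.induce {z}ᶜ).Reachable a ⟨b, h⟩) (by simp) ⟨a, by simp; exact a.2⟩ (by
      intro c hc x hx
      obtain ⟨h1, h2⟩ := (Finset.mem_filter.1 hc).2
      by_cases hz : x = z
      · exact Or.inr hz
      · exact Or.inl (Finset.mem_filter.2 ⟨Finset.mem_univ _, hz,
          h2.trans (SimpleGraph.Adj.reachable hx)⟩)) b b.2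
  exact (Finset.mem_filter.1 h).2.2

theorem s_cut : S_cut := by
  intro V _ _ G hd hc
  classical
  have hn : ∀ z, ∃ t, G.Adj z t := fun z =>
    Set.nonempty_of_ncard_ne_zero (s := G.neighborSet z) (by have := hd z; omega)
  obtain ⟨z⟩ := ‹Nonempty V›
  refine ⟨?_, ?_, fun v => ?_⟩
  · have h1 := hd z
    have h2 := G.degree_lt_card_verts z
    rw [deg_Cut] at h1
    omega
  · obtain ⟨t, ht⟩ := hn z
    refine (SimpleGraph.connected_iff_exists_forall_reachable G).2 ⟨z, fun b => ?_⟩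
    rcases eq_or_ne b z with rfl | hb
    · rfl
    · exact ht.reachable.trans ((reach_Cut G hc z ⟨t, ht.ne'⟩ ⟨b, hb⟩).map
        (SimpleGraph.Embedding.induce {z}ᶜ).toHom)
  · obtain ⟨t, ht⟩ := hn v
    exact (SimpleGraph.connected_iff_exists_forall_reachable _).2
      ⟨⟨t, ht.ne'⟩, reach_Cut G hc v _⟩

/-- a vertex of almost full degree has at most one other non-neighbour -/
theorem non_Cut {V : Type} [Fintype V] (G : SimpleGraph V) {u x y : V}
    (h : Fintype.card V ≤ (G.neighborSet u).ncard + 2) (hx : x ≠ u) (hy : y ≠ u)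
    (hx' : ¬ G.Adj u x) (hy' : ¬ G.Adj u y) : x = y := by
  classical
  by_contra hxy
  have h1 : Disjoint (G.neighborFinset u) {u, x, y} := by
    simp [hx', hy']
  have h2 := Finset.card_le_univ (G.neighborFinset u ∪ {u, x, y})
  rw [Finset.card_union_of_disjoint h1, Finset.card_eq_three.2 ⟨u, x, y, hx.symm, hy.symm, hxy, rfl⟩,
    SimpleGraph.card_neighborFinset_eq_degree, ← deg_Cut] at h2
  omega

/-- a closed set far from a vertex of almost full degree is empty -/
theorem far_Cut {V : Type} [Fintype V] (G : SimpleGraph V) (hd : ∀ v, 2 ≤ (G.neighborSet v).ncard)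
    {u z : V} (h : Fintype.card V ≤ (G.neighborSet u).ncard + 2) (huz : u ≠ z) {C : Finset V}
    (hC : ∀ a ∈ C, ∀ x, G.Adj a x → x ∈ C ∨ x = z) (hu : u ∉ C) {c : V} (hc : c ∈ C) : False := by
  have h1 : ∀ x ∈ C, x ≠ u ∧ ¬ G.Adj u x := fun x hx =>
    ⟨fun e => hu (e ▸ hx), fun e => (hC x hx u e.symm).elim hu huz⟩
  have h2 : G.neighborSet c ⊆ {z} := fun x hx => (hC c hc x hx).resolve_left fun e =>
    hx.ne (non_Cut G h (h1 c hc).1 (h1 x e).1 (h1 c hc).2 (h1 x e).2)
  have h3 := Set.ncard_le_ncard h2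
  have h4 := hd c
  rw [Set.ncard_singleton] at h3
  omega

theorem s_two (hc : S_cut) : S_two := by
  intro a b R hG h2 ha _
  refine ⟨hG, fun V _ G hV => ?_⟩
  classical
  have hcard : Fintype.card V = card R + 2 := by
    simpa [degs] using congrArg card hV
  have hd : ∀ v, 2 ≤ (G.neighborSet v).ncard := fun v =>
    h2 _ (hV ▸ mem_map.2 ⟨v, Finset.mem_univ v, rfl⟩)
  obtain ⟨u, -, hu, hV'⟩ := (map_eq_cons _ _ _ _).2 hV
  obtain ⟨w, hw', hw, -⟩ := (map_eq_cons _ _ _ _).2 hV'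
  have hwu : w ≠ u := (Finset.univ.nodup.mem_erase_iff.1 hw').1
  have : Nonempty V := ⟨u⟩
  refine hc V G hd fun z B hz ⟨c, hcB⟩ hB x hx => ?_
  by_contra hxB
  have hB' : ∀ a ∈ (insert z B)ᶜ, ∀ x, G.Adj a x → x ∈ (insert z B)ᶜ ∨ x = z := by
    intro p hp q hq
    simp only [Finset.mem_compl, Finset.mem_insert, not_or] at hp ⊢
    by_cases e : q = z
    · exact Or.inr e
    · exact Or.inl ⟨e, fun hq' => (hB q hq' p hq.symm).elim hp.2 hp.1⟩
  have key : ∀ t, Fintype.card V ≤ (G.neighborSet t).ncard + 2 → t = z := by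
    intro t ht
    by_contra e
    by_cases h : t ∈ B
    · exact far_Cut G hd ht e hB' (by simp [h]) (c := x) (by simp [hx, hxB])
    · exact far_Cut G hd ht e hB h hcB
  exact hwu ((key w (by omega)).trans (key u (by omega)).symm)

end Pool.Agent.MP_dbdb85_co

end

section

namespace Pool.Agent.MP_dbdb85_co

open Multiset

theorem sum_top_Afour {a c : ℕ} {R K : Multiset ℕ} (hc : c ≤ a) (h : ∀ y ∈ R, y ≤ c)
    (hK : K ≤ a ::ₘ R) (h1 : 1 ≤ card K) :
    ∃ B ≤ R, B ≤ K ∧ card B + 1 = card K ∧ K.sum ≤ a + card B * c := by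
  obtain ⟨B, b1, b2, b3, b4⟩ := exch (T := {a}) (R := R) (K := K)
    (fun x hx y hy => by rw [mem_singleton.1 hx]; exact (h y hy).trans hc)
    (by rwa [singleton_add]) (by rwa [card_singleton])
  have := sum_le_of_le (d := B) (b := c) fun y hy => h y (mem_of_le b1 hy)
  rw [card_singleton] at b3
  rw [sum_singleton] at b4
  exact ⟨B, b1, b2, b3, by omega⟩

theorem count_Afour {d : Multiset ℕ} (h : ∀ x ∈ d, 2 ≤ x) :
    count 2 d + count 3 d + cn d 4 = card d := by
  induction d using Multiset.induction_on with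
  | empty => simp [cn]
  | cons a d ih =>
    have h1 := ih fun x hx => h x (mem_cons_of_mem hx)
    have h2 := h a (mem_cons_self _ _)
    simp only [cn, filter_cons, count_cons, card_add, card_cons] at h1 ⊢
    split_ifs <;> simp <;> omega

theorem pair_Afour (a b : ℕ) (Z R : Multiset ℕ) :
    a ::ₘ b ::ₘ (Z + R) = (a ::ₘ b ::ₘ 0) + Z + R := by
  simp only [cons_add, zero_add]

/-- the relation between a sequence and its image -/
def Rel_Afour (D : ℕ) (d d' : Multiset ℕ) : Prop :=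
  ∃ (s m g b : ℕ) (R : Multiset ℕ), m ≤ 1 ∧ g ≤ 1 ∧ 5 ≤ b ∧ (∀ y ∈ R, y ≤ b) ∧ 2 ∉ R ∧
    d = (D + 1) ::ₘ b ::ₘ (replicate m 2 + replicate (12 * s + 2 * m + g + 3) 3 + R) ∧
    d' = D ::ₘ (b + 2 + g) ::ₘ (replicate (4 * s + 2 * m + g) 2 + replicate (7 * s + m + 2) 4 + R)

theorem le_Afour {u v b c : ℕ} {R : Multiset ℕ} (h : ∀ y ∈ R, y ≤ b) (hb : 4 ≤ c) (hc : b ≤ c) :
    ∀ y ∈ replicate u 2 + replicate v 4 + R, y ≤ c := by
  intro y hy
  rcases mem_add.1 hy with hy | hy
  · rcases mem_add.1 hy with hy | hy <;> have := eq_of_mem_replicate hy <;> omega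
  · exact (h y hy).trans hc

theorem dec_Afour (D : ℕ) (d₁ d₂ d' : Multiset ℕ) (h₁ : Rel_Afour D d₁ d')
    (h₂ : Rel_Afour D d₂ d') : d₁ = d₂ := by
  obtain ⟨s, m, g, b, R, a1, a2, a3, a4, a5, rfl, a6⟩ := h₁
  obtain ⟨s', m', g', b', R', c1, c2, c3, c4, c5, rfl, c6⟩ := h₂
  obtain ⟨e1, e2⟩ := cons_unique (le_Afour a4 (by omega) (by omega))
    (le_Afour c4 (by omega) (by omega)) ((cons_inj_right D).1 (a6.symm.trans c6))
  have e3 := congrArg (count 2) e2
  simp only [count_add, count_replicate, count_eq_zero_of_notMem a5,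
    count_eq_zero_of_notMem c5] at e3
  norm_num at e3
  obtain rfl : s = s' := by omega
  obtain rfl : m = m' := by omega
  obtain rfl : g = g' := by omega
  obtain rfl : b = b' := by omega
  rw [add_left_cancel e2]

theorem img_Afour (hn : S_nec) (hs : S_suf) (ht : S_tight) {D w s m g b σ : ℕ}
    {R d d' K₀ : Multiset ℕ} (hD : 13 * w + 9 ≤ D) (hg : g ≤ 1) (hb : 5 ≤ b) (hbw : b ≤ w)
    (hR : ∀ y ∈ R, y ≤ b)
    (hd : d = (D + 1) ::ₘ b ::ₘ (replicate m 2 + replicate (12 * s + 2 * m + g + 3) 3 + R))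
    (hd' : d' = D ::ₘ (b + 2 + g) ::ₘ
      (replicate (4 * s + 2 * m + g) 2 + replicate (7 * s + m + 2) 4 + R))
    (hG : Gr d) (h2 : ∀ x ∈ d, 2 ≤ x) (hc : card d = D + 2 + s)
    (s1 : 2 * g + 2 ≤ σ) (s2 : σ ≤ 2 * g + 3)
    (hmin : ∀ K ≤ d, Big K → 5 ≤ card K → K.sum + card K + σ ≤ Cs d (card K))
    (k1 : K₀ ≤ d) (k2 : Big K₀) (k3 : 5 ≤ card K₀)
    (k4 : Cs d (card K₀) ≤ K₀.sum + card K₀ + σ) :
    (∀ x ∈ d', 2 ≤ x) ∧ d'.sum = d.sum ∧ d'.sup = D ∧ FB d' ∧ F4 D w d' := by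
  have l1 := le_Afour (u := 4 * s + 2 * m + g) (v := 7 * s + m + 2) (c := b + 2 + g) hR
    (by omega) (by omega)
  have l2 : ∀ y ∈ (b + 2 + g) ::ₘ
      (replicate (4 * s + 2 * m + g) 2 + replicate (7 * s + m + 2) 4 + R), y ≤ w + 3 := by
    intro y hy
    rcases mem_cons.1 hy with rfl | hy
    · omega
    · have := l1 y hy
      omega
  have p2 : ∀ x ∈ d', 2 ≤ x := by
    intro x hx
    simp only [hd', mem_cons, mem_add, mem_replicate] at hx
    rcases hx with rfl | rfl | (hx | hx) | hx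
    · omega
    · omega
    · omega
    · omega
    · exact h2 x (by rw [hd]; simp [hx])
  have es : d'.sum = d.sum := by
    simp only [hd, hd', sum_cons, sum_add, sum_replicate, smul_eq_mul]
    omega
  have ec : card d' = D + 1 := by
    simp only [hd, hd', card_cons, card_add, card_replicate] at hc ⊢
    omega
  have t1 : ∀ x ∈ (D + 1) ::ₘ b ::ₘ 0, ∀ y ∈ R, y ≤ x := by
    intro x hx y hy
    have := hR y hy
    simp only [mem_cons, notMem_zero, or_false] at hx
    omega
  have t2 : ∀ x ∈ D ::ₘ (b + 2 + g) ::ₘ 0, ∀ y ∈ R, y ≤ x := by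
    intro x hx y hy
    have := hR y hy
    simp only [mem_cons, notMem_zero, or_false] at hx
    omega
  have z1 : ∀ k, 5 ≤ k →
      ∀ z ∈ replicate m 2 + replicate (12 * s + 2 * m + g + 3) 3, z < k := by
    intro k hk z hz
    rcases mem_add.1 hz with hz | hz <;> have := eq_of_mem_replicate hz <;> omega
  have z2 : ∀ k, 5 ≤ k →
      ∀ z ∈ replicate (4 * s + 2 * m + g) 2 + replicate (7 * s + m + 2) 4, z < k := by
    intro k hk z hz
    rcases mem_add.1 hz with hz | hz <;> have := eq_of_mem_replicate hz <;> omega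
  have hE : EG d' := by
    intro K hK hB
    rcases Nat.eq_zero_or_pos (card K) with h0 | h0
    · rw [card_eq_zero.1 h0]; simp
    by_cases h5 : 5 ≤ card K
    · obtain ⟨K', a1, a2, a3, a4, a5⟩ := transfer (by simp) t1 t2
        (by rwa [← pair_Afour, ← hd']) hB (by simp; omega) (fun z hz => (z1 _ h5 z hz).le) (z2 _ h5)
      rw [← pair_Afour, ← hd] at a1
      rw [← pair_Afour, ← pair_Afour, ← hd, ← hd'] at a5
      have a6 := hmin K' a1 a2 (by omega)
      rw [a3] at a6
      simp only [sum_cons, sum_add, sum_replicate, smul_eq_mul, sum_zero] at a4 a5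
      omega
    obtain ⟨B, -, -, b3, b4⟩ := sum_top_Afour (by omega) l2 (hd' ▸ hK) h0
    rcases Nat.lt_or_ge (card K) 2 with h1 | h1
    · have c1 := Cs_ge (d := d') (j := 1) (k := card K) (fun x hx => by have := p2 x hx; omega) h0
      have c2 : card B = 0 := by omega
      rw [c2] at b4
      omega
    · have c1 := Cs_ge p2 h1
      have c2 : card B * (w + 3) ≤ 3 * (w + 3) := Nat.mul_le_mul_right _ (by omega)
      omega
  have hT : Tight d' := by
    obtain ⟨K', a1, a2, a3, a4, a5⟩ := transfer (by simp) t2 t1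
      (by rwa [← pair_Afour, ← hd]) k2 (by simp; omega) (fun z hz => (z2 _ k3 z hz).le) (z1 _ k3)
    rw [← pair_Afour, ← hd'] at a1
    rw [← pair_Afour, ← pair_Afour, ← hd, ← hd'] at a5
    refine ⟨K', a1, a2, by omega, ?_⟩
    rw [a3]
    simp only [sum_cons, sum_add, sum_replicate, smul_eq_mul, sum_zero] at a4 a5
    omega
  refine ⟨p2, es, ?_, ht d' (hs d' (es ▸ (hn d hG).1) hE) p2 hT, ec, ?_⟩
  · rw [hd']
    exact sup_cons_of fun y hy => (l2 y hy).trans (by omega)
  · rw [hd', sec_cons l1]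
    omega

theorem s_A4 (hn : S_nec) (hs : S_suf) (hm : S_min) (ht : S_tight) (h3 : S_n3) : S_A4 := by
  classical
  intro n D w hD
  refine Lc_le (Rel_Afour D) ?_ (dec_Afour D)
  rintro d hd ⟨a1, a2, a3, a4, a5⟩
  obtain ⟨-, hsum, hsup, hF⟩ := mem_Lf.1 hd
  obtain ⟨c3, c2⟩ := hm d hF
  have h2 : ∀ x ∈ d, 2 ≤ x := fun x hx => (c2 x hx).1
  obtain ⟨R₁, e1, -⟩ := exists_top (d := d) (by rintro rfl; simp at c3)
  rw [hsup] at e1
  have c4 := (c2 (D + 1) (by rw [e1]; exact mem_cons_self _ _)).2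
  obtain ⟨s, hc⟩ : ∃ s, card d = D + 2 + s := ⟨card d - (D + 2), by omega⟩
  have cR : card R₁ + 1 = card d := by rw [e1, card_cons]
  obtain ⟨R₂, e2, hR₂⟩ := exists_top (d := R₁) (by rintro rfl; simp at cR; omega)
  have hbw : R₁.sup ≤ w := by rwa [e1, sec, erase_cons_head] at a3
  generalize R₁.sup = b at e2 hR₂ hbw
  have hR₁ : ∀ y ∈ R₁, y ≤ b := by
    intro y hy
    rcases mem_cons.1 (e2 ▸ hy) with rfl | hy
    · exact le_rfl
    · exact hR₂ y hy
  have n1 := count_Afour h2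
  have n2 : count 3 d = count 3 R₁ := by rw [e1, count_cons_of_ne (by omega)]
  have hex : ∃ σ, σ ≤ 5 ∧ ∃ K ≤ d, Big K ∧ 5 ≤ card K ∧ Cs d (card K) ≤ K.sum + card K + σ := by
    obtain ⟨R', e3⟩ := exists_replicate (d := R₁) (m := 3) (a := 3) (by omega)
    have n3 : card R₁ = 3 + card R' := by rw [e3, card_add, card_replicate]
    obtain ⟨K, k1, k2, k3, k4⟩ := h3 (D + 1) w R' (by rwa [← e3, ← e1]) (by omega) (by omega)
      (fun y hy => (hR₁ y (by rw [e3]; exact mem_add.2 (Or.inr hy))).trans hbw) (by omega)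
    rw [← e3, ← e1] at k1 k4
    refine ⟨5, le_rfl, K, k1, k2, ?_, k4⟩
    obtain ⟨B, -, -, b3, b4⟩ := sum_top_Afour (c := w) (by omega)
      (fun y hy => (hR₁ y hy).trans hbw) (e1 ▸ k1) (by omega)
    by_contra h5
    have c5 := Cs_ge h2 (show 2 ≤ card K by omega)
    have c6 : card B = 3 := by omega
    rw [c6] at b4
    omega
  obtain ⟨s5, K₀, k1, k2, k3, k4⟩ := Nat.find_spec hex
  have hmin : ∀ K ≤ d, Big K → 5 ≤ card K → K.sum + card K + Nat.find hex ≤ Cs d (card K) := by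
    intro K j1 j2 j3
    by_contra j4
    have j5 := (hn d hF.1).2 K j1 j2
    exact Nat.find_min hex (m := Nat.find hex - 1) (by omega) ⟨by omega, K, j1, j2, j3, by omega⟩
  generalize Nat.find hex = σ at s5 k4 hmin
  have s2 : 2 ≤ σ := by
    by_contra j
    exact a1 ⟨K₀, k1, k2, by omega, by omega⟩
  have hb : 5 ≤ b := by
    obtain ⟨B, b1, b2, b3, -⟩ := sum_top_Afour (c := b) (by omega) hR₁ (e1 ▸ k1) (by omega)
    obtain ⟨x, hx⟩ := card_pos_iff_exists_mem.1 (show 0 < card B by omega)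
    exact (k3.trans (k2 x (mem_of_le b2 hx))).trans (hR₁ x (mem_of_le b1 hx))
  have n3 : count 2 d = count 2 R₂ := by
    rw [e1, count_cons_of_ne (by omega), e2, count_cons_of_ne (by omega)]
  have n4 : count 3 R₁ = count 3 R₂ := by rw [e2, count_cons_of_ne (by omega)]
  obtain ⟨m, hm2⟩ : ∃ m, count 2 R₂ = m := ⟨_, rfl⟩
  obtain ⟨R₃, e3⟩ := exists_replicate (d := R₂) (m := m) (a := 2) hm2.ge
  have n5 : count 3 R₂ = count 3 R₃ := by rw [e3, count_add, count_replicate]; simp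
  have n6 : count 2 R₃ = 0 := by
    rw [e3, count_add, count_replicate_self] at hm2
    omega
  obtain ⟨R, e4⟩ := exists_replicate (d := R₃) (m := 12 * s + 2 * m + (σ / 2 - 1) + 3) (a := 3)
    (by omega)
  have n7 : 2 ∉ R := fun h => count_eq_zero.1 n6 (by rw [e4]; exact mem_add.2 (Or.inr h))
  have hR : ∀ y ∈ R, y ≤ b := fun y hy =>
    hR₂ y (by rw [e3, e4]; exact mem_add.2 (Or.inr (mem_add.2 (Or.inr hy))))
  have e5 : d = (D + 1) ::ₘ b ::ₘ
      (replicate m 2 + replicate (12 * s + 2 * m + (σ / 2 - 1) + 3) 3 + R) := by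
    rw [add_assoc, ← e4, ← e3, ← e2, ← e1]
  obtain ⟨r1, r2, r3, r4, r5⟩ := img_Afour hn hs ht hD (by omega) hb hbw hR e5 rfl hF.1 h2 hc
    (by omega) (by omega) hmin k1 k2 k3 k4
  exact ⟨_, mem_Lf.2 ⟨fun x hx => by have := r1 x hx; omega, r2.trans hsum, r3, r4⟩, r5,
    s, m, σ / 2 - 1, b, R, by omega, by omega, hb, hR, n7, e5, rfl⟩

end Pool.Agent.MP_dbdb85_co

end

section

namespace Pool.Agent.MP_dbdb85_co

open Multiset

theorem ind_Phi {m D : ℕ} (h : m ≤ D) :
    ∑ j ∈ Finset.range D, (if j < m then 1 else 0) = m := by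
  rw [← Finset.card_filter]
  have : (Finset.range D).filter (· < m) = Finset.range m := by
    ext j
    simp only [Finset.mem_filter, Finset.mem_range]
    omega
  rw [this, Finset.card_range]

/-- the last position of the maximal rank -/
def Last_Phi (D : ℕ) (r c : ℕ → ℕ) (i : ℕ) : Prop :=
  i < D ∧ c i < r i ∧ (∀ j, r j + c i ≤ r i + c j) ∧ ∀ j, i < j → r j + c i < r i + c j

theorem exists_last_Phi {D : ℕ} {r c : ℕ → ℕ} (h : IsTri D r c) {k : ℕ} (hk : c k < r k) :
    ∃ i, Last_Phi D r c i := by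
  obtain ⟨hr, hc, hr0, hc0⟩ := h
  have z : ∀ j, D ≤ j → r j = 0 := fun j hj => by have := hr hj; omega
  have hkD : k < D := by
    by_contra h
    have := z k (by omega)
    omega
  obtain ⟨i, hi, hm⟩ := Finset.exists_max_image (Finset.range D)
    (fun j => toLex (((r j : ℤ) - c j), j)) ⟨k, Finset.mem_range.2 hkD⟩
  have hm' : ∀ j, j < D → (r j : ℤ) - c j < r i - c i ∨ ((r j : ℤ) - c j = r i - c i ∧ j ≤ i) :=
    fun j hj => Prod.Lex.toLex_le_toLex.1 (hm j (Finset.mem_range.2 hj))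
  have ht : c i < r i := by
    have := hm' k hkD
    omega
  refine ⟨i, Finset.mem_range.1 hi, ht, fun j => ?_, fun j hj => ?_⟩
  · rcases Nat.lt_or_ge j D with h | h
    · have := hm' j h
      omega
    · have := z j h
      omega
  · rcases Nat.lt_or_ge j D with h | h
    · have := hm' j h
      omega
    · have := z j h
      omega

/-- new arms -/
def rr_Phi (r : ℕ → ℕ) (i : ℕ) : ℕ → ℕ := fun j => if j < i + 1 then r j - 1 else r j

/-- new legs -/
def cc_Phi (c : ℕ → ℕ) (i : ℕ) : ℕ → ℕ := fun j => if j < i then c j + 1 else c j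

theorem step_Phi {D : ℕ} {r c : ℕ → ℕ} (h : IsTri D r c) {i : ℕ} (hi : Last_Phi D r c i) :
    IsTri D (rr_Phi r i) (cc_Phi c i) ∧ mass D (rr_Phi r i) (cc_Phi c i) + 1 = mass D r c := by
  obtain ⟨hr, hc, hr0, hc0⟩ := h
  obtain ⟨h1, h2, -, h4⟩ := hi
  have h5 : r (i + 1) < r i := by
    have := h4 (i + 1) (by omega)
    have := hc (show i ≤ i + 1 by omega)
    omega
  refine ⟨⟨fun a b hab => ?_, fun a b hab => ?_, ?_, ?_⟩, ?_⟩
  · have h6 := hr hab
    simp only [rr_Phi]
    split_ifs with ha hb hb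
    · omega
    · omega
    · have := hr (show i + 1 ≤ b by omega)
      have := hr (show a ≤ i by omega)
      omega
    · omega
  · have h6 := hc hab
    simp only [cc_Phi]
    split_ifs <;> omega
  · simp only [rr_Phi]
    split_ifs <;> omega
  · simp only [cc_Phi]
    split_ifs <;> omega
  · have e1 : ∑ j ∈ Finset.range D, rr_Phi r i j + (i + 1) = ∑ j ∈ Finset.range D, r j := by
      rw [← ind_Phi (show i + 1 ≤ D from h1), ← Finset.sum_add_distrib]
      refine Finset.sum_congr rfl fun j _ => ?_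
      simp only [rr_Phi]
      split_ifs with hj
      · have := hr (show j ≤ i by omega)
        omega
      · omega
    have e2 : ∑ j ∈ Finset.range D, cc_Phi c i j = ∑ j ∈ Finset.range D, c j + i := by
      conv_rhs => rw [← ind_Phi h1.le, ← Finset.sum_add_distrib]
      refine Finset.sum_congr rfl fun j _ => ?_
      simp only [cc_Phi]
      split_ifs <;> omega
    simp only [mass]
    omega

theorem not_lt_Phi {D D' : ℕ} {r c r' c' : ℕ → ℕ} {i i' : ℕ} (hr' : Antitone r')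
    (hi : Last_Phi D r c i) (hi' : Last_Phi D' r' c' i') (e1 : rr_Phi r i = rr_Phi r' i')
    (e2 : cc_Phi c i = cc_Phi c' i') : ¬ i < i' := by
  intro h
  have a1 := congrFun e1 i
  have a2 := congrFun e1 i'
  have a3 := congrFun e2 i
  have a4 := congrFun e2 i'
  have b1 := hi.2.2.2 i' h
  have b2 := hi'.2.2.1 i
  have b3 := hi.2.1
  have b4 := hi'.2.1
  have b5 := hr' h.le
  simp only [rr_Phi, cc_Phi] at a1 a2 a3 a4
  rw [if_pos (by omega), if_pos (by omega)] at a1
  rw [if_neg (by omega), if_pos (by omega)] at a2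
  rw [if_neg (by omega), if_pos (by omega)] at a3
  rw [if_neg (by omega), if_neg (by omega)] at a4
  omega

theorem decode_Phi {D D' : ℕ} {r c r' c' : ℕ → ℕ} {i i' : ℕ} (hr : Antitone r) (hr' : Antitone r')
    (hi : Last_Phi D r c i) (hi' : Last_Phi D' r' c' i') (e1 : rr_Phi r i = rr_Phi r' i')
    (e2 : cc_Phi c i = cc_Phi c' i') : r = r' ∧ c = c' := by
  have h : i = i' := by
    have := not_lt_Phi hr' hi hi' e1 e2
    have := not_lt_Phi hr hi' hi e1.symm e2.symm
    omega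
  subst h
  constructor
  · funext j
    have a1 := congrFun e1 j
    simp only [rr_Phi] at a1
    split_ifs at a1 with hj
    · have := hr (show j ≤ i by omega)
      have := hr' (show j ≤ i by omega)
      have := hi.2.1
      have := hi'.2.1
      omega
    · exact a1
  · funext j
    have a1 := congrFun e2 j
    simp only [cc_Phi] at a1
    split_ifs at a1 <;> omega

theorem s_phi (h1 : S_surj) (h2 : S_inj) (h3 : S_psi) : S_phi := by
  classical
  intro M
  induction M with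
  | zero =>
    refine Finset.card_le_card fun d hd => ?_
    obtain ⟨p1, p2⟩ := mem_Par.1 hd
    obtain ⟨D, r, c, t, rfl⟩ := h1 d p1
    refine Finset.mem_filter.2 ⟨mem_Ple.2 ⟨p1, p2.le⟩, D, r, c, t, rfl, fun j => ?_⟩
    by_contra h
    obtain ⟨i, hi⟩ := exists_last_Phi t (Nat.lt_of_not_le h)
    have := (step_Phi t hi).2
    have := (h3 D r c t).2.1
    omega
  | succ M ih =>
    have e1 : ((Par (M + 1)).filter (· ∉ Neg (M + 1))).card ≤ P M := by
      refine Finset.card_le_card_of_forall_subsingleton (fun d d' => ∃ D r c i, IsTri D r c ∧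
        Last_Phi D r c i ∧ Psi D r c = d ∧ Psi D (rr_Phi r i) (cc_Phi c i) = d') ?_ ?_
      · intro d hd
        obtain ⟨hd1, hd2⟩ := Finset.mem_filter.1 hd
        obtain ⟨p1, p2⟩ := mem_Par.1 hd1
        obtain ⟨D, r, c, t, rfl⟩ := h1 d p1
        have h4 : ∃ k, c k < r k := by
          by_contra h
          push Not at h
          exact hd2 (Finset.mem_filter.2 ⟨mem_Ple.2 ⟨p1, p2.le⟩, D, r, c, t, rfl, h⟩)
        obtain ⟨k, hk⟩ := h4
        obtain ⟨i, hi⟩ := exists_last_Phi t hk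
        obtain ⟨t', hm⟩ := step_Phi t hi
        refine ⟨_, mem_Par.2 ⟨(h3 _ _ _ t').1, ?_⟩, D, r, c, i, t, hi, rfl, rfl⟩
        have := (h3 _ _ _ t').2.1
        have := (h3 _ _ _ t).2.1
        omega
      · rintro d' - x ⟨-, D, r, c, i, t, hi, rfl, e⟩ y ⟨-, D', r', c', i', t', hi', rfl, e'⟩
        obtain ⟨rfl, a1, a2⟩ := h2 _ _ _ _ _ _ (step_Phi t hi).1 (step_Phi t' hi').1
          (e.trans e'.symm)
        obtain ⟨rfl, rfl⟩ := decode_Phi t.1 t'.1 hi hi' a1 a2
        rfl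
    have e2 := Finset.card_filter_add_card_filter_not (s := Par (M + 1)) (· ∈ Neg (M + 1))
    have e3 : ((Par (M + 1)).filter (· ∈ Neg (M + 1))).card + (Neg M).card ≤
        (Neg (M + 1)).card := by
      rw [← Finset.card_union_of_disjoint]
      · refine Finset.card_le_card (Finset.union_subset (fun d hd => (Finset.mem_filter.1 hd).2)
          fun d hd => ?_)
        obtain ⟨a1, a2⟩ := Finset.mem_filter.1 hd
        obtain ⟨p1, p2⟩ := mem_Ple.1 a1
        exact Finset.mem_filter.2 ⟨mem_Ple.2 ⟨p1, by omega⟩, a2⟩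
      · refine Finset.disjoint_left.2 fun d hd hd' => ?_
        have := (mem_Par.1 (Finset.mem_filter.1 hd).1).2
        have := (mem_Ple.1 (Finset.mem_filter.1 hd').1).2
        omega
    rw [P]
    omega

end Pool.Agent.MP_dbdb85_co

end
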