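import Pool.Agent.MP_dbdb85_co.Defs

section

/-! Necessity of the inequalities and the tight case. -/

namespace Pool.Agent.MP_dbdb85_co

open Multiset

theorem pick_Nec {V : Type} (f : V → ℕ) (K : Multiset ℕ) :
    ∀ s : Multiset V, K ≤ s.map f → ∃ t ≤ s, t.map f = K := by
  classical
  induction K using Multiset.induction_on with
  | empty => intro s _; exact ⟨0, Multiset.zero_le _, rfl⟩
  | cons a K ih =>
    intro s h
    obtain ⟨v, hv, rfl⟩ := mem_map.1 (mem_of_le h (mem_cons_self _ _))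
    obtain ⟨s', rfl⟩ := exists_cons_of_mem hv
    rw [map_cons, cons_le_cons_iff] at h
    obtain ⟨t, ht, rfl⟩ := ih s' h
    exact ⟨v ::ₘ t, cons_le_cons _ ht, by rw [map_cons]⟩

theorem pick2_Nec {V : Type} [Fintype V] (G : SimpleGraph V) {K : Multiset ℕ} (h : K ≤ degs G) :
    ∃ A : Finset V, A.val.map (fun v => (G.neighborSet v).ncard) = K := by
  obtain ⟨t, ht, e⟩ := pick_Nec _ K _ h
  exact ⟨⟨t, nodup_of_le ht Finset.univ.nodup⟩, e⟩

open Classical in
/-- number of neighbours of `v` in `A` -/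
noncomputable def ee_Nec {V : Type} (G : SimpleGraph V) (A : Finset V) (v : V) : ℕ :=
  (A.filter (G.Adj v)).card

theorem deg_Nec {V : Type} [Fintype V] (G : SimpleGraph V) (v : V) :
    (G.neighborSet v).ncard = ee_Nec G Finset.univ v := by
  classical
  rw [ee_Nec, ← Set.ncard_coe_finset]
  congr 1
  ext x
  simp

theorem ee_sum_Nec {V : Type} (G : SimpleGraph V) (A : Finset V) (v : V) :
    ee_Nec G A v = ∑ u ∈ A, open Classical in if G.Adj v u then 1 else 0 := by
  rw [ee_Nec, Finset.card_filter]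

theorem dc_Nec {V : Type} [Fintype V] [DecidableEq V] (G : SimpleGraph V) (A : Finset V) :
    ∑ v ∈ A, (G.neighborSet v).ncard = ∑ v ∈ A, ee_Nec G A v + ∑ u ∈ Aᶜ, ee_Nec G A u := by
  rw [Finset.sum_add_sum_compl]
  simp only [deg_Nec, ee_sum_Nec]
  rw [Finset.sum_comm]
  refine Finset.sum_congr rfl fun u _ => Finset.sum_congr rfl fun v _ => ?_
  by_cases h : G.Adj v u
  · rw [if_pos h, if_pos h.symm]
  · rw [if_neg h, if_neg fun h' => h h'.symm]

theorem ee_in_Nec {V : Type} (G : SimpleGraph V) {A : Finset V} {v : V} (hv : v ∈ A) :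
    ee_Nec G A v + 1 ≤ A.card := by
  classical
  refine Finset.card_lt_card ⟨Finset.filter_subset _ _, fun h => ?_⟩
  exact G.irrefl (Finset.mem_filter.1 (h hv)).2

theorem ee_in2_Nec {V : Type} (G : SimpleGraph V) {A : Finset V} {v w : V} (hv : v ∈ A)
    (hw : w ∈ A) (hne : v ≠ w) (hn : ¬ G.Adj v w) : ee_Nec G A v + 2 ≤ A.card := by
  classical
  have h1 : ee_Nec G A v ≤ ((A.erase v).erase w).card := by
    refine Finset.card_le_card fun x hx => ?_
    obtain ⟨h1, h2⟩ := Finset.mem_filter.1 hx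
    refine Finset.mem_erase.2 ⟨?_, Finset.mem_erase.2 ⟨?_, h1⟩⟩
    · rintro rfl; exact hn h2
    · rintro rfl; exact G.irrefl h2
  have h2 := Finset.card_erase_add_one hv
  have h3 := Finset.card_erase_add_one (Finset.mem_erase.2 ⟨hne.symm, hw⟩)
  omega

theorem ee_out_Nec {V : Type} [Fintype V] (G : SimpleGraph V) (A : Finset V) (v : V) :
    ee_Nec G A v ≤ min A.card (G.neighborSet v).ncard := by
  classical
  refine le_min (Finset.card_filter_le _ _) ?_
  rw [deg_Nec]
  exact Finset.card_le_card (Finset.filter_subset_filter _ (Finset.subset_univ _))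

/-- the slack identity -/
theorem slack_Nec {V : Type} [Fintype V] [DecidableEq V] (G : SimpleGraph V) (A : Finset V)
    (hb : ∀ v ∈ A, A.card ≤ (G.neighborSet v).ncard) :
    ∑ v ∈ A, (G.neighborSet v).ncard + A.card + ∑ v ∈ A, (A.card - 1 - ee_Nec G A v) +
      ∑ u ∈ Aᶜ, (min A.card (G.neighborSet u).ncard - ee_Nec G A u) = Cs (degs G) A.card := by
  have h1 : Cs (degs G) A.card = ∑ v, min A.card (G.neighborSet v).ncard := by
    rw [Cs, degs, map_map]
    rfl
  have h2 : ∑ v ∈ A, min A.card (G.neighborSet v).ncard =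
      ∑ v ∈ A, (ee_Nec G A v + 1 + (A.card - 1 - ee_Nec G A v)) := by
    refine Finset.sum_congr rfl fun v hv => ?_
    have := ee_in_Nec G hv
    have := hb v hv
    omega
  have h3 : ∑ v ∈ Aᶜ, min A.card (G.neighborSet v).ncard =
      ∑ v ∈ Aᶜ, (ee_Nec G A v + (min A.card (G.neighborSet v).ncard - ee_Nec G A v)) := by
    refine Finset.sum_congr rfl fun v _ => ?_
    have := ee_out_Nec G A v
    omega
  rw [h1, ← Finset.sum_add_sum_compl A, h2, h3, dc_Nec]
  simp only [Finset.sum_add_distrib, Finset.sum_const, smul_eq_mul, mul_one]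
  omega

theorem data_Nec {V : Type} [Fintype V] (G : SimpleGraph V) {K : Multiset ℕ} (h : K ≤ degs G)
    (hb : Big K) : ∃ A : Finset V, A.card = card K ∧ ∑ v ∈ A, (G.neighborSet v).ncard = K.sum ∧
      ∀ v ∈ A, A.card ≤ (G.neighborSet v).ncard := by
  obtain ⟨A, rfl⟩ := pick2_Nec G h
  have h1 : A.card = card (A.val.map fun v => (G.neighborSet v).ncard) := by
    rw [card_map]; rfl
  refine ⟨A, h1, rfl, fun v hv => ?_⟩
  rw [h1]
  exact hb _ (mem_map.2 ⟨v, hv, rfl⟩)

theorem s_nec : S_nec := by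
  classical
  rintro d ⟨V, _, G, rfl⟩
  constructor
  · have h1 : (degs G).sum = ∑ v, G.degree v := by
      rw [degs]
      refine Finset.sum_congr rfl fun v _ => ?_
      rw [← SimpleGraph.card_neighborSet_eq_degree, Set.ncard_eq_toFinset_card',
        Set.toFinset_card]
    rw [h1, G.sum_degrees_eq_twice_card_edges]
    exact even_two_mul _
  · intro K hK hb
    obtain ⟨A, h1, h2, h3⟩ := data_Nec G hK hb
    have := slack_Nec G A h3
    rw [← h1]
    omega

theorem two_Nec {V : Type} (G : SimpleGraph V) {A : Finset V} {a : V} (z : V)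
    (h : 2 ≤ ee_Nec G A a) : ∃ x ∈ A, G.Adj a x ∧ x ≠ z := by
  classical
  obtain ⟨x, hx, hz⟩ := Finset.exists_mem_ne (s := A.filter (G.Adj a)) h z
  exact ⟨x, (Finset.mem_filter.1 hx).1, (Finset.mem_filter.1 hx).2, hz⟩

theorem s_tight (hc : S_cut) : S_tight := by
  classical
  intro d hd h2 ⟨K, hK, hb, h3, hs⟩
  refine ⟨hd, fun V _ G hG => ?_⟩
  subst hG
  obtain ⟨A, h1, h4, h5⟩ := data_Nec G hK hb
  have hsl := slack_Nec G A h5
  rw [← h1, ← h4] at hs
  rw [← h1] at h3
  have hdeg : ∀ v, 2 ≤ (G.neighborSet v).ncard := fun v =>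
    h2 _ (mem_map.2 ⟨v, Finset.mem_univ v, rfl⟩)
  obtain ⟨a0, ha0⟩ := Finset.card_pos.1 (show 0 < A.card by omega)
  have : Nonempty V := ⟨a0⟩
  have hcl : ∀ v ∈ A, ∀ w ∈ A, v ≠ w → G.Adj v w := by
    intro v hv w hw hne
    by_contra hn
    have e1 := ee_in2_Nec G hv hw hne hn
    have e2 := ee_in2_Nec G hw hv hne.symm fun h => hn h.symm
    have e3 := Finset.add_le_sum (f := fun v => A.card - 1 - ee_Nec G A v)
      (fun _ _ => Nat.zero_le _) hv hw hne
    omega
  have htwo : ∀ u, u ∉ A → ∀ t, t ∉ A → u ≠ t → 2 ≤ ee_Nec G A u ∨ 2 ≤ ee_Nec G A t := by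
    intro u hu t ht hne
    have e3 := Finset.add_le_sum
      (f := fun u => min A.card (G.neighborSet u).ncard - ee_Nec G A u)
      (fun _ _ => Nat.zero_le _) (Finset.mem_compl.2 hu) (Finset.mem_compl.2 ht) hne
    have := hdeg u
    have := hdeg t
    omega
  have hmeet : ∀ (z : V) (B : Finset V), z ∉ B → B.Nonempty →
      (∀ a ∈ B, ∀ x, G.Adj a x → x ∈ B ∨ x = z) → ∃ x ∈ B, x ∈ A := by
    intro z B hz ⟨a, ha⟩ hB
    by_cases haA : a ∈ A
    · exact ⟨a, ha, haA⟩
    have key : ∀ u ∈ B, 2 ≤ ee_Nec G A u → ∃ x ∈ B, x ∈ A := by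
      intro u hu h
      obtain ⟨x, hx1, hx2, hx3⟩ := two_Nec G z h
      exact ⟨x, (hB u hu x hx2).resolve_right hx3, hx1⟩
    have hd2 : 2 ≤ ee_Nec G Finset.univ a := by rw [← deg_Nec]; exact hdeg a
    obtain ⟨t, -, ht2, ht3⟩ := two_Nec G z hd2
    have htB := (hB a ha t ht2).resolve_right ht3
    by_cases htA : t ∈ A
    · exact ⟨t, htB, htA⟩
    rcases htwo a haA t htA ht2.ne with h | h
    · exact key a ha h
    · exact key t htB h
  refine hc V G hdeg fun z B hz hne hB b hb' => ?_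
  by_contra hbB
  have hB' : ∀ a ∈ (insert z B)ᶜ, ∀ x, G.Adj a x → x ∈ (insert z B)ᶜ ∨ x = z := by
    intro a ha x hax
    by_cases hxz : x = z
    · exact Or.inr hxz
    refine Or.inl (Finset.mem_compl.2 fun hx => ?_)
    have hxB := (Finset.mem_insert.1 hx).resolve_left hxz
    rcases hB x hxB a hax.symm with h | h
    · exact Finset.mem_compl.1 ha (Finset.mem_insert_of_mem h)
    · exact Finset.mem_compl.1 ha (h ▸ Finset.mem_insert_self _ _)
  obtain ⟨x, hx1, hx2⟩ := hmeet z B hz hne hB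
  obtain ⟨y, hy1, hy2⟩ := hmeet z (insert z B)ᶜ (by simp)
    ⟨b, by simp [hb', hbB]⟩ hB'
  have hy3 := Finset.mem_compl.1 hy1
  have hxy : x ≠ y := by
    rintro rfl
    exact hy3 (Finset.mem_insert_of_mem hx1)
  rcases hB x hx1 y (hcl x hx2 y hy2 hxy) with h | h
  · exact hy3 (Finset.mem_insert_of_mem h)
  · exact hy3 (h ▸ Finset.mem_insert_self _ _)

end Pool.Agent.MP_dbdb85_co

end

section

namespace Pool.Agent.MP_dbdb85_co
open Multiset

/-- move the edge `u x` to `v x` -/
def mv_Ops {V : Type} (G : SimpleGraph V) (u v x : V) (h : x ≠ v) : SimpleGraph V where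
  Adj p q := (G.Adj p q ∧ ¬ (p = u ∧ q = x) ∧ ¬ (p = x ∧ q = u)) ∨ (p = v ∧ q = x) ∨
    (p = x ∧ q = v)
  symm := ⟨fun p q hh => by
    rcases hh with ⟨h1, h2, h3⟩ | ⟨h1, h2⟩ | ⟨h1, h2⟩
    · exact Or.inl ⟨h1.symm, fun z => h3 ⟨z.2, z.1⟩, fun z => h2 ⟨z.2, z.1⟩⟩
    · exact Or.inr (Or.inr ⟨h2, h1⟩)
    · exact Or.inr (Or.inl ⟨h2, h1⟩)⟩
  loopless := ⟨fun p hh => by
    rcases hh with ⟨h1, -, -⟩ | ⟨h1, h2⟩ | ⟨h1, h2⟩
    · exact G.ne_of_adj h1 rfl
    · exact h (h2.symm.trans h1)
    · exact h (h1.symm.trans h2)⟩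

theorem one_Ops (a b : ℕ) (R : Multiset ℕ) (hab : b + 1 ≤ a) (h : Gr ((a + 1) ::ₘ b ::ₘ R)) :
    Gr (a ::ₘ (b + 1) ::ₘ R) := by
  classical
  obtain ⟨V, iV, G, hG⟩ := h
  unfold degs at hG
  obtain ⟨u, hu, fu, h2⟩ := (Multiset.map_eq_cons _ _ _ _).2 hG
  obtain ⟨v, hv, fv, h3⟩ := (Multiset.map_eq_cons _ _ _ _).2 h2
  have nd : (Finset.univ : Finset V).val.Nodup := Finset.univ.nodup
  have vu : v ≠ u := ((nd.mem_erase_iff).1 hv).1
  have ex : ∃ x, G.Adj u x ∧ x ≠ v ∧ ¬ G.Adj v x := by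
    by_contra hc
    have sub : G.neighborSet u ⊆ insert v (G.neighborSet v) := by
      intro x hx
      by_cases e : x = v
      · exact Or.inl e
      · by_cases e2 : G.Adj v x
        · exact Or.inr e2
        · exact absurd ⟨x, hx, e, e2⟩ hc
    have c1 := Set.ncard_le_ncard sub (Set.toFinite _)
    have c2 := Set.ncard_insert_le v (G.neighborSet v)
    omega
  obtain ⟨x, ux, xv, nvx⟩ := ex
  have xu : x ≠ u := (G.ne_of_adj ux).symm
  refine ⟨V, iV, mv_Ops G u v x xv, ?_⟩
  have e1 : (mv_Ops G u v x xv).neighborSet u = G.neighborSet u \ {x} := by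
    ext q
    simp only [SimpleGraph.mem_neighborSet, mv_Ops, Set.mem_sdiff, Set.mem_singleton_iff]
    constructor
    · rintro (⟨h1, h4, -⟩ | ⟨h1, -⟩ | ⟨h1, -⟩)
      · exact ⟨h1, fun z => h4 ⟨trivial, z⟩⟩
      · exact absurd h1.symm vu
      · exact absurd h1.symm xu
    · rintro ⟨h1, h4⟩
      exact Or.inl ⟨h1, fun z => h4 z.2, fun z => xu z.1.symm⟩
  have e2 : (mv_Ops G u v x xv).neighborSet v = insert x (G.neighborSet v) := by
    ext q
    simp only [SimpleGraph.mem_neighborSet, mv_Ops, Set.mem_insert_iff]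
    constructor
    · rintro (⟨h1, -, -⟩ | ⟨-, h1⟩ | ⟨h1, -⟩)
      · exact Or.inr h1
      · exact Or.inl h1
      · exact absurd h1.symm xv
    · rintro (h1 | h1)
      · exact Or.inr (Or.inl ⟨trivial, h1⟩)
      · exact Or.inl ⟨h1, fun z => vu z.1, fun z => xv z.1.symm⟩
  have e3 : (mv_Ops G u v x xv).neighborSet x = insert v (G.neighborSet x \ {u}) := by
    ext q
    simp only [SimpleGraph.mem_neighborSet, mv_Ops, Set.mem_insert_iff, Set.mem_sdiff,
      Set.mem_singleton_iff]
    constructor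
    · rintro (⟨h1, -, h4⟩ | ⟨h1, -⟩ | ⟨-, h1⟩)
      · exact Or.inr ⟨h1, fun z => h4 ⟨trivial, z⟩⟩
      · exact absurd h1 xv
      · exact Or.inl h1
    · rintro (h1 | ⟨h1, h4⟩)
      · exact Or.inr (Or.inr ⟨trivial, h1⟩)
      · exact Or.inl ⟨h1, fun z => xu z.1, fun z => h4 z.2⟩
  have e4 : ∀ w, w ≠ u → w ≠ v → w ≠ x →
      (mv_Ops G u v x xv).neighborSet w = G.neighborSet w := by
    intro w w1 w2 w3
    ext q
    simp only [SimpleGraph.mem_neighborSet, mv_Ops]
    constructor
    · rintro (⟨h1, -, -⟩ | ⟨h1, -⟩ | ⟨h1, -⟩)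
      · exact h1
      · exact absurd h1 w2
      · exact absurd h1 w3
    · intro h1
      exact Or.inl ⟨h1, fun z => w1 z.1, fun z => w3 z.1⟩
  have d1 : ((mv_Ops G u v x xv).neighborSet u).ncard = a := by
    rw [e1, Set.ncard_sdiff_singleton_of_mem (show x ∈ G.neighborSet u from ux), fu]
    rfl
  have d2 : ((mv_Ops G u v x xv).neighborSet v).ncard = b + 1 := by
    rw [e2, Set.ncard_insert_of_notMem (show x ∉ G.neighborSet v from nvx), fv]
  have d3 : ∀ w, w ≠ u → w ≠ v →
      ((mv_Ops G u v x xv).neighborSet w).ncard = (G.neighborSet w).ncard := by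
    intro w w1 w2
    by_cases w3 : w = x
    · subst w3
      have m1 : v ∉ G.neighborSet w \ {u} := fun z => nvx (G.symm.symm _ _ z.1)
      rw [e3, Set.ncard_insert_of_notMem m1,
        Set.ncard_sdiff_singleton_add_one (show u ∈ G.neighborSet w from ux.symm)]
    · rw [e4 w w1 w2 w3]
  unfold degs
  rw [← Multiset.cons_erase hu, ← Multiset.cons_erase hv, Multiset.map_cons, Multiset.map_cons,
    d1, d2, ← h3]
  congr 2
  refine Multiset.map_congr rfl fun w hw => d3 w ?_ ?_
  · exact (nd.mem_erase_iff.1 (Multiset.mem_of_mem_erase hw)).1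
  · exact ((nd.erase u).mem_erase_iff.1 hw).1

/-- a new vertex, joined to all old ones when `c` holds and isolated otherwise -/
def ad_Ops {V : Type} (G : SimpleGraph V) (c : Prop) : SimpleGraph (Option V) where
  Adj p q := match p, q with
    | some a, some b => G.Adj a b
    | none, none => False
    | _, _ => c
  symm := ⟨fun p q hh => by
    cases p <;> cases q
    · exact hh
    · exact hh
    · exact hh
    · exact G.symm.symm _ _ hh⟩
  loopless := ⟨fun p hh => by
    cases p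
    · exact hh
    · exact G.ne_of_adj hh rfl⟩

theorem univ_Ops (V : Type) [Fintype V] :
    (Finset.univ : Finset (Option V)).val = none ::ₘ (Finset.univ : Finset V).val.map some := by
  rw [univ_option]
  rfl

theorem two_Ops (d : Multiset ℕ) (h : Gr d) : Gr (0 ::ₘ d) := by
  obtain ⟨V, iV, G, hG⟩ := h
  refine ⟨Option V, inferInstance, ad_Ops G False, ?_⟩
  unfold degs at hG ⊢
  rw [univ_Ops, Multiset.map_cons, Multiset.map_map, ← hG]
  have e0 : (ad_Ops G False).neighborSet none = ∅ := by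
    ext q
    cases q <;> exact Iff.rfl
  have e1 : ∀ a, (ad_Ops G False).neighborSet (some a) = some '' G.neighborSet a := by
    intro a
    ext q
    cases q with
    | none => exact ⟨fun z => z.elim, fun ⟨_, _, z⟩ => by cases z⟩
    | some b => exact ⟨fun z => ⟨b, z, rfl⟩, fun ⟨_, y, z⟩ => by cases z; exact y⟩
  rw [e0, Set.ncard_empty]
  congr 1
  refine Multiset.map_congr rfl fun a _ => ?_
  rw [Function.comp_apply, e1, Set.ncard_image_of_injective _ (Option.some_injective V)]

theorem three_Ops (d : Multiset ℕ) (h : Gr d) : Gr (card d ::ₘ d.map (· + 1)) := by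
  obtain ⟨V, iV, G, hG⟩ := h
  refine ⟨Option V, inferInstance, ad_Ops G True, ?_⟩
  unfold degs at hG ⊢
  rw [univ_Ops, Multiset.map_cons, Multiset.map_map, ← hG, Multiset.map_map, Multiset.card_map]
  have e0 : (ad_Ops G True).neighborSet none = some '' Set.univ := by
    ext q
    cases q with
    | none => exact ⟨fun z => z.elim, fun ⟨_, _, z⟩ => by cases z⟩
    | some b => exact ⟨fun _ => ⟨b, trivial, rfl⟩, fun _ => trivial⟩
  have e1 : ∀ a, (ad_Ops G True).neighborSet (some a) =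
      insert none (some '' G.neighborSet a) := by
    intro a
    ext q
    cases q with
    | none => exact ⟨fun _ => Or.inl rfl, fun _ => trivial⟩
    | some b =>
      refine ⟨fun z => Or.inr ⟨b, z, rfl⟩, fun z => ?_⟩
      rcases z with z | ⟨_, y, z⟩
      · cases z
      · cases z; exact y
  rw [e0, Set.ncard_image_of_injective _ (Option.some_injective V), Set.ncard_univ,
    Nat.card_eq_fintype_card]
  congr 1
  refine Multiset.map_congr rfl fun a _ => ?_
  have m : (none : Option V) ∉ some '' G.neighborSet a := fun ⟨_, _, z⟩ => by cases z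
  rw [Function.comp_apply, Function.comp_apply, e1, Set.ncard_insert_of_notMem m,
    Set.ncard_image_of_injective _ (Option.some_injective V)]

theorem s_ops : S_ops :=
  ⟨one_Ops, two_Ops, three_Ops, Fin 0, inferInstance, ⊥, rfl⟩

end Pool.Agent.MP_dbdb85_co

end

section

namespace Pool.Agent.MP_dbdb85_co

open Multiset

theorem comp_Ntwo (hs : S_suf) (q : ℕ) : Gr (q ::ₘ replicate q q) := by
  rw [← replicate_succ]
  refine hs _ (by
    rw [sum_replicate, smul_eq_mul, mul_comm]
    exact Nat.even_mul_succ_self q) fun K hK hb => ?_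
  obtain ⟨m, -, rfl⟩ := le_replicate_iff.1 hK
  rcases Nat.eq_zero_or_pos m with rfl | hm
  · simp
  · have := hb q (mem_replicate.2 ⟨hm.ne', rfl⟩)
    rw [card_replicate] at this
    rw [card_replicate, Cs_replicate, min_eq_left this, sum_replicate, smul_eq_mul]
    exact le_of_eq (by ring)

theorem s_n2 (hn : S_nec) (hs : S_suf) (hm : S_min) (hg : S_glue) : S_n2 := by
  intro a b R hF ha hb hR hc
  by_contra ht
  obtain ⟨a, rfl⟩ : ∃ a', a = a' + 2 := ⟨a - 2, by omega⟩
  obtain ⟨-, h1⟩ := hm _ hF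
  have h2 := (h1 _ (mem_cons_self _ _)).2
  have h3 := (hn _ hF.1).1
  simp only [card_cons, card_add, card_replicate, sum_cons, sum_add, sum_replicate,
    smul_eq_mul, Nat.even_iff] at h2 h3
  have h4 : ∀ x ∈ a ::ₘ b ::ₘ R, 2 ≤ x ∧ x ≤ card R + 1 := by
    intro x hx
    rcases mem_cons.1 hx with rfl | hx
    · omega
    rcases mem_cons.1 hx with rfl | hx
    · exact ⟨(h1 _ (mem_cons_of_mem (mem_cons_self _ _))).1, hc⟩
    · exact ⟨(h1 _ (mem_cons_of_mem (mem_cons_of_mem (mem_add.2 (Or.inr hx))))).1,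
        (hR x hx).1.trans hc⟩
  have hT : ∀ e, a ≤ e → ∀ x ∈ e ::ₘ {b}, ∀ y ∈ R, y ≤ x := by
    intro e he x hx y hy
    have := hR y hy
    rcases mem_cons.1 hx with rfl | hx
    · omega
    · rw [mem_singleton.1 hx]
      exact this.1
  have hG : Gr (a ::ₘ b ::ₘ R) := by
    refine hs _ (by simp only [sum_cons, Nat.even_iff]; omega) fun K hK hB => ?_
    have h5 := sum_le_of_le fun x hx => (h4 x (mem_of_le hK hx)).2
    have h6 := fun j (hj : j ≤ 2) => Cs_ge (d := a ::ₘ b ::ₘ R) (j := j) (k := card K)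
      fun x hx => hj.trans (h4 x hx).1
    simp only [card_cons] at h6
    rcases (by omega : card K = 0 ∨ card K = 1 ∨ card K = 2 ∨ 2 < card K) with h | h | h | h
    · rw [h] at h5 ⊢
      omega
    · have := h6 1 (by omega) h.ge
      rw [h] at h5
      omega
    · have := h6 2 le_rfl h.ge
      have h7 := top_sum (hT a le_rfl) (K := K) (by simpa using hK) (by simp [h])
      simp only [sum_cons, sum_singleton] at h7
      omega
    · have e1 : (a ::ₘ {b}) + 0 + R = a ::ₘ b ::ₘ R := by simp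
      have e2 : ((a + 2) ::ₘ {b}) + replicate 2 2 + R = (a + 2) ::ₘ b ::ₘ (replicate 2 2 + R) := by
        rw [add_assoc, cons_add, singleton_add]
      obtain ⟨K', k1, k2, k3, k4, k5⟩ := transfer (Z := replicate 2 2) (Z' := 0) (by simp)
        (hT (a + 2) (by omega)) (hT a le_rfl) (e1.symm ▸ hK) hB (by simpa using h)
        (fun z hz => by rw [eq_of_mem_replicate hz]; omega) (by simp)
      rw [e1, e2] at k5
      rw [e2] at k1
      have h7 : ¬ Cs ((a + 2) ::ₘ b ::ₘ (replicate 2 2 + R)) (card K') ≤ K'.sum + card K' + 1 :=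
        fun h7 => ht ⟨K', k1, k2, by omega, h7⟩
      rw [k3] at h7
      simp only [sum_cons, sum_singleton, sum_replicate, smul_eq_mul, sum_zero] at k4 k5
      omega
  have := hg 2 a _ _ (comp_Ntwo hs 2) hG (by simp) (by simp)
  rw [add_cons, add_comm 2 a] at this
  exact this hF

theorem s_n3 (hn : S_nec) (hs : S_suf) (hm : S_min) (hg : S_glue) : S_n3 := by
  intro a b R hF ha hb hR hc
  by_contra ht
  obtain ⟨a, rfl⟩ : ∃ a', a = a' + 3 := ⟨a - 3, by omega⟩
  obtain ⟨-, h1⟩ := hm _ hF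
  have h2 := (h1 _ (mem_cons_self _ _)).2
  have h3 := (hn _ hF.1).1
  simp only [card_cons, card_add, card_replicate, sum_cons, sum_add, sum_replicate,
    smul_eq_mul, Nat.even_iff] at h2 h3
  have h4 : ∀ x ∈ a ::ₘ R, 2 ≤ x ∧ x ≤ card R := by
    intro x hx
    rcases mem_cons.1 hx with rfl | hx
    · omega
    · exact ⟨(h1 _ (mem_cons_of_mem (mem_add.2 (Or.inr hx)))).1, (hR x hx).trans (by omega)⟩
  have hT : ∀ e, a ≤ e → ∀ x ∈ ({e} : Multiset ℕ), ∀ y ∈ R, y ≤ x := by
    intro e he x hx y hy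
    have := hR y hy
    rw [mem_singleton.1 hx]
    omega
  have hG : Gr (a ::ₘ R) := by
    refine hs _ (by simp only [sum_cons, Nat.even_iff]; omega) fun K hK hB => ?_
    have h5 := sum_le_of_le fun x hx => (h4 x (mem_of_le hK hx)).2
    have h6 := fun j (hj : j ≤ 2) => Cs_ge (d := a ::ₘ R) (j := j) (k := card K)
      fun x hx => hj.trans (h4 x hx).1
    simp only [card_cons] at h6
    rcases (by omega : card K = 0 ∨ card K = 1 ∨ (card K = 2 ∨ card K = 3) ∨ 3 < card K)
      with h | h | h | h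
    · rw [h] at h5 ⊢
      omega
    · have := h6 1 (by omega) h.ge
      rw [h] at h5
      omega
    · have := h6 2 le_rfl (by omega)
      obtain ⟨B, b1, -, b3, b4⟩ := exch (hT a le_rfl) (K := K) (by simpa using hK)
        (by rw [card_singleton]; omega)
      have b5 := sum_le_of_le fun x hx => hR x (mem_of_le b1 hx)
      rw [card_singleton] at b3
      rw [sum_singleton] at b4
      rcases (by omega : card B = 1 ∨ card B = 2) with e | e <;> rw [e] at b5 <;> omega
    · have e1 : {a} + 0 + R = a ::ₘ R := by simp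
      have e2 : {a + 3} + replicate 3 3 + R = (a + 3) ::ₘ (replicate 3 3 + R) := by
        rw [add_assoc, singleton_add]
      obtain ⟨K', k1, k2, k3, k4, k5⟩ := transfer (Z := replicate 3 3) (Z' := 0) (by simp)
        (hT (a + 3) (by omega)) (hT a le_rfl) (e1.symm ▸ hK) hB (by rw [card_singleton]; omega)
        (fun z hz => by rw [eq_of_mem_replicate hz]; omega) (by simp)
      rw [e1, e2] at k5
      rw [e2] at k1
      have h7 : ¬ Cs ((a + 3) ::ₘ (replicate 3 3 + R)) (card K') ≤ K'.sum + card K' + 5 :=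
        fun h7 => ht ⟨K', k1, k2, by omega, h7⟩
      rw [k3] at h7
      simp only [sum_singleton, sum_replicate, smul_eq_mul, sum_zero] at k4 k5
      omega
  have := hg 3 a _ _ (comp_Ntwo hs 3) hG (by simp) (by rintro rfl; simp at hc)
  rw [add_comm 3 a] at this
  exact this hF

theorem s_cover (hm : S_min) (h2 : S_n2) : S_cover := by
  intro n Δ d hΔ hd hs ht
  obtain ⟨-, -, h3, hF⟩ := mem_Lf.1 hd
  obtain ⟨h4, h5⟩ := hm d hF
  obtain ⟨R, e, -, h6, h7⟩ := exists_top3 h4
  rw [h3] at e h6 h7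
  generalize sec (Δ + 1) d = b at e h6 hs
  have h8 : ∀ y ∈ thi (Δ + 1) d ::ₘ R, y ≤ b := fun y hy => by
    rcases mem_cons.1 hy with rfl | hy
    · exact h6
    · exact (h7 y hy).trans h6
  generalize thi (Δ + 1) d ::ₘ R = R' at e h8
  subst e
  by_contra hc
  have h9 := (h5 _ (mem_cons_self _ _)).2
  simp only [card_cons] at h9
  have h10 : 2 ≤ count 2 R' := by
    by_cases hb : b = 2
    · rw [count_eq_card.2 fun y hy => le_antisymm
        (h5 y (mem_cons_of_mem (mem_cons_of_mem hy))).1 (hb ▸ h8 y hy)]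
      omega
    · rw [count_cons_of_ne (by omega), count_cons_of_ne (Ne.symm hb)] at hc
      omega
  obtain ⟨R₁, rfl⟩ := exists_replicate h10
  rw [card_add, card_replicate] at h9
  refine ht (h2 _ _ _ hF (by omega) (by omega) (fun y hy => ?_) (by omega))
  have := h8 y (mem_add.2 (Or.inr hy))
  omega

end Pool.Agent.MP_dbdb85_co

end

section

namespace Pool.Agent.MP_dbdb85_co
open Multiset

lemma cs_Split {d : Multiset ℕ} {a k : ℕ} (h : ∀ x ∈ d, x ≤ a) (hk : k ≤ a) :
    k * d.sum ≤ a * Cs d k := by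
  induction d using Multiset.induction_on with
  | empty => simp
  | cons x d ih =>
    have h1 := ih fun y hy => h y (mem_cons_of_mem hy)
    have h2 := h x (mem_cons_self _ _)
    rw [sum_cons, Cs_cons, mul_add, mul_add]
    refine add_le_add ?_ h1
    rcases le_total k x with h3 | h3
    · rw [min_eq_left h3, mul_comm]; exact Nat.mul_le_mul_right _ h2
    · rw [min_eq_right h3]; exact Nat.mul_le_mul_right _ hk

lemma gr_Split (hs : S_suf) {d : Multiset ℕ} {a : ℕ} (h : ∀ x ∈ d, x ≤ a) (he : Even d.sum)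
    (ht : a * (a + 1) ≤ d.sum) : Gr d := by
  refine hs d he fun K hK hb => ?_
  rcases Nat.eq_zero_or_pos (card K) with h0 | h0
  · simp [card_eq_zero.1 h0]
  obtain ⟨x, hx⟩ := card_pos_iff_exists_mem.1 h0
  have h1 : card K ≤ a := (hb x hx).trans (h x (mem_of_le hK hx))
  have h2 := sum_le_of_le fun y hy => h y (mem_of_le hK hy)
  have h3 := (Nat.mul_le_mul_left (card K) ht).trans (cs_Split h h1)
  rw [mul_left_comm] at h3
  have h4 := Nat.le_of_mul_le_mul_left h3 (by omega)
  rw [mul_add, mul_one] at h4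
  omega

lemma greedy_Split {d : Multiset ℕ} {a t : ℕ} (h : ∀ x ∈ d, x ≤ a) (ht : t ≤ d.sum) :
    ∃ A B, d = A + B ∧ t ≤ A.sum ∧ A.sum ≤ t + a := by
  induction d using Multiset.induction_on with
  | empty => exact ⟨0, 0, rfl, ht, by simp⟩
  | cons x d ih =>
    have h2 := h x (mem_cons_self _ _)
    rcases le_total t d.sum with h3 | h3
    · obtain ⟨A, B, e, h4⟩ := ih (fun y hy => h y (mem_cons_of_mem hy)) h3
      exact ⟨A, x ::ₘ B, by rw [e, add_cons], h4⟩
    · exact ⟨x ::ₘ d, 0, by simp, ht, by rw [sum_cons]; omega⟩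

lemma odd_Split {B : Multiset ℕ} (h : ¬ Even B.sum) : ∃ x ∈ B, ¬ Even x := by
  by_contra h1
  exact h (even_iff_two_dvd.2 (Multiset.dvd_sum fun x hx =>
    even_iff_two_dvd.1 (not_not.1 fun h2 => h1 ⟨x, hx, h2⟩)))

theorem s_split (hs : S_suf) (hn : S_nec) (ho : S_ops) (hm : S_min) (hg : S_glue) : S_split := by
  intro a d hd ha
  by_contra h
  have he := (hn d hd.1).1
  have a2 : 2 ≤ a := by
    obtain ⟨x, hx⟩ := card_pos_iff_exists_mem.1 (show 0 < card d by have := (hm d hd).1; omega)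
    exact ((hm d hd).2 x hx).1.trans (ha x hx)
  have e1 : 2 * (a + 1) ^ 2 = 2 * (a * (a + 1)) + 2 * a + 2 := by ring
  have e2 : 3 * a ≤ a * (a + 1) := by nlinarith
  have key : ∀ A B, d = A + B → Even A.sum → a * (a + 1) ≤ A.sum → a * (a + 1) ≤ B.sum →
      False := by
    rintro A B rfl h1 h2 h3
    rw [sum_add] at he
    have g1 := gr_Split hs (fun x hx => ha x (mem_add.2 (Or.inl hx))) h1 h2
    have g2 := gr_Split hs (fun x hx => ha x (mem_add.2 (Or.inr hx))) ((Nat.even_add.1 he).1 h1) h3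
    obtain ⟨x, hx⟩ := exists_mem_of_ne_zero (s := B) (by rintro rfl; simp at h3; omega)
    have h4 := ha x (mem_add.2 (Or.inr hx))
    obtain ⟨B', rfl⟩ := exists_cons_of_mem hx
    refine hg 0 x A B' (ho.2.1 A g1) g2 (by rintro rfl; simp at h2; omega) (by
      rintro rfl
      rw [sum_cons, sum_zero] at h3
      omega) ?_
    rwa [zero_add, ← add_cons]
  obtain ⟨A, B, e, h1, h2⟩ := greedy_Split (t := a * (a + 1)) ha (by omega)
  have e3 : d.sum = A.sum + B.sum := by rw [e, sum_add]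
  by_cases h3 : Even A.sum
  · exact key A B e h3 h1 (by omega)
  · obtain ⟨x, hx, h4⟩ := odd_Split (B := B) fun h4 => h3 ((Nat.even_add.1 (e3 ▸ he)).2 h4)
    have h5 := ha x (e ▸ mem_add.2 (Or.inr hx))
    obtain ⟨B', rfl⟩ := exists_cons_of_mem hx
    rw [sum_cons] at e3
    refine key (x ::ₘ A) B' (by rw [e, add_cons, cons_add]) ?_ ?_ (by omega)
    · rw [sum_cons]; exact Nat.even_add.2 (iff_of_false h4 h3)
    · rw [sum_cons]; omega

theorem s_big : S_big := by
  classical
  intro Q h m hQ hm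
  have c : Q.choose h = (Finset.powersetCard h (Finset.Ioc Q (2 * Q))).card := by
    rw [Finset.card_powersetCard, Nat.card_Ioc]
    congr 1
    omega
  rw [c, Pq, ← Finset.card_product]
  have rec1 : ∀ p ∈ Finset.powersetCard h (Finset.Ioc Q (2 * Q)) ×ˢ
      (Par (m - 2 * h * Q)).filter (fun d => ∀ x ∈ d, x ≤ Q),
      (p.1.val + p.2 + replicate (2 * h * Q - p.1.val.sum) 1).filter (Q < ·) = p.1.val := by
    intro p hp
    obtain ⟨h1, h2⟩ := Finset.mem_product.1 hp
    rw [filter_add, filter_add, filter_eq_self.2 fun x hx =>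
      (Finset.mem_Ioc.1 ((Finset.mem_powersetCard.1 h1).1 hx)).1,
      filter_eq_nil.2 fun x hx => not_lt.2 ((Finset.mem_filter.1 h2).2 x hx),
      filter_eq_nil.2 fun x hx => by rw [eq_of_mem_replicate hx]; omega, add_zero, add_zero]
  refine Finset.card_le_card_of_injOn
    (fun p => p.1.val + p.2 + replicate (2 * h * Q - p.1.val.sum) 1) (fun p hp => ?_)
    fun p hp p' hp' e => ?_
  · obtain ⟨h1, h2⟩ := Finset.mem_product.1 hp
    obtain ⟨h3, h4⟩ := Finset.mem_powersetCard.1 h1
    obtain ⟨h5, h6⟩ := mem_Par.1 (Finset.mem_filter.1 h2).1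
    have h7 := sum_le_of_le (d := p.1.val) fun x hx => (Finset.mem_Ioc.1 (h3 hx)).2
    rw [Finset.card_val, h4, mul_left_comm, ← mul_assoc] at h7
    refine mem_Par.2 ⟨fun x hx => ?_, ?_⟩
    · rcases mem_add.1 hx with hx | hx
      · rcases mem_add.1 hx with hx | hx
        · exact (Nat.zero_le Q).trans_lt (Finset.mem_Ioc.1 (h3 hx)).1
        · exact h5 x hx
      · rw [eq_of_mem_replicate hx]; exact one_pos
    · rw [sum_add, sum_add, sum_replicate, h6, smul_eq_mul, mul_one]
      omega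
  · have e1 : p.1 = p'.1 := Finset.val_injective (by
      rw [← rec1 p hp, ← rec1 p' hp']
      exact congrArg _ e)
    simp only [e1] at e
    exact Prod.ext e1 (add_left_cancel (add_right_cancel e))

end Pool.Agent.MP_dbdb85_co

end
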