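import Pool.Agent.MP_dbdb85_co.Defs

section

namespace Pool.Agent.MP_dbdb85_co

open Multiset

open Classical in
theorem closed_Dense {V : Type} [Fintype V] (G : SimpleGraph V) (z : V) (C : Finset V)
    (hC : ∀ a ∈ C, ∀ x, G.Adj a x → x ∈ C ∨ x = z) (v : V) (hv : v ∈ C) :
    (G.neighborSet v).ncard + 1 ≤ C.card + if G.Adj z v then 1 else 0 := by
  have h0 := Finset.card_erase_add_one hv
  split_ifs with h
  · have h1 : G.neighborSet v ⊆ (insert z (C.erase v) : Finset V) := by
      intro x hx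
      rcases hC v hv x hx with h2 | h2
      · exact Finset.mem_coe.2 (Finset.mem_insert_of_mem
          (Finset.mem_erase.2 ⟨(G.ne_of_adj hx).symm, h2⟩))
      · exact Finset.mem_coe.2 (Finset.mem_insert.2 (Or.inl h2))
    have h2 := Set.ncard_le_ncard h1 (Finset.finite_toSet _)
    rw [Set.ncard_coe_finset] at h2
    have h3 := Finset.card_insert_le z (C.erase v)
    omega
  · have h1 : G.neighborSet v ⊆ (C.erase v : Finset V) := by
      intro x hx
      rcases hC v hv x hx with h2 | h2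
      · exact Finset.mem_coe.2 (Finset.mem_erase.2 ⟨(G.ne_of_adj hx).symm, h2⟩)
      · exact absurd (h2 ▸ SimpleGraph.Adj.symm hx) h
    have h2 := Set.ncard_le_ncard h1 (Finset.finite_toSet _)
    rw [Set.ncard_coe_finset] at h2
    omega

open Classical in
theorem sum_Dense {V : Type} [Fintype V] (G : SimpleGraph V) (z : V) (C : Finset V)
    (hC : ∀ a ∈ C, ∀ x, G.Adj a x → x ∈ C ∨ x = z) :
    ∑ v ∈ C, (G.neighborSet v).ncard + C.card ≤
      C.card * C.card + (C.filter fun v => G.Adj z v).card := by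
  have h := Finset.sum_le_sum fun v hv => closed_Dense G z C hC v hv
  rw [Finset.sum_add_distrib, Finset.sum_add_distrib, ← Finset.card_filter] at h
  simpa using h

theorem s_dense (hc : S_cut) : S_dense := by
  classical
  intro Δ d hd h3 hx hp hs
  refine ⟨hd, fun V _ G hG => ?_⟩
  have hdeg : ∀ v, Δ ≤ (G.neighborSet v).ncard + 1 ∧ (G.neighborSet v).ncard ≤ Δ := by
    intro v
    refine hx _ ?_
    rw [← hG]
    exact mem_map.2 ⟨v, Finset.mem_univ v, rfl⟩
  have hcard : card d = Fintype.card V := by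
    rw [← hG, degs, card_map]
    rfl
  have hsum : d.sum = ∑ v, (G.neighborSet v).ncard := by
    rw [← hG]
    rfl
  rcases isEmpty_or_nonempty V with hV | hV
  · rw [hsum] at hs
    simp at hs
  refine hc V G (fun v => by have := hdeg v; omega) fun z A hz hA hcl b hb => ?_
  by_contra hbA
  set B := Finset.univ \ insert z A with hB
  have hmem : ∀ x, x ∈ B ↔ x ≠ z ∧ x ∉ A := by
    intro x
    simp [hB]
  have hclB : ∀ a ∈ B, ∀ x, G.Adj a x → x ∈ B ∨ x = z := by
    intro a ha x hax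
    obtain ⟨h1, h2⟩ := (hmem a).1 ha
    by_cases hxz : x = z
    · exact Or.inr hxz
    · refine Or.inl ((hmem x).2 ⟨hxz, fun hxA => ?_⟩)
      rcases hcl x hxA a hax.symm with h | h
      · exact h2 h
      · exact h1 h
  have e1 : B.card + (A.card + 1) = Fintype.card V := by
    rw [← Finset.card_insert_of_notMem hz, hB,
      Finset.card_sdiff_add_card_eq_card (Finset.subset_univ _), Finset.card_univ]
  have e2 : ∑ v ∈ B, (G.neighborSet v).ncard +
      ((G.neighborSet z).ncard + ∑ v ∈ A, (G.neighborSet v).ncard) =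
      ∑ v, (G.neighborSet v).ncard := by
    rw [← Finset.sum_insert (f := fun v => (G.neighborSet v).ncard) hz, hB,
      Finset.sum_sdiff (Finset.subset_univ _)]
  have e3 : (A.filter fun v => G.Adj z v).card + (B.filter fun v => G.Adj z v).card ≤
      (G.neighborSet z).ncard := by
    rw [← Finset.card_union_of_disjoint (Finset.disjoint_left.2 fun x h1 h2 =>
      ((hmem x).1 (Finset.mem_filter.1 h2).1).2 (Finset.mem_filter.1 h1).1),
      ← Set.ncard_coe_finset]
    refine Set.ncard_le_ncard (fun x h1 => ?_) (Set.toFinite _)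
    rcases Finset.mem_union.1 (Finset.mem_coe.1 h1) with h | h <;>
      exact (Finset.mem_filter.1 h).2
  have e4 := sum_Dense G z A hcl
  have e5 := sum_Dense G z B hclB
  have e6 : Δ ≤ A.card + 1 := by
    obtain ⟨v, hv⟩ := hA
    have h1 := closed_Dense G z A hcl v hv
    have h2 := hdeg v
    split_ifs at h1 <;> omega
  have e7 : Δ ≤ B.card + 1 := by
    have h1 := closed_Dense G z B hclB b ((hmem b).2 ⟨hb, hbA⟩)
    have h2 := hdeg b
    split_ifs at h1 <;> omega
  have e8 := (hdeg z).2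
  have e9 : card d - 1 = A.card + B.card := by omega
  rw [e9] at hs
  have e10 : d.sum + A.card + B.card ≤ A.card * A.card + B.card * B.card + 2 * Δ := by omega
  obtain ⟨m, rfl⟩ : ∃ m, Δ = m + 3 := ⟨Δ - 3, by omega⟩
  generalize A.card = a at *
  generalize B.card = c at *
  have : (a = m + 2 ∧ c = m + 2) ∨ (a = m + 3 ∧ c = m + 2) ∨ (a = m + 2 ∧ c = m + 3) := by omega
  rcases this with ⟨rfl, rfl⟩ | ⟨rfl, rfl⟩ | ⟨rfl, rfl⟩ <;> nlinarith

theorem s_join (ho : S_ops) (h2 : S_two) : S_join := by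
  intro d hd h0
  have h1 := ho.2.2.1 _ (ho.2.2.1 d hd)
  rw [card_cons, card_map, map_cons, map_map] at h1
  have h3 : 0 < card d := card_pos.2 h0
  refine h2 _ _ _ h1 ?_ (by simp) (by simp)
  intro x hx
  simp only [mem_cons, mem_map] at hx
  rcases hx with rfl | rfl | ⟨y, -, rfl⟩ <;> omega

theorem s_near (hs : S_suf) : S_near := by
  intro p q t ht hq he
  have hsum : (replicate t (q + 1) + replicate (p - t) q).sum = p * q + t := by
    obtain ⟨u, rfl⟩ := Nat.exists_eq_add_of_le ht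
    simp only [sum_add, sum_replicate, smul_eq_mul, Nat.add_sub_cancel_left]
    ring
  have hmem : ∀ x ∈ replicate t (q + 1) + replicate (p - t) q, q ≤ x ∧ x ≤ q + 1 := by
    intro x hx
    rcases mem_add.1 hx with h | h <;> have := eq_of_mem_replicate h <;> omega
  refine hs _ (hsum ▸ he) fun K hK hb => ?_
  rcases Nat.eq_zero_or_pos (card K) with h0 | h0
  · rw [card_eq_zero.1 h0]
    simp
  have h1 : K.sum ≤ card K * (q + 1) := sum_le_of_le fun x hx => (hmem x (mem_of_le hK hx)).2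
  by_cases hk : card K ≤ q
  · rw [Cs_of_ge fun x hx => hk.trans (hmem x hx).1, card_add, card_replicate, card_replicate,
      Nat.add_sub_cancel' ht]
    nlinarith
  · obtain ⟨x, hx⟩ := card_pos_iff_exists_mem.1 h0
    have h2 : card K = q + 1 := by
      have := hb x hx
      have := (hmem x (mem_of_le hK hx)).2
      omega
    have h3 : K ≤ replicate t (q + 1) := by
      refine le_of_le_add (Z := replicate (p - t) q) (by rwa [add_comm]) fun z hz hz' => ?_
      have := eq_of_mem_replicate hz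
      have := hb z hz'
      omega
    have h4 := card_le_card h3
    rw [card_replicate, h2] at h4
    rw [Cs_of_le fun y hy => h2 ▸ (hmem y hy).2, hsum, h2]
    rw [h2] at h1
    have h5 : (q + 2) * q ≤ p * q := Nat.mul_le_mul_right q hq
    obtain ⟨u, hu⟩ := he
    obtain ⟨w, hw⟩ := Nat.even_mul_succ_self q
    have h6 : (q + 2) * q = w + w + q := by rw [← hw]; ring
    have h7 : (q + 1) * (q + 1) = w + w + q + 1 := by rw [← hw]; ring
    omega

end Pool.Agent.MP_dbdb85_co

end

section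

namespace Pool.Agent.MP_dbdb85_co

open Multiset

/-- remove the first `j` columns -/
def nu_Afive (j : ℕ) (X : Multiset ℕ) : Multiset ℕ := (X.filter (j < ·)).map (· - j)

theorem card_Afive (j : ℕ) (X : Multiset ℕ) : card (nu_Afive j X) = cn X (j + 1) := by
  rw [nu_Afive, card_map]
  rfl

theorem mem_Afive {j x : ℕ} {X : Multiset ℕ} (hx : x ∈ X) (h : j < x) : x - j ∈ nu_Afive j X :=
  mem_map.2 ⟨x, mem_filter.2 ⟨hx, h⟩, rfl⟩

theorem pos_Afive (j : ℕ) (X : Multiset ℕ) : ∀ x ∈ nu_Afive j X, 0 < x := by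
  intro x hx
  obtain ⟨y, hy, rfl⟩ := mem_map.1 hx
  exact Nat.sub_pos_of_lt (mem_filter.1 hy).2

theorem sum_Afive {j : ℕ} {X : Multiset ℕ} (h : ∀ x ∈ X, j ≤ x) :
    X.sum = j * card X + (nu_Afive j X).sum := by
  induction X using Multiset.induction_on with
  | empty => simp [nu_Afive]
  | cons a X ih =>
    have h1 := h a (mem_cons_self _ _)
    have h2 := ih fun x hx => h x (mem_cons_of_mem hx)
    rw [nu_Afive] at h2 ⊢
    rw [sum_cons, card_cons, mul_add, mul_one, filter_cons]
    split_ifs with h3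
    · rw [singleton_add, map_cons, sum_cons]
      omega
    · rw [zero_add]
      omega

theorem eq_Afive {j : ℕ} {X : Multiset ℕ} (h : ∀ x ∈ X, j ≤ x) :
    X = (nu_Afive j X).map (· + j) + replicate (card X - card (nu_Afive j X)) j := by
  have h1 : (nu_Afive j X).map (· + j) = X.filter (j < ·) := by
    rw [nu_Afive, map_map]
    refine (map_congr rfl fun x hx => ?_).trans (map_id' _)
    exact Nat.sub_add_cancel (mem_filter.1 hx).2.le
  have h2 := filter_add_not (j < ·) X
  have h3 : X.filter (fun a => ¬ j < a) = replicate (card X - card (nu_Afive j X)) j := by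
    refine eq_replicate.2 ⟨?_, fun b hb => ?_⟩
    · have := congrArg card h2
      rw [card_add] at this
      rw [nu_Afive, card_map]
      omega
    · obtain ⟨h4, h5⟩ := mem_filter.1 hb
      exact le_antisymm (not_lt.1 h5) (h b h4)
  rw [h1, ← h3, h2]

theorem count_Afive {n a k j N w : ℕ} {A : Multiset ℕ → Prop} (hj : 0 < j) (T : ℕ → Multiset ℕ)
    (h : ∀ d ∈ Lf n a, A d → ∃ i < k, ∃ Y, d = T i + Y ∧ (∀ y ∈ Y, j ≤ y) ∧
      nu_Afive j Y ∈ Out N w) : Lc n a A ≤ k * (Out N w).card := by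
  classical
  rw [Lc, ← Finset.card_range k, ← Finset.card_product]
  refine Finset.card_le_card_of_forall_subsingleton (fun d p => ∃ Y, d = T p.1 + Y ∧ d.sum = n ∧
    (∀ y ∈ Y, j ≤ y) ∧ nu_Afive j Y = p.2) (fun d hd => ?_) ?_
  · obtain ⟨h1, h2⟩ := Finset.mem_filter.1 hd
    obtain ⟨i, hi, Y, h3, h4, h5⟩ := h d h1 h2
    exact ⟨(i, nu_Afive j Y), Finset.mem_product.2 ⟨Finset.mem_range.2 hi, h5⟩, Y, h3,
      (mem_Lf.1 h1).2.1, h4, rfl⟩
  · rintro p - _ ⟨-, Y, rfl, h1, h2, h3⟩ _ ⟨-, Y', rfl, h4, h5, h6⟩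
    have e : card Y = card Y' := by
      rw [sum_add, sum_Afive h2, h3] at h1
      rw [sum_add, sum_Afive h5, h6] at h4
      exact Nat.eq_of_mul_eq_mul_left hj (by omega)
    rw [eq_Afive h2, eq_Afive h5, h3, h6, e]

theorem out_Afive {N w : ℕ} {d : Multiset ℕ} (h1 : ∀ x ∈ d, 0 < x) (h2 : d.sum ≤ N)
    (h3 : (∃ x ∈ d, w ≤ x) ∨ w ≤ card d ∨ d.sum + w ≤ N) : d ∈ Out N w := by
  classical
  exact Finset.mem_filter.2 ⟨mem_Ple.2 ⟨h1, h2⟩, h3⟩

theorem cn_cons_Afive (a y : ℕ) (X : Multiset ℕ) : cn (a ::ₘ X) y ≤ cn X y + 1 := by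
  rw [cn, cn, filter_cons]
  split_ifs <;> simp [add_comm]

theorem s_A5 (hm : S_min) : S_A5 := by
  intro n Δ w hw
  refine count_Afive (j := 2) (by norm_num) (fun i => (Δ + 1) ::ₘ {Δ + 1 - i}) ?_
  rintro d hd ⟨h1, h2⟩
  obtain ⟨-, hs, hu, hf⟩ := mem_Lf.1 hd
  obtain ⟨hc, hx⟩ := hm d hf
  obtain ⟨R, e, h3, -, -⟩ := exists_top3 hc
  rw [hu] at e h3
  generalize sec (Δ + 1) d = b at *
  generalize thi (Δ + 1) d = c at *
  have hc' : c ∈ c ::ₘ R := mem_cons_self _ _
  generalize c ::ₘ R = X at *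
  subst e
  have hX : ∀ y ∈ X, 2 ≤ y := fun y hy => (hx y (mem_cons_of_mem (mem_cons_of_mem hy))).1
  have h4 := (hx _ (mem_cons_self _ _)).2
  have h5 := sum_Afive hX
  have h6 := (cn_cons_Afive (Δ + 1) 3 (b ::ₘ X)).trans
    (Nat.succ_le_succ (cn_cons_Afive b 3 X))
  have h7 := card_Afive 2 X
  simp only [sum_cons, card_cons, Nat.reduceAdd] at hs h4 h2 h7
  refine ⟨Δ + 1 - b, by omega, X, ?_, hX, out_Afive (pos_Afive _ _) (by omega) ?_⟩
  · rw [Nat.sub_sub_self h3, cons_add, singleton_add]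
  · rcases h2 with h2 | h2 | h2
    · exact Or.inl ⟨c - 2, mem_Afive hc' (by omega), by omega⟩
    · exact Or.inr (Or.inl (by omega))
    · exact Or.inr (Or.inr (by omega))

theorem s_A6 (hm : S_min) : S_A6 := by
  intro n Δ w hw hΔ
  refine count_Afive (j := 3) (by norm_num) (fun i => (Δ + 1) ::ₘ replicate i 2) ?_
  rintro d hd ⟨h1, h2⟩
  obtain ⟨-, hs, hu, hf⟩ := mem_Lf.1 hd
  obtain ⟨hc, hx⟩ := hm d hf
  obtain ⟨R, e, -, -, -⟩ := exists_top3 hc
  rw [hu] at e
  generalize sec (Δ + 1) d = b at *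
  have hb : b ∈ b ::ₘ thi (Δ + 1) d ::ₘ R := mem_cons_self _ _
  generalize b ::ₘ thi (Δ + 1) d ::ₘ R = X at *
  subst e
  rw [count_cons_of_ne (by omega)] at h1
  obtain ⟨Y, hY⟩ := exists_replicate (le_refl (count 2 X))
  have h0 : count 2 Y = 0 := by
    have := congrArg (count 2) hY
    rw [count_add, count_replicate_self] at this
    omega
  generalize count 2 X = m at *
  subst hY
  have hX : ∀ y ∈ Y, 3 ≤ y := fun y hy => by
    have h3 := (hx y (mem_cons_of_mem (mem_add.2 (Or.inr hy)))).1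
    have h4 : y ≠ 2 := fun e => count_eq_zero.1 h0 (e ▸ hy)
    omega
  have h4 := (hx _ (mem_cons_self _ _)).2
  have h5 := sum_Afive hX
  have h6 := cn_cons_Afive (Δ + 1) 4 (replicate m 2 + Y)
  have h8 : cn (replicate m 2 + Y) 4 = cn Y 4 := by
    rw [cn, cn, filter_add, filter_eq_nil.2 fun a ha => by rw [eq_of_mem_replicate ha]; omega,
      zero_add]
  have h7 := card_Afive 3 Y
  simp only [sum_cons, card_cons, Nat.reduceAdd, sum_add, card_add, sum_replicate, card_replicate,
    smul_eq_mul] at hs h4 h2 h7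
  refine ⟨m, by omega, Y, (cons_add _ _ _).symm, hX, out_Afive (pos_Afive _ _) (by omega) ?_⟩
  rcases h2 with h2 | h2 | h2
  · refine Or.inl ⟨b - 3, mem_Afive ((mem_add.1 hb).resolve_left fun h => ?_) (by omega), by omega⟩
    have := eq_of_mem_replicate h
    omega
  · exact Or.inr (Or.inl (by omega))
  · exact Or.inr (Or.inr (by omega))

end Pool.Agent.MP_dbdb85_co

end

section

namespace Pool.Agent.MP_dbdb85_co

open Multiset

theorem s_mono : S_mono := by
  intro Q m m' hQ hm
  refine Finset.card_le_card_of_injOn (fun d => d + replicate (m' - m) 1) ?_ ?_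
  · intro d hd
    obtain ⟨h1, h2⟩ := Finset.mem_filter.1 (Finset.mem_coe.1 hd)
    obtain ⟨h3, h4⟩ := mem_Par.1 h1
    refine Finset.mem_coe.2 (Finset.mem_filter.2 ⟨mem_Par.2 ⟨fun x hx => ?_, ?_⟩, fun x hx => ?_⟩)
    · rcases mem_add.1 hx with hx | hx
      · exact h3 x hx
      · rw [eq_of_mem_replicate hx]
        exact one_pos
    · rw [sum_add, sum_replicate, h4, smul_eq_mul]
      omega
    · rcases mem_add.1 hx with hx | hx
      · exact h2 x hx
      · rw [eq_of_mem_replicate hx]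
        exact hQ
  · intro d _ e _ h
    exact add_right_cancel h

theorem cons_Decay {Q m i : ℕ} (h0 : 0 < i) (hQ : i ≤ Q) (hm : i ≤ m) :
    Pq Q (m - i) ≤ (((Par m).filter fun d => ∀ x ∈ d, x ≤ Q).filter fun d => i ∈ d).card := by
  refine Finset.card_le_card_of_injOn (fun d => i ::ₘ d) ?_ ?_
  · intro d hd
    obtain ⟨h1, h2⟩ := Finset.mem_filter.1 (Finset.mem_coe.1 hd)
    obtain ⟨h3, h4⟩ := mem_Par.1 h1
    refine Finset.mem_coe.2 (Finset.mem_filter.2 ⟨Finset.mem_filter.2
      ⟨mem_Par.2 ⟨fun x hx => ?_, ?_⟩, fun x hx => ?_⟩, mem_cons_self _ _⟩)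
    · rcases mem_cons.1 hx with rfl | hx
      · exact h0
      · exact h3 x hx
    · rw [sum_cons, h4]
      omega
    · rcases mem_cons.1 hx with rfl | hx
      · exact hQ
      · exact h2 x hx
  · intro d _ e _ h
    exact (cons_inj_right i).1 h

theorem step_Decay (h : S_mono) {Q m J : ℕ} (h1 : 1 ≤ J) (hQ : J ≤ Q) (hm : J ≤ m)
    (h4 : 4 * m ≤ J ^ 2) : 2 * Pq Q (m - J) ≤ Pq Q m := by
  have e1 : ∑ i ∈ Finset.range (J + 1), i * Pq Q (m - J) ≤ ∑ i ∈ Finset.range (J + 1),
      ∑ d ∈ (Par m).filter (fun d => ∀ x ∈ d, x ≤ Q), if i ∈ d then i else 0 := by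
    refine Finset.sum_le_sum fun i hi => ?_
    have hi' := Finset.mem_range.1 hi
    rcases Nat.eq_zero_or_pos i with rfl | h0
    · rw [zero_mul]
      exact Nat.zero_le _
    · rw [← Finset.sum_filter, Finset.sum_const, smul_eq_mul, mul_comm]
      exact Nat.mul_le_mul_right _ ((h Q _ _ (by omega) (by omega)).trans
        (cons_Decay h0 (by omega) (by omega)))
  have e2 : ∑ d ∈ (Par m).filter (fun d => ∀ x ∈ d, x ≤ Q), ∑ i ∈ Finset.range (J + 1),
      (if i ∈ d then i else 0) ≤ Pq Q m * m := by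
    rw [Pq, ← smul_eq_mul]
    refine Finset.sum_le_card_nsmul _ _ _ fun d hd => ?_
    rw [← Finset.sum_filter, ← (mem_Par.1 (Finset.mem_filter.1 hd).1).2]
    have : ((Finset.range (J + 1)).filter fun i => i ∈ d).val ≤ d :=
      (le_iff_subset (Finset.nodup _)).2 fun i hi =>
        (Finset.mem_filter.1 (Finset.mem_def.2 hi)).2
    obtain ⟨t, ht⟩ := Multiset.le_iff_exists_add.1 this
    have e := congrArg Multiset.sum ht
    rw [sum_add] at e
    rw [e, Finset.sum, map_id']
    exact Nat.le_add_right _ _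
  rw [Finset.sum_comm, ← Finset.sum_mul] at e1
  have e3 := Finset.sum_range_id_mul_two (J + 1)
  rw [Nat.add_sub_cancel] at e3
  generalize ∑ i ∈ Finset.range (J + 1), i = s at e1 e3
  have e4 : 2 * m ≤ s := by nlinarith
  have e5 := (Nat.mul_le_mul_right (Pq Q (m - J)) e4).trans (e1.trans e2)
  refine Nat.le_of_mul_le_mul_right ?_ (show 0 < m by omega)
  nlinarith

theorem s_decay (h : S_mono) : S_decay := by
  intro Q M J t h1 hQ h4 ht
  induction t with
  | zero => simp
  | succ t ih =>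
    rw [add_mul, one_mul] at ht
    refine le_trans ?_ (ih (by omega))
    rw [pow_succ, mul_assoc, add_mul, one_mul, ← Nat.sub_sub]
    exact Nat.mul_le_mul_left _ (step_Decay h h1 hQ (by omega) (by omega))

theorem ple_Decay (h : S_mono) (M : ℕ) : (Ple M).card ≤ (M + 1) * P M := by
  refine Finset.card_biUnion_le.trans ((Finset.sum_le_card_nsmul _ _ (P M) fun m hm => ?_).trans
    (by rw [Finset.card_range, smul_eq_mul]))
  have hm' := Finset.mem_range.1 hm
  have := h (M + 1) m M (by omega) (by omega)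
  rwa [Pq_eq (by omega), Pq_eq (by omega)] at this

theorem col_Decay (d : Multiset ℕ) (hd : ∀ x ∈ d, 0 < x) :
    ∃ (k : ℕ) (ν : Multiset ℕ), (∀ x ∈ ν, 0 < x) ∧ ν.map (· + 1) + replicate k 1 = d ∧
      ν.sum + card d = d.sum ∧ k ≤ d.sum := by
  induction d using Multiset.induction_on with
  | empty => exact ⟨0, 0, by simp, by simp, by simp, le_rfl⟩
  | cons a d ih =>
    obtain ⟨k, ν, h1, h2, h3, h4⟩ := ih fun x hx => hd x (mem_cons_of_mem hx)
    obtain ⟨b, rfl⟩ := Nat.exists_eq_add_one_of_ne_zero (hd a (mem_cons_self _ _)).ne'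
    rw [sum_cons, card_cons]
    rcases Nat.eq_zero_or_pos b with rfl | hb
    · exact ⟨k + 1, ν, h1, by rw [replicate_succ, add_cons, h2], by omega, by omega⟩
    · refine ⟨k, b ::ₘ ν, fun x hx => ?_, by rw [map_cons, cons_add, h2],
        by rw [sum_cons]; omega, by omega⟩
      rcases mem_cons.1 hx with rfl | hx
      · exact hb
      · exact h1 x hx

theorem s_out (h : S_mono) : S_out := by
  intro N w
  have hmem : ∀ d ∈ Out N w, (∀ x ∈ d, 0 < x) ∧ d.sum ≤ N ∧
      ((∃ x ∈ d, w ≤ x) ∨ w ≤ card d ∨ d.sum + w ≤ N) := fun d hd => by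
    simpa only [Out, Finset.mem_filter, mem_Ple, and_assoc] using hd
  refine ⟨fun hw => ?_, fun hw => Finset.eq_empty_of_forall_notMem fun d hd => ?_⟩
  · have hs : Out N w ⊆
        (Finset.range (N + 1) ×ˢ Ple (N - w)).image (fun p => p.1 ::ₘ p.2) ∪
          (Finset.range (N + 1) ×ˢ Ple (N - w)).image
            (fun p => p.2.map (· + 1) + replicate p.1 1) ∪ Ple (N - w) := by
      intro d hd
      obtain ⟨h1, h2, ⟨x, hx, h3⟩ | h3 | h3⟩ := hmem d hd
      · obtain ⟨e, rfl⟩ := exists_cons_of_mem hx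
        rw [sum_cons] at h2
        exact Finset.mem_union_left _ (Finset.mem_union_left _ (Finset.mem_image.2 ⟨(x, e),
          Finset.mem_product.2 ⟨Finset.mem_range.2 (by omega),
            mem_Ple.2 ⟨fun y hy => h1 y (mem_cons_of_mem hy), by dsimp only; omega⟩⟩, rfl⟩))
      · obtain ⟨k, ν, h4, h5, h6, h7⟩ := col_Decay d h1
        exact Finset.mem_union_left _ (Finset.mem_union_right _ (Finset.mem_image.2 ⟨(k, ν),
          Finset.mem_product.2 ⟨Finset.mem_range.2 (by omega),
            mem_Ple.2 ⟨h4, by dsimp only; omega⟩⟩, h5⟩))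
      · exact Finset.mem_union_right _ (mem_Ple.2 ⟨h1, by omega⟩)
    have h1 : (Ple (N - w)).card ≤ (N + 1) * P (N - w) :=
      (ple_Decay h _).trans (Nat.mul_le_mul_right _ (by omega))
    have h2 : (Finset.range (N + 1) ×ˢ Ple (N - w)).card ≤ (N + 1) * ((N + 1) * P (N - w)) := by
      rw [Finset.card_product, Finset.card_range]
      exact Nat.mul_le_mul_left _ h1
    have h3 := h1.trans (Nat.le_mul_of_pos_left _ (Nat.succ_pos N))
    refine (Finset.card_le_card hs).trans ((Finset.card_union_le _ _).trans ((add_le_add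
      ((Finset.card_union_le _ _).trans (add_le_add (Finset.card_image_le.trans h2)
        (Finset.card_image_le.trans h2))) h3).trans (le_of_eq ?_)))
    rw [Nat.succ_eq_add_one]
    ring
  · obtain ⟨h1, h2, ⟨x, hx, h3⟩ | h3 | h3⟩ := hmem d hd
    · have := le_sum_of_mem hx
      omega
    · obtain ⟨k, ν, -, -, h6, -⟩ := col_Decay d h1
      omega
    · omega

end Pool.Agent.MP_dbdb85_co

end
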