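import Pool.Agent.MP_dbdb85_co.Defs

section

namespace Pool.Agent.MP_dbdb85_co

open Multiset

theorem ncard_deg_Min {V : Type} [Fintype V] (G : SimpleGraph V) [DecidableRel G.Adj] (v : V) :
    (G.neighborSet v).ncard = G.degree v := by
  rw [← SimpleGraph.card_neighborSet_eq_degree, Set.ncard_eq_toFinset_card', Set.toFinset_card]

theorem card_degs_Min {V : Type} [Fintype V] (G : SimpleGraph V) :
    card (degs G) = Fintype.card V := by
  simp [degs]

theorem mem_degs_Min {V : Type} [Fintype V] (G : SimpleGraph V) {x : ℕ} (hx : x ∈ degs G) :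
    ∃ v, (G.neighborSet v).ncard = x := by
  obtain ⟨v, -, hv⟩ := mem_map.1 hx
  exact ⟨v, hv⟩

/-- a reachable different vertex gives a neighbour -/
theorem nbr_Min {W : Type} {H : SimpleGraph W} {a b : W} (h : H.Reachable a b) (hab : a ≠ b) :
    ∃ y, H.Adj a y := by
  obtain ⟨p⟩ := h
  cases p with
  | nil => exact absurd rfl hab
  | cons h _ => exact ⟨_, h⟩

theorem third_Min {V : Type} [Fintype V] (h : 3 ≤ Fintype.card V) (a b : V) :
    ∃ w, w ≠ a ∧ w ≠ b := by
  classical
  by_contra hc
  push Not at hc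
  have h1 : (Finset.univ : Finset V) ⊆ {a, b} := by
    intro w _
    by_cases hw : w = a
    · simp [hw]
    · simp [hc w hw]
  have h2 := Finset.card_le_card h1
  have h3 := Finset.card_le_two (a := a) (b := b)
  rw [Finset.card_univ] at h2
  omega

theorem two_le_Min {V : Type} [Fintype V] {G : SimpleGraph V} (hG : Biconn G) (v : V) :
    2 ≤ (G.neighborSet v).ncard := by
  obtain ⟨h3, hc, hd⟩ := hG
  obtain ⟨w₀, hw₀, -⟩ := third_Min h3 v v
  obtain ⟨u, hu⟩ := nbr_Min (hc.preconnected v w₀) hw₀.symm
  obtain ⟨w, hwv, hwu⟩ := third_Min h3 v u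
  have hvu : v ∈ ({u}ᶜ : Set V) := hu.ne
  have hwu' : w ∈ ({u}ᶜ : Set V) := hwu
  obtain ⟨y, hy⟩ := nbr_Min ((hd u).preconnected ⟨v, hvu⟩ ⟨w, hwu'⟩)
    (fun e => hwv (congrArg Subtype.val e).symm)
  have hy1 : G.Adj v y.1 := hy
  have hy2 : y.1 ≠ u := y.2
  have hsub : ({u, y.1} : Set V) ⊆ G.neighborSet v := by
    intro z hz
    rcases hz with rfl | rfl
    · exact hu
    · exact hy1
  have := Set.ncard_le_ncard hsub (Set.toFinite _)
  rwa [Set.ncard_pair hy2.symm] at this

theorem s_min (hn : S_nec) : S_min := by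
  intro d hd
  have hE := (hn d hd.1).2
  obtain ⟨⟨V, _, G, rfl⟩, h2⟩ := hd
  have hB := h2 V G rfl
  refine ⟨by rw [card_degs_Min]; exact hB.1, fun x hx => ⟨?_, hE.lt_card hx⟩⟩
  obtain ⟨v, rfl⟩ := mem_degs_Min G hx
  exact two_le_Min hB v

theorem s_top : S_top := by
  classical
  intro d hd x hx
  obtain ⟨⟨V, _, G, rfl⟩, h2⟩ := hd
  obtain ⟨h3, -, hc⟩ := h2 V G rfl
  obtain ⟨v, rfl⟩ := mem_degs_Min G hx
  have e1 : (degs G).sum = 2 * G.edgeFinset.card := by
    rw [← SimpleGraph.sum_degrees_eq_twice_card_edges, degs, Finset.sum]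
    simp only [ncard_deg_Min]
  have e2 := (hc v).card_vert_le_card_edgeSet_add_one
  rw [Nat.card_eq_fintype_card, Nat.card_eq_fintype_card, ← SimpleGraph.edgeFinset_card,
    SimpleGraph.card_edgeFinset_induce_compl_singleton,
    SimpleGraph.card_edgeFinset_deleteIncidenceSet, Fintype.card_compl_set,
    Set.card_singleton] at e2
  have e3 := G.degree_le_card_edgeFinset v
  have e4 := G.degree_lt_card_verts v
  rw [ncard_deg_Min, e1]
  omega

end Pool.Agent.MP_dbdb85_co

end

section

namespace Pool.Agent.MP_dbdb85_co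
open Multiset

theorem cn_Surj (L : Multiset ℕ) (y : ℕ) : cn L y = count y L + cn L (y + 1) := by
  induction L using Multiset.induction_on with
  | empty => simp [cn]
  | cons a L ih =>
    simp only [cn, filter_cons, card_add, count_cons] at ih ⊢
    rw [ih]
    split_ifs <;> simp <;> omega

theorem low_Surj (D : ℕ) (L : Multiset ℕ) (h : ∀ x ∈ L, 0 < x ∧ x ≤ D) :
    ∑ j ∈ Finset.range D, replicate (cn L (j + 1) - cn L (j + 1 + 1)) (j + 1) = L := by
  ext a
  have e : ∀ j, cn L (j + 1) - cn L (j + 1 + 1) = count (j + 1) L := fun j => by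
    have := cn_Surj L (j + 1)
    omega
  simp only [e, Multiset.count_sum', count_replicate]
  by_cases ha : a ∈ L
  · obtain ⟨h1, h2⟩ := h a ha
    obtain ⟨b, rfl⟩ : ∃ b, a = b + 1 := ⟨a - 1, by omega⟩
    rw [Finset.sum_eq_single b]
    · simp
    · intro j _ hj
      rw [if_neg (by omega)]
    · intro hb
      exact absurd (Finset.mem_range.2 (by omega)) hb
  · rw [count_eq_zero.2 ha]
    refine Finset.sum_eq_zero fun j _ => ?_
    split_ifs with hj
    · rw [hj, count_eq_zero.2 ha]
    · rfl

theorem anti_Surj {l : List ℕ} (h : l.Pairwise (· ≥ ·)) : Antitone fun j => l.getD j 0 := by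
  intro i j hij
  rcases lt_or_ge j l.length with hj | hj
  · have hi : i < l.length := by omega
    simp only [List.getD_eq_getElem _ _ hj, List.getD_eq_getElem _ _ hi]
    rcases hij.eq_or_lt with rfl | hlt
    · exact le_rfl
    · exact List.pairwise_iff_getElem.1 h i j hi hj hlt
  · simp only [List.getD_eq_default _ _ hj]
    exact Nat.zero_le _

theorem s_surj : S_surj := by
  intro d hd
  obtain ⟨l, hl, rfl⟩ : ∃ l : List ℕ, l.Pairwise (· ≥ ·) ∧ (l : Multiset ℕ) = d :=
    ⟨d.sort (· ≥ ·), pairwise_sort _ _, sort_eq _ _⟩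
  have hA := anti_Surj hl
  have hex : ∃ k, l.getD k 0 ≤ k := ⟨l.length, by simp⟩
  obtain ⟨D, h1, h2, h3⟩ : ∃ D, l.getD D 0 ≤ D ∧ D ≤ l.length ∧ ∀ j < D, D ≤ l.getD j 0 := by
    refine ⟨Nat.find hex, Nat.find_spec hex, Nat.find_min' hex (by simp), fun j hj => ?_⟩
    have a1 := Nat.find_min hex (show Nat.find hex - 1 < Nat.find hex by omega)
    have a2 : l.getD (Nat.find hex - 1) 0 ≤ l.getD j 0 := hA (by omega)
    omega
  have hL : ∀ x ∈ ((l.drop D : List ℕ) : Multiset ℕ), 0 < x ∧ x ≤ D := by
    intro x hx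
    rw [mem_coe] at hx
    refine ⟨hd x (mem_coe.2 (List.mem_of_mem_drop hx)), ?_⟩
    obtain ⟨i, hi, rfl⟩ := List.getElem_of_mem hx
    have a0 : D + i < l.length := by rw [List.length_drop] at hi; omega
    have a1 : l.getD (D + i) 0 ≤ l.getD D 0 := hA (Nat.le_add_right D i)
    rw [List.getD_eq_getElem _ _ a0] at a1
    rw [List.getElem_drop]
    omega
  refine ⟨D, fun j => l.getD j 0 - D, fun j => cn (l.drop D : List ℕ) (j + 1),
    ⟨fun i j hij => Nat.sub_le_sub_right (hA hij) D, fun i j hij => ?_, Nat.sub_eq_zero_of_le h1, ?_⟩, ?_⟩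
  · exact card_le_card (monotone_filter_right _ fun x hx => by omega)
  · simp only [cn]
    rw [filter_eq_nil.2, card_zero]
    intro a ha
    have := (hL a ha).2
    omega
  · rw [Psi, low_Surj D _ hL]
    have e : (List.range D).map (fun j => D + (l.getD j 0 - D)) = l.take D := by
      refine List.ext_getElem (by simp [h2]) fun i a1 a2 => ?_
      have b1 : i < D := by simpa using a1
      have b2 := h3 i b1
      rw [List.getElem_map, List.getElem_range, List.getElem_take,
        ← List.getD_eq_getElem l 0 (by omega)]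
      omega
    have e2 : (Multiset.range D).map (fun j => D + (l.getD j 0 - D)) =
        ((l.take D : List ℕ) : Multiset ℕ) := by
      rw [← e, ← Multiset.map_coe]
      rfl
    rw [e2, coe_add, List.take_append_drop]

end Pool.Agent.MP_dbdb85_co

end

section

namespace Pool.Agent.MP_dbdb85_co
open Multiset

theorem add_Inj (d e : Multiset ℕ) (y : ℕ) : cn (d + e) y = cn d y + cn e y := by
  simp [cn]

theorem low_Inj {c : ℕ → ℕ} (hc : Antitone c) (D j : ℕ) :
    cn (∑ i ∈ Finset.range D, replicate (c i - c (i + 1)) (i + 1)) (j + 1) = c j - c D := by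
  induction D with
  | zero =>
    have := hc (Nat.zero_le j)
    simp only [Finset.range_zero, Finset.sum_empty, cn, filter_zero, card_zero]
    omega
  | succ D ih =>
    rw [Finset.sum_range_succ, add_Inj, ih]
    have h1 := hc (Nat.le_succ D)
    rcases le_or_gt j D with h | h
    · have h2 := hc h
      have h3 : cn (replicate (c D - c (D + 1)) (D + 1)) (j + 1) = c D - c (D + 1) := by
        rw [cn, filter_eq_self.2, card_replicate]
        intro a ha
        rw [eq_of_mem_replicate ha]
        omega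
      rw [h3]
      simp only [Nat.succ_eq_add_one] at h1
      omega
    · have h2 := hc (show D + 1 ≤ j from h)
      have h3 : cn (replicate (c D - c (D + 1)) (D + 1)) (j + 1) = 0 := by
        rw [cn, filter_eq_nil.2, card_zero]
        intro a ha
        rw [eq_of_mem_replicate ha]
        omega
      rw [h3]
      simp only [Nat.succ_eq_add_one] at h1
      omega

theorem top_le_Inj (D : ℕ) (r : ℕ → ℕ) (y : ℕ) :
    cn ((Multiset.range D).map (fun j => D + r j)) y ≤ D := by
  have := card_le_card (filter_le (y ≤ ·) ((Multiset.range D).map (fun j => D + r j)))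
  simpa [cn] using this

theorem top_eq_Inj (D : ℕ) (r : ℕ → ℕ) {y : ℕ} (hy : y ≤ D) :
    cn ((Multiset.range D).map (fun j => D + r j)) y = D := by
  rw [cn, filter_eq_self.2, card_map, card_range]
  intro a ha
  obtain ⟨j, -, rfl⟩ := mem_map.1 ha
  omega

theorem le_Inj {D D' : ℕ} {r c r' c' : ℕ → ℕ} (h : IsTri D r c)
    (e : Psi D r c = Psi D' r' c') : D' ≤ D := by
  by_contra hlt
  have h1 := congrArg (fun d => cn d (D + 1)) e
  simp only [Psi, add_Inj] at h1
  rw [low_Inj h.2.1, top_eq_Inj D' r' (by omega)] at h1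
  have h2 := top_le_Inj D r (D + 1)
  omega

theorem pw_Inj (D : ℕ) {r : ℕ → ℕ} (hr : Antitone r) :
    ((List.range D).map (fun j => D + r j)).Pairwise (· ≥ ·) := by
  rw [List.pairwise_map]
  refine List.Pairwise.imp ?_ List.pairwise_lt_range
  intro a b hab
  have := hr hab.le
  omega

theorem s_inj : S_inj := by
  intro D r c D' r' c' h h' e
  obtain rfl : D = D' := le_antisymm (le_Inj h' e.symm) (le_Inj h e)
  obtain ⟨a1, a2, a3, a4⟩ := h
  obtain ⟨b1, b2, b3, b4⟩ := h'
  have hc : c = c' := by
    funext j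
    rcases lt_or_ge j D with hj | hj
    · have h1 := congrArg (fun d => cn d (j + 1)) e
      simp only [Psi, add_Inj] at h1
      rw [low_Inj a2, low_Inj b2, top_eq_Inj D r hj, top_eq_Inj D r' hj] at h1
      omega
    · have h1 := a2 hj
      have h2 := b2 hj
      omega
  subst hc
  refine ⟨rfl, ?_, rfl⟩
  have e1 : (Multiset.range D).map (fun j => D + r j) =
      (Multiset.range D).map (fun j => D + r' j) := add_right_cancel e
  have e2 : ((List.range D).map (fun j => D + r j)).Perm
      ((List.range D).map (fun j => D + r' j)) := by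
    rw [← Multiset.coe_eq_coe, ← Multiset.map_coe, ← Multiset.map_coe]
    exact e1
  have e3 := List.Perm.eq_of_pairwise (le := (· ≥ ·)) (fun a b _ _ h1 h2 => le_antisymm h2 h1)
    (pw_Inj D a1) (pw_Inj D b1) e2
  funext j
  rcases lt_or_ge j D with hj | hj
  · have h1 := List.map_inj_left.1 e3 j (List.mem_range.2 hj)
    omega
  · have h1 := a1 hj
    have h2 := b1 hj
    omega

end Pool.Agent.MP_dbdb85_co

end

section

namespace Pool.Agent.MP_dbdb85_co

open Multiset

/-- the parts below the square -/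
def lw_Psi (c : ℕ → ℕ) (D : ℕ) : Multiset ℕ :=
  ∑ j ∈ Finset.range D, replicate (c j - c (j + 1)) (j + 1)

theorem lw_succ_Psi (c : ℕ → ℕ) (D : ℕ) :
    lw_Psi c (D + 1) = lw_Psi c D + replicate (c D - c (D + 1)) (D + 1) :=
  Finset.sum_range_succ _ _

theorem mem_lw_Psi {c : ℕ → ℕ} {D x : ℕ} (h : x ∈ lw_Psi c D) : 1 ≤ x ∧ x ≤ D := by
  obtain ⟨j, hj, hx⟩ := mem_sum.1 h
  have := eq_of_mem_replicate hx
  have := Finset.mem_range.1 hj
  omega

theorem card_lw_Psi {c : ℕ → ℕ} (hc : Antitone c) (D : ℕ) : card (lw_Psi c D) + c D = c 0 := by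
  induction D with
  | zero => simp [lw_Psi]
  | succ D ih =>
    have := hc (Nat.le_succ D)
    rw [lw_succ_Psi, card_add, card_replicate]
    simp only [Nat.succ_eq_add_one] at this
    omega

theorem count_lw_Psi (c : ℕ → ℕ) (D : ℕ) : count 1 (lw_Psi c (D + 1)) = c 0 - c 1 := by
  induction D with
  | zero => simp [lw_Psi]
  | succ D ih =>
    rw [lw_succ_Psi, count_add, ih, count_replicate, if_neg (by omega), add_zero]

theorem cs_lw_Psi {c : ℕ → ℕ} (hc : Antitone c) (k D : ℕ) :
    Cs (lw_Psi c D) k + min k D * c D = ∑ j ∈ Finset.range (min k D), c j := by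
  induction D with
  | zero => simp [lw_Psi]
  | succ D ih =>
    obtain ⟨e, he⟩ := Nat.exists_eq_add_of_le (hc (Nat.le_add_right D 1))
    have e2 : c D - c (D + 1) = e := by omega
    rw [lw_succ_Psi, Cs_add, Cs_replicate, e2]
    rcases le_or_gt k D with h | h
    · rw [min_eq_left h] at ih
      rw [min_eq_left (by omega : k ≤ D + 1), ← ih, he]
      ring
    · rw [min_eq_right h.le] at ih
      rw [min_eq_right (by omega : D + 1 ≤ k), Finset.sum_range_succ, ← ih, he]
      ring

theorem top_Psi (D k : ℕ) (r : ℕ → ℕ) :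
    ((Multiset.range k).map (fun j => D + r j)).sum = k * D + ∑ j ∈ Finset.range k, r j := by
  have : ((Multiset.range k).map (fun j => D + r j)).sum = ∑ j ∈ Finset.range k, (D + r j) := rfl
  rw [this, Finset.sum_add_distrib]
  simp

theorem s_psi : S_psi := by
  rintro D r c ⟨hr, hc, -, hcD⟩
  have e : Psi D r c = (Multiset.range D).map (fun j => D + r j) + lw_Psi c D := rfl
  have hT : ∀ x ∈ (Multiset.range D).map (fun j => D + r j), 0 < D ∧ D ≤ x := fun x hx => by
    obtain ⟨j, hj, rfl⟩ := mem_map.1 hx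
    have := mem_range.1 hj
    omega
  have hcs : ∀ k, k ≤ D → Cs (lw_Psi c D) k = ∑ j ∈ Finset.range k, c j := fun k hk => by
    have := cs_lw_Psi hc k D
    rwa [hcD, mul_zero, add_zero, min_eq_left hk] at this
  rw [e]
  refine ⟨fun x hx => ?_, ?_, ?_, fun hD => ?_, fun hrc K hK hb => ?_⟩
  · rcases mem_add.1 hx with hx | hx
    · have := hT x hx
      omega
    · exact (mem_lw_Psi hx).1
  · rw [sum_add, top_Psi, ← Cs_of_le (k := D) fun x hx => (mem_lw_Psi hx).2, hcs D le_rfl, mass, sq]
  · have := card_lw_Psi hc D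
    rw [card_add, card_map, card_range]
    omega
  · obtain ⟨D', rfl⟩ : ∃ D', D = D' + 1 := ⟨D - 1, by omega⟩
    rw [count_add, count_lw_Psi, count_eq_zero_of_notMem, zero_add]
    intro h
    have := hT 1 h
    omega
  · rcases le_or_gt (card K) D with hk | hk
    · obtain ⟨m, hm⟩ := Nat.exists_eq_add_of_le hk
      have e1 : (Multiset.range D).map (fun j => D + r j) =
          (Multiset.range (card K)).map (fun j => D + r j) +
            ((Multiset.range m).map (card K + ·)).map (fun j => D + r j) := by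
        rw [← map_add, ← range_add, ← hm]
      have h1 : K.sum ≤ ((Multiset.range (card K)).map (fun j => D + r j)).sum := by
        refine top_sum (R := ((Multiset.range m).map (card K + ·)).map (fun j => D + r j) +
          lw_Psi c D) (fun x hx y hy => ?_) (by rwa [← add_assoc, ← e1]) (by simp)
        obtain ⟨j, hj, rfl⟩ := mem_map.1 hx
        have hj' := mem_range.1 hj
        rcases mem_add.1 hy with hy | hy
        · obtain ⟨i, hi, rfl⟩ := mem_map.1 hy
          obtain ⟨i', -, rfl⟩ := mem_map.1 hi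
          exact Nat.add_le_add_left (hr (by omega)) _
        · have := mem_lw_Psi hy
          omega
      have h2 : ∑ j ∈ Finset.range (card K), (r j + 1) ≤ ∑ j ∈ Finset.range (card K), c j :=
        Finset.sum_le_sum fun j hj => hrc j (by have := Finset.mem_range.1 hj; omega)
      rw [Finset.sum_add_distrib, Finset.sum_const, Finset.card_range, smul_eq_mul, mul_one] at h2
      rw [top_Psi] at h1
      rw [Cs_add, hcs _ hk, Cs_of_ge fun x hx => hk.trans (hT x hx).2, card_map, card_range,
        mul_comm D]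
      omega
    · have h1 : K ≤ (Multiset.range D).map (fun j => D + r j) := by
        refine le_of_le_add (Z := lw_Psi c D) (by rwa [add_comm]) fun z hz hz' => ?_
        have := hb z hz'
        have := mem_lw_Psi hz
        omega
      have := card_le_card h1
      rw [card_map, card_range] at this
      omega

end Pool.Agent.MP_dbdb85_co

end
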