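import Pool.Agent.MP_dbdb85_co.Defs

section

namespace Pool.Agent.MP_dbdb85_co

open Multiset

theorem cnt_Aone {d : Multiset ℕ} (h : ∀ x ∈ d, 2 ≤ x) : count 2 d + cn d 3 = card d := by
  induction d using Multiset.induction_on with
  | empty => simp [cn]
  | cons a d ih =>
    have h1 := ih fun x hx => h x (mem_cons_of_mem hx)
    have h2 := h a (mem_cons_self _ _)
    simp only [cn, filter_cons, count_cons, card_add, card_cons] at h1 ⊢
    split_ifs with h3 h4 h4 <;> simp <;> omega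

theorem pair_Aone (a b : ℕ) (R : Multiset ℕ) : a ::ₘ b ::ₘ R = (a ::ₘ b ::ₘ 0) + R := by
  simp only [cons_add, zero_add]

theorem s_A1 (ho : S_ops) (hm : S_min) (ht : S_tight) : S_A1 := by
  intro n D
  refine Lc_le (fun d d' => ∃ b R, d = (D + 1) ::ₘ b ::ₘ R ∧ d' = D ::ₘ (b + 1) ::ₘ R ∧
    ∀ y ∈ R, y ≤ b) ?_ ?_
  · intro d hd hA
    obtain ⟨-, h2, h3, h4⟩ := mem_Lf.1 hd
    obtain ⟨h5, h6⟩ := hm d h4
    obtain ⟨R₃, e1, -, e3, e4⟩ := exists_top3 h5
    obtain ⟨a1, K', k1, k2, k3, k4⟩ := hA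
    rw [h3] at e1 e3 e4
    generalize sec (D + 1) d = b at e1 e3 a1
    generalize thi (D + 1) d = e at e1 e3 e4
    have hR : ∀ y ∈ e ::ₘ R₃, y ≤ b := by
      intro y hy
      rcases mem_cons.1 hy with rfl | hy
      · exact e3
      · exact (e4 y hy).trans e3
    generalize e ::ₘ R₃ = R at e1 hR
    subst e1
    have hb := (h6 b (mem_cons_of_mem (mem_cons_self _ _))).1
    have hD := (h6 (D + 1) (mem_cons_self _ _)).2
    have h7 : ∀ x ∈ D ::ₘ (b + 1) ::ₘ R, 2 ≤ x := by
      intro x hx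
      rcases mem_cons.1 hx with rfl | hx
      · omega
      rcases mem_cons.1 hx with rfl | hx
      · omega
      exact (h6 x (mem_cons_of_mem (mem_cons_of_mem hx))).1
    refine ⟨D ::ₘ (b + 1) ::ₘ R, mem_Lf.2 ⟨fun x hx => by have := h7 x hx; omega, ?_, ?_, ?_⟩,
      ⟨?_, ?_⟩, b, R, rfl, rfl, hR⟩
    · simp only [sum_cons] at h2 ⊢
      omega
    · refine sup_cons_of fun y hy => ?_
      rcases mem_cons.1 hy with rfl | hy
      · omega
      · have := hR y hy
        omega
    · refine ht _ (ho.1 D b R (by omega) h4.1) h7 ?_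
      obtain ⟨K, l1, l2, l3, l4, l5⟩ := transfer (T := D ::ₘ (b + 1) ::ₘ 0)
        (T' := (D + 1) ::ₘ b ::ₘ 0) (Z := 0) (Z' := 0) (R := R) (K' := K') (by simp)
        (by
          intro x hx y hy
          have := hR y hy
          simp only [mem_cons, notMem_zero, or_false] at hx
          omega)
        (by
          intro x hx y hy
          have := hR y hy
          simp only [mem_cons, notMem_zero, or_false] at hx
          omega)
        (by rwa [add_zero, ← pair_Aone]) k2 (by simp; omega) (by simp) (by simp)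
      rw [add_zero, ← pair_Aone] at l1
      rw [add_zero, add_zero, ← pair_Aone, ← pair_Aone] at l5
      refine ⟨K, l1, l2, by omega, ?_⟩
      simp only [sum_cons, sum_zero] at l4 l5
      rw [l3]
      omega
    · rw [sec_cons fun y hy => (hR y hy).trans (Nat.le_succ b)]
      omega
    · simp only [card_cons] at hD ⊢
      omega
  · rintro d₁ d₂ d' ⟨b, R, rfl, e1, h1⟩ ⟨b', R', rfl, e2, h2⟩
    obtain ⟨e3, e4⟩ := cons_unique (fun y hy => (h1 y hy).trans (Nat.le_succ b))
      (fun y hy => (h2 y hy).trans (Nat.le_succ b')) ((cons_inj_right D).1 (e1.symm.trans e2))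
    rw [Nat.succ_injective e3, e4]

theorem eg_Aone {D b : ℕ} {R : Multiset ℕ}
    (h : EG ((D + 1) ::ₘ (b + 1) ::ₘ (replicate 5 2 + R))) (h2 : ∀ y ∈ R, 2 ≤ y)
    (hR : ∀ y ∈ R, y ≤ b) (h3 : 3 ≤ b) (hb : b ≤ D) (hD : D ≤ card R + 5) :
    EG (D ::ₘ b ::ₘ (replicate 4 3 + R)) := by
  intro K' k1 k2
  have r1 : ∀ y ∈ replicate 4 3 + R, 2 ≤ y ∧ y ≤ b := by
    intro y hy
    rcases mem_add.1 hy with hy | hy
    · have := eq_of_mem_replicate hy
      omega
    · exact ⟨h2 y hy, hR y hy⟩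
  have r2 : ∀ x ∈ D ::ₘ b ::ₘ (0 : Multiset ℕ), ∀ y ∈ replicate 4 3 + R, y ≤ x := by
    intro x hx y hy
    have := (r1 y hy).2
    simp only [mem_cons, notMem_zero, or_false] at hx
    omega
  obtain c | c | c | c | c : card K' = 0 ∨ card K' = 1 ∨ card K' = 2 ∨ card K' = 3 ∨
      4 ≤ card K' := by omega
  · rw [card_eq_zero.1 c]
    simp
  · have t1 := top_sum (T := D ::ₘ 0) (R := b ::ₘ (replicate 4 3 + R)) (by
      intro x hx y hy
      simp only [mem_cons, notMem_zero, or_false] at hx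
      rcases mem_cons.1 hy with rfl | hy
      · omega
      · have := (r1 y hy).2
        omega) (K := K') (by rwa [cons_add, zero_add]) (by simp [c])
    have t2 := Cs_ge (d := R) (j := 1) (k := 1) (fun y hy => by have := h2 y hy; omega) le_rfl
    simp only [c, Cs_cons, Cs_add, Cs_replicate, sum_cons, sum_zero] at t1 ⊢
    omega
  · have t1 := top_sum r2 (K := K') (by rwa [← pair_Aone]) (by simp [c])
    have t2 := Cs_ge (d := R) (j := 2) (k := 2) h2 le_rfl
    simp only [c, Cs_cons, Cs_add, Cs_replicate, sum_cons, sum_zero] at t1 ⊢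
    omega
  · obtain ⟨B, b1, b2, b3, b4⟩ := exch r2 (K := K') (by rwa [← pair_Aone]) (by simp [c])
    obtain ⟨x, rfl⟩ := card_eq_one.1 (show card B = 1 by simp [c] at b3; omega)
    have x1 := k2 x (mem_of_le b2 (mem_singleton_self x))
    have t2 := Cs_ge (d := R) (j := 2) (k := 3) h2 (by omega)
    simp only [sum_cons, sum_zero, sum_singleton] at b4
    rcases mem_add.1 (mem_of_le b1 (mem_singleton_self x)) with hx | hx
    · have := eq_of_mem_replicate hx
      simp only [c, Cs_cons, Cs_add, Cs_replicate]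
      omega
    · have t3 := h ((D + 1) ::ₘ (b + 1) ::ₘ {x})
        (cons_le_cons _ (cons_le_cons _ ((singleton_le.2 hx).trans (le_add_left _ _)))) (by
          intro y hy
          simp only [mem_cons, mem_singleton, card_cons, card_singleton] at hy ⊢
          omega)
      simp only [c, Cs_cons, Cs_add, Cs_replicate, sum_cons, sum_singleton, card_cons,
        card_singleton, Nat.reduceAdd] at t3 ⊢
      omega
  · obtain ⟨K, l1, l2, l3, l4, l5⟩ := transfer (T := (D + 1) ::ₘ (b + 1) ::ₘ 0)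
      (T' := D ::ₘ b ::ₘ 0) (Z := replicate 5 2) (Z' := replicate 4 3) (R := R) (K' := K')
      (by simp)
      (by
        intro x hx y hy
        have := hR y hy
        simp only [mem_cons, notMem_zero, or_false] at hx
        omega)
      (by
        intro x hx y hy
        have := hR y hy
        simp only [mem_cons, notMem_zero, or_false] at hx
        omega)
      (by rwa [add_assoc, ← pair_Aone]) k2 (by simp; omega)
      (fun z hz => by have := eq_of_mem_replicate hz; omega)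
      (fun z hz => by have := eq_of_mem_replicate hz; omega)
    rw [add_assoc, ← pair_Aone] at l1
    rw [add_assoc, add_assoc, ← pair_Aone, ← pair_Aone] at l5
    have t3 := h K l1 l2
    rw [l3] at t3
    simp only [sum_cons, sum_zero, sum_replicate, smul_eq_mul] at l4 l5
    omega

theorem s_A2 (hn : S_nec) (hs : S_suf) (hm : S_min) (h2 : S_two) : S_A2 := by
  intro n D w hw
  refine Lc_le (fun d d' => ∃ b R, d = (D + 1) ::ₘ (b + 1) ::ₘ (replicate 5 2 + R) ∧
    d' = D ::ₘ b ::ₘ (replicate 4 3 + R) ∧ 3 ≤ b ∧ ∀ y ∈ R, y ≤ b) ?_ ?_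
  · intro d hd hA
    obtain ⟨-, g2, h3, h4⟩ := mem_Lf.1 hd
    obtain ⟨h5, h6⟩ := hm d h4
    obtain ⟨R₃, e1, e2, e3, e4⟩ := exists_top3 h5
    obtain ⟨a1, a2, a3, a4⟩ := hA
    have a5 := cnt_Aone fun x hx => (h6 x hx).1
    obtain ⟨n1, n2⟩ := hn d h4.1
    rw [h3] at e1 e2 e3 e4
    generalize sec (D + 1) d = s at e1 e2 e3 a1 a4
    generalize thi (D + 1) d = e at e1 e3 e4 a2
    have hR : ∀ y ∈ e ::ₘ R₃, y ≤ w := by
      intro y hy
      rcases mem_cons.1 hy with rfl | hy
      · exact a2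
      · exact (e4 y hy).trans a2
    generalize e ::ₘ R₃ = R' at e1 hR
    obtain ⟨b, rfl⟩ : ∃ b, s = b + 1 := ⟨s - 1, by omega⟩
    have hD := (h6 (D + 1) (e1 ▸ mem_cons_self _ _)).2
    have a6 : count 2 d = count 2 R' := by
      rw [e1, count_cons_of_ne (by omega), count_cons_of_ne (by omega)]
    obtain ⟨R, rfl⟩ := exists_replicate (d := R') (m := 5) (a := 2) (by omega)
    subst e1
    have r1 : ∀ y ∈ R, 2 ≤ y := fun y hy =>
      (h6 y (mem_cons_of_mem (mem_cons_of_mem (mem_add.2 (Or.inr hy))))).1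
    have r2 : ∀ y ∈ R, y ≤ b := fun y hy => by
      have := hR y (mem_add.2 (Or.inr hy))
      omega
    have r3 : ∀ y ∈ replicate 4 3 + R, 2 ≤ y ∧ y ≤ b := by
      intro y hy
      rcases mem_add.1 hy with hy | hy
      · have := eq_of_mem_replicate hy
        omega
      · exact ⟨r1 y hy, r2 y hy⟩
    have h7 : ∀ x ∈ D ::ₘ b ::ₘ (replicate 4 3 + R), 2 ≤ x := by
      intro x hx
      rcases mem_cons.1 hx with rfl | hx
      · omega
      rcases mem_cons.1 hx with rfl | hx
      · omega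
      exact (r3 x hx).1
    have h8 : (D ::ₘ b ::ₘ (replicate 4 3 + R)).sum = n := by
      simp only [sum_cons, sum_add, sum_replicate, smul_eq_mul] at g2 ⊢
      omega
    simp only [card_cons, card_add, card_replicate] at hD a4
    refine ⟨D ::ₘ b ::ₘ (replicate 4 3 + R),
      mem_Lf.2 ⟨fun x hx => by have := h7 x hx; omega, h8, ?_, ?_⟩, ⟨?_, ?_⟩,
      b, R, rfl, rfl, by omega, r2⟩
    · refine sup_cons_of fun y hy => ?_
      rcases mem_cons.1 hy with rfl | hy
      · omega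
      · have := (r3 y hy).2
        omega
    · refine h2 _ _ _ (hs _ (by rw [h8, ← g2]; exact n1)
        (eg_Aone n2 r1 r2 (by omega) (by omega) (by omega))) h7 ?_ ?_ <;>
        simp only [card_add, card_replicate] <;> omega
    · rw [sec_cons fun y hy => (r3 y hy).2]
      simp only [card_cons, card_add, card_replicate]
      omega
    · have := count_le_of_le 3 ((le_add_right (replicate 4 3) R).trans
        ((le_cons_self _ b).trans (le_cons_self _ D)))
      rwa [count_replicate_self] at this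
  · rintro d₁ d₂ d' ⟨b, R, rfl, e1, g1, h1⟩ ⟨b', R', rfl, e2, g2, h1'⟩
    obtain ⟨e3, e4⟩ := cons_unique (a := b) (a' := b') (by
      intro y hy
      rcases mem_add.1 hy with hy | hy
      · have := eq_of_mem_replicate hy
        omega
      · exact h1 y hy) (by
      intro y hy
      rcases mem_add.1 hy with hy | hy
      · have := eq_of_mem_replicate hy
        omega
      · exact h1' y hy) ((cons_inj_right D).1 (e1.symm.trans e2))
    rw [e3, add_left_cancel e4]

end Pool.Agent.MP_dbdb85_co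

end

section

/-! Many graphical partitions with few parts and few ones. -/

namespace Pool.Agent.MP_dbdb85_co

open Multiset

/-- the new legs -/
def leg_Tg (D y : ℕ) (c : ℕ → ℕ) (j : ℕ) : ℕ :=
  if j = 0 then (y + 1) / 2 else if j = 1 then y / 2 else if j < D then c j + 1 else 0

theorem leg_tri_Tg {D y : ℕ} {r c : ℕ → ℕ} (hD : 2 ≤ D) (h : IsTri D r c) (hy : 2 * c 0 + 2 ≤ y) :
    IsTri D r (leg_Tg D y c) := by
  obtain ⟨h1, h2, h3, _⟩ := h
  refine ⟨h1, ?_, h3, ?_⟩
  · refine antitone_nat_of_succ_le fun j => ?_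
    have e1 : c (j + 1) ≤ c j := h2 (Nat.le_succ j)
    have e2 : c (j + 1) ≤ c 0 := h2 (Nat.zero_le _)
    unfold leg_Tg
    split_ifs <;> first | omega | contradiction
  · unfold leg_Tg
    split_ifs <;> omega

theorem leg_lt_Tg {D y : ℕ} {r c : ℕ → ℕ} (h : IsTri D r c) (hy : 2 * c 0 + 2 ≤ y)
    (hrc : ∀ j, r j ≤ c j) : ∀ j < D, r j < leg_Tg D y c j := by
  intro j hj
  have e1 := hrc j
  have e2 : c j ≤ c 0 := h.2.1 (Nat.zero_le _)
  unfold leg_Tg
  split_ifs <;> omega

theorem leg_sum_Tg {D y : ℕ} (c : ℕ → ℕ) (hD : 2 ≤ D) :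
    ∑ j ∈ Finset.range D, leg_Tg D y c j + c 0 + c 1 + 2 =
      ∑ j ∈ Finset.range D, c j + y + D := by
  obtain ⟨E, rfl⟩ := Nat.exists_eq_add_of_le' hD
  rw [Finset.sum_range_succ', Finset.sum_range_succ', Finset.sum_range_succ' c,
    Finset.sum_range_succ' (fun j => c (j + 1))]
  have e1 : ∑ j ∈ Finset.range E, leg_Tg (E + 2) y c (j + 1 + 1) =
      ∑ j ∈ Finset.range E, (c (j + 1 + 1) + 1) := by
    refine Finset.sum_congr rfl fun j hj => ?_
    have := Finset.mem_range.1 hj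
    unfold leg_Tg
    split_ifs <;> first | omega | contradiction
  have e2 : leg_Tg (E + 2) y c (0 + 1) = y / 2 := by simp [leg_Tg]
  have e3 : leg_Tg (E + 2) y c 0 = (y + 1) / 2 := by simp [leg_Tg]
  rw [e1, e2, e3, Finset.sum_add_distrib, Finset.sum_const, Finset.card_range, smul_eq_mul,
    zero_add]
  omega

/-- the relation between a partition and its code -/
def Rel_Tg (d : Multiset ℕ) (t : ℕ × ℕ × Multiset ℕ) : Prop :=
  ∃ D r c c', IsTri D r c ∧ IsTri D r c' ∧ Psi D r c = d ∧ Psi D r c' = t.2.2 ∧ c 0 = t.1 ∧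
    c 1 = t.2.1 ∧ ∀ j, 2 ≤ j → j < D → c' j = c j + 1

theorem rel_unique_Tg (h2 : S_inj) {d e : Multiset ℕ} {t : ℕ × ℕ × Multiset ℕ}
    (hd : Rel_Tg d t) (he : Rel_Tg e t) : d = e := by
  obtain ⟨D, r, c, c', a1, a2, a3, a4, a5, a6, a7⟩ := hd
  obtain ⟨E, s, f, f', b1, b2, b3, b4, b5, b6, b7⟩ := he
  obtain ⟨rfl, rfl, rfl⟩ := h2 D r c' E s f' a2 b2 (a4.trans b4.symm)
  have : c = f := by
    funext j
    rcases Nat.lt_or_ge j D with hj | hj
    · rcases Nat.lt_or_ge j 2 with hj2 | hj2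
      · interval_cases j
        · rw [a5, b5]
        · rw [a6, b6]
      · have e1 := a7 j hj2 hj
        have e2 := b7 j hj2 hj
        omega
    · have e1 : c j ≤ c D := a1.2.1 hj
      have e2 : f j ≤ f D := b1.2.1 hj
      have e3 := a1.2.2.2
      have e4 := b1.2.2.2
      omega
  rw [← a3, ← b3, this]

theorem rel_exists_Tg (hs : S_suf) (h3 : S_psi) {M v : ℕ} (hM : Even M) (hv : 6 * v ≤ M)
    {d : Multiset ℕ} (hd : d ∈ Neg (M - 3 * v)) (ho : d ∉ Out (M - 3 * v) v) :
    ∃ t ∈ Finset.range v ×ˢ Finset.range v ×ˢ Tg M (3 * v), Rel_Tg d t := by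
  classical
  obtain ⟨hp, D, r, c, ht, rfl, hrc⟩ := Finset.mem_filter.1 hd
  have ho' : ¬ ((∃ x ∈ Psi D r c, v ≤ x) ∨ v ≤ card (Psi D r c) ∨
      (Psi D r c).sum + v ≤ M - 3 * v) := fun h => ho (Finset.mem_filter.2 ⟨hp, h⟩)
  obtain ⟨_, p2, p3, _, _⟩ := h3 D r c ht
  have q1 : mass D r c ≤ M - 3 * v := p2 ▸ (mem_Ple.1 hp).2
  have q2 : D + c 0 < v := by
    rw [← p3]; exact not_le.1 fun h => ho' (Or.inr (Or.inl h))
  have q3 : M - 3 * v < mass D r c + v := by
    rw [← p2]; exact not_le.1 fun h => ho' (Or.inr (Or.inr h))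
  have q4 : c 1 ≤ c 0 := ht.2.1 (Nat.zero_le _)
  have hD : 2 ≤ D := by
    by_contra hD
    have q5 := hrc 0
    have hD' : D < 2 := not_le.1 hD
    interval_cases D
    · simp [mass] at q3
      omega
    · simp [mass] at q3
      omega
  obtain ⟨y, hy⟩ : ∃ y, y + D + mass D r c = c 0 + c 1 + M + 2 :=
    ⟨c 0 + c 1 + M + 2 - D - mass D r c, by omega⟩
  have hy2 : 2 * c 0 + 2 ≤ y := by omega
  have ht' := leg_tri_Tg hD ht hy2
  obtain ⟨s1, s2, s3, s4, s5⟩ := h3 D r _ ht'
  have hmass : mass D r (leg_Tg D y c) = M := by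
    have := leg_sum_Tg (y := y) c hD
    unfold mass at hy ⊢
    omega
  have e0 : leg_Tg D y c 0 = (y + 1) / 2 := by simp [leg_Tg]
  have e1 : leg_Tg D y c 1 = y / 2 := by simp [leg_Tg]
  refine ⟨(c 0, c 1, Psi D r (leg_Tg D y c)), ?_, D, r, c, leg_Tg D y c, ht, ht', rfl, rfl, rfl,
    rfl, ?_⟩
  · simp only [Finset.mem_product, Finset.mem_range]
    refine ⟨by omega, by omega, Finset.mem_filter.2 ⟨mem_Par.2 ⟨s1, s2.trans hmass⟩, ?_, ?_, ?_⟩⟩
    · exact hs _ (by rw [s2, hmass]; exact hM) (s5 (leg_lt_Tg ht hy2 hrc))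
    · rw [s3, e0]; omega
    · rw [s4 hD, e0, e1]; omega
  · intro j hj1 hj2
    unfold leg_Tg
    split_ifs <;> omega

theorem s_tg (hs : S_suf) (h2 : S_inj) (h3 : S_psi) (h4 : S_phi) : S_tg := by
  classical
  intro M v hM hv hO
  have a1 := h4 (M - 3 * v)
  have a2 := Finset.le_card_sdiff (Out (M - 3 * v) v) (Neg (M - 3 * v))
  have a3 : (Neg (M - 3 * v) \ Out (M - 3 * v) v).card ≤
      (Finset.range v ×ˢ Finset.range v ×ˢ Tg M (3 * v)).card := by
    refine Finset.card_le_card_of_forall_subsingleton Rel_Tg ?_ ?_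
    · intro d hd
      obtain ⟨hd1, hd2⟩ := Finset.mem_sdiff.1 hd
      exact rel_exists_Tg hs h3 hM hv hd1 hd2
    · intro t _ x hx y hy
      exact rel_unique_Tg h2 hx.2 hy.2
  rw [Finset.card_product, Finset.card_product, Finset.card_range] at a3
  have a4 : 2 * v ^ 2 * (Tg M (3 * v)).card = 2 * (v * (v * (Tg M (3 * v)).card)) := by ring
  omega

end Pool.Agent.MP_dbdb85_co

end
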