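import Pool.Agent.MP_dbdb85_co.Main
import Pool.Agent.Mg.Fdbdb85.G692930
import Pool.Agent.Mg.Fdbdb85.G25ae64
import Pool.Agent.Mg.Fdbdb85.G5f9fcb
import Pool.Agent.Mg.Fdbdb85.G7d1584
import Pool.Agent.Mg.Fdbdb85.Ga22b59
import Pool.Agent.Mg.Fdbdb85.Ga2b28d
import Pool.Agent.MP_dbdb85_co.Athree
import Pool.Agent.MP_dbdb85_co.Ratio

section

/-! Real thresholds and the lower bound for the position of the peak. -/

namespace Pool.Agent.MP_dbdb85_co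

open Multiset

theorem thr_Peak {n Δ : ℕ} (h2 : 2 ≤ n) (hΔ : Δ ≤ n)
    (h : 1000 * √(n : ℝ) * Real.log n ≤ Δ) :
    78 * ((2 * (Nat.log 2 n + 1) + 3) * (2 * (Nat.sqrt n + 1))) + 35 ≤ Δ := by
  have hn : (2 : ℝ) ≤ n := by exact_mod_cast h2
  have hl2 := Real.log_two_gt_d9
  have hL : Real.log 2 ≤ Real.log n := Real.log_le_log (by norm_num) hn
  have hs : √(n : ℝ) * √(n : ℝ) = n := Real.mul_self_sqrt (by linarith)
  have hs0 : 0 < √(n : ℝ) := Real.sqrt_pos.2 (by linarith)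
  have hΔ' : (Δ : ℝ) ≤ n := by exact_mod_cast hΔ
  have h1 : 1000 * Real.log n ≤ √(n : ℝ) := by
    refine le_of_mul_le_mul_left ?_ hs0
    nlinarith
  have h3 : (690 : ℝ) ≤ √(n : ℝ) := by linarith
  have h4 : 5 ≤ Real.log n := by
    have : Real.log (2 ^ 8) ≤ Real.log n := Real.log_le_log (by norm_num) (by nlinarith)
    rw [Real.log_pow] at this
    push_cast at this
    linarith
  have h5 : (Nat.log 2 n : ℝ) * Real.log 2 ≤ Real.log n := by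
    rw [← Real.log_pow]
    refine Real.log_le_log (by positivity) ?_
    exact_mod_cast Nat.pow_log_le_self 2 (by omega)
  have h6 : (Nat.sqrt n : ℝ) ≤ √(n : ℝ) := Real.nat_sqrt_le_real_sqrt
  have h7 : (0 : ℝ) ≤ Nat.log 2 n := Nat.cast_nonneg _
  have h8 : 2 * ((Nat.log 2 n : ℝ) + 1) + 3 ≤ 4 * Real.log n := by nlinarith
  have h9 : 2 * ((Nat.sqrt n : ℝ) + 1) ≤ 3 * √(n : ℝ) := by linarith
  have h10 : (2 * ((Nat.log 2 n : ℝ) + 1) + 3) * (2 * ((Nat.sqrt n : ℝ) + 1)) ≤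
      4 * Real.log n * (3 * √(n : ℝ)) := by gcongr
  have : (78 : ℝ) * ((2 * ((Nat.log 2 n : ℝ) + 1) + 3) * (2 * ((Nat.sqrt n : ℝ) + 1))) + 35
      ≤ Δ := by nlinarith
  exact_mod_cast this

theorem four_le_sq_Peak (n : ℕ) : 4 * n ≤ (2 * (Nat.sqrt n + 1)) ^ 2 := by
  have := Nat.lt_succ_sqrt' n
  simp only [Nat.succ_eq_add_one] at this
  nlinarith

theorem iter_Peak (hr : S_ratio) {n Q J j : ℕ} (hJ : 1 ≤ J) (hQ : J ≤ Q) (h4 : 4 * n ≤ J ^ 2)
    (h5 : J ^ 2 ≤ 5 * n) (hj : j ≤ J) (h2 : 4 * j ^ 2 ≤ n) (hn : 0 < n) (t : ℕ)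
    (ht : 2 * (t * j) ≤ n) : Pq Q n ≤ 2 ^ (9 * t) * Pq Q (n - t * j) := by
  induction t with
  | zero => simp
  | succ t ih =>
    rw [add_mul, one_mul] at ht ⊢
    have h1 := hr Q (n - t * j) J j hJ hQ (by omega) hj (by omega)
    rw [Nat.sub_sub] at h1
    have h3 : Pq Q (n - t * j) ≤ 512 * Pq Q (n - (t * j + j)) := by
      refine Nat.le_of_mul_le_mul_left (c := n) ?_ hn
      have e1 : n * Pq Q (n - t * j) ≤ 2 * (n - t * j) * Pq Q (n - t * j) := by gcongr; omega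
      have e2 : 44 * J ^ 2 * Pq Q (n - (t * j + j)) ≤ 220 * n * Pq Q (n - (t * j + j)) := by
        gcongr ?_ * _; omega
      nlinarith [Nat.zero_le (n * Pq Q (n - (t * j + j)))]
    calc Pq Q n ≤ 2 ^ (9 * t) * Pq Q (n - t * j) := ih (by omega)
      _ ≤ 2 ^ (9 * t) * (512 * Pq Q (n - (t * j + j))) := by gcongr
      _ = _ := by ring

theorem choose_Peak {Q h a x y v L : ℕ} (hh : h = 2 ^ a) (hQ : 2 ^ x + h ≤ Q + 1)
    (hv : v < 2 ^ L) (he : a * h + (1 + L * 2 + y) ≤ x * h) :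
    2 * v ^ 2 * 2 ^ y < Q.choose h := by
  have b7 : 2 ^ (x * h) ≤ 2 ^ (a * h) * Q.choose h := by
    have e1 := Nat.pow_sub_le_descFactorial Q h
    rw [Nat.descFactorial_eq_factorial_mul_choose] at e1
    rw [pow_mul, pow_mul, ← hh]
    exact (Nat.pow_le_pow_left (by omega) _).trans
      (e1.trans (Nat.mul_le_mul_right _ (Nat.factorial_le_pow _)))
  refine Nat.lt_of_mul_lt_mul_left (a := 2 ^ (a * h)) (lt_of_lt_of_le ?_ b7)
  have e1 : v ^ 2 < (2 ^ L) ^ 2 := Nat.pow_lt_pow_left hv (by norm_num)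
  calc _ < 2 ^ (a * h) * (2 * (2 ^ L) ^ 2 * 2 ^ y) := by gcongr
    _ = 2 ^ (a * h + (1 + L * 2 + y)) := by ring
    _ ≤ _ := Nat.pow_le_pow_right (by norm_num) he

theorem chain_Peak {b b' b'' c p g x y : ℕ} (h1 : b ≤ y * b') (h2 : b' ≤ b'') (h3 : 0 < b')
    (h4 : x * y < c) (h5 : c * b'' ≤ p) (h6 : p ≤ x * g) : b < g := by
  refine Nat.lt_of_mul_lt_mul_left (a := x) (lt_of_lt_of_le ?_ (h5.trans h6))
  calc x * b ≤ x * (y * b') := by gcongr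
    _ < c * b' := by rw [← mul_assoc]; gcongr
    _ ≤ _ := by gcongr

theorem peak_nat (h7 : S_F5) (hm : S_mono) (hd : S_decay) (ho : S_out) (ht : S_tg)
    (hr : S_ratio) (hb : S_big) {n : ℕ} (hn : 2 ^ 1000 ≤ n) (hev : Even n) :
    ∃ Δ', Pq ((Nat.log 2 n / 100 + 1) * (Nat.sqrt n / 2)) n < (Lf n Δ').card := by
  have hn0 : n ≠ 0 := (lt_of_lt_of_le (by positivity) hn).ne'
  obtain ⟨L, hL⟩ : ∃ L, L = Nat.log 2 n := ⟨_, rfl⟩
  obtain ⟨s, hs⟩ : ∃ s, s = Nat.sqrt n := ⟨_, rfl⟩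
  have hL1 : 1000 ≤ L := hL ▸ Nat.le_log_of_pow_le (by norm_num) hn
  have hL2 : n + 1 ≤ 2 ^ (L + 1) := hL ▸ Nat.lt_pow_succ_log_self (by norm_num) n
  have hs1 : 2 ^ (L / 2) ≤ s := by
    rw [hs, Nat.le_sqrt, ← pow_add]
    exact (Nat.pow_le_pow_right (by norm_num) (by omega)).trans
      (hL ▸ Nat.pow_log_le_self 2 hn0)
  have hs2 : 1000 * L ≤ s := by
    refine le_trans ?_ hs1
    obtain ⟨x, hx⟩ : ∃ x, L / 2 = x + 12 := ⟨L / 2 - 12, by omega⟩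
    have := Nat.lt_two_pow_self (n := x)
    rw [hx, pow_add]
    omega
  have hs3 : s * s ≤ n := hs ▸ Nat.sqrt_le n
  have hJ4 := four_le_sq_Peak n
  rw [← hL, ← hs] at *
  obtain ⟨j, hj⟩ : ∃ j, j = s / 2 := ⟨_, rfl⟩
  obtain ⟨q, hq⟩ : ∃ q, q = L / 100 + 1 := ⟨_, rfl⟩
  rw [← hj, ← hq]
  obtain ⟨J, hJ⟩ : ∃ J, J = 2 * (s + 1) := ⟨_, rfl⟩
  rw [← hJ] at hJ4
  obtain ⟨v, hv⟩ : ∃ v, v = (2 * (L + 1) + 3) * J := ⟨_, rfl⟩
  have hv1 : v ≤ 15 * (L * j) := by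
    rw [hv]
    calc _ ≤ (3 * L) * (5 * j) := by gcongr <;> omega
      _ = _ := by ring
  have hv2 : 1 ≤ v := hv ▸ Nat.mul_pos (by omega) (by omega)
  have hLj : 2000 * (L * j) ≤ n := by
    calc 2000 * (L * j) = (1000 * L) * (2 * j) := by ring
      _ ≤ s * s := by gcongr; omega
      _ ≤ n := hs3
  have hLj1 : 2 ≤ L * j := le_trans (by omega) (Nat.le_mul_of_pos_right L (show 0 < j by omega))
  have hqj : 50 * (q * j) ≤ L * j := by
    rw [← mul_assoc]; gcongr; omega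
  have hqj1 : 11 * j ≤ q * j := by gcongr; omega
  have hJ5 : J ^ 2 ≤ 5 * n := by
    have : 10 * s ≤ s * s := Nat.mul_le_mul_right _ (by omega)
    have e : J ^ 2 = 4 * (s * s) + 8 * s + 4 := by rw [hJ]; ring
    omega
  have hj4 : 4 * j ^ 2 ≤ n := by
    have : (2 * j) * (2 * j) ≤ s * s := by gcongr <;> omega
    have e : (2 * j) * (2 * j) = 4 * j ^ 2 := by ring
    omega
  have hevM : Even (n + 2 - 4 * (3 * v + 1)) := by
    obtain ⟨k, hk⟩ := hev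
    exact ⟨k + 1 - 2 * (3 * v + 1), by omega⟩
  have b1 := h7 n (3 * v + 1) (3 * v) (by omega) (by omega) (by omega)
  have b2 := Tg_ge_Main hd ho ht hL2 (J := J) (by omega) hJ4 hevM (by omega) (by omega)
  rw [← hv] at b2
  have b3 := hb (q * j) 8192 (n + 2 - 4 * (3 * v + 1) - 3 * v) (by omega) (by omega)
  have et : (226 * L + 16384 * q) * j = 226 * (L * j) + 16384 * (q * j) := by ring
  have b4 := iter_Peak hr (n := n) (Q := q * j) (J := J) (j := j) (by omega) (by omega) hJ4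
    hJ5 (by omega) hj4 (by omega)
    (226 * L + 16384 * q) (by omega)
  have b5 := hm (q * j) (n - (226 * L + 16384 * q) * j)
    (n + 2 - 4 * (3 * v + 1) - 3 * v - 2 * 8192 * (q * j)) (by omega) (by omega)
  have b6 : 0 < Pq (q * j) (n - (226 * L + 16384 * q) * j) :=
    lt_of_lt_of_le (by rw [Pq_eq (Nat.zero_le _)]; exact P_pos_Main 0)
      (hm (q * j) 0 _ (by omega) (Nat.zero_le _))
  have b8 := choose_Peak (Q := q * j) (h := 8192) (a := 13) (x := L / 2)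
    (y := 9 * (226 * L + 16384 * q)) (v := v) (L := L + 1) (by norm_num) (by omega) (by omega)
    (by omega)
  classical
  exact ⟨3 * v + 1, lt_of_lt_of_le (chain_Peak b4 b5 b6 b8 b3 b2)
    (b1.trans (by unfold Lc; convert Finset.card_filter_le _ _))⟩

theorem Lf_le_Pq {n Δ Q : ℕ} (h : Δ ≤ Q) : (Lf n Δ).card ≤ Pq Q n := by
  refine Finset.card_le_card fun d hd => ?_
  obtain ⟨h1, h2, h3, -⟩ := mem_Lf.1 hd
  exact Finset.mem_filter.2 ⟨mem_Par.2 ⟨h1, h2⟩, fun x hx => (h3 ▸ Multiset.le_sup hx).trans h⟩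

theorem low_Peak {n : ℕ} (hn : 2 ^ 1000 ≤ n) :
    √(n : ℝ) * Real.log n / 200 ≤ (((Nat.log 2 n / 100 + 1) * (Nat.sqrt n / 2) : ℕ) : ℝ) := by
  have hn0 : n ≠ 0 := (lt_of_lt_of_le (by positivity) hn).ne'
  have hL1 : 1000 ≤ Nat.log 2 n := Nat.le_log_of_pow_le (by norm_num) hn
  have hs1 : 2 ^ 10 ≤ Nat.sqrt n := by
    rw [Nat.le_sqrt, ← pow_add]
    exact (Nat.pow_le_pow_right (by norm_num) (by omega)).trans hn
  have h1 : Real.log n ≤ (Nat.log 2 n + 1 : ℕ) * Real.log 2 := by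
    rw [← Real.log_pow]
    refine Real.log_le_log (by positivity) ?_
    exact_mod_cast (Nat.lt_pow_succ_log_self (by norm_num) n).le
  have h2 : √(n : ℝ) ≤ (Nat.sqrt n + 1 : ℕ) := by
    push_cast; exact Real.real_sqrt_le_nat_sqrt_succ
  have h3 : ((Nat.log 2 n + 1 : ℕ) : ℝ) ≤ 100 * ((Nat.log 2 n / 100 + 1 : ℕ) : ℝ) := by
    exact_mod_cast (by omega : Nat.log 2 n + 1 ≤ 100 * (Nat.log 2 n / 100 + 1))
  have h4 : 2 * ((Nat.sqrt n + 1 : ℕ) : ℝ) ≤ 5 * ((Nat.sqrt n / 2 : ℕ) : ℝ) := by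
    exact_mod_cast (by omega : 2 * (Nat.sqrt n + 1) ≤ 5 * (Nat.sqrt n / 2))
  have hl2 := Real.log_two_lt_d9
  rw [Nat.cast_mul]
  generalize ((Nat.log 2 n / 100 + 1 : ℕ) : ℝ) = a at *
  generalize ((Nat.sqrt n / 2 : ℕ) : ℝ) = b at *
  have h5 : (0 : ℝ) ≤ (Nat.log 2 n + 1 : ℕ) := Nat.cast_nonneg _
  have h6 : Real.log n ≤ 70 * a := by nlinarith
  have h7 : √(n : ℝ) ≤ 5 / 2 * b := by linarith
  have h8 : 0 ≤ Real.log n := Real.log_natCast_nonneg n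
  have h9 : √(n : ℝ) * Real.log n ≤ 5 / 2 * b * (70 * a) := by
    gcongr
    linarith [Real.sqrt_nonneg (n : ℝ)]
  nlinarith [mul_nonneg (Real.sqrt_nonneg (n : ℝ)) h8]

end Pool.Agent.MP_dbdb85_co

end

section

/-! The statements without hypotheses. -/

namespace Pool.Agent.MP_dbdb85_co

open Multiset

theorem t_suf : S_suf := s_suf s_ops
theorem t_min : S_min := s_min s_nec
theorem t_tight : S_tight := s_tight s_cut
theorem t_two : S_two := s_two s_cut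
theorem t_join : S_join := s_join s_ops t_two
theorem t_n2 : S_n2 := s_n2 s_nec t_suf t_min s_gluing
theorem t_n3 : S_n3 := s_n3 s_nec t_suf t_min s_gluing
theorem t_F5 : S_F5 := s_F5 s_nec s_ops t_join
theorem t_decay : S_decay := s_decay s_mono
theorem t_out : S_out := s_out s_mono
theorem t_tg : S_tg := s_tg t_suf s_inj s_psi (s_phi s_surj s_inj s_psi)

theorem tail_all {n Δ : ℕ} (h : 1000 * √(n : ℝ) * Real.log n ≤ Δ) (hpos : 0 < l2 n (Δ + 1)) :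
    l2 n (Δ + 1) < l2 n Δ := by
  rw [l2_eq] at hpos
  rw [l2_eq, l2_eq]
  have hne := Finset.card_pos.1 hpos
  obtain ⟨d, hd⟩ := hne
  obtain ⟨-, hs, hsup, hfb⟩ := mem_Lf.1 hd
  obtain ⟨R, e, -⟩ := exists_top (d := d) (by rintro rfl; simp at hsup)
  rw [hsup] at e
  have hb := s_top d hfb (Δ + 1) (e ▸ mem_cons_self _ _)
  exact tail_nat s_nec s_top (s_cover t_min t_n2) (s_A1 s_ops t_min t_tight)
    (s_A2 s_nec t_suf t_min t_two) (s_A3 s_nec t_suf t_min t_tight t_n2)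
    (s_A4 s_nec t_suf t_min t_tight t_n3) (s_A5 t_min) (s_A6 t_min) t_F5 (s_path t_suf) s_mono
    t_decay t_out t_tg (l := Nat.log 2 n + 1) (J := 2 * (Nat.sqrt n + 1))
    (Nat.lt_pow_succ_log_self (by norm_num) n) (by omega) (four_le_sq_Peak n)
    (thr_Peak (by omega) (by omega) h) ⟨d, hd⟩

theorem support_all {n a Δ : ℕ} (ha : 0 < l2 n a) (h : a ≤ Δ) :
    0 < l2 n Δ ↔ 4 * Δ ≤ n + 2 := by
  rw [l2_eq, Finset.card_pos] at ha ⊢
  exact support_nat s_nec t_min s_top (s_split t_suf s_nec s_ops t_min s_gluing)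
    (s_fill s_nec t_join (s_near t_suf) (s_dense s_cut)) ha h

theorem peak_all : ∃ n₀ : ℕ, ∀ n ≥ n₀, Even n → ∀ Δ : ℕ, (∀ Δ' : ℕ, l2 n Δ' ≤ l2 n Δ) →
    √(n : ℝ) * Real.log n / 200 < Δ ∧ (Δ : ℝ) < 1000 * √(n : ℝ) * Real.log n + 1 := by
  refine ⟨2 ^ 1000, fun n hn hev Δ hmax => ?_⟩
  obtain ⟨Δ', h1⟩ := peak_nat t_F5 s_mono t_decay t_out t_tg (s_ratio s_mono t_decay) s_big hn hev
  have h2 := hmax Δ'
  rw [l2_eq, l2_eq] at h2
  constructor
  · refine lt_of_le_of_lt (low_Peak hn) (Nat.cast_lt.2 (lt_of_not_ge fun h3 => ?_))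
    exact absurd (h1.trans_le (h2.trans (Lf_le_Pq h3))) (lt_irrefl _)
  · by_contra h3
    have h4 : 0 ≤ 1000 * √(n : ℝ) * Real.log n :=
      mul_nonneg (by positivity) (Real.log_natCast_nonneg n)
    have h5 : 1 ≤ Δ := by
      have : (1 : ℝ) ≤ Δ := by linarith [not_lt.1 h3]
      exact_mod_cast this
    obtain ⟨x, rfl⟩ := Nat.exists_eq_add_of_le' h5
    have h6 := tail_all (n := n) (Δ := x) (by push_cast at h3; linarith [not_lt.1 h3])
      (by rw [l2_eq]; omega)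
    exact absurd (hmax x) (not_le.2 h6)

end Pool.Agent.MP_dbdb85_co

end
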