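import Pool.Agent.Mg.Fdbdb85.Gefe8eb

section

namespace Pool.Agent.MP_dbdb85_co.L

open Multiset

/-- the first `k` rows -/
def rows_BA (D : ℕ) (α : Multiset ℕ) (k : ℕ) : Multiset ℕ :=
  (Multiset.range k).map (fun j => D + cn α (j + 1))

theorem rows_ge_BA {D k v : ℕ} {α : Multiset ℕ} (h : v ∈ rows_BA D α k) : D + cn α k ≤ v := by
  obtain ⟨j, hj, rfl⟩ := mem_map.1 h
  have := cn_anti α (show j + 1 ≤ k from mem_range.1 hj)
  omega

theorem rows_sum_BA (D k : ℕ) (α : Multiset ℕ) : (rows_BA D α k).sum = k * D + Cs α k := by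
  rw [rows_BA, top_Psi D k (fun j => cn α (j + 1)), Cs_eq_sum]

theorem rows_card_BA (D k : ℕ) (α : Multiset ℕ) : card (rows_BA D α k) = k := by
  simp [rows_BA]

theorem rows_split_BA {D k m : ℕ} (α : Multiset ℕ) (h : k ≤ m) :
    ∃ R, rows_BA D α m = rows_BA D α k + R ∧ ∀ v ∈ R, D ≤ v ∧ v ≤ D + cn α (k + 1) := by
  obtain ⟨c, rfl⟩ := Nat.exists_eq_add_of_le h
  refine ⟨((Multiset.range c).map (k + ·)).map (fun j => D + cn α (j + 1)), ?_, ?_⟩
  · rw [rows_BA, Multiset.range_add, map_add]; rfl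
  · intro v hv
    obtain ⟨j, hj, rfl⟩ := mem_map.1 hv
    obtain ⟨i, -, rfl⟩ := mem_map.1 hj
    have := cn_anti α (show k + 1 ≤ k + i + 1 by omega)
    omega

theorem BA_pf : BA_st := by
  rintro ⟨D, α, β⟩ ⟨h1, h2⟩
  simp only at h1 h2
  have hp : part (D, α, β) = rows_BA D α D + β := rfl
  have hD : ∀ v ∈ rows_BA D α D, D ≤ v := fun v hv => le_trans (Nat.le_add_right _ _) (rows_ge_BA hv)
  have hs : Cs α D = α.sum := Cs_of_le fun v hv => (h1 v hv).2
  have h7 : ∀ k ≤ D, ∃ R, part (D, α, β) = rows_BA D α k + R ∧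
      ∀ a ∈ rows_BA D α k, ∀ b ∈ R, b ≤ a := by
    intro k hk
    obtain ⟨R, e, hR⟩ := rows_split_BA (D := D) α hk
    refine ⟨R + β, by rw [hp, e, add_assoc], fun a ha b hb => ?_⟩
    have := rows_ge_BA ha
    have := cn_anti α (Nat.le_add_right k 1)
    rcases mem_add.1 hb with hb | hb
    · have := (hR b hb).2; omega
    · have := (h2 b hb).2; omega
  refine ⟨?_, ?_, ?_, ?_, ?_, ?_, ?_⟩
  · rw [hp, sum_add, rows_sum_BA, hs]; simp only [sz, ms]; ring
  · rcases Nat.eq_zero_or_pos D with rfl | h0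
    · have ea : α = 0 := eq_zero_of_forall_notMem fun v hv => by have := h1 v hv; omega
      have eb : β = 0 := eq_zero_of_forall_notMem fun v hv => by have := h2 v hv; omega
      subst ea eb
      simp [part, wd]
    · obtain ⟨R, e, hR⟩ := h7 1 h0
      have e1 : rows_BA D α 1 = {D + card α} := by
        simp [rows_BA, cn_of_ge fun v hv => (h1 v hv).1]
      rw [e, e1, singleton_add, sup_cons_of]
      · rfl
      · intro y hy
        exact hR _ (by rw [e1]; exact mem_singleton_self _) y hy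
  · rw [hp, card_add, rows_card_BA]
  · intro K hK
    rcases le_or_gt (card K) D with hc | hc
    · obtain ⟨R, e, hR⟩ := h7 _ hc
      rw [e] at hK
      have := top_sum hR hK (rows_card_BA _ _ _)
      rwa [rows_sum_BA] at this
    · rw [hp] at hK
      obtain ⟨B, b1, -, b3, b4⟩ := exch (fun a ha b hb => le_trans (h2 b hb).2 (hD a ha)) hK
        (by rw [rows_card_BA]; omega)
      have b5 := sum_le_of_le fun v hv => (h2 v (mem_of_le b1 hv)).2
      rw [rows_card_BA] at b3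
      rw [rows_sum_BA, hs] at b4
      have b6 : Cs α (card K) = α.sum := Cs_of_le fun v hv => le_trans (h1 v hv).2 hc.le
      simp only [b6]
      rw [← b3, Nat.add_mul]
      omega
  · intro k hk
    rw [hp, Cs_add, Cs_of_ge fun v hv => le_trans hk (hD v hv), rows_card_BA]
  · rw [hp, cn_add, cn_of_lt (d := β) fun v hv => Nat.lt_succ_of_le (h2 v hv).2]
    have := cn_le_card (rows_BA D α D) (D + 1)
    rwa [rows_card_BA] at this
  · intro k hk
    obtain ⟨R, e, -⟩ := h7 k hk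
    exact ⟨rows_BA D α k, by rw [e]; exact le_add_right _ _, rows_card_BA _ _ _,
      fun v hv => le_trans (Nat.le_add_right _ _) (rows_ge_BA hv), rows_sum_BA _ _ _⟩

end Pool.Agent.MP_dbdb85_co.L

end

section

namespace Pool.Agent.MP_dbdb85_co.L

open Multiset

theorem G1_pf : G1_st := by
  intro n s w u τ D0 E0 X hD hn hX
  have := exists_red X (X1 n s w u τ D0 E0) (Finset.range (w + u + 1))
    (fun y p => (y.1, y.2.1 - replicate p 2, y.2.2 - replicate p 2)) ?_
  · simpa using this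
  rintro ⟨D, α, β⟩ hx
  obtain ⟨⟨h1, h2⟩, h3, h4, h5, h6, h7, h8, k, h9, h10, h11⟩ := hX _ hx
  simp only [sz, ms, wd, Low] at h1 h2 h3 h4 h5 h6 h7 h8 h10 h11
  obtain ⟨p, hp⟩ := Nat.exists_eq_add_of_le h7
  refine ⟨(D, α + replicate p 2, β + replicate p 2), ⟨⟨?_, ?_⟩, h3, ?_, ?_, ?_, ?_, ?_, ?_,
    k, h9, h10, ?_⟩, p, Finset.mem_range.2 (by omega), by simp⟩
  · intro v hv
    rcases mem_add.1 hv with hv | hv
    · exact h1 v hv
    · rw [eq_of_mem_replicate hv]
      exact ⟨by omega, by simp only; omega⟩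
  · intro v hv
    rcases mem_add.1 hv with hv | hv
    · exact h2 v hv
    · rw [eq_of_mem_replicate hv]
      exact ⟨le_rfl, by simp only; omega⟩
  · simp only [ms, sum_add]; omega
  · simp only [sz, ms, sum_add]; omega
  · simp only [sz, ms, sum_add, sum_replicate, smul_eq_mul]; omega
  · simp only [wd, card_add, card_replicate]; omega
  · have : D ^ 2 < (s + u + 1) ^ 2 := by nlinarith [Nat.zero_le (u * u), Nat.zero_le (u * s)]
    have := lt_of_pow_lt_pow_left₀ 2 (Nat.zero_le _) this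
    simp only
    omega
  · intro j hj
    have := h8 j hj
    simp only [Cs_add]; omega
  · simp only [Cs_add]; omega

theorem div_G1 (a o P : ℕ) (h : o < P) :
    P * ((a + o) / P) ≤ a + o ∧ a + o < P * ((a + o) / P) + P :=
  ⟨Nat.mul_div_le _ _, Nat.lt_mul_div_succ _ (by omega)⟩

theorem cmp_G1 {p o τ k : ℕ} (ho : o < p + 1) {α α' β β' : Multiset ℕ}
    (ha : ∀ j, cn α' j + (cn α j + o) / (p + 1) = cn α j)
    (hb : ∀ j, cn β' j + (cn β j + o) / (p + 1) = cn β j) (h : Cs α k ≤ Cs β k + τ * k) :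
    Cs α' k ≤ Cs β' k + (τ + 1) * k := by
  have key : ∀ k, (p + 1) * Cs α' k + p * Cs β k ≤
      (p + 1) * Cs β' k + p * Cs α k + (p + 1) * k := by
    intro k
    induction k with
    | zero => simp [Cs_at_zero]
    | succ k ih =>
      have h1 := ha (k + 1)
      have h2 := hb (k + 1)
      have h3 := (div_G1 (cn α (k + 1)) o _ ho).2
      have h4 := (div_G1 (cn β (k + 1)) o _ ho).1
      simp only [Cs_succ]
      generalize (cn α (k + 1) + o) / (p + 1) = f at h1 h3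
      generalize (cn β (k + 1) + o) / (p + 1) = g at h2 h4
      rw [← h1] at h3 ⊢
      rw [← h2] at h4 ⊢
      nlinarith
  have h1 := key k
  have h2 := Nat.mul_le_mul_left p h
  refine Nat.le_of_mul_le_mul_left (c := p + 1) ?_ (by omega)
  nlinarith [Nat.zero_le (τ * k)]

theorem sum_G1 {P o : ℕ} (ho : o < P) {α α' : Multiset ℕ}
    (ha : ∀ j, cn α' j + (cn α j + o) / P = cn α j) (k : ℕ) :
    ∃ e, Cs α' k + e = Cs α k ∧ Cs α k ≤ P * e + k * P ∧ P * e ≤ Cs α k + k * P := by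
  induction k with
  | zero => exact ⟨0, by simp [Cs_at_zero]⟩
  | succ k ih =>
    obtain ⟨e, h1, h2, h3⟩ := ih
    have h4 := ha (k + 1)
    have h5 := div_G1 (cn α (k + 1)) o _ ho
    refine ⟨e + (cn α (k + 1) + o) / P, ?_⟩
    simp only [Cs_succ, Nat.mul_add, Nat.add_mul, Nat.one_mul]
    omega

theorem G2b_pf : G2b_st := by
  rintro P ⟨D, α, β⟩ ⟨D', α', β'⟩ hP ⟨h1, h2⟩ ⟨h3, h4, h5, o, ho, h6⟩
  simp only at h1 h2 h3 h4 h5 h6
  subst h3
  have g1 : ∀ v ∈ α', 1 ≤ v ∧ v ≤ D' := fun v hv => h1 v (mem_of_le h4 hv)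
  have g2 : ∀ v ∈ β', 2 ≤ v ∧ v ≤ D' := fun v hv => h2 v (mem_of_le h5 hv)
  refine ⟨⟨g1, g2⟩, ?_, ?_, ?_⟩
  · obtain ⟨e, e1, e2, e3⟩ := sum_G1 ho (fun j => (h6 j).1) D'
    obtain ⟨f, f1, f2, f3⟩ := sum_G1 ho (fun j => (h6 j).2) D'
    rw [Cs_of_le fun v hv => (h1 v hv).2] at e1 e2 e3
    rw [Cs_of_le fun v hv => (h2 v hv).2] at f1 f2 f3
    rw [Cs_of_le fun v hv => (g1 v hv).2] at e1
    rw [Cs_of_le fun v hv => (g2 v hv).2] at f1
    have c1 := (h6 0).1
    have c2 := div_G1 (cn α 0) o _ ho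
    rw [cn_of_ge fun v _ => Nat.zero_le v] at c1
    rw [cn_of_ge (d := α) fun v _ => Nat.zero_le v] at c1 c2
    refine ⟨(card α + o) / P, e + f, ?_⟩
    simp only [ms, Nat.mul_add, Nat.mul_assoc]
    omega
  · obtain ⟨p, rfl⟩ : ∃ p, P = p + 1 := ⟨P - 1, by omega⟩
    exact fun τ h k hk => cmp_G1 ho (fun j => (h6 j).1) (fun j => (h6 j).2) (h k hk)
  · obtain ⟨p, rfl⟩ : ∃ p, P = p + 1 := ⟨P - 1, by omega⟩
    rintro τ ⟨k, k1, k2, h⟩
    exact ⟨k, k1, k2, cmp_G1 ho (fun j => (h6 j).2) (fun j => (h6 j).1) h⟩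

end Pool.Agent.MP_dbdb85_co.L

end

section

namespace Pool.Agent.MP_dbdb85_co.L

open Multiset

theorem Q_pf (hA : BA_st) (hB : BB_st) (hQ : QM_st) : Q_st := by
  intro D K α β hv hF hE
  obtain ⟨hK, hKD⟩ := hv.2 K (mem_cons_self _ _)
  have hβ : ∀ v ∈ β, 2 ≤ v ∧ v ≤ D := fun v h => hv.2 v (mem_cons_of_mem h)
  have hv' : Val (D, K ::ₘ α, β) := by
    refine ⟨fun v h => ?_, hβ⟩
    rcases mem_cons.1 h with rfl | h
    · exact ⟨by omega, hKD⟩
    · exact hv.1 v h
  obtain ⟨c, rfl⟩ := Nat.exists_eq_add_of_le hKD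
  let R := ((Multiset.range c).map (K + ·)).map (fun j => K + c + cn α (j + 1)) + β
  have e1 : part (K + c, α, K ::ₘ β) = K ::ₘ (rows_BA (K + c) α K + R) := by
    simp only [part, rows_BA, R]
    rw [add_cons, Multiset.range_add, map_add, add_assoc]
  have e2 : part (K + c, K ::ₘ α, β) = (rows_BA (K + c) α K).map (· + 1) + R := by
    simp only [part, rows_BA, R]
    rw [Multiset.range_add, map_add, add_assoc, map_map (· + 1)]
    congr 1
    · refine map_congr rfl fun j hj => ?_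
      rw [cn_cons, if_pos (show j + 1 ≤ K from mem_range.1 hj)]
      simp only [Function.comp]
      omega
    · congr 1
      refine map_congr rfl fun j hj => ?_
      obtain ⟨i, -, rfl⟩ := mem_map.1 hj
      rw [cn_cons, if_neg (by omega), zero_add]
  have hR : ∀ r ∈ R, 2 ≤ r ∧ r ≤ K + c + cn α K := by
    intro r hr
    rcases mem_add.1 hr with h | h
    · obtain ⟨j, hj, rfl⟩ := mem_map.1 h
      obtain ⟨i, -, rfl⟩ := mem_map.1 hj
      have := cn_anti α (show K ≤ K + i + 1 by omega)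
      omega
    · have := hβ r h
      omega
  have hG : Gr (part (K + c, K ::ₘ α, β)) := by
    refine t_suf _ ?_ ((hB _ hv').1.2 hE)
    have := (s_nec _ hF.1).1
    rw [(hA _ hv).1] at this
    rw [(hA _ hv').1]
    simp only [sz, ms, sum_cons] at this ⊢
    rwa [show (K + c) ^ 2 + (K + α.sum + β.sum) = (K + c) ^ 2 + (α.sum + (K + β.sum)) by ring]
  have hc := (hA _ hv').2.2.2.2.2.1
  rw [e2] at hG hc ⊢
  rw [e1] at hF
  exact hQ (K + c) K _ R hK hKD (rows_card_BA _ _ _)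
    (fun h hh => le_trans (Nat.le_add_right _ _) (rows_ge_BA hh))
    (fun h hh r hr => (hR r hr).2.trans (rows_ge_BA hh)) (fun r hr => (hR r hr).1) hc hF hG

theorem card_lt_MA {x : Cfg} (hv : Val x) (hE : EGc x) (hD : 1 ≤ x.1) :
    card x.2.1 < card x.2.2 := by
  have a := hE 1 hD
  have b := Cs_le_card x.2.2 1
  rw [Cs_of_ge fun v h => (hv.1 v h).1] at a
  omega

theorem MA_pf (hC : BC_st) (hD : BD_st) (hQ : Q_st) (hR : BR_st) : MA_st := by
  classical
  obtain ⟨f, f1, f2⟩ := hR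
  intro n Δ Sp hSp hX
  rw [hC, hC]
  have h1 := hX ((Ff n Δ).filter NT) fun x hx =>
    ⟨mem_Ff.1 (Finset.mem_filter.1 hx).1, (Finset.mem_filter.1 hx).2⟩
  have hs : Sp ⊆ Ff n (Δ + 1) := fun y hy => mem_Ff.2 (hSp y hy).1
  have lt : ∀ x ∈ (Ff n Δ).filter (fun x => ¬ NT x), (∀ v ∈ x.2.2, 1 ≤ v) ∧
      card x.2.1 < card x.2.2 := by
    intro x hx
    have a := mem_Ff.1 (Finset.mem_filter.1 hx).1
    obtain ⟨b, -, c⟩ := hD.2 _ _ _ a
    exact ⟨fun v h => by have := a.1.2 v h; omega, card_lt_MA a.1 b (by omega)⟩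
  have h2 : ((Ff n Δ).filter (fun x => ¬ NT x)).card ≤ (Ff n (Δ + 1) \ Sp).card := by
    refine Finset.card_le_card_of_injOn
      (fun x => (x.1, f x.2.1 x.2.2 ::ₘ x.2.1, x.2.2.erase (f x.2.1 x.2.2))) ?_ ?_
    · rintro ⟨D, α, β⟩ hx
      obtain ⟨l1, l2⟩ := lt _ hx
      obtain ⟨a, b⟩ := Finset.mem_filter.1 (Finset.mem_coe.1 hx)
      obtain ⟨hv, a1, a2, a3⟩ := mem_Ff.1 a
      obtain ⟨k1, j, k2, k3⟩ := f1 α β l1 l2
      simp only at k1 k3 ⊢
      generalize f α β = K at k1 k3 ⊢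
      obtain ⟨β', rfl⟩ := exists_cons_of_mem k1
      rw [erase_cons_head] at k3 ⊢
      have hk : ∀ k, 1 ≤ k → k ≤ D → Cs (K ::ₘ α) k + k + 2 ≤ Cs β' k := by
        intro k c1 c2
        by_contra c3
        refine b ⟨k, c1, c2, ?_⟩
        simp only [Cs_cons] at c3 ⊢
        omega
      have hE : EGc (D, K ::ₘ α, β') := by
        intro k c2
        rcases Nat.eq_zero_or_pos k with rfl | c1
        · simp [Cs_at_zero]
        · have := hk k c1 c2
          simp only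
          omega
      obtain ⟨hK, hKD⟩ := hv.2 K (mem_cons_self _ _)
      refine Finset.mem_coe.2 (Finset.mem_sdiff.2 ⟨mem_Ff.2 ⟨⟨fun v h => ?_,
        fun v h => hv.2 v (mem_cons_of_mem h)⟩, ?_, ?_, hQ D K α β' hv a3 hE⟩, fun h => ?_⟩)
      · rcases mem_cons.1 h with rfl | h
        · exact ⟨by omega, hKD⟩
        · exact hv.1 v h
      · simp only [sz, ms, sum_cons] at a1 ⊢
        omega
      · simp only [wd, card_cons] at a2 ⊢
        omega
      · rcases (hSp _ h).2 with c | ⟨k, c1, c2, c3⟩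
        · exact absurd (c j k2) (not_le.2 k3)
        · have := hk k (by omega) c2
          simp only at c3
          omega
    · intro x hx y hy e
      simp only [Prod.mk.injEq] at e
      obtain ⟨a, b⟩ := f2 _ _ _ _ (lt x hx).1 (lt y hy).1 (lt x hx).2 (lt y hy).2 e.2.1 e.2.2
      exact Prod.ext e.1 (Prod.ext a b)
  have h3 := Finset.card_sdiff_add_card_eq_card hs
  have h4 := Finset.card_filter_add_card_filter_not (s := Ff n Δ) NT
  omega

theorem R1_pf (hM : MA_st) : R1_st := by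
  intro n Δ h
  refine hM n Δ ∅ (by simp) fun X hX => ?_
  rw [Finset.card_empty, Nat.le_zero, Finset.card_eq_zero]
  refine Finset.eq_empty_of_forall_notMem fun x hx => ?_
  obtain ⟨⟨hv, a1, a2, -⟩, k, k1, k2, k3⟩ := hX x hx
  obtain ⟨-, b1, b2⟩ := near_size (τ := 4) hv k1 k2 (by omega)
  simp only [sz, ms, wd] at a1 a2
  subst a2
  nlinarith [Nat.zero_le (card x.2.1 ^ 2), Nat.zero_le (card x.2.1)]

end Pool.Agent.MP_dbdb85_co.L

end
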