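import Pool.Agent.Mg.Fdbdb85.Gefe8eb

section

/-! Deleting every `P`-th letter loses at most a factor `P * 2 ^ h`. -/

namespace Pool.Agent.MP_dbdb85_co.L

open Multiset

theorem thin_G2a {P o : ℕ} (ho : o < P) (n : ℕ) : ∀ α : Multiset ℕ, card α = n →
    ∃ α' ≤ α, ∀ j, cn α' j + (cn α j + o) / P = cn α j := by
  induction n with
  | zero =>
    intro α h
    rw [card_eq_zero.1 h]
    exact ⟨0, le_rfl, fun j => by simp [Nat.div_eq_of_lt ho]⟩
  | succ n ih =>
    intro α h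
    have h0 : α ≠ 0 := by
      rintro rfl
      simp at h
    obtain ⟨x, hx, hm⟩ := Finset.exists_min_image α.toFinset id (toFinset_nonempty.2 h0)
    obtain ⟨β, rfl⟩ := exists_cons_of_mem (mem_toFinset.1 hx)
    rw [card_cons] at h
    obtain ⟨β', h1, h2⟩ := ih β (by omega)
    have e : ∀ j, j ≤ x → cn β j = n := fun j hj => by
      rw [cn_of_ge fun v hv => hj.trans (hm v (mem_toFinset.2 (mem_cons_of_mem hv)))]
      omega
    have s : (1 + n + o) / P = (n + o) / P + if P ∣ n + o + 1 then 1 else 0 := by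
      rw [← Nat.succ_div]
      congr 1
      omega
    by_cases d : P ∣ n + o + 1
    · refine ⟨β', h1.trans (le_cons_self _ _), fun j => ?_⟩
      have := h2 j
      rw [cn_cons]
      split_ifs with hj
      · rw [e j hj] at this ⊢
        rw [s, if_pos d]
        omega
      · simpa using this
    · refine ⟨x ::ₘ β', cons_le_cons _ h1, fun j => ?_⟩
      have := h2 j
      rw [cn_cons, cn_cons]
      split_ifs with hj
      · rw [e j hj] at this ⊢
        rw [s, if_neg d]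
        omega
      · simpa using this

/-- values at which the deletion map may fail to be injective -/
def bad_G2a (P o v : ℕ) : Prop := P ∣ v + o ∨ P ∣ v + 1 + o

theorem lt_G2a {P o a v w : ℕ} (hP : 2 ≤ P) (h1 : a + (v + o) / P = v) (h2 : a + (w + o) / P = w)
    (l : v < w) : w = v + 1 ∧ P ∣ w + o ∧ ¬ P ∣ v + o := by
  have e1 := Nat.div_add_mod (v + o) P
  have e2 := Nat.div_add_mod (w + o) P
  have l1 := Nat.mod_lt (v + o) (show 0 < P by omega)
  rw [Nat.dvd_iff_mod_eq_zero, Nat.dvd_iff_mod_eq_zero]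
  generalize (v + o) / P = q at *
  generalize (w + o) / P = q' at *
  generalize (v + o) % P = r at *
  generalize (w + o) % P = r' at *
  obtain ⟨d, rfl⟩ : ∃ d, q' = q + 1 + d := ⟨q' - q - 1, by omega⟩
  have : 2 * d ≤ P * d := Nat.mul_le_mul_right d hP
  rw [Nat.mul_add, Nat.mul_add] at e2
  omega

theorem ne_G2a {P o a v w : ℕ} (hP : 2 ≤ P) (h1 : a + (v + o) / P = v) (h2 : a + (w + o) / P = w)
    (l : v ≠ w) : bad_G2a P o v ∧ ¬ (P ∣ v + o ↔ P ∣ w + o) := by
  rcases lt_or_gt_of_ne l with l | l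
  · obtain ⟨a1, a2, a3⟩ := lt_G2a hP h1 h2 l
    exact ⟨Or.inr (a1 ▸ a2), fun h => a3 (h.2 a2)⟩
  · obtain ⟨a1, a2, a3⟩ := lt_G2a hP h2 h1 l
    exact ⟨Or.inl a2, fun h => a3 (h.1 a2)⟩

theorem one_G2a (P v : ℕ) : ((Finset.range P).filter fun o => P ∣ v + o).card ≤ 1 := by
  rw [Finset.card_le_one]
  intro a ha b hb
  rw [Finset.mem_filter, Finset.mem_range] at ha hb
  have key : ∀ a b, b < P → P ∣ v + a → P ∣ v + b → b ≤ a := fun a b l h1 h2 => by
    have := Nat.eq_zero_of_dvd_of_lt (Nat.dvd_sub h2 h1) (by omega)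
    omega
  exact le_antisymm (key b a ha.1 hb.2 ha.2) (key a b hb.1 ha.2 hb.2)

open Classical in
/-- the bad indices -/
noncomputable def J_G2a (P o D : ℕ) (α : Multiset ℕ) : Finset ℕ :=
  (Finset.Icc 1 D).filter fun j => bad_G2a P o (cn α j)

theorem sum_G2a (P D : ℕ) (α : Multiset ℕ) :
    ∑ o ∈ Finset.range P, (J_G2a P o D α).card ≤ 2 * D := by
  classical
  unfold J_G2a
  simp only [Finset.card_filter]
  rw [Finset.sum_comm]
  refine (Finset.sum_le_card_nsmul _ _ 2 fun j _ => ?_).trans (by simp [mul_comm])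
  rw [← Finset.card_filter]
  have a := one_G2a P (cn α j)
  have b := one_G2a P (cn α j + 1)
  refine le_trans (Finset.card_le_card ?_) ((Finset.card_union_le _ _).trans (add_le_add a b))
  intro o ho
  rw [Finset.mem_filter] at ho
  rcases ho.2 with h | h
  · exact Finset.mem_union_left _ (Finset.mem_filter.2 ⟨ho.1, h⟩)
  · exact Finset.mem_union_right _ (Finset.mem_filter.2 ⟨ho.1, h⟩)

theorem inj_G2a {P o D : ℕ} (hP : 2 ≤ P) {γ α₀ α β : Multiset ℕ}
    (h0 : ∀ j, cn γ j + (cn α₀ j + o) / P = cn α₀ j)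
    (h1 : ∀ j, cn γ j + (cn α j + o) / P = cn α j) (h2 : ∀ j, cn γ j + (cn β j + o) / P = cn β j)
    (v1 : ∀ v ∈ α, 1 ≤ v ∧ v ≤ D) (v2 : ∀ v ∈ β, 1 ≤ v ∧ v ≤ D)
    (e : ((J_G2a P o D α₀).filter fun j => P ∣ cn α j + o) =
      (J_G2a P o D α₀).filter fun j => P ∣ cn β j + o) : α = β := by
  classical
  have key : ∀ j, 1 ≤ j → j ≤ D → cn α j = cn β j := fun j a b => by
    by_contra ne
    obtain ⟨b1, b2⟩ := ne_G2a hP (h1 j) (h2 j) ne
    have m : j ∈ J_G2a P o D α₀ := by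
      refine Finset.mem_filter.2 ⟨Finset.mem_Icc.2 ⟨a, b⟩, ?_⟩
      by_cases c : cn α₀ j = cn α j
      · rwa [c]
      · exact (ne_G2a hP (h0 j) (h1 j) c).1
    have := Finset.ext_iff.1 e j
    simp only [Finset.mem_filter, m, true_and] at this
    exact b2 this
  refine ext_cn fun j => ?_
  rcases lt_or_ge D (max j 1) with c | c
  · rcases lt_or_ge D j with c' | c'
    · rw [cn_of_lt fun v hv => (v1 v hv).2.trans_lt c', cn_of_lt fun v hv => (v2 v hv).2.trans_lt c']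
    · have z : ∀ d : Multiset ℕ, (∀ v ∈ d, 1 ≤ v ∧ v ≤ D) → d = 0 := fun d h =>
        eq_zero_of_forall_notMem fun v hv => by
          have := h v hv
          omega
      rw [z α v1, z β v2]
  · rcases Nat.eq_zero_or_pos j with rfl | hj
    · have := key 1 le_rfl (by omega)
      rw [cn_of_ge fun v hv => (v1 v hv).1, cn_of_ge fun v hv => (v2 v hv).1] at this
      rwa [cn_of_ge fun v _ => Nat.zero_le v, cn_of_ge fun v _ => Nat.zero_le v]
    · exact key j hj (by omega)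

theorem G2a_pf : G2a_st := by
  classical
  intro P h Dm X hP hD hX
  have ex : ∀ x : Cfg, ∃ p : ℕ × Cfg, p.1 < P ∧ p.2.1 = x.1 ∧ p.2.2.1 ≤ x.2.1 ∧ p.2.2.2 ≤ x.2.2 ∧
      (∀ j, cn p.2.2.1 j + (cn x.2.1 j + p.1) / P = cn x.2.1 j) ∧
      (∀ j, cn p.2.2.2 j + (cn x.2.2 j + p.1) / P = cn x.2.2 j) ∧
      (x.1 ≤ Dm → (J_G2a P p.1 x.1 x.2.1).card + (J_G2a P p.1 x.1 x.2.2).card ≤ h) := by
    intro x
    have : ∃ o ∈ Finset.range P,
        x.1 ≤ Dm → (J_G2a P o x.1 x.2.1).card + (J_G2a P o x.1 x.2.2).card ≤ h := by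
      by_cases c : x.1 ≤ Dm
      · obtain ⟨o, ho, l⟩ := Finset.exists_le_of_sum_le (s := Finset.range P)
          (f := fun o => (J_G2a P o x.1 x.2.1).card + (J_G2a P o x.1 x.2.2).card)
          (g := fun _ => h) ⟨0, Finset.mem_range.2 (by omega)⟩ (by
            have a := sum_G2a P x.1 x.2.1
            have b := sum_G2a P x.1 x.2.2
            rw [Finset.sum_add_distrib, Finset.sum_const, Finset.card_range, smul_eq_mul, mul_comm]
            omega)
        exact ⟨o, ho, fun _ => l⟩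
      · exact ⟨0, Finset.mem_range.2 (by omega), fun c' => (c c').elim⟩
    obtain ⟨o, ho, l⟩ := this
    rw [Finset.mem_range] at ho
    obtain ⟨a, a1, a2⟩ := thin_G2a ho _ x.2.1 rfl
    obtain ⟨b, b1, b2⟩ := thin_G2a ho _ x.2.2 rfl
    exact ⟨(o, x.1, a, b), ho, rfl, a1, b1, a2, b2, l⟩
  choose f f1 f2 f3 f4 f5 f6 f7 using ex
  refine ⟨X.image fun x => (f x).2, fun y hy => ?_, ?_⟩
  · obtain ⟨x, hx, rfl⟩ := Finset.mem_image.1 hy
    exact ⟨x, hx, f2 x, f3 x, f4 x, (f x).1, f1 x, fun j => ⟨f5 x j, f6 x j⟩⟩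
  have c1 : (X.image f).card ≤ P * (X.image fun x => (f x).2).card := by
    conv_rhs => rw [← Finset.card_range P, ← Finset.card_product]
    refine Finset.card_le_card fun p hp => ?_
    obtain ⟨x, hx, rfl⟩ := Finset.mem_image.1 hp
    exact Finset.mem_product.2 ⟨Finset.mem_range.2 (f1 x), Finset.mem_image.2 ⟨x, hx, rfl⟩⟩
  refine (Finset.card_le_mul_card_image (f := f) X (2 ^ h) fun p hp => ?_).trans ?_
  · obtain ⟨x, hx, rfl⟩ := Finset.mem_image.1 hp
    refine le_trans (Finset.card_le_card_of_injOn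
      (t := (J_G2a P (f x).1 x.1 x.2.1).powerset ×ˢ (J_G2a P (f x).1 x.1 x.2.2).powerset)
      (fun z => ((J_G2a P (f x).1 x.1 x.2.1).filter fun j => P ∣ cn z.2.1 j + (f x).1,
        (J_G2a P (f x).1 x.1 x.2.2).filter fun j => P ∣ cn z.2.2 j + (f x).1))
      (fun z _ => Finset.mem_coe.2 (Finset.mem_product.2
        ⟨Finset.mem_powerset.2 (Finset.filter_subset _ _),
          Finset.mem_powerset.2 (Finset.filter_subset _ _)⟩)) ?_) ?_
    · intro z hz w hw e
      obtain ⟨z1, z2⟩ := Finset.mem_filter.1 (Finset.mem_coe.1 hz)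
      obtain ⟨w1, w2⟩ := Finset.mem_filter.1 (Finset.mem_coe.1 hw)
      have zd : z.1 = x.1 := by rw [← f2 z, z2, f2 x]
      have wd : w.1 = x.1 := by rw [← f2 w, w2, f2 x]
      have vz := (hX z z1).1
      have vw := (hX w w1).1
      refine Prod.ext (zd.trans wd.symm) (Prod.ext ?_ ?_)
      · exact inj_G2a hP (f5 x) (z2 ▸ f5 z) (w2 ▸ f5 w) (zd ▸ vz.1) (wd ▸ vw.1) (congrArg Prod.fst e)
      · exact inj_G2a hP (f6 x) (z2 ▸ f6 z) (w2 ▸ f6 w)
          (fun v hv => ⟨le_trans one_le_two (vz.2 v hv).1, zd ▸ (vz.2 v hv).2⟩)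
          (fun v hv => ⟨le_trans one_le_two (vw.2 v hv).1, wd ▸ (vw.2 v hv).2⟩)
          (congrArg Prod.snd e)
    · rw [Finset.card_product, Finset.card_powerset, Finset.card_powerset, ← pow_add]
      exact Nat.pow_le_pow_right two_pos (f7 x (hX x hx).2)
  · rw [mul_comm P, mul_assoc]
    exact Nat.mul_le_mul_left _ c1

end Pool.Agent.MP_dbdb85_co.L

end

section

/-! From almost graphical and almost tight to graphical and tight. -/

namespace Pool.Agent.MP_dbdb85_co.L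

open Multiset

theorem ivt_G3 (P : ℕ → Prop) (h0 : P 0) (n : ℕ) (hn : ¬ P n) : ∃ j < n, P j ∧ ¬ P (j + 1) := by
  induction n with
  | zero => exact absurd h0 hn
  | succ n ih =>
    by_cases h : P n
    · exact ⟨n, n.lt_succ_self, h, hn⟩
    · obtain ⟨j, h1, h2⟩ := ih h
      exact ⟨j, by omega, h2⟩

theorem path_G3 {τ D : ℕ} {a b : ℕ → ℕ} (hL : ∀ k ≤ D, a k ≤ b k + τ * k)
    (hU : ∃ k, 3 ≤ k ∧ k ≤ D ∧ b k ≤ a k + τ * k) :
    ∃ i r v, i + 1 + r = 6 * τ + 3 ∧ 2 ≤ v ∧ v < D ∧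
      (∀ k, 3 ≤ k → k ≤ D → a k + (i * k + min k v + r * 2) + k + 1 ≤
        b k + ((τ + 2) * k + (6 * τ + 3) * 2)) ∧
      ∃ k, 3 ≤ k ∧ k ≤ D ∧ b k + ((τ + 2) * k + (6 * τ + 3) * 2) ≤
        a k + (i * k + min k (v + 1) + r * 2) + k := by
  obtain ⟨k₀, k1, k2, k3⟩ := hU
  obtain ⟨i, hi, h1, h2⟩ := ivt_G3 (fun i => ∀ k, 3 ≤ k → k ≤ D →
    a k + (i * k + (6 * τ + 3 - i) * 2) + k + 1 ≤ b k + ((τ + 2) * k + (6 * τ + 3) * 2))
    (fun k h3 h4 => by
      have := hL k h4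
      rw [Nat.add_mul τ]
      omega) (6 * τ + 3) fun h => by
      have h5 := h k₀ k1 k2
      have h6 := Nat.mul_le_mul_left τ k1
      rw [Nat.add_mul τ, Nat.add_mul _ _ k₀, Nat.mul_assoc 6] at h5
      omega
  obtain ⟨r, hr⟩ := Nat.exists_eq_add_of_le (Nat.succ_le_of_lt hi)
  obtain ⟨t, ht, h3, h4⟩ := ivt_G3 (fun t => ∀ k, 3 ≤ k → k ≤ D →
    a k + (i * k + min k (2 + t) + r * 2) + k + 1 ≤ b k + ((τ + 2) * k + (6 * τ + 3) * 2))
    (fun k h3 h4 => by
      have := h1 k h3 h4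
      omega) (D - 2) fun h => h2 fun k h3 h4 => by
      have := h k h3 h4
      rw [Nat.add_mul i]
      omega
  refine ⟨i, r, 2 + t, hr.symm, by omega, by omega, h3, ?_⟩
  by_contra h5
  refine h4 fun k h6 h7 => by_contra fun h8 => h5 ⟨k, h6, h7, ?_⟩
  rw [Nat.add_assoc 2 t 1]
  omega

theorem G3_pf : G3_st := by
  intro τ Dm X hX
  have hI : (6 * τ + 3) * Dm = (Finset.range (6 * τ + 3) ×ˢ Finset.Icc 1 Dm).card := by simp
  rw [hI]
  refine exists_red X _ _ (fun y c => (y.1,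
    y.2.1 - (replicate c.1 y.1 + {c.2} + replicate (6 * τ + 2 - c.1) 2),
    y.2.2 - (replicate (τ + 2) y.1 + replicate (6 * τ + 3) 2))) ?_
  rintro ⟨D, α, β⟩ hx
  obtain ⟨hv, hD, hL, hU⟩ := hX _ hx
  obtain ⟨i, r, v, h1, h2, h3, h4, k₀, k1, k2, k3⟩ := path_G3 hL hU
  dsimp only at hD h3 h4 k2 k3
  obtain ⟨w, hw, he⟩ : ∃ w, (w = v ∨ w = v + 1) ∧ Even (sz (D, α, β) + (i * D + w + r * 2) +
      ((τ + 2) * D + (6 * τ + 3) * 2)) := by
    rcases Nat.even_or_odd (sz (D, α, β) + (i * D + v + r * 2) +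
      ((τ + 2) * D + (6 * τ + 3) * 2)) with h | h
    · exact ⟨v, Or.inl rfl, h⟩
    · refine ⟨v + 1, Or.inr rfl, ?_⟩
      rw [Nat.odd_iff] at h
      rw [Nat.even_iff]
      omega
  have hs : sz (D, α + (replicate i D + {w} + replicate r 2),
      β + (replicate (τ + 2) D + replicate (6 * τ + 3) 2)) = sz (D, α, β) + (i * D + w + r * 2) +
      ((τ + 2) * D + (6 * τ + 3) * 2) := by
    simp only [sz, ms, sum_add, sum_replicate, sum_singleton, smul_eq_mul]
    omega
  refine ⟨(D, α + (replicate i D + {w} + replicate r 2),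
    β + (replicate (τ + 2) D + replicate (6 * τ + 3) 2)),
    ⟨_, hx, rfl, ⟨⟨fun u hu => ?_, fun u hu => ?_⟩, rfl, rfl, fun k hk => ?_, k₀, k1, k2, ?_⟩,
      hs ▸ he, ?_, by omega, ?_⟩, (i, w), ?_, ?_⟩
  · simp only [mem_add, mem_replicate, mem_singleton] at hu
    rcases hu with hu | hu
    · exact hv.1 u hu
    · dsimp only
      omega
  · simp only [mem_add, mem_replicate] at hu
    rcases hu with hu | hu
    · exact hv.2 u hu
    · dsimp only
      omega
  · dsimp only at hk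
    simp only [Cs_add, Cs_replicate, Cs_singleton, min_eq_left hk]
    rcases le_or_gt 3 k with h | h
    · have := h4 k h hk
      rw [min_eq_right (by omega : 2 ≤ k)]
      omega
    · have h5 := hL k hk
      dsimp only at h5
      rw [min_eq_left (by omega : k ≤ 2), min_eq_left (by omega : k ≤ w), ← h1]
      simp only [Nat.add_mul]
      omega
  · simp only [Cs_add, Cs_replicate, Cs_singleton, min_eq_left k2,
      min_eq_right (by omega : 2 ≤ k₀)]
    omega
  · simp only [wd, card_add, card_replicate, card_singleton]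
    omega
  · have h5 := Nat.mul_le_mul_left r (by omega : 2 ≤ D)
    rw [hs, ← h1]
    simp only [Nat.add_mul, Nat.mul_add]
    omega
  · simp only [Finset.mem_product, Finset.mem_range, Finset.mem_Icc]
    omega
  · simp only [show 6 * τ + 2 - i = r by omega, add_tsub_cancel_right]

end Pool.Agent.MP_dbdb85_co.L

end
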