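import Pool.Agent.Mg.Fdbdb85.Gefe8eb

section

/-! The three ranges put together. -/

namespace Pool.Agent.MP_dbdb85_co.L

open Multiset

theorem root_FIN (s : ℕ) : ∃ y : ℕ, y ^ 20 ≤ s ∧ s < (y + 1) ^ 20 := by
  have hex : ∃ y : ℕ, s < (y + 1) ^ 20 :=
    ⟨s, lt_of_lt_of_le (Nat.lt_succ_self s) (Nat.le_self_pow (by norm_num) _)⟩
  classical
  refine ⟨Nat.find hex, ?_, Nat.find_spec hex⟩
  rcases Nat.eq_zero_or_pos (Nat.find hex) with h | h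
  · rw [h]; simp
  · have h1 := Nat.find_min hex (m := Nat.find hex - 1) (by omega)
    rw [Nat.sub_add_cancel h] at h1
    omega

theorem lin_FIN (m : ℕ) (h : 9 ≤ m) : 40 * (m + 1) ≤ 2 ^ m := by
  induction m, h using Nat.le_induction with
  | base => norm_num
  | succ m _ ih => rw [pow_succ]; omega

theorem empty_FIN (hC : BC_st) (hD : BD_st) (n w : ℕ) (h : n = 0 ∨ ¬ Even n) : l2 n w = 0 := by
  rw [hC, Finset.card_eq_zero, Finset.eq_empty_iff_forall_notMem]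
  intro x hx
  have hp := mem_Ff.1 hx
  obtain ⟨-, h1, h2⟩ := hD.2 n w x hp
  rcases h with h | h
  · have h3 := hp.2.1
    have h4 : 1 ≤ x.1 ^ 2 := Nat.one_le_pow _ _ (by omega)
    unfold sz at h3
    omega
  · exact h h1

theorem small_FIN (hC : BC_st) (hD : BD_st) (h1 : R1_st) (n Δ : ℕ)
    (h : (Δ : ℝ) ≤ √(n : ℝ) / 10) : l2 n Δ ≤ l2 n (Δ + 1) := by
  rcases Nat.eq_zero_or_pos n with hn | hn
  · rw [empty_FIN hC hD n Δ (Or.inl hn)]; exact Nat.zero_le _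
  · apply h1
    have e1 : (√(n : ℝ)) ^ 2 = n := Real.sq_sqrt (Nat.cast_nonneg n)
    have e2 : (0 : ℝ) ≤ Δ := Nat.cast_nonneg Δ
    have e3 : (100 : ℝ) * Δ ^ 2 ≤ n := by nlinarith
    have e4 : 100 * Δ ^ 2 ≤ n := by exact_mod_cast e3
    have e5 : Δ ≤ Δ ^ 2 := Nat.le_self_pow (by norm_num) _
    omega

theorem ar1_FIN (s La b : ℕ) (k2 : 1 ≤ b) (k3 : s < La * (b + 1)) : s + 1 ≤ 2 * La * b := by
  have : La * (b + 1) ≤ La * (2 * b) := Nat.mul_le_mul_left _ (by omega)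
  have e : La * (2 * b) = 2 * La * b := by ring
  omega

theorem ar2_FIN (x t l : ℝ) (a2 : x ≤ 40 * (l + 1) * t) (a3 : t ≤ 1) (a4 : 1 ≤ l) :
    x ≤ 80 * l := by
  have : 40 * (l + 1) * t ≤ 40 * (l + 1) * 1 := mul_le_mul_of_nonneg_left a3 (by linarith)
  linarith

theorem ar3_FIN (d L g p l b : ℝ) (hd : 0 ≤ d) (hL : 0 < L) (hg : 0 ≤ g)
    (h : d * (224 * L + 10 * g + 10) ≤ p) (k7 : p ≤ (2 * L * b) * (80 * l)) : d ≤ l * b := by
  have a1 : 0 ≤ d * g := mul_nonneg hd hg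
  have a2 : 0 ≤ d * L := mul_nonneg hd hL.le
  have k8 : d * (160 * L) ≤ (l * b) * (160 * L) := by nlinarith
  exact le_of_mul_le_mul_right k8 (by positivity)

theorem ar4_FIN (d L g p r : ℝ) (hr : 0 ≤ r) (hL : 0 < L) (hg : 0 ≤ g)
    (h : d * (224 * L + 10 * g + 10) ≤ p) (f2 : p ≤ r * g) : d ≤ r / 10 := by
  by_contra hc
  push Not at hc
  have f3 : r * g ≤ 10 * d * g := mul_le_mul_of_nonneg_right (by linarith) hg
  have f4 : 0 < d := by linarith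
  have f5 : 0 < d * L := mul_pos f4 hL
  nlinarith

theorem ar5_FIN (n s La b : ℕ) (s2 : n < (s + 1) ^ 2) (k4 : s + 1 ≤ 2 * La * b) :
    √(n : ℝ) ≤ 2 * La * b := by
  have a1 : √(n : ℝ) ≤ (s + 1 : ℝ) :=
    Real.sqrt_le_iff.2 ⟨by positivity, by exact_mod_cast s2.le⟩
  have a2 : (s + 1 : ℝ) ≤ 2 * La * b := by exact_mod_cast k4
  linarith

theorem ar6_FIN (n lam : ℕ) (a0 : 0 < n) (hl : 1 ≤ lam) (g : n ≤ 2 ^ (40 * (lam + 1))) :
    Real.log n ≤ 80 * lam := by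
  have a1 : (n : ℝ) ≤ 2 ^ (40 * (lam + 1)) := by exact_mod_cast g
  have a2 := Real.log_le_log (by exact_mod_cast a0) a1
  rw [Real.log_pow] at a2
  have a3 : Real.log 2 ≤ 1 := by linarith [Real.log_two_lt_d9]
  have a4 : (1 : ℝ) ≤ lam := by exact_mod_cast hl
  push_cast at a2
  exact ar2_FIN _ _ _ a2 a3 a4

theorem ar7_FIN (n Δ La b lam : ℕ) (g : ℝ) (hL : (0 : ℝ) < La) (hg : 0 ≤ g)
    (h : (Δ : ℝ) * (224 * La + 10 * g + 10) ≤ √(n : ℝ) * Real.log n)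
    (k5 : √(n : ℝ) ≤ 2 * La * b) (k6 : Real.log n ≤ 80 * lam) : Δ ≤ lam * b := by
  have k7 : √(n : ℝ) * Real.log n ≤ (2 * La * b) * (80 * lam) :=
    mul_le_mul k5 k6 (Real.log_natCast_nonneg n) (by positivity)
  have k9 : (Δ : ℝ) ≤ lam * b := ar3_FIN _ _ _ _ _ _ (Nat.cast_nonneg Δ) hL hg h k7
  exact_mod_cast k9

theorem main_FIN (hC : BC_st) (hD : BD_st) (h1 : R1_st) (h2 : R2_st) (h3 : R3_st)
    (N2 N6 C3 Θ La y0 : ℕ) (e2 : N2 = 2 ^ 80) (e6 : N6 = 2 ^ 22 * N2 ^ 3) (e3 : C3 = 128 * N6)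
    (hθ : 2 ^ (32 * C3 + 3) ≤ Θ) (eL : La = 2 ^ 20 * C3 * Θ) (hL : 40 ≤ La)
    (hy0 : 2 ^ La ≤ y0) : FIN_st := by
  obtain ⟨n0, hn0⟩ : ∃ n0, n0 = y0 ^ 40 := ⟨_, rfl⟩
  have hlog0 : 0 ≤ Real.log n0 := Real.log_natCast_nonneg n0
  have hLa : (0 : ℝ) < La := by exact_mod_cast (by omega : 0 < La)
  have hden : (0 : ℝ) < 224 * La + 10 * Real.log n0 + 10 := by positivity
  refine ⟨1 / (224 * La + 10 * Real.log n0 + 10), by positivity, fun n Δ hΔ => ?_⟩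
  have hsq : 0 ≤ √(n : ℝ) := Real.sqrt_nonneg _
  have hΔ' : (Δ : ℝ) * (224 * La + 10 * Real.log n0 + 10) ≤ √(n : ℝ) * Real.log n := by
    rw [mul_assoc, one_div_mul_eq_div, le_div_iff₀ hden] at hΔ
    exact hΔ
  rcases lt_or_ge n n0 with hn | hn
  · apply small_FIN hC hD h1
    have f1 : Real.log n ≤ Real.log n0 := by
      rcases Nat.eq_zero_or_pos n with h0 | h0
      · rw [h0]; simpa using hlog0
      · exact Real.log_le_log (by exact_mod_cast h0) (by exact_mod_cast hn.le)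
    exact ar4_FIN _ _ _ _ _ hsq hLa hlog0 hΔ' (mul_le_mul_of_nonneg_left f1 hsq)
  · by_cases hev : Even n
    swap
    · rw [empty_FIN hC hD n Δ (Or.inr hev)]; exact Nat.zero_le _
    obtain ⟨s, s1, s2⟩ : ∃ s, s ^ 2 ≤ n ∧ n < (s + 1) ^ 2 :=
      ⟨Nat.sqrt n, Nat.sqrt_le' n, Nat.lt_succ_sqrt' n⟩
    obtain ⟨y, y1, y2⟩ := root_FIN s
    have g1 : n < (y + 1) ^ 40 := by
      have : (s + 1) ^ 2 ≤ ((y + 1) ^ 20) ^ 2 := Nat.pow_le_pow_left y2 2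
      rw [← pow_mul] at this
      exact lt_of_lt_of_le s2 this
    have g2 : y0 ≤ y := by
      have : y0 ^ 40 < (y + 1) ^ 40 := lt_of_le_of_lt (hn0 ▸ hn) g1
      exact Nat.lt_succ_iff.1 (lt_of_pow_lt_pow_left₀ 40 (Nat.zero_le _) this)
    have g3 : 2 ^ La ≤ y := le_trans hy0 g2
    have y4 : 2 ^ 40 ≤ y := le_trans (Nat.pow_le_pow_right (by norm_num) hL) g3
    obtain ⟨lam, l1, l3⟩ : ∃ lam, 2 ^ lam ≤ y ∧ y < 2 ^ (lam + 1) :=
      ⟨Nat.log 2 y, Nat.pow_log_le_self 2 (by omega), Nat.lt_pow_succ_log_self (by norm_num) y⟩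
    have l2' : La ≤ lam := by
      have : 2 ^ La < 2 ^ (lam + 1) := lt_of_le_of_lt g3 l3
      exact Nat.lt_succ_iff.1 ((Nat.pow_lt_pow_iff_right (by norm_num)).1 this)
    have g4 : (y + 1) ^ 40 ≤ 2 ^ (40 * (lam + 1)) := by
      rw [mul_comm, pow_mul]
      exact Nat.pow_le_pow_left l3 40
    have g5 : 40 * (lam + 1) ≤ y := le_trans (lin_FIN lam (by omega)) l1
    have y3 : (y + 1) ^ 40 ≤ 2 ^ y := le_trans g4 (Nat.pow_le_pow_right (by norm_num) g5)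
    have g6 : 2 ^ 80 ≤ s := by
      have a1 : (2 ^ 40) ^ 2 ≤ y ^ 2 := Nat.pow_le_pow_left y4 2
      have a2 : y ^ 2 ≤ y ^ 20 := Nat.pow_le_pow_right (by omega) (by norm_num)
      rw [← pow_mul] at a1
      exact le_trans a1 (le_trans a2 y1)
    rcases lt_or_ge (Δ ^ 2 + 4 * Δ) n with c1 | c1
    · exact h1 n Δ c1
    rcases lt_or_ge (Δ + 1) (s + 8 * (s / 2 ^ 80)) with c2 | c2
    · exact h2 n Δ s hev s1 s2 g6 c1 c2
    refine h3 n Δ s y lam N2 N6 C3 Θ ⟨hev, s1, s2, y1, y2, y3, y4, l1, by rw [e2]; norm_num, e6, e3,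
      hθ, eL ▸ l2', by rw [e2]; exact c2, ?_⟩
    rw [← eL]
    obtain ⟨b, hb⟩ : ∃ b, b = s / La := ⟨_, rfl⟩
    rw [← hb]
    have k1 : La ≤ s := by
      have a1 : y ≤ y ^ 20 := Nat.le_self_pow (by norm_num) _
      omega
    have k2 : 1 ≤ b := by rw [hb]; exact Nat.div_pos k1 (by omega)
    have k3 : s < La * (b + 1) := by rw [hb]; exact Nat.lt_mul_div_succ s (by omega)
    have k4 : s + 1 ≤ 2 * La * b := ar1_FIN s La b k2 k3
    have a0 : 0 < n := by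
      have : 1 ≤ s ^ 2 := Nat.one_le_pow _ _ (by omega)
      omega
    exact ar7_FIN n Δ La b lam _ hLa hlog0 hΔ' (ar5_FIN n s La b s2 k4)
      (ar6_FIN n lam a0 (by omega) (lt_of_lt_of_le g1 g4).le)

theorem FIN_pf (hC : BC_st) (hD : BD_st) (h1 : R1_st) (h2 : R2_st) (h3 : R3_st) : FIN_st := by
  obtain ⟨N2, e2⟩ : ∃ N2 : ℕ, N2 = 2 ^ 80 := ⟨_, rfl⟩
  obtain ⟨N6, e6⟩ : ∃ N6 : ℕ, N6 = 2 ^ 22 * N2 ^ 3 := ⟨_, rfl⟩
  obtain ⟨C3, e3⟩ : ∃ C3 : ℕ, C3 = 128 * N6 := ⟨_, rfl⟩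
  obtain ⟨Θ, hθ⟩ : ∃ Θ : ℕ, 2 ^ (32 * C3 + 3) ≤ Θ := ⟨_, le_rfl⟩
  obtain ⟨La, eL⟩ : ∃ La : ℕ, La = 2 ^ 20 * C3 * Θ := ⟨_, rfl⟩
  obtain ⟨y0, hy0⟩ : ∃ y0 : ℕ, 2 ^ La ≤ y0 := ⟨_, le_rfl⟩
  have p2 : 1 ≤ N2 := by rw [e2]; norm_num
  have p3 : 1 ≤ N2 ^ 3 := Nat.one_le_pow _ _ p2
  have p4 : 1 ≤ C3 := by omega
  have p5 : 1 ≤ Θ := le_trans (Nat.one_le_pow _ _ (by norm_num)) hθ
  have p6 : 1 ≤ C3 * Θ := Nat.mul_pos p4 p5
  refine main_FIN hC hD h1 h2 h3 N2 N6 C3 Θ La y0 e2 e6 e3 hθ eL ?_ hy0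
  rw [eL, mul_assoc]
  omega

end Pool.Agent.MP_dbdb85_co.L

end

section

/-! Three classes of the third range. -/

namespace Pool.Agent.MP_dbdb85_co.L

open Multiset

theorem fin_KT {m a b X T : ℕ} (hm : 0 < m) (ha : 0 < a) (ham : a ≤ m) (hb : m ≤ b * a)
    (h : m * X ≤ (m - a) * T) : b * X + T ≤ b * T := by
  obtain ⟨r, rfl⟩ := Nat.exists_eq_add_of_le ham
  rw [Nat.add_sub_cancel_left] at h
  have h1 : X ≤ T := Nat.le_of_mul_le_mul_left (h.trans (Nat.mul_le_mul_right T (by omega))) hm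
  obtain ⟨c, rfl⟩ := Nat.exists_eq_add_of_le h1
  have h2 : a * (X + c) ≤ a * (b * c) := by
    have h3 := Nat.mul_le_mul_right c hb
    nlinarith
  have h4 := Nat.le_of_mul_le_mul_left h2 ha
  rw [Nat.mul_add]
  omega

theorem pow_ge_KT {y k : ℕ} (hy : 2 ^ 40 ≤ y) (hk : 2 ≤ k) : 2 ^ 40 * y ≤ y ^ k := by
  have h1 : y ^ 2 ≤ y ^ k := Nat.pow_le_pow_right (by omega) hk
  have h2 := Nat.mul_le_mul_right y hy
  rw [pow_two] at h1
  exact h2.trans h1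

theorem KT_pf (hF : HF_st) (hT : TA_st) : KT_st := by
  intro n Δ s y lam N2 N6 C3 Θ H X hX
  obtain ⟨-, -, -, -, -, -, -, f8, -, -, -, f12, -, -, -, f16, -, -⟩ := hF _ _ _ _ _ _ _ _ _ H
  have hy := H.y4
  have hl := H.l1
  have h19 := pow_ge_KT (k := 19) hy (by norm_num)
  have h20 := pow_ge_KT (k := 20) hy (by norm_num)
  have hs := H.y1
  have hmle : s / N6 / 2 / Θ ≤ s / N6 / 2 := Nat.div_le_self _ _
  generalize s / N6 / 2 / Θ = m at *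
  have hm : 2 * y ≤ m / 64 := by omega
  have hm0 : m / 64 ≠ 0 := by omega
  have g1 := Nat.pow_log_le_self 2 hm0
  have g2 := Nat.lt_pow_succ_log_self (b := 2) (by norm_num) (m / 64)
  have g3 : lam + 1 ≤ Nat.log 2 (m / 64) :=
    Nat.le_log_of_pow_le (by norm_num) (by rw [pow_succ]; omega)
  generalize Nat.log 2 (m / 64) = g at *
  have h := hT n Δ _ _ m g lam X hX g3 (by omega) (by omega) (by omega)
  have e : 2 ^ g = 2 ^ lam * 2 ^ (g - lam) := by rw [← pow_add]; congr 1; omega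
  have ha : 0 < 2 ^ (g - lam) := by positivity
  have ha2 : 2 ^ (g - lam) ≤ 2 ^ g := Nat.pow_le_pow_right (by norm_num) (Nat.sub_le _ _)
  have ha3 := Nat.mul_le_mul_right (2 ^ (g - lam)) hl
  rw [Nat.succ_eq_add_one, pow_succ] at g2
  refine fin_KT (by omega) ha (by omega) ?_ h
  rw [Nat.mul_assoc]
  omega

theorem cor_le_KT (lo len : ℕ) (x : Cfg) : cor hS lo len x ≤ cor bS lo len x := by
  refine Finset.card_le_card fun v hv => ?_
  rw [Finset.mem_filter] at hv ⊢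
  refine ⟨hv.1, ?_⟩
  have h := hv.2
  rw [hS_mult] at h
  rw [bS_mult]
  exact h.trans (min_le_right _ _)

theorem KB1_pf (hF : HF_st) (hB : B1_st) : KB1_st := by
  intro n Δ s y lam N2 N6 C3 Θ H X hX
  obtain ⟨-, -, -, -, -, -, -, -, -, -, -, -, -, -, f15, -, -, -⟩ := hF _ _ _ _ _ _ _ _ _ H
  have hy := H.y4
  have h14 := pow_ge_KT (k := 14) hy (by norm_num)
  have h16 := pow_ge_KT (k := 16) hy (by norm_num)
  generalize y ^ 16 / 2 / Θ = m at *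
  generalize y ^ 16 = k1 at *
  have h := cover_bound X (Finset.Icc 1 100) (fun h x => B1 n Δ k1 h x) (m / 16)
    (2 * (Tf n (Δ + 1)).card)
    (fun x hx => by
      obtain ⟨⟨h, h1, h2, h3⟩, -⟩ := hX x hx
      exact ⟨h, Finset.mem_Icc.2 ⟨h1, h2⟩, h3⟩)
    (fun h hh Z hZ => by
      have hh' := Finset.mem_Icc.1 hh
      exact hB n Δ k1 (k1 / 2 + 1) (k1 / 2) m h (m / 16) Z hh'.1 (by omega) (by omega) (by omega)
        (by omega) (by omega)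
        fun x hx => ⟨(hZ x hx).2, (hX x (hZ x hx).1).2.trans (cor_le_KT _ _ x)⟩)
  rw [Nat.card_Icc] at h
  have h2 : 200 * (1024 * y) ≤ m / 16 := by omega
  have h3 := Nat.mul_le_mul_right X.card h2
  rw [Nat.mul_assoc] at h3
  omega

theorem KB2_pf (hF : HF_st) (hG : KG_st) (hB : B2_st) (hU : GU_st) : KB2_st := by
  intro n Δ s y lam N2 N6 C3 Θ H X hX
  obtain ⟨-, f2, f3, f4, f5, f6, -, -, -, -, -, -, f13, -, -, -, -, -⟩ := hF _ _ _ _ _ _ _ _ _ H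
  have hy := H.y4
  have hl := H.l1
  have hs := H.y1
  have hn2 := H.n2
  have h16 := pow_ge_KT (k := 16) hy (by norm_num)
  have h19 := pow_ge_KT (k := 19) hy (by norm_num)
  have h20 := pow_ge_KT (k := 20) hy (by norm_num)
  have hC : 0 < 16 * C3 := by omega
  have hl2 : 2 ^ 16 * (16 * C3) ≤ lam := by
    have h1 := H.l2
    have h2 : 2 ^ 20 * C3 * 1 ≤ 2 ^ 20 * C3 * Θ := Nat.mul_le_mul_left _ (by omega)
    omega
  have u1 : 2 ^ 16 ≤ lam / (16 * C3) := (Nat.le_div_iff_mul_le hC).2 hl2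
  have u2 : 16 * C3 * (lam / (16 * C3)) ≤ lam := Nat.mul_div_le _ _
  have u3 : lam < 16 * C3 * (lam / (16 * C3) + 1) := Nat.lt_mul_div_succ _ hC
  generalize lam / (16 * C3) = u at *
  have u4 : C3 * 1 ≤ C3 * u := Nat.mul_le_mul_left _ (by omega)
  have e1 : 16 * C3 * u = 16 * (C3 * u) := Nat.mul_assoc _ _ _
  have e2 : 16 * C3 * (u + 1) = 16 * (C3 * u) + 16 * C3 := by ring
  have hok := hG _ _ _ _ _ _ _ _ _ H u (4 + 14 ^ 3) (s * (s / N6)) (by omega)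
    (by rw [Nat.mul_assoc]; omega) (by omega) (by rw [Nat.mul_assoc]; omega)
  have hk : y ^ 16 * 14 ^ 3 ≤ u * s := by
    rw [Nat.mul_comm]
    exact Nat.mul_le_mul (by omega) ((Nat.pow_le_pow_right (by omega) (by norm_num)).trans hs)
  obtain ⟨Y, hY, hc⟩ := hB n Δ s (Δ + 1) u (y ^ 16) 14 (s / N6) (s * (s / N6)) X (by omega)
    (by norm_num) (by omega) hk (by omega) hX
  have h1 := hU _ _ _ _ _ _ _ _ Y hok hY
  have h2 : 2 ^ (16 * C3 * u) ≤ y := (Nat.pow_le_pow_right (by norm_num) u2).trans hl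
  have h3 : (n + 1) ^ 5 ≤ (y ^ 41) ^ 5 := Nat.pow_le_pow_left f2 5
  have h4 : (n + 1) ^ 5 * 2 ^ (16 * C3 * u) ≤ y ^ 206 :=
    (Nat.mul_le_mul h3 h2).trans (le_of_eq (by ring))
  have h5 : y ^ 206 * (1024 * y) ≤ (y ^ 16) ^ (14 - 1) :=
    (Nat.mul_le_mul_left _ (Nat.mul_le_mul_right y (show 1024 ≤ y by omega))).trans
      (le_of_eq (by ring))
  have hp : 0 < y ^ 206 := pow_pos (by omega) _
  refine Nat.le_of_mul_le_mul_left ?_ hp
  calc y ^ 206 * (1024 * y * X.card) = y ^ 206 * (1024 * y) * X.card := by ring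
    _ ≤ (y ^ 16) ^ (14 - 1) * X.card := Nat.mul_le_mul_right _ h5
    _ ≤ _ := hc.trans (h1.trans (Nat.mul_le_mul_right _ h4))

end Pool.Agent.MP_dbdb85_co.L

end
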