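import Pool.Agent.Mg.Fdbdb85.Gefe8eb

section

/-! Many copies of small letters can be added below the square. -/

namespace Pool.Agent.MP_dbdb85_co.L

open Multiset

theorem lev_B2 (k1 J : ℕ) (X : Finset Cfg)
    (hX : ∀ x ∈ X, ∀ i, 2 ≤ i → i ≤ J → count i x.2.2 < i) (d : ℕ) (hd : d + 1 ≤ J) :
    ∃ Y : Finset Cfg, (∀ y ∈ Y, ∃ x ∈ X, ∃ H : Multiset ℕ, y = bS.app x H ∧
      (∀ v ∈ H, 2 ≤ v ∧ v ≤ d + 1) ∧ H.sum ≤ d * (k1 * J ^ 2)) ∧ k1 ^ d * X.card ≤ Y.card := by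
  classical
  induction d with
  | zero =>
    exact ⟨X, fun y hy => ⟨y, hy, 0, by simp [bS_app], by simp, by simp⟩, by simp⟩
  | succ d ih =>
    obtain ⟨Y, hY, hc⟩ := ih (by omega)
    have hcount : ∀ y ∈ Y, count (d + 2) y.2.2 < d + 2 := by
      intro y hy
      obtain ⟨x, hx, H, rfl, hH, -⟩ := hY y hy
      have h0 : count (d + 2) H = 0 := count_eq_zero.2 fun h => by
        have := (hH _ h).2
        omega
      simp only [bS_app, count_add, h0, add_zero]
      exact hX x hx _ (by omega) (by omega)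
    refine ⟨(Y ×ˢ Finset.range k1).image
      (fun p => bS.app p.1 (replicate (p.2 * (d + 2)) (d + 2))), ?_, ?_⟩
    · intro z hz
      obtain ⟨⟨y, r⟩, hp, rfl⟩ := Finset.mem_image.1 hz
      obtain ⟨hy, hr⟩ := Finset.mem_product.1 hp
      have hr' : r < k1 := Finset.mem_range.1 hr
      obtain ⟨x, hx, H, rfl, hH, hs⟩ := hY y hy
      refine ⟨x, hx, H + replicate (r * (d + 2)) (d + 2), bS.app_add _ _ _, ?_, ?_⟩
      · intro v hv
        rcases mem_add.1 hv with h | h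
        · have := hH v h
          omega
        · have := eq_of_mem_replicate h
          omega
      · rw [sum_add, sum_replicate, smul_eq_mul]
        have h1 : r * (d + 2) * (d + 2) ≤ k1 * J ^ 2 := by
          rw [pow_two, ← Nat.mul_assoc]
          exact Nat.mul_le_mul (Nat.mul_le_mul hr'.le (by omega)) (by omega)
        rw [Nat.succ_mul]
        omega
    · rw [Finset.card_image_of_injOn, Finset.card_product, Finset.card_range, pow_succ,
        Nat.mul_right_comm]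
      · exact Nat.mul_le_mul_right _ hc
      · rintro ⟨y, r⟩ hp ⟨y', r'⟩ hp' h
        have hy := hcount y (Finset.mem_product.1 hp).1
        have hy' := hcount y' (Finset.mem_product.1 hp').1
        have h2 := congrArg (fun z : Cfg => count (d + 2) z.2.2 / (d + 2)) h
        simp only [bS_app, count_add, count_replicate_self] at h2
        rw [Nat.add_mul_div_right _ _ (by omega), Nat.add_mul_div_right _ _ (by omega),
          Nat.div_eq_of_lt hy, Nat.div_eq_of_lt hy', zero_add, zero_add] at h2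
        subst h2
        exact Prod.ext (bS.app_inj _ _ _ h) rfl

theorem B2_pf : B2_st := by
  intro n Δ s w u k1 J D0 E0 X hk hJ hJD hus hw hX
  obtain ⟨Y, hY, hc⟩ := lev_B2 k1 J X (fun x hx => (hX x hx).2.2.2.2.2.2.2) (J - 1) (by omega)
  refine ⟨Y, fun y hy => ?_, hc⟩
  obtain ⟨x, hx, H, rfl, hH, hs⟩ := hY y hy
  obtain ⟨hv, hsz, hwd, hD, hE, hEG, ⟨k, hk1, hk2, hk3⟩, -⟩ := hX x hx
  have hs' : H.sum ≤ k1 * J ^ 3 := by
    refine hs.trans ?_
    calc (J - 1) * (k1 * J ^ 2) ≤ J * (k1 * J ^ 2) := Nat.mul_le_mul_right _ (by omega)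
      _ = k1 * J ^ 3 := by ring
  simp only [sz, ms, wd] at hsz hwd hE
  refine ⟨⟨hv.1, ?_⟩, hD, ?_, ?_, ?_, ?_, ?_, k, by omega, hk2, ?_⟩
  · intro v hv'
    rcases mem_add.1 hv' with h | h
    · exact hv.2 v h
    · have := hH v h
      simp only [bS_app]
      omega
  · simp only [bS_app, ms, sum_add]; omega
  · simp only [bS_app, sz, ms, sum_add]; omega
  · simp only [bS_app, sz, ms, sum_add]; omega
  · simp only [bS_app, wd]; omega
  · intro j hj
    have := hEG j hj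
    simp only [bS_app, Cs_add]
    omega
  · have h1 := Cs_le_sum H k
    have h2 : k1 * J ^ 3 ≤ J ^ 3 * k := by
      rw [Nat.mul_comm]
      exact Nat.mul_le_mul_left _ hk1.le
    simp only [bS_app, Cs_add, Nat.add_mul]
    omega

end Pool.Agent.MP_dbdb85_co.L

end

section

namespace Pool.Agent.MP_dbdb85_co.L

open Multiset

theorem LEV_pf (hA : BA_st) : LEV_st := by
  rintro ⟨D, al, be⟩ i k1 hv hfb hi h1 h2 h3
  by_contra hc
  obtain ⟨be', rfl⟩ := exists_replicate (not_lt.1 hc)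
  simp only at h1 h2 h3
  have hiD : i ≤ D := (hv.2 i (mem_add.2 (Or.inl (mem_replicate.2 ⟨by omega, rfl⟩)))).2
  have hv' : Val (D, al, be') := ⟨hv.1, fun v h => hv.2 v (mem_add.2 (Or.inr h))⟩
  obtain ⟨-, a2, a3, a4, a5, a6, -⟩ := hA (D, al, be') hv'
  simp only [wd] at a2 a3 a4 a5 a6
  obtain ⟨R, hR, -⟩ := exists_top (d := part (D, al, be')) (by
    intro h
    rw [h, card_zero] at a3
    omega)
  rw [a2] at hR
  have hp : part (D, al, replicate i i + be') =
      ((D + card al - i) + i) ::ₘ (R + replicate i i) := by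
    have e : part (D, al, replicate i i + be') = part (D, al, be') + replicate i i := by
      simp only [part]
      rw [add_comm (replicate i i) be', add_assoc]
    rw [e, hR, cons_add, Nat.sub_add_cancel (by omega)]
  rw [hR] at a3 a4 a5 a6
  rw [hp] at hfb
  refine s_gluing _ i R (replicate i i) (t_suf _ ?_ ?_) (comp_Ntwo t_suf i) ?_ ?_ hfb
  · have e := (s_nec _ hfb.1).1
    have e2 := (s_nec _ (comp_Ntwo t_suf i)).1
    simp only [sum_cons, sum_add] at e e2 ⊢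
    rw [Nat.even_iff] at e e2 ⊢
    omega
  · intro K hK hb
    have hk : card K ≤ D := by
      refine big_card_le ?_ hK hb
      rw [cn_cons, if_pos (by omega)] at a6
      rw [cn_cons]
      split_ifs <;> omega
    have b1 := a5 (card K) hk
    rw [Cs_cons, min_eq_left (by omega)] at b1
    rw [Cs_cons, min_eq_left (by omega), b1]
    have b2 : i * min (card K) i ≤ i * card K := Nat.mul_le_mul_left _ (min_le_left _ _)
    have b3 : i * min (card K) i ≤ i * i := Nat.mul_le_mul_left _ (min_le_right _ _)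
    have b4 : K.sum + i ≤ card K * D + Cs al (card K) ∨
        K.sum + card al ≤ card K * D + Cs al (card K) + cn al (card K + 1) := by
      by_cases hm : D + card al - i ∈ K
      · obtain ⟨K0, rfl⟩ := exists_cons_of_mem hm
        have c1 := a4 ((D + card al) ::ₘ K0)
          (cons_le_cons _ ((cons_le_cons_iff _).1 hK))
        simp only [sum_cons, card_cons] at c1 ⊢
        omega
      · have c1 := a4 ((D + card al) ::ₘ K) (cons_le_cons _ ((le_cons_of_notMem hm).1 hK))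
        rw [sum_cons, card_cons, Cs_succ, Nat.succ_mul] at c1
        omega
    have b5 := cn_le_card al (card K + 1)
    rw [mul_comm D (card K)]
    by_cases hk1 : card K ≤ k1
    · have c1 := h1 (card K) hk1 hk
      rw [Cs_add, Cs_replicate] at c1
      omega
    · have c1 := h2 (card K) (by omega) hk
      have c2 := cn_anti al (show k1 + 1 ≤ card K + 1 by omega)
      rw [Cs_add, Cs_replicate] at c1
      omega
  · rintro rfl
    rw [card_cons, card_zero] at a3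
    omega
  · intro h
    have := congrArg card h
    rw [card_replicate, card_zero] at this
    omega

end Pool.Agent.MP_dbdb85_co.L

end

section

/-! The cover of the almost tight configurations and the third range. -/

namespace Pool.Agent.MP_dbdb85_co.L

open Multiset

theorem cor_le_R3 {lo len k1 : ℕ} (h : lo + len ≤ k1 + 1) (x : Cfg) :
    cor hS lo len x + cn x.2.1 (k1 + 1) ≤ card x.2.1 := by
  have h1 : cor hS lo len x ≤ card (x.2.1.filter (fun v => ¬ k1 + 1 ≤ v)) := by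
    refine le_trans (Finset.card_le_card fun v hv => ?_) (toFinset_card_le _)
    obtain ⟨h2, h3⟩ := Finset.mem_filter.1 hv
    rw [hS_mult] at h3
    have := (Finset.mem_Ico.1 h2).2
    exact mem_toFinset.2 (mem_filter.2 ⟨one_le_count_iff_mem.1 (h3.trans (min_le_left _ _)),
      by omega⟩)
  have h2 := congrArg card (filter_add_not (fun v => k1 + 1 ≤ v) x.2.1)
  rw [card_add] at h2
  unfold cn
  omega

theorem COV_pf (hD : BD_st) (hL : LEV_st) : COV_st := by
  intro n Δ s k1 D0 E0 lo len m x h3 hk hlo hm hF hN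
  obtain ⟨hE, -, -⟩ := hD.2 n Δ x hF
  obtain ⟨hv, hs, hw, hB⟩ := hF
  obtain ⟨k0, a1, a2, a3⟩ := hN
  by_cases hA : x.1 < D0 ∨ ms x < E0
  · exact Or.inl hA
  right
  have b1 : D0 ≤ x.1 := by omega
  have b2 : E0 ≤ ms x := by omega
  by_cases hS' : ∃ k, 1 ≤ k ∧ k ≤ k1 ∧ Cs x.2.2 k ≤ Cs x.2.1 k + 15 * k
  · exact Or.inl ⟨hv, hs, hw, b1, b2, hS'⟩
  right
  have c1 : ∀ k, k ≤ k1 → Cs x.2.1 k + 15 * k ≤ Cs x.2.2 k := fun k hk' => by
    rcases Nat.eq_zero_or_pos k with rfl | h0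
    · simp [Cs_at_zero]
    · exact le_of_lt (not_le.1 fun h => hS' ⟨k, h0, hk', h⟩)
  have c2 : k1 < k0 := not_le.1 fun h => hS' ⟨k0, a1, h, by omega⟩
  refine ⟨⟨hv, b1, b2, by omega, by omega, by omega, fun k hk' => ?_, k0, by omega, a2, by omega⟩,
    ?_⟩
  · have := hE k hk'
    omega
  by_cases hT : Tc x
  · exact Or.inl ⟨hv, hs, hw, hE, hT⟩
  right
  by_cases hc : cor hS lo len x ≤ m
  · exact Or.inl hc
  right
  have d1 := cor_le_R3 hlo x
  obtain ⟨k2, e1, e2⟩ := Finset.exists_min_image (Finset.Ioc k1 x.1)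
    (fun k => Cs x.2.2 k - Cs x.2.1 k - k) ⟨k0, Finset.mem_Ioc.2 ⟨c2, a2⟩⟩
  obtain ⟨e3, e4⟩ := Finset.mem_Ioc.1 e1
  have e5 : Cs x.2.1 k2 + k2 + 1 < Cs x.2.2 k2 := not_le.1 fun h => hT ⟨k2, by omega, e4, h⟩
  obtain ⟨μ, hμ⟩ : ∃ μ, Cs x.2.2 k2 = Cs x.2.1 k2 + k2 + μ := ⟨Cs x.2.2 k2 - Cs x.2.1 k2 - k2, by omega⟩
  have e6 : ∀ k, k1 < k → k ≤ x.1 → Cs x.2.1 k + k + μ ≤ Cs x.2.2 k := fun k h1 h2 => by
    have h4 := e2 k (Finset.mem_Ioc.2 ⟨h1, h2⟩)
    have h5 := hE k h2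
    omega
  have e7 : ∀ i, 2 ≤ i → i ≤ 14 → i * i ≤ μ + i → count i x.2.2 < i := fun i h1 h2 h4 => by
    refine hL x i k1 hv hB h1 (fun k h5 _ => ?_) (fun k h5 h6 => ?_) (by omega)
    · have := c1 k h5
      have := Nat.mul_le_mul_right k h2
      omega
    · have := e6 k h5 h6
      omega
  by_cases hμ' : 182 ≤ μ
  · refine Or.inr ⟨hv, hs, hw, b1, b2, hE, ⟨k0, c2, a2, by omega⟩, fun i h1 h2 => e7 i h1 h2 ?_⟩
    interval_cases i <;> omega
  · refine Or.inl ⟨μ / 2, by omega, by omega, hv, hs, hw, fun k h1 _ => ?_, fun k h1 h2 => ?_,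
      ⟨k2, e3, e4, by omega⟩, ?_⟩
    · have := c1 k h1
      omega
    · have := e6 k h1 h2
      omega
    · have := e7 2 le_rfl (by omega) (by omega)
      omega

theorem R3_pf (hF : HF_st) (hM : MA_st) (hD : BD_st) (hC : COV_st) (h1 : KA_st) (h2 : KS_st)
    (h3 : KBad_st) (h4 : KT_st) (h5 : KB1_st) (h6 : KB2_st) : R3_st := by
  classical
  intro n Δ s y lam N2 N6 C3 Θ H
  obtain ⟨-, -, -, -, -, -, -, -, -, -, -, f1, f2, -, f3, -⟩ := hF n Δ s y lam N2 N6 C3 Θ H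
  refine hM n Δ (Tf n (Δ + 1)) (fun z hz => ⟨hD.1 _ _ _ H.ev (mem_Tf.1 hz),
    Or.inr (mem_Tf.1 hz).2.2.2.2⟩) fun X hX => ?_
  have hy : 14 ≤ y := le_trans (by norm_num) H.y4
  have p0 : ∀ a b, a ≤ b → y ^ a ≤ y ^ b := fun a b h => Nat.pow_le_pow_right (by omega) h
  have p1 : y ≤ y ^ 14 := by simpa using p0 1 14 (by norm_num)
  have p2 := p0 2 14 (by norm_num)
  have p3 := p0 14 16 (by norm_num)
  have p4 := p0 16 19 (by norm_num)
  have g1 := h1 n Δ s y lam N2 N6 C3 Θ H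
    (X.filter fun x => x.1 < s / N6 ∨ ms x < s * (s / N6)) fun x hx => by
      obtain ⟨a, b⟩ := Finset.mem_filter.1 hx
      exact ⟨(hX x a).1.1, (hX x a).1.2.1, b⟩
  have g2 := h2 n Δ s y lam N2 N6 C3 Θ H
    (X.filter fun x => SM n Δ (y ^ 16) (s / N6) (s * (s / N6)) x)
    fun x hx => (Finset.mem_filter.1 hx).2
  have g3 := h3 n Δ s y lam N2 N6 C3 Θ H (s / N6 / 2 + 1) (s / N6 / 2) (by omega) (by omega)
    (by omega) (X.filter fun x => XG n s (Δ + 1) 0 4 (s / N6) (s * (s / N6)) x ∧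
      cor hS (s / N6 / 2 + 1) (s / N6 / 2) x ≤ s / N6 / 2 / Θ)
    fun x hx => (Finset.mem_filter.1 hx).2
  have g4 := h3 n Δ s y lam N2 N6 C3 Θ H (y ^ 16 / 2 + 1) (y ^ 16 / 2) (by omega) (by omega)
    (by omega) (X.filter fun x => XG n s (Δ + 1) 0 4 (s / N6) (s * (s / N6)) x ∧
      cor hS (y ^ 16 / 2 + 1) (y ^ 16 / 2) x ≤ y ^ 16 / 2 / Θ)
    fun x hx => (Finset.mem_filter.1 hx).2
  have g5 := h4 n Δ s y lam N2 N6 C3 Θ H (X.filter fun x => Tp n Δ x ∧
      s / N6 / 2 / Θ ≤ cor hS (s / N6 / 2 + 1) (s / N6 / 2) x)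
    fun x hx => (Finset.mem_filter.1 hx).2
  have g6 := h5 n Δ s y lam N2 N6 C3 Θ H
    (X.filter fun x => (∃ h, 1 ≤ h ∧ h ≤ 100 ∧ B1 n Δ (y ^ 16) h x) ∧
      y ^ 16 / 2 / Θ ≤ cor hS (y ^ 16 / 2 + 1) (y ^ 16 / 2) x)
    fun x hx => (Finset.mem_filter.1 hx).2
  have g7 := h6 n Δ s y lam N2 N6 C3 Θ H
    (X.filter fun x => B2 n Δ (y ^ 16) 14 (s / N6) (s * (s / N6)) x)
    fun x hx => (Finset.mem_filter.1 hx).2
  revert g1 g2 g3 g4 g5 g6 g7
  set X1 := X.filter fun x => x.1 < s / N6 ∨ ms x < s * (s / N6) with e1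
  set X2 := X.filter fun x => SM n Δ (y ^ 16) (s / N6) (s * (s / N6)) x with e2
  set X3 := X.filter fun x => XG n s (Δ + 1) 0 4 (s / N6) (s * (s / N6)) x ∧
      cor hS (s / N6 / 2 + 1) (s / N6 / 2) x ≤ s / N6 / 2 / Θ with e3
  set X4 := X.filter fun x => XG n s (Δ + 1) 0 4 (s / N6) (s * (s / N6)) x ∧
      cor hS (y ^ 16 / 2 + 1) (y ^ 16 / 2) x ≤ y ^ 16 / 2 / Θ with e4
  set X5 := X.filter fun x => Tp n Δ x ∧
      s / N6 / 2 / Θ ≤ cor hS (s / N6 / 2 + 1) (s / N6 / 2) x with e5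
  set X6 := X.filter fun x => (∃ h, 1 ≤ h ∧ h ≤ 100 ∧ B1 n Δ (y ^ 16) h x) ∧
      y ^ 16 / 2 / Θ ≤ cor hS (y ^ 16 / 2 + 1) (y ^ 16 / 2) x with e6
  set X7 := X.filter fun x => B2 n Δ (y ^ 16) 14 (s / N6) (s * (s / N6)) x with e7
  intro g1 g2 g3 g4 g5 g6 g7
  have hsub : X ⊆ X1 ∪ X2 ∪ X3 ∪ X4 ∪ X5 ∪ X6 ∪ X7 := by
    intro x hx
    simp only [Finset.mem_union, e1, e2, e3, e4, e5, e6, e7, Finset.mem_filter, hx, true_and]
    rcases hC n Δ s (y ^ 16) (s / N6) (s * (s / N6)) (y ^ 16 / 2 + 1) (y ^ 16 / 2) (y ^ 16 / 2 / Θ)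
      x (by omega) (by omega) (by omega) (by omega) (hX x hx).1 (hX x hx).2 with
      a | a | ⟨a, b | b | b | b⟩
    · exact .inl (.inl (.inl (.inl (.inl (.inl a)))))
    · exact .inl (.inl (.inl (.inl (.inl (.inr a)))))
    · rcases le_total (cor hS (s / N6 / 2 + 1) (s / N6 / 2) x) (s / N6 / 2 / Θ) with c | c
      · exact .inl (.inl (.inl (.inl (.inr ⟨a, c⟩))))
      · exact .inl (.inl (.inr ⟨b, c⟩))
    · exact .inl (.inl (.inl (.inr ⟨a, b⟩)))
    · rcases le_total (cor hS (y ^ 16 / 2 + 1) (y ^ 16 / 2) x) (y ^ 16 / 2 / Θ) with c | c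
      · exact .inl (.inl (.inl (.inr ⟨a, c⟩)))
      · exact .inl (.inr ⟨b, c⟩)
    · exact .inr b
  have u0 := Finset.card_le_card hsub
  have u1 := Finset.card_union_le (X1 ∪ X2 ∪ X3 ∪ X4 ∪ X5 ∪ X6) X7
  have u2 := Finset.card_union_le (X1 ∪ X2 ∪ X3 ∪ X4 ∪ X5) X6
  have u3 := Finset.card_union_le (X1 ∪ X2 ∪ X3 ∪ X4) X5
  have u4 := Finset.card_union_le (X1 ∪ X2 ∪ X3) X4
  have u5 := Finset.card_union_le (X1 ∪ X2) X3
  have u6 := Finset.card_union_le X1 X2
  have u7 : X.card ≤ X1.card + X2.card + X3.card + X4.card + X5.card + X6.card + X7.card := by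
    omega
  have u8 := Nat.mul_le_mul_left y u7
  refine Nat.le_of_mul_le_mul_left (c := y) ?_ (by omega)
  simp only [Nat.mul_add, Nat.mul_assoc] at u8 g1 g2 g3 g4 g5 g6 g7
  omega

end Pool.Agent.MP_dbdb85_co.L

end
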