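import Pool.Agent.Mg.Fdbdb85.Gefe8eb

section

namespace Pool.Agent.MP_dbdb85_co.L

open Multiset

theorem tri_BC {x : Cfg} (hv : Val x) :
    IsTri x.1 (fun j => cn x.2.1 (j + 1)) (fun j => cn x.2.2 (j + 1)) ∧
      Psi x.1 (fun j => cn x.2.1 (j + 1)) (fun j => cn x.2.2 (j + 1)) = part x := by
  refine ⟨⟨fun a b h => cn_anti _ (by omega), fun a b h => cn_anti _ (by omega),
    cn_of_lt fun v h => Nat.lt_succ_of_le (hv.1 v h).2,
    cn_of_lt fun v h => Nat.lt_succ_of_le (hv.2 v h).2⟩, ?_⟩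
  rw [Psi, part, low_Surj x.1 x.2.2 fun v h => ⟨by have := hv.2 v h; omega, (hv.2 v h).2⟩]

theorem ext_BC {a b : Multiset ℕ} (ha : ∀ v ∈ a, 1 ≤ v) (hb : ∀ v ∈ b, 1 ≤ v)
    (h : (fun j => cn a (j + 1)) = fun j => cn b (j + 1)) : a = b := by
  refine ext_cn fun y => ?_
  rcases y with _ | y
  · have := congrFun h 0
    simp only [zero_add] at this
    rw [cn_of_ge ha, cn_of_ge hb] at this
    rw [cn_of_ge fun v _ => Nat.zero_le v, cn_of_ge fun v _ => Nat.zero_le v, this]
  · exact congrFun h y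

theorem BC_pf (hA : BA_st) : BC_st := by
  intro n w
  rw [l2_eq]
  symm
  refine Finset.card_bij (fun x _ => part x) ?_ ?_ ?_
  · intro x hx
    obtain ⟨hv, h1, h2, h3⟩ := mem_Ff.1 hx
    refine mem_Lf.2 ⟨fun v h => ?_, by rw [(hA x hv).1, h1], by rw [(hA x hv).2.1, h2], h3⟩
    have := ((t_min _ h3).2 v h).1
    omega
  · intro x hx y hy e
    have hv := (mem_Ff.1 hx).1
    have hw := (mem_Ff.1 hy).1
    obtain ⟨e1, e2, e3⟩ := s_inj _ _ _ _ _ _ (tri_BC hv).1 (tri_BC hw).1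
      (by rw [(tri_BC hv).2, (tri_BC hw).2]; exact e)
    exact Prod.ext e1 (Prod.ext (ext_BC (fun v h => (hv.1 v h).1) (fun v h => (hw.1 v h).1) e2)
      (ext_BC (fun v h => by have := hv.2 v h; omega) (fun v h => by have := hw.2 v h; omega) e3))
  · intro d hd
    obtain ⟨h0, h1, h2, h3⟩ := mem_Lf.1 hd
    obtain ⟨D, r, c, ⟨t1, t2, t3, t4⟩, e⟩ := s_surj d h0
    have e1 : part (D, lw_Psi r D, lw_Psi c D) = d := by
      rw [← e, part, Psi]
      congr 1
      refine map_congr rfl fun j _ => ?_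
      simp only [lw_Psi]
      rw [low_Inj t1, t3, Nat.sub_zero]
    have hv : Val (D, lw_Psi r D, lw_Psi c D) := by
      refine ⟨fun v h => mem_lw_Psi h, fun v h => ⟨?_, (mem_lw_Psi h).2⟩⟩
      exact ((t_min _ h3).2 v (by rw [← e1]; exact mem_add.2 (Or.inr h))).1
    refine ⟨_, mem_Ff.2 ⟨hv, ?_, ?_, ?_⟩, e1⟩
    · rw [← (hA _ hv).1, e1, h1]
    · rw [← (hA _ hv).2.1, e1, h2]
    · rwa [e1]

end Pool.Agent.MP_dbdb85_co.L

end

section

namespace Pool.Agent.MP_dbdb85_co.L

open Multiset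

theorem split_FILL (m : ℕ) : ∀ d : Multiset ℕ, m ≤ card d →
    ∃ b1 b2 : Multiset ℕ, d = b1 + b2 ∧ card b1 = m ∧ ∀ u ∈ b1, ∀ v ∈ b2, v ≤ u := by
  induction m with
  | zero => exact fun d _ => ⟨0, d, by simp, rfl, by simp⟩
  | succ m ih =>
    intro d h
    obtain ⟨R, e, hR⟩ := exists_top (d := d) (by rintro rfl; simp at h)
    generalize d.sup = a at e hR
    subst e
    obtain ⟨b1, b2, rfl, h1, h2⟩ := ih R (by simpa using h)
    refine ⟨a ::ₘ b1, b2, by rw [cons_add], by rw [card_cons, h1], ?_⟩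
    intro u hu v hv
    rcases mem_cons.1 hu with rfl | hu
    · exact hR v (mem_add.2 (Or.inr hv))
    · exact h2 u hu v hv

theorem ex_of_cn_FILL {d : Multiset ℕ} {t : ℕ} (h : cn d t ≠ 0) : ∃ v ∈ d, t ≤ v := by
  by_contra hc
  push Not at hc
  exact h (cn_of_lt hc)

theorem cn_top_FILL {P Q : Multiset ℕ} (h : ∀ u ∈ P, ∀ v ∈ Q, v ≤ u) (t : ℕ) :
    cn P t = min (card P) (cn (P + Q) t) := by
  rw [cn_add]
  by_cases h0 : cn Q t = 0
  · have := cn_le_card P t
    omega
  · obtain ⟨v, hv, ht⟩ := ex_of_cn_FILL h0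
    rw [cn_of_ge fun u hu => ht.trans (h u hu v hv)]
    omega

theorem uniq_FILL {P Q P' Q' : Multiset ℕ} (h : ∀ u ∈ P, ∀ v ∈ Q, v ≤ u)
    (h' : ∀ u ∈ P', ∀ v ∈ Q', v ≤ u) (hc : card P = card P') (e : P + Q = P' + Q') :
    P = P' ∧ Q = Q' := by
  have e1 : P = P' := ext_cn fun t => by rw [cn_top_FILL h, cn_top_FILL h', hc, e]
  subst e1
  exact ⟨rfl, add_left_cancel e⟩

theorem sum_map_FILL (d : Multiset ℕ) : (d.map (· + 1)).sum = d.sum + card d := by
  induction d using Multiset.induction_on with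
  | empty => simp
  | cons a d ih => rw [map_cons, sum_cons, sum_cons, ih, card_cons]; omega

/-- a new dominating hook -/
def R_FILL (x y : Cfg) : Prop :=
  ∃ b1 b2 : Multiset ℕ, x.2.2 = b1 + b2 ∧ card b1 = card x.2.1 + 1 ∧
    (∀ u ∈ b1, ∀ v ∈ b2, v ≤ u) ∧ y = (x.1 + 1, x.2.1.map (· + 1), b1.map (· + 1) + b2)

theorem inj_FILL {x x' y : Cfg} (h : R_FILL x y) (h' : R_FILL x' y) : x = x' := by
  obtain ⟨b1, b2, e1, c1, o1, rfl⟩ := h
  obtain ⟨b1', b2', e1', c1', o1', e⟩ := h'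
  simp only [Prod.mk.injEq] at e
  obtain ⟨f1, f2, f3⟩ := e
  have hi : Function.Injective fun a : ℕ => a + 1 := fun a b h => by simpa using h
  have g2 : x.2.1 = x'.2.1 := Multiset.map_injective hi f2
  have key : ∀ {P Q : Multiset ℕ}, (∀ u ∈ P, ∀ v ∈ Q, v ≤ u) →
      ∀ u ∈ P.map (· + 1), ∀ v ∈ Q, v ≤ u := by
    intro P Q h u hu v hv
    obtain ⟨a, ha, rfl⟩ := mem_map.1 hu
    exact (h a ha v hv).trans (Nat.le_succ a)
  obtain ⟨g3, g4⟩ := uniq_FILL (key o1) (key o1') (by rw [card_map, card_map, c1, c1', g2]) f3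
  have g5 : b1 = b1' := Multiset.map_injective hi g3
  exact Prod.ext (by omega) (Prod.ext g2 (by rw [e1, e1', g4, g5]))

theorem step_FILL {n w : ℕ} {x : Cfg} (h : Tp n w x) :
    ∃ y, Tp (n + 2 * (w + 1)) (w + 1) y ∧ y.1 = x.1 + 1 ∧ R_FILL x y := by
  obtain ⟨D, al, be⟩ := x
  obtain ⟨⟨v1, v2⟩, hs, hw, hE, k, k1, k2, k3⟩ := h
  simp only [sz, ms, wd, EGc] at *
  have a1 := hE 1 (by omega)
  rw [Cs_of_ge fun v hv => (v1 v hv).1] at a1
  have a2 := Cs_le_card be 1
  obtain ⟨b1, b2, rfl, c1, o1⟩ := split_FILL (card al + 1) be (by omega)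
  refine ⟨(D + 1, al.map (· + 1), b1.map (· + 1) + b2), ⟨⟨?_, ?_⟩, ?_, ?_, ?_, k + 1, by omega,
    by simpa using k2, ?_⟩, rfl, b1, b2, rfl, c1, o1, rfl⟩
  · intro v hv
    obtain ⟨a, ha, rfl⟩ := mem_map.1 hv
    have := v1 a ha
    simp only
    omega
  · intro v hv
    rcases mem_add.1 hv with hv | hv
    · obtain ⟨a, ha, rfl⟩ := mem_map.1 hv
      have := v2 a (mem_add.2 (Or.inl ha))
      simp only
      omega
    · have := v2 v (mem_add.2 (Or.inr hv))
      simp only
      omega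
  · rw [sum_add] at hs
    simp only [sz, ms, sum_add, sum_map_FILL]
    have : (D + 1) ^ 2 = D ^ 2 + 2 * D + 1 := by ring
    omega
  · simp only [wd, card_map]
    omega
  · intro j hj
    rcases j with _ | j
    · simp [Cs_at_zero]
    · have := hE j (by simpa using hj)
      rw [Cs_add] at this
      simp only [Cs_add, Cs_map_succ, Cs_succ b2 j]
      omega
  · have z : cn b2 (k + 1) = 0 := by
      by_contra hc
      obtain ⟨v, hv, ht⟩ := ex_of_cn_FILL hc
      have e1 : Cs b1 k = card b1 * k :=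
        Cs_of_ge fun u hu => le_trans (by omega) (o1 u hu v hv)
      have e2 := Cs_mono (singleton_le.2 hv) k
      rw [Cs_singleton, min_eq_left (by omega)] at e2
      have e3 := Cs_le_card al k
      rw [Cs_add, e1, c1, Nat.succ_mul] at k3
      omega
    rw [Cs_add] at k3
    simp only [Cs_add, Cs_map_succ, Cs_succ b2 k]
    omega

theorem BIG_pf : BIG_st := by
  classical
  intro n w D0 X hX
  have h : ∀ x : Cfg, ∃ y, x ∈ X →
      Tp (n + 2 * (w + 1)) (w + 1) y ∧ y.1 = x.1 + 1 ∧ R_FILL x y := by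
    intro x
    by_cases hx : x ∈ X
    · obtain ⟨y, hy⟩ := step_FILL (hX x hx).1
      exact ⟨y, fun _ => hy⟩
    · exact ⟨x, fun h => absurd h hx⟩
  choose f hf using h
  refine ⟨X.image f, ?_, (Finset.card_image_of_injOn ?_).ge⟩
  · intro y hy
    obtain ⟨x, hx, rfl⟩ := Finset.mem_image.1 hy
    have := (hX x hx).2
    exact ⟨(hf x hx).1, by rw [(hf x hx).2.1]; omega⟩
  · intro x hx x' hx' e
    exact inj_FILL (hf x hx).2.2 (e ▸ (hf x' hx').2.2)

theorem FILL_pf (hb : BIG_st) (h2 : FL_st) : FILL_st := by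
  classical
  intro n w n0 w0 u D0 X hn hn0 hX h3 h4 h5 h6
  obtain ⟨d, hd⟩ : ∃ d, w = w0 + d := ⟨w - w0, by omega⟩
  have hD : 3 ≤ D0 := by
    by_contra hc
    rw [show D0 - 2 = 0 by omega, Nat.zero_mul] at h6
    omega
  induction d generalizing n0 w0 X with
  | zero =>
    rw [show w - w0 - u = 0 by omega] at h5
    have e1 : n0 = n := by omega
    have e2 : w0 = w := by omega
    subst e1 e2
    exact card_le_Tf fun y hy => (hX y hy).1
  | succ d ih =>
    have e0 : w - w0 = d + 1 := by omega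
    rw [e0] at h4 h5
    by_cases hc : n ≤ n0 + 2 * ((d + 1) * D0)
    · obtain ⟨a, ha⟩ := hn
      obtain ⟨b, hb'⟩ := hn0
      obtain ⟨H, c1, c2, c3⟩ := h2 (d + 1) 2 D0 (a - b) (by omega) (by omega) (by omega)
      rw [← Finset.card_image_of_injective X (f := fun x => hS.app x H)
        fun x y h => hS.app_inj x y H h]
      refine card_le_Tf fun y hy => ?_
      obtain ⟨x, hx, rfl⟩ := Finset.mem_image.1 hy
      refine Tp_swap (H := 0) (n := n0) (w := w0) (by simpa [hS_app] using (hX x hx).1) ?_ ?_ ?_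
      · intro v hv
        exact ⟨(c3 v hv).1, (c3 v hv).2.trans (hX x hx).2⟩
      · simp only [sum_zero]; omega
      · simp only [card_zero]; omega
    · obtain ⟨e, he⟩ : ∃ e, d + 1 - u = e + 1 := by
        refine ⟨d - u, ?_⟩
        by_contra h
        rw [show d + 1 - u = 0 by omega] at h5
        omega
      obtain ⟨Y, hY, hXY⟩ := hb n0 w0 D0 X hX
      obtain ⟨c, rfl⟩ : ∃ c, D0 = c + 2 := ⟨D0 - 2, by omega⟩
      rw [Nat.add_sub_cancel] at h6
      refine hXY.trans (ih (n0 + 2 * (w0 + 1)) (w0 + 1) Y ?_ hY (by omega) ?_ ?_ (by omega))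
      · exact hn0.add (even_two_mul _)
      · have f1 : c * u ≤ c * (d + 1) := Nat.mul_le_mul_left c (by omega)
        have f2 : (d + 1) * (c + 2) = c * (d + 1) + 2 * (d + 1) := by ring
        omega
      · rw [show w - (w0 + 1) - u = e by omega]
        rw [he] at h5
        nlinarith

end Pool.Agent.MP_dbdb85_co.L

end

section

/-! Insertion of a set of letters. -/

namespace Pool.Agent.MP_dbdb85_co.L

open Multiset

theorem mul_choose_INS (a k t : ℕ) : t * a.choose k ≤ (a + t).choose (k + 1) := by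
  induction t with
  | zero => simp
  | succ t ih =>
    have h := Nat.choose_le_choose k (Nat.le_add_right a t)
    rw [← add_assoc, Nat.choose_succ_succ', Nat.succ_mul]
    omega

theorem pow_le_INS (t u : ℕ) : t ^ u ≤ (t * u).choose u := by
  induction u with
  | zero => simp
  | succ u ih =>
    rw [pow_succ', Nat.mul_succ]
    exact (Nat.mul_le_mul_left t ih).trans (mul_choose_INS _ _ _)

theorem xg_INS {n s w u τ D0 E0 : ℕ} {x : Cfg} {H : Multiset ℕ} (h : XG n s w 0 τ D0 E0 x)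
    (hs : D0 ≤ s) (hc : card H = u) (hv : ∀ v ∈ H, 2 ≤ v ∧ v ≤ D0) :
    XG n s w (2 * u) τ D0 E0 (hS.app x H) := by
  obtain ⟨⟨v1, v2⟩, h2, h3, h4, h5, h6, h7, k, h8, h9, h10⟩ := h
  have e1 : H.sum ≤ u * s := hc ▸ sum_le_of_le fun v h => (hv v h).2.trans hs
  simp only [sz, ms, wd] at h3 h4 h5 h6
  refine ⟨⟨fun v h => ?_, fun v h => ?_⟩, h2, ?_, ?_, ?_, ?_, fun j hj => ?_, k, h8, h9, ?_⟩
  · rcases mem_add.1 h with a | a
    · exact v1 v a
    · exact ⟨by have := hv v a; omega, (hv v a).2.trans h2⟩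
  · rcases mem_add.1 h with a | a
    · exact v2 v a
    · exact ⟨(hv v a).1, (hv v a).2.trans h2⟩
  · simp only [hS_app, ms, sum_add]; omega
  · simp only [hS_app, sz, ms, sum_add]; omega
  · simp only [hS_app, sz, ms, sum_add, Nat.mul_assoc]; omega
  · simp only [hS_app, wd, card_add]; omega
  · have := h7 j hj
    simp only [hS_app, Cs_add]; omega
  · simp only [hS_app, Cs_add]; omega

theorem INS_pf : INS_st := by
  classical
  intro n s w u τ D0 E0 lo len Θ X h1 h2 h3 h4 hX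
  refine ⟨(X ×ˢ (Finset.Ico lo (lo + len)).powersetCard u).image fun p => hS.app p.1 p.2.val,
    fun y hy => ?_, ?_⟩
  · obtain ⟨p, hp, rfl⟩ := Finset.mem_image.1 hy
    obtain ⟨a1, a2⟩ := Finset.mem_product.1 hp
    obtain ⟨a3, a4⟩ := Finset.mem_powersetCard.1 a2
    refine xg_INS (hX _ a1).1 h3 a4 fun v hv => ?_
    have := Finset.mem_Ico.1 (a3 hv)
    omega
  · refine le_trans ?_ (Finset.card_le_mul_card_image _ (4 ^ u) fun y hy => ?_)
    · rw [Finset.card_product, Finset.card_powersetCard, Nat.card_Ico, Nat.add_sub_cancel_left,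
        mul_comm]
      exact Nat.mul_le_mul_left _ ((pow_le_INS Θ u).trans (Nat.choose_le_choose u h4))
    · obtain ⟨p, hp, rfl⟩ := Finset.mem_image.1 hy
      obtain ⟨a1, a2⟩ := Finset.mem_product.1 hp
      have hc : cor hS lo len (hS.app p.1 p.2.val) ≤ 2 * u := by
        have b1 := (hX _ a1).2
        have b2 := (Finset.mem_powersetCard.1 a2).2
        refine le_trans (Finset.card_le_card (t := (Finset.Ico lo (lo + len)).filter
          (fun v => 1 ≤ hS.mult p.1 v) ∪ p.2) fun v hv => ?_)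
          ((Finset.card_union_le _ _).trans (by unfold cor at b1; omega))
        obtain ⟨c1, c2⟩ := Finset.mem_filter.1 hv
        rw [hS.mult_app] at c2
        by_cases c3 : v ∈ p.2
        · exact Finset.mem_union_right _ c3
        · rw [count_eq_zero_of_notMem c3] at c2
          exact Finset.mem_union_left _ (Finset.mem_filter.2 ⟨c1, c2⟩)
      refine le_trans (Finset.card_le_card_of_injOn (fun q => q.2)
        (t := ((Finset.Ico lo (lo + len)).filter
          (fun v => 1 ≤ hS.mult (hS.app p.1 p.2.val) v)).powerset) (fun q hq => ?_)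
        fun q hq q' hq' e => ?_) ?_
      · obtain ⟨b1, b2⟩ := Finset.mem_filter.1 (Finset.mem_coe.1 hq)
        refine Finset.mem_coe.2 (Finset.mem_powerset.2 fun v hv => Finset.mem_filter.2
          ⟨(Finset.mem_powersetCard.1 (Finset.mem_product.1 b1).2).1 hv, ?_⟩)
        rw [← b2, hS.mult_app]
        exact le_trans (one_le_count_iff_mem.2 hv) (Nat.le_add_left _ _)
      · have b1 := (Finset.mem_filter.1 (Finset.mem_coe.1 hq)).2
        have b2 := (Finset.mem_filter.1 (Finset.mem_coe.1 hq')).2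
        have e' : q.2 = q'.2 := e
        exact Prod.ext (hS.app_inj _ _ q'.2.val (by rw [b2, ← b1, e'])) e'
      · rw [Finset.card_powerset, show 4 ^ u = 2 ^ (2 * u) from (pow_mul 2 2 u).symm]
        exact Nat.pow_le_pow_right (by norm_num) hc

end Pool.Agent.MP_dbdb85_co.L

end
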