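import Pool.Agent.Mg.Fdbdb85.Gefe8eb

section

/-! Balanced splittings of a multiset of letters. -/

namespace Pool.Agent.MP_dbdb85_co.L

open Multiset

theorem cn_lt_BAL (d : Multiset ℕ) (j : ℕ) : cn d j + card (d.filter (· < j)) = card d := by
  have h := congrArg card (filter_add_not (fun x => j ≤ x) d)
  rw [card_add] at h
  have e : d.filter (fun x => ¬ j ≤ x) = d.filter (· < j) := filter_congr fun x _ => not_le
  rw [e] at h
  exact h

theorem cut_BAL (θ t : ℕ) (γ : Multiset ℕ) (h : card γ ≤ (t + 1) * θ) :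
    ∃ v, card (γ.filter (v < ·)) ≤ t * θ ∧ card (γ.filter (· < v)) ≤ θ := by
  have ex : ∃ v, card (γ.filter (v < ·)) ≤ t * θ := by
    refine ⟨γ.sup, ?_⟩
    rw [filter_eq_nil.2 fun a ha => not_lt.2 (le_sup ha)]
    simp
  refine ⟨Nat.find ex, Nat.find_spec ex, ?_⟩
  rcases hv : Nat.find ex with _ | u
  · rw [filter_eq_nil.2 fun a _ => Nat.not_lt_zero a]
    simp
  · have h1 := Nat.find_min ex (show u < Nat.find ex by omega)
    have h2 := cn_lt_BAL γ (u + 1)
    have h3 : cn γ (u + 1) = card (γ.filter (u < ·)) := rfl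
    rw [Nat.succ_mul] at h
    omega

theorem mem_sub_BAL {a d : Multiset ℕ} : a ∈ d.powerset.toFinset ↔ a ≤ d := by
  rw [mem_toFinset, mem_powerset]

theorem aux_BAL (h : MID_st) (θ t : ℕ) : ∀ γ : Multiset ℕ, (∀ v ∈ γ, 1 ≤ v) → card γ ≤ t * θ →
    ∃ S : Finset (Multiset ℕ), (∀ α ∈ S, α ≤ γ ∧
      (card γ ≤ 2 * card α + t ∧ 2 * card α ≤ card γ + t) ∧
      ∀ j, cn γ j ≤ 2 * cn α j + (θ + t) ∧ 2 * cn α j ≤ cn γ j + (θ + t)) ∧
    γ.powerset.toFinset.card ≤ (card γ + 1) ^ t * S.card := by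
  induction t with
  | zero =>
    intro γ _ hc
    have h0 : γ = 0 := card_eq_zero.1 (by omega)
    subst h0
    refine ⟨{0}, ?_, by simp⟩
    intro α hα
    rw [Finset.mem_singleton.1 hα]
    simp
  | succ t ih =>
    intro γ hp hc
    obtain ⟨v, hv1, hv2⟩ := cut_BAL θ t γ hc
    obtain ⟨lo, hlo⟩ : ∃ lo, lo = γ.filter (· ≤ v) := ⟨_, rfl⟩
    obtain ⟨hi, hhi⟩ : ∃ hi, hi = γ.filter (v < ·) := ⟨_, rfl⟩
    have hsplit : ∀ d : Multiset ℕ, d.filter (· ≤ v) + d.filter (v < ·) = d := by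
      intro d
      have h1 := filter_add_not (fun x => x ≤ v) d
      have e : d.filter (fun x => ¬ x ≤ v) = d.filter (v < ·) := filter_congr fun x _ => not_le
      rw [e] at h1
      exact h1
    have hγ : lo + hi = γ := by rw [hlo, hhi]; exact hsplit γ
    have hl : ∀ x ∈ lo, x ≤ v := fun x hx => by rw [hlo] at hx; exact (mem_filter.1 hx).2
    have hh : ∀ x ∈ hi, v < x := fun x hx => by rw [hhi] at hx; exact (mem_filter.1 hx).2
    have hlγ : lo ≤ γ := by rw [hlo]; exact filter_le _ _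
    have hhγ : hi ≤ γ := by rw [hhi]; exact filter_le _ _
    obtain ⟨S', hS1, hS2⟩ := ih hi (fun x hx => hp x (mem_of_le hhγ hx)) (by rw [hhi]; exact hv1)
    have hM := h lo (fun x hx => hp x (mem_of_le hlγ hx))
    obtain ⟨M, hMd⟩ : ∃ M, M = lo.powerset.toFinset.filter (fun α => card α = card lo / 2) :=
      ⟨_, rfl⟩
    rw [← hMd] at hM
    have hMm : ∀ a ∈ M, a ≤ lo ∧ card a = card lo / 2 := by
      intro a ha
      rw [hMd, Finset.mem_filter, mem_sub_BAL] at ha
      exact ha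
    have hcard : card γ = card lo + card hi := by rw [← hγ, card_add]
    refine ⟨(M ×ˢ S').image (fun p => p.1 + p.2), ?_, ?_⟩
    · intro α hα
      obtain ⟨⟨a, b⟩, hab, rfl⟩ := Finset.mem_image.1 hα
      obtain ⟨ha, hb⟩ := Finset.mem_product.1 hab
      obtain ⟨ha1, ha2⟩ := hMm a ha
      obtain ⟨hb1, ⟨hb2, hb3⟩, hb4⟩ := hS1 b hb
      simp only at ha1 ha2 hb1 hb2 hb3 hb4 ⊢
      refine ⟨hγ ▸ add_le_add ha1 hb1, ?_, ?_⟩
      · rw [card_add]; omega
      · intro j
        have e1 : cn γ j = cn lo j + cn hi j := by rw [← hγ, cn_add]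
        rw [cn_add, e1]
        rcases le_or_gt j v with hj | hj
        · have f1 : cn hi j = card hi := cn_of_ge fun x hx => by have := hh x hx; omega
          have f2 : cn b j = card b :=
            cn_of_ge fun x hx => by have := hh x (mem_of_le hb1 hx); omega
          have f3 := cn_lt_BAL lo j
          have f4 := cn_lt_BAL a j
          have f5 : card (a.filter (· < j)) ≤ card (lo.filter (· < j)) :=
            card_le_card (filter_le_filter _ ha1)
          have f6 : card (lo.filter (· < j)) ≤ card (γ.filter (· < v)) :=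
            card_le_card ((filter_le_filter _ hlγ).trans
              (monotone_filter_right _ fun x hx => lt_of_lt_of_le hx hj))
          omega
        · have f1 : cn lo j = 0 := cn_of_lt fun x hx => by have := hl x hx; omega
          have f2 : cn a j = 0 := cn_of_lt fun x hx => by have := hl x (mem_of_le ha1 hx); omega
          have f3 := hb4 j
          omega
    · have hinj : Set.InjOn (fun p : Multiset ℕ × Multiset ℕ => p.1 + p.2) ↑(M ×ˢ S') := by
        have key : ∀ p ∈ M ×ˢ S', (p.1 + p.2).filter (· ≤ v) = p.1 := by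
          intro p hp'
          obtain ⟨ha, hb⟩ := Finset.mem_product.1 hp'
          rw [filter_add, filter_eq_self.2 fun x hx => hl x (mem_of_le (hMm _ ha).1 hx),
            filter_eq_nil.2 fun x hx => not_le.2 (hh x (mem_of_le (hS1 _ hb).1 hx)), add_zero]
        intro p hp' q hq e
        have e1 : p.1 = q.1 := by
          rw [← key p hp', ← key q hq]
          exact congrArg _ e
        have e2 : p.1 + p.2 = q.1 + q.2 := e
        rw [e1] at e2
        exact Prod.ext e1 (add_left_cancel e2)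
      rw [Finset.card_image_of_injOn hinj, Finset.card_product]
      have h1 : γ.powerset.toFinset.card ≤
          lo.powerset.toFinset.card * hi.powerset.toFinset.card := by
        refine card_le_of_dec _ _ _ (fun y c => c + y) ?_
        intro x hx
        have hx' := mem_sub_BAL.1 hx
        refine ⟨x.filter (v < ·), mem_sub_BAL.2 ?_, x.filter (· ≤ v), mem_sub_BAL.2 ?_, hsplit x⟩
        · rw [hhi]; exact filter_le_filter _ hx'
        · rw [hlo]; exact filter_le_filter _ hx'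
      have h2 : (card hi + 1) ^ t ≤ (card γ + 1) ^ t := Nat.pow_le_pow_left (by omega) t
      calc γ.powerset.toFinset.card
          ≤ ((card lo + 1) * M.card) * ((card hi + 1) ^ t * S'.card) :=
            h1.trans (Nat.mul_le_mul hM hS2)
        _ ≤ ((card γ + 1) * M.card) * ((card γ + 1) ^ t * S'.card) :=
            Nat.mul_le_mul (Nat.mul_le_mul_right _ (by omega)) (Nat.mul_le_mul_right _ h2)
        _ = (card γ + 1) ^ (t + 1) * (M.card * S'.card) := by ring

theorem BAL_pf (h : MID_st) : BAL_st := by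
  intro θ t γ hp hc
  obtain ⟨S, h1, h2⟩ := aux_BAL h θ t γ hp hc
  exact ⟨S, fun α hα => ⟨(h1 α hα).1, (h1 α hα).2.2⟩, h2⟩

theorem CR2_pf (h : BAL_st) : CR2_st := by
  classical
  intro n k1 Z V D0 E1 θ t X hV hX
  have hex : ∀ γ : Multiset ℕ, ∃ S : Finset (Multiset ℕ), (∀ v ∈ γ, 1 ≤ v) → card γ ≤ V →
      (∀ α ∈ S, α ≤ γ ∧
        ∀ j, cn γ j ≤ 2 * cn α j + (θ + t) ∧ 2 * cn α j ≤ cn γ j + (θ + t)) ∧
      γ.powerset.toFinset.card ≤ (card γ + 1) ^ t * S.card := by
    intro γ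
    by_cases hc : (∀ v ∈ γ, 1 ≤ v) ∧ card γ ≤ V
    · obtain ⟨S, hS⟩ := h θ t γ hc.1 (hc.2.trans hV)
      exact ⟨S, fun _ _ => hS⟩
    · exact ⟨∅, fun h1 h2 => absurd ⟨h1, h2⟩ hc⟩
  choose S hS using hex
  obtain ⟨G, hG⟩ : ∃ G : Finset (ℕ × Multiset ℕ),
      G = X.image (fun x => (x.1, x.2.1 + x.2.2)) := ⟨_, rfl⟩
  have hGok : ∀ g ∈ G, (∀ v ∈ g.2, 1 ≤ v) ∧ card g.2 ≤ V := by
    intro g hg
    rw [hG] at hg
    obtain ⟨x, hx, rfl⟩ := Finset.mem_image.1 hg
    obtain ⟨h1, -, -, -, -, h6⟩ := hX x hx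
    refine ⟨fun v hv => ?_, ?_⟩
    · have := (h1 v hv).1; omega
    · simp only [card_add]; omega
  have hle : ∀ g ∈ G, ∀ a ∈ S g.2, a + (g.2 - a) = g.2 := fun g hg a ha =>
    add_tsub_cancel_of_le (((hS g.2 (hGok g hg).1 (hGok g hg).2).1 a ha).1)
  refine ⟨G.biUnion (fun g => (S g.2).image (fun a => ((g.1, a, g.2 - a) : Cfg))), ?_, ?_⟩
  · intro y hy
    obtain ⟨g, hg, hy'⟩ := Finset.mem_biUnion.1 hy
    obtain ⟨a, ha, rfl⟩ := Finset.mem_image.1 hy'
    have e := hle g hg a ha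
    have hb := ((hS g.2 (hGok g hg).1 (hGok g hg).2).1 a ha).2
    have hg' := hg
    rw [hG] at hg'
    obtain ⟨x, hx, rfl⟩ := Finset.mem_image.1 hg'
    obtain ⟨h1, h2, h3, h4, h5, h6⟩ := hX x hx
    simp only at e hb
    have e1 := congrArg Multiset.sum e
    have e2 := congrArg card e
    simp only [sum_add, card_add] at e1 e2
    simp only [sz, ms] at h3 h4 h5
    refine ⟨⟨?_, h2, ?_, ?_, ?_, ?_⟩, ?_⟩
    · simp only
      rw [e]
      exact h1
    · simp only [ms]; omega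
    · simp only [sz, ms]; omega
    · simp only [sz, ms]; omega
    · simp only; omega
    · intro j
      have e3 : cn a j + cn (x.2.1 + x.2.2 - a) j = cn (x.2.1 + x.2.2) j := by
        rw [← cn_add, e]
      have := hb j
      simp only
      omega
  · rw [Finset.card_biUnion]
    · have hmap : ∀ x ∈ X, (x.1, x.2.1 + x.2.2) ∈ G := fun x hx => by
        rw [hG]; exact Finset.mem_image_of_mem _ hx
      rw [Finset.card_eq_sum_card_fiberwise (f := fun x : Cfg => (x.1, x.2.1 + x.2.2)) hmap,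
        Finset.mul_sum]
      refine Finset.sum_le_sum fun g hg => ?_
      have i1 : ((S g.2).image (fun a => ((g.1, a, g.2 - a) : Cfg))).card = (S g.2).card :=
        Finset.card_image_of_injective _ fun a b e => congrArg (fun y : Cfg => y.2.1) e
      have i2 : (X.filter (fun x : Cfg => (x.1, x.2.1 + x.2.2) = g)).card ≤
          g.2.powerset.toFinset.card := by
        refine Finset.card_le_card_of_injOn (fun x => x.2.1) ?_ ?_
        · intro x hx
          have e := (Finset.mem_filter.1 hx).2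
          refine Finset.mem_coe.2 (mem_sub_BAL.2 ?_)
          rw [← e]
          exact le_add_right _ _
        · intro x hx y hy e
          have e1 := (Finset.mem_filter.1 hx).2
          have e2 := (Finset.mem_filter.1 hy).2
          have e3 := e1.trans e2.symm
          simp only [Prod.mk.injEq] at e3
          have e4 : x.2.1 = y.2.1 := e
          have e5 := e3.2
          rw [e4] at e5
          exact Prod.ext e3.1 (Prod.ext e4 (add_left_cancel e5))
      rw [i1]
      refine i2.trans ((hS g.2 (hGok g hg).1 (hGok g hg).2).2.trans ?_)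
      exact Nat.mul_le_mul_right _ (Nat.pow_le_pow_left (by have := (hGok g hg).2; omega) t)
    · intro g hg g' hg' hne
      refine Finset.disjoint_left.2 fun y hy hy' => hne ?_
      obtain ⟨a, ha, e⟩ := Finset.mem_image.1 hy
      obtain ⟨a', ha', e'⟩ := Finset.mem_image.1 hy'
      have e3 := e.trans e'.symm
      simp only [Prod.mk.injEq] at e3
      refine Prod.ext e3.1 ?_
      rw [← hle g hg a ha, ← hle g' hg' a' ha', e3.2.2, e3.2.1]

end Pool.Agent.MP_dbdb85_co.L

end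

section

namespace Pool.Agent.MP_dbdb85_co.L

open Multiset

theorem bal_CR3 {a b : Multiset ℕ} {τ : ℕ} (h : ∀ j, cn a j ≤ cn b j + τ) (k : ℕ) :
    Cs a k ≤ Cs b k + τ * k := by
  induction k with
  | zero => simp [Cs_at_zero]
  | succ k ih =>
    have := h (k + 1)
    rw [Cs_succ, Cs_succ, Nat.mul_succ]
    omega

theorem filt_CR3 (L : ℕ) (b : Multiset ℕ) :
    card (b.filter (· ∈ Finset.Ico L (2 * L))) + cn b (2 * L) ≤ cn b L := by
  induction b using Multiset.induction_on with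
  | empty => simp
  | cons a d ih =>
    rw [filter_cons, cn_cons, cn_cons, card_add]
    by_cases h : a ∈ Finset.Ico L (2 * L)
    · rw [if_pos h, card_singleton]
      rw [Finset.mem_Ico] at h
      split_ifs <;> omega
    · rw [if_neg h, card_zero]
      split_ifs <;> omega

theorem inj_CR3 {S U U' : Finset ℕ} {b b' : Multiset ℕ} (hU : U ⊆ S) (hU' : U' ⊆ S)
    (h : b + (b.filter (· ∈ S) + U.val) = b' + (b'.filter (· ∈ S) + U'.val)) :
    b = b' ∧ U = U' := by
  have key : ∀ v, count v b = count v b' ∧ (v ∈ U ↔ v ∈ U') := by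
    intro v
    have h1 := congrArg (count v) h
    simp only [count_add, count_filter, count_eq_of_nodup U.nodup, count_eq_of_nodup U'.nodup,
      Finset.mem_val] at h1
    have h2 := @hU v
    have h3 := @hU' v
    by_cases a1 : v ∈ S <;> by_cases a2 : v ∈ U <;> by_cases a3 : v ∈ U' <;>
      simp only [a1, a2, a3, if_true, if_false, true_implies, iff_self, and_true] at h1 h2 h3 ⊢ <;>
      omega
  exact ⟨Multiset.ext.2 fun v => (key v).1, Finset.ext fun v => (key v).2⟩

theorem CR3_pf : CR3_st := by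
  classical
  intro n s w u k1 Z V D0 E1 τ1 τ2 L u' X hk hL hD hZ hu hτ hV hX
  refine ⟨(X ×ˢ (Finset.Ico L (2 * L)).powerset).image fun p => (p.1.1, p.1.2.1,
    p.1.2.2 + (p.1.2.2.filter (· ∈ Finset.Ico L (2 * L)) + p.2.val)), ?_, ?_⟩
  · intro y hy
    obtain ⟨⟨⟨D, α, β⟩, U⟩, hp, rfl⟩ := Finset.mem_image.1 hy
    obtain ⟨hx, hU⟩ := Finset.mem_product.1 hp
    have hU := Finset.mem_powerset.1 hU
    obtain ⟨⟨a1, a2, a3, a4, a5, a6⟩, hb, hc⟩ := hX _ hx
    simp only [sz, ms] at a1 a2 a3 a4 a5 a6 hc hU ⊢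
    have b1 : ∀ v ∈ β.filter (· ∈ Finset.Ico L (2 * L)) + U.val, L ≤ v ∧ v < 2 * L := by
      intro v hv
      rcases mem_add.1 hv with h | h
      · exact Finset.mem_Ico.1 (mem_filter.1 h).2
      · exact Finset.mem_Ico.1 (hU h)
    have b2 : card (β.filter (· ∈ Finset.Ico L (2 * L)) + U.val) ≤ u' + L := by
      have h1 := filt_CR3 L β
      have h2 := Finset.card_le_card hU
      rw [Nat.card_Ico] at h2
      rw [card_add, Finset.card_val]
      omega
    generalize β.filter (· ∈ Finset.Ico L (2 * L)) + U.val = H at b1 b2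
    have b3 : H.sum ≤ 2 * L * (u' + L) := by
      rw [mul_comm]
      exact (sum_le_of_le fun v hv => (b1 v hv).2.le).trans (Nat.mul_le_mul_right _ b2)
    have b4 := (hb 0).2
    rw [cn_of_ge fun _ _ => Nat.zero_le _, cn_of_ge fun _ _ => Nat.zero_le _] at b4
    refine ⟨⟨fun v hv => ?_, fun v hv => ?_⟩, a2, ?_, ?_, ?_, ?_, fun k _ => ?_, D, by omega,
      le_rfl, ?_⟩
    · have := a1 v (mem_add.2 (Or.inl hv))
      exact ⟨by omega, this.2⟩
    · rcases mem_add.1 hv with h | h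
      · have := a1 v (mem_add.2 (Or.inr h))
        exact ⟨by omega, this.2⟩
      · have := b1 v h
        exact ⟨by omega, by simp only; omega⟩
    · simp only [ms, sum_add]; omega
    · simp only [sz, ms, sum_add]; omega
    · simp only [sz, ms, sum_add]; omega
    · simp only [wd] at b4 ⊢; omega
    · have := bal_CR3 (fun j => (hb j).2) k
      simp only [Cs_add, Nat.add_mul] at this ⊢
      omega
    · have h1 := bal_CR3 (fun j => (hb j).1) D
      have h2 := Cs_le_sum H D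
      have h3 := Nat.mul_le_mul_left τ2 a2
      simp only [Cs_add, Nat.add_mul] at h1 ⊢
      omega
  · rw [Finset.card_image_of_injOn, Finset.card_product, Finset.card_powerset, Nat.card_Ico,
      show 2 * L - L = L by omega, mul_comm]
    rintro ⟨⟨D, α, β⟩, U⟩ hp ⟨⟨D', α', β'⟩, U'⟩ hp' h
    simp only [Prod.mk.injEq] at h
    obtain ⟨rfl, rfl, h⟩ := h
    obtain ⟨rfl, rfl⟩ := inj_CR3 (Finset.mem_powerset.1 (Finset.mem_product.1 hp).2)
      (Finset.mem_powerset.1 (Finset.mem_product.1 hp').2) h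
    rfl

end Pool.Agent.MP_dbdb85_co.L

end

section

/-! The class of configurations that are almost tight at a small index. -/

namespace Pool.Agent.MP_dbdb85_co.L

open Multiset

theorem big_KS {y : ℕ} (h : 2 ^ 40 ≤ y) (i : ℕ) : 1024 * y ^ i ≤ y ^ (i + 1) := by
  rw [pow_succ, mul_comm]
  exact Nat.mul_le_mul_left _ (le_trans (by norm_num) h)

theorem par_KS {n Δ s y lam N2 N6 C3 Θ : ℕ} (H : Hyp n Δ s y lam N2 N6 C3 Θ) :
    1 ≤ C3 ∧ 1024 * C3 ≤ lam := by
  have h1 : 1 ≤ N2 ^ 3 := Nat.one_le_pow _ _ (lt_of_lt_of_le (by norm_num) H.n2)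
  have h2 := H.n6
  have h3 := H.c3
  have h4 : 1 ≤ Θ := le_trans Nat.one_le_two_pow H.th
  have h5 := (Nat.mul_le_mul_left (2 ^ 20 * C3) h4).trans H.l2
  omega

theorem KS1_pf (hF : HF_st) (hG : KG_st) (h3 : CR3_st) (hU : GU_st) : KS1_st := by
  intro n Δ s y lam N2 N6 C3 Θ H L E1 hL1 hL2 hE X hX
  obtain ⟨f1, -, f3, -, -, -, -, -, f9, -, f11, -, f13, -⟩ := hF _ _ _ _ _ _ _ _ _ H
  obtain ⟨c1, c2⟩ := par_KS H
  have y0 : 1 ≤ y := le_trans (by norm_num) H.y4
  have mono : ∀ {i j : ℕ}, i ≤ j → y ^ i ≤ y ^ j := fun h => Nat.pow_le_pow_right y0 h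
  have ds : s / N6 ≤ s := Nat.div_le_self _ _
  have du := Nat.div_mul_le_self (s / N6) (2048 * C3)
  obtain ⟨D0, hD⟩ : ∃ D0, D0 = s / N6 := ⟨_, rfl⟩
  have hG' := hG _ _ _ _ _ _ _ _ _ H
  rw [← hD] at hE hX f11 f13 ds du hG'
  obtain ⟨u', hu'⟩ : ∃ u', u' = D0 / (2048 * C3) := ⟨_, rfl⟩
  rw [← hu'] at hX f11 du
  have a1 := Nat.div_mul_le_self L (512 * C3)
  have a2 := Nat.lt_mul_div_succ L (show 0 < 512 * C3 by omega)
  have a3 : y ^ 17 ≤ L / (512 * C3) := by
    rw [Nat.le_div_iff_mul_le (by omega)]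
    refine le_trans ?_ hL1
    rw [pow_succ y 17]
    exact Nat.mul_le_mul_left _ (by omega)
  obtain ⟨a, ha⟩ : ∃ a, a = L / (512 * C3) := ⟨_, rfl⟩
  rw [← ha] at a1 a2 a3
  have b0 : 1 ≤ y ^ 11 := Nat.one_le_pow _ _ y0
  have b1 : y ^ 11 ≤ y ^ 16 := mono (by norm_num)
  have b2 : 1024 * y ^ 16 ≤ y ^ 17 := big_KS H.y4 16
  have b3 : 1024 * y ^ 17 ≤ y ^ 18 := big_KS H.y4 17
  have b4 : y ^ 1 ≤ y ^ 11 := mono (by norm_num)
  rw [pow_one] at b4
  have e1 : u' * 2048 ≤ u' * (2048 * C3) := Nat.mul_le_mul_left _ (by omega)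
  have e2 : 2 * L * (u' + L) ≤ (a + 1) * D0 :=
    calc 2 * L * (u' + L) ≤ 2 * (512 * C3 * (a + 1)) * (u' + u') :=
          Nat.mul_le_mul (Nat.mul_le_mul_left _ a2.le) (by omega)
      _ = (a + 1) * (u' * (2048 * C3)) := by ring
      _ ≤ (a + 1) * D0 := Nat.mul_le_mul_left _ du
  have e3 : 3 * (Δ + 15) * y ^ 16 ≤ 16 * a * s :=
    calc 3 * (Δ + 15) * y ^ 16 ≤ 3 * (s * y) * y ^ 16 :=
          Nat.mul_le_mul_right _ (Nat.mul_le_mul_left _ (by omega))
      _ = 3 * y ^ 17 * s := by ring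
      _ ≤ 16 * a * s := Nat.mul_le_mul_right _ (by omega)
  obtain ⟨Y, hY, hc⟩ := h3 n s (Δ + 1) (16 * a) (y ^ 16) _ _ D0 E1 _ (a + 1) L u' X (by omega)
    (by omega) (by omega) e3 (e2.trans (Nat.mul_le_mul (by omega) ds)) e2 (by omega) hX
  have e4 : a * (512 * C3) = 512 * (C3 * a) := by ring
  have e5 : a ≤ C3 * a := Nat.le_mul_of_pos_left _ c1
  have hk := hU n s (Δ + 1) (16 * a) _ D0 E1 _ Y (hG' (16 * a) (y ^ 11 + y ^ 11 + (a + 1)) E1 hE
    (by rw [show 2 * C3 * (16 * a) = 32 * (C3 * a) by ring]; omega) (by omega)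
    (by rw [show 32 * C3 * (16 * a) = 512 * (C3 * a) by ring]; omega)) hY
  rw [show 16 * C3 * (16 * a) = 256 * (C3 * a) by ring] at hk
  have e6 : (n + 1) ^ 5 ≤ 2 ^ (y * 5) := by
    rw [pow_mul]
    exact Nat.pow_le_pow_left f1 5
  refine Nat.le_of_mul_le_mul_left ?_ (Nat.two_pow_pos (y * 5 + 256 * (C3 * a)))
  calc 2 ^ (y * 5 + 256 * (C3 * a)) * (2 ^ (3 * y ^ 17) * X.card)
      = 2 ^ (y * 5 + 256 * (C3 * a) + 3 * y ^ 17) * X.card := by rw [← mul_assoc, ← pow_add]
    _ ≤ 2 ^ L * X.card :=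
        Nat.mul_le_mul_right _ (Nat.pow_le_pow_right (by norm_num) (by omega))
    _ ≤ _ := hc.trans (hk.trans (by
        rw [pow_add]
        exact Nat.mul_le_mul_right _ (Nat.mul_le_mul_right _ e6)))

theorem tel_KS (d : Multiset ℕ) (L u : ℕ) (j : ℕ)
    (h : ∀ i < j, ¬ cn d (L * 2 ^ i) ≤ cn d (2 * (L * 2 ^ i)) + u) :
    cn d (L * 2 ^ j) + j * (u + 1) ≤ card d := by
  induction j with
  | zero => simpa using cn_le_card d _
  | succ j ih =>
    have h1 := ih fun i hi => h i (by omega)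
    have h2 := h j (by omega)
    rw [show L * 2 ^ (j + 1) = 2 * (L * 2 ^ j) by ring, Nat.succ_mul j]
    omega

theorem KS_pf (hF : HF_st) (h1 : CR1_st) (h2 : CR2_st) (hS : KS1_st) : KS_st := by
  intro n Δ s y lam N2 N6 C3 Θ H X hX
  obtain ⟨f1, -, f3, -, -, -, -, -, f9, f10, -, -, f13, -, -, -, f17, -⟩ := hF _ _ _ _ _ _ _ _ _ H
  obtain ⟨c1, c2⟩ := par_KS H
  have y0 : 1 ≤ y := le_trans (by norm_num) H.y4
  have mono : ∀ {i j : ℕ}, i ≤ j → y ^ i ≤ y ^ j := fun h => Nat.pow_le_pow_right y0 h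
  have b1 : y ^ 16 ≤ y ^ 19 := mono (by norm_num)
  have b2 : 1024 * y ^ 16 ≤ y ^ 17 := big_KS H.y4 16
  have b3 : 1024 * y ^ 17 ≤ y ^ 18 := big_KS H.y4 17
  have b4 : y ^ 1 ≤ y ^ 16 := mono (by norm_num)
  have b5 : y ^ 18 ≤ y ^ 19 := mono (by norm_num)
  have b6 : y ^ 12 ≤ y ^ 16 := mono (by norm_num)
  rw [pow_one] at b4
  have e3 : 2 * (3 * (Δ + 15) * y ^ 16) ≤ s * (s / N6) :=
    calc 2 * (3 * (Δ + 15) * y ^ 16) ≤ 2 * (3 * (s * y) * y ^ 16) :=
          Nat.mul_le_mul_left _ (Nat.mul_le_mul_right _ (Nat.mul_le_mul_left _ (by omega)))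
      _ = s * (6 * y ^ 17) := by ring
      _ ≤ s * (s / N6) := Nat.mul_le_mul_left _ (le_trans (by omega) f13)
  obtain ⟨E1, hE⟩ : ∃ E1, E1 + 3 * (Δ + 15) * y ^ 16 = s * (s / N6) :=
    ⟨_, Nat.sub_add_cancel (le_trans (Nat.le_mul_of_pos_left _ two_pos) e3)⟩
  have hE2 : s * (s / N6) ≤ 2 * E1 := by
    generalize s * (s / N6) = A at e3 hE
    generalize 3 * (Δ + 15) * y ^ 16 = B at e3 hE
    omega
  obtain ⟨Y1, hY1, k1⟩ := h1 n Δ (y ^ 16) (s / N6) _ E1 X (b1.trans f13) hE.le hX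
  obtain ⟨Y2, hY2, k2⟩ := h2 n _ _ _ _ _ (y ^ 11) (y ^ 11) Y1 (by rw [← pow_add]; exact f10) hY1
  have k3 := cover_bound Y2 (Finset.range lam) (fun j x => cn x.2.2 (y ^ 18 * 2 ^ j) ≤
      cn x.2.2 (2 * (y ^ 18 * 2 ^ j)) + s / N6 / (2048 * C3)) (2 ^ (3 * y ^ 17))
    (Tf n (Δ + 1)).card (fun x hx => by
      by_contra hn
      have t1 := tel_KS x.2.2 (y ^ 18) (s / N6 / (2048 * C3)) lam fun i hi e =>
        hn ⟨i, Finset.mem_range.2 hi, e⟩
      have t2 := (hY2 x hx).1.2.2.2.2.2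
      rw [Nat.mul_succ] at t1
      generalize lam * (s / N6 / (2048 * C3)) = A at t1 f17
      omega)
    fun j hj Z hZ => hS _ _ _ _ _ _ _ _ _ H (y ^ 18 * 2 ^ j) E1
      (Nat.le_mul_of_pos_right _ (by positivity))
      (by
        rw [pow_succ y 18]
        exact Nat.mul_le_mul_left _ ((Nat.pow_le_pow_right (by norm_num)
          (Finset.mem_range.1 hj).le).trans H.l1))
      hE2 Z fun x hx => ⟨(hY2 x (hZ x hx).1).1, (hY2 x (hZ x hx).1).2, (hZ x hx).2⟩
  rw [Finset.card_range] at k3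
  have p0 : y ^ 40 < 2 ^ y := lt_of_lt_of_le (Nat.pow_lt_pow_left (by omega) (by norm_num)) H.y3
  have p1 : (n + 1) ^ (2 * y ^ 16) ≤ 2 ^ (2 * y ^ 17) := by
    rw [show 2 * y ^ 17 = y * (2 * y ^ 16) by ring, pow_mul 2 y]
    exact Nat.pow_le_pow_left f1 _
  have p2 : (2 * Δ + 15 + 1) ^ y ^ 11 ≤ 2 ^ y ^ 12 := by
    rw [show y ^ 12 = y * y ^ 11 by ring, pow_mul 2 y]
    exact Nat.pow_le_pow_left
      (Nat.succ_le_of_lt (lt_of_le_of_lt (f10.trans (mono (by norm_num))) p0)) _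
  have p3 : lam * (1024 * y) ≤ 2 ^ y :=
    calc lam * (1024 * y) ≤ y * (1024 * y) := Nat.mul_le_mul_right _ f3
      _ = 1024 * y ^ 2 := by ring
      _ ≤ y ^ 3 := big_KS H.y4 2
      _ ≤ 2 ^ y := (mono (by norm_num)).trans p0.le
  refine Nat.le_of_mul_le_mul_left ?_ (show 0 < lam by omega)
  calc lam * (1024 * y * X.card) = lam * (1024 * y) * X.card := by ring
    _ ≤ 2 ^ y * (2 ^ (2 * y ^ 17) * (2 ^ y ^ 12 * Y2.card)) :=
        Nat.mul_le_mul p3 (k1.trans (Nat.mul_le_mul p1 (k2.trans (Nat.mul_le_mul_right _ p2))))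
    _ = 2 ^ (y + 2 * y ^ 17 + y ^ 12) * Y2.card := by rw [pow_add, pow_add, mul_assoc, mul_assoc]
    _ ≤ 2 ^ (3 * y ^ 17) * Y2.card :=
        Nat.mul_le_mul_right _ (Nat.pow_le_pow_right (by norm_num) (by omega))
    _ ≤ _ := k3

end Pool.Agent.MP_dbdb85_co.L

end

section

namespace Pool.Agent.MP_dbdb85_co.L

open Multiset

theorem cor_app_MV (S : Sys) (lo len : ℕ) (z : Cfg) (K : ℕ) :
    cor S lo len z ≤ cor S lo len (S.app z {K}) ∧
      cor S lo len (S.app z {K}) ≤ cor S lo len z + 1 := by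
  constructor
  · refine Finset.card_le_card fun v hv => ?_
    simp only [Finset.mem_filter, S.mult_app] at hv ⊢
    exact ⟨hv.1, by omega⟩
  · refine le_trans (Finset.card_le_card fun v hv => ?_) (Finset.card_insert_le K _)
    simp only [Finset.mem_filter, S.mult_app, Finset.mem_insert, count_singleton] at hv ⊢
    by_cases h : v = K
    · exact .inl h
    · exact .inr ⟨hv.1, by simpa [h] using hv.2⟩

theorem MV_pf : MV_st := by
  classical
  intro S X Y lo len m t g gi gm hX hm hY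
  have : ∀ (x : Cfg) (K : ℕ), ∃ z, 1 ≤ S.mult x K → x = S.app z {K} := fun x K => by
    by_cases h : 1 ≤ S.mult x K
    · obtain ⟨z, hz⟩ := S.ex_app x K 1 h
      exact ⟨z, fun _ => hz⟩
    · exact ⟨x, fun h' => absurd h' h⟩
  choose z hz using this
  have cg : ∀ y, cor S lo len (g y) = cor S lo len y := fun y =>
    congrArg Finset.card (Finset.filter_congr fun v hv => by
      rw [gm y v (Finset.mem_Ico.1 hv).1 (Finset.mem_Ico.1 hv).2])
  let O : Cfg → Finset ℕ := fun x => (Finset.Ico (lo + t) (lo + len)).filter (1 ≤ S.mult x ·)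
  let C : Cfg → Finset ℕ := fun x => (Finset.Ico lo (lo + len)).filter (1 ≤ S.mult x ·)
  have hO : ∀ x, cor S lo len x ≤ (O x).card + t := fun x => by
    refine le_trans (Finset.card_le_card (t := O x ∪ Finset.Ico lo (lo + t)) fun v hv => ?_)
      ((Finset.card_union_le _ _).trans (by simp))
    simp only [O, Finset.mem_filter, Finset.mem_union, Finset.mem_Ico] at hv ⊢
    omega
  let φ : (Σ _ : Cfg, ℕ) → (Σ _ : Cfg, ℕ) := fun e => ⟨g (S.app (z e.1 e.2) {e.2 - t}), e.2 - t⟩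
  let f : (Σ _ : Cfg, ℕ) → ℚ := fun e => 1 / ((cor S lo len e.1 : ℚ) - 1 - t)
  set Y' := Y.filter (fun y => m - 1 ≤ cor S lo len y)
  have hE : ∀ e ∈ X.sigma O, φ e ∈ Y'.sigma C ∧ cor S lo len (φ e).1 ≤ cor S lo len e.1 + 1 := by
    rintro ⟨x, K⟩ he
    simp only [O, Finset.mem_sigma, Finset.mem_filter, Finset.mem_Ico] at he
    obtain ⟨hx, ⟨k1, k2⟩, k3⟩ := he
    have a := cor_app_MV S lo len (z x K) K
    have b := cor_app_MV S lo len (z x K) (K - t)
    have c := hX x hx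
    rw [← hz x K k3] at a
    simp only [φ, C, Y', Finset.mem_sigma, Finset.mem_filter, Finset.mem_Ico, cg]
    refine ⟨⟨⟨hY _ K k1 k2 (hz x K k3 ▸ hx), by omega⟩, by omega, ?_⟩, by omega⟩
    rw [gm _ _ (by omega) (by omega), S.mult_app]
    simp
  have hY' : ∀ y ∈ Y', (t : ℚ) + 2 ≤ cor S lo len y ∧ (m : ℚ) - 1 ≤ cor S lo len y := fun y hy => by
    have := (Finset.mem_filter.1 hy).2
    have a : t + 2 ≤ cor S lo len y := by omega
    have b : m ≤ cor S lo len y + 1 := by omega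
    exact ⟨by exact_mod_cast a, by rw [sub_le_iff_le_add]; exact_mod_cast b⟩
  have inj : Set.InjOn φ (X.sigma O : Finset _) := by
    rintro ⟨x, K⟩ he ⟨x', K'⟩ he' e
    simp only [O, Finset.mem_coe, Finset.mem_sigma, Finset.mem_filter, Finset.mem_Ico] at he he'
    simp only [φ, Sigma.mk.injEq, heq_eq_eq] at e
    obtain rfl : K = K' := by omega
    have := S.app_inj _ _ _ (gi e.1)
    rw [hz x K he.2.2, hz x' K he'.2.2, this]
  have hm' : (t : ℚ) + 3 ≤ m := by exact_mod_cast hm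
  have key : (X.card : ℚ) ≤ Y'.card * (((m : ℚ) - 1) / (m - 2 - t)) :=
    calc (X.card : ℚ) = ∑ e ∈ X.sigma O, 1 / ((O e.1).card : ℚ) := by
          rw [Finset.sum_sigma, Finset.card_eq_sum_ones, Nat.cast_sum]
          refine Finset.sum_congr rfl fun x hx => ?_
          have : (O x).card ≠ 0 := by have := hO x; have := hX x hx; omega
          simp [this]
      _ ≤ ∑ e ∈ X.sigma O, f (φ e) := Finset.sum_le_sum fun e he => by
          have a := (hY' _ (Finset.mem_sigma.1 (hE e he).1).1).1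
          have b : cor S lo len (φ e).1 ≤ (O e.1).card + t + 1 := by
            have := (hE e he).2; have := hO e.1; omega
          have b' : (cor S lo len (φ e).1 : ℚ) ≤ (O e.1).card + t + 1 := by exact_mod_cast b
          exact one_div_le_one_div_of_le (by linarith) (by linarith)
      _ = ∑ e ∈ (X.sigma O).image φ, f e := (Finset.sum_image inj).symm
      _ ≤ ∑ e ∈ Y'.sigma C, f e :=
          Finset.sum_le_sum_of_subset_of_nonneg (Finset.image_subset_iff.2 fun e he => (hE e he).1)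
            fun e he _ => by
              have a := (hY' _ (Finset.mem_sigma.1 he).1).1
              exact one_div_nonneg.2 (by linarith)
      _ ≤ ∑ _y ∈ Y', ((m : ℚ) - 1) / (m - 2 - t) := by
          rw [Finset.sum_sigma]
          refine Finset.sum_le_sum fun y hy => ?_
          obtain ⟨a, b⟩ := hY' y hy
          simp only [f, Finset.sum_const, nsmul_eq_mul]
          change (cor S lo len y : ℚ) * _ ≤ _
          have : (0 : ℚ) ≤ t := t.cast_nonneg
          rw [mul_one_div, div_le_div_iff₀ (by linarith) (by linarith)]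
          nlinarith
      _ = _ := by simp
  rw [← mul_div_assoc, le_div_iff₀ (by linarith)] at key
  have e1 : ((m - 2 - t : ℕ) : ℚ) = m - 2 - t := by
    rw [Nat.cast_sub (by omega), Nat.cast_sub (by omega)]; rfl
  have e2 : ((m - 1 : ℕ) : ℚ) = m - 1 := by rw [Nat.cast_sub (by omega)]; rfl
  rw [← e1, ← e2, mul_comm, mul_comm (Y'.card : ℚ)] at key
  exact_mod_cast key

end Pool.Agent.MP_dbdb85_co.L

end
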