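import Pool.Agent.Mg.Fdbdb85.Gefe8eb

/-! The arithmetic of the growth bound. -/

namespace Pool.Agent.MP_dbdb85_co.L

open Multiset

theorem GN_pf : GN_st := by
  intro n s w u τ D0 E0 P A0 D A E z1 dA dE n0 w0 h1 h2 h3 h4 h5 h6 h7 h8 h9 h10 h11 h12 h13 h14
    h15 h16 h17 h18 h19 h20 h21 h22 h23
  have hP : 0 < P := by omega
  have a1 : 44 * (u * P) ≤ A0 := by
    refine Nat.le_of_mul_le_mul_right ?_ h15
    have := Nat.mul_le_mul_left A0 h6
    linarith
  have a2 : u * 2 ≤ u * P := Nat.mul_le_mul_left u h3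
  have a3 : D ≤ 2 * s := by omega
  have a4 : A0 ≤ A := by omega
  have a5 : w + u ≤ 2 * (u * s) := by
    have := Nat.mul_le_mul_right u (show D0 - 2 ≤ 2 * s by omega)
    linarith
  have a6 : 44 * u ≤ dA + 1 := Nat.le_of_mul_le_mul_left (c := P) (by linarith) hP
  have a7 : 27 * (u * s) ≤ dE + 4 * s := by
    refine Nat.le_of_mul_le_mul_left (c := P) ?_ hP
    have := Nat.mul_le_mul_right P a3
    linarith
  have a8 : s ≤ u * s := Nat.le_mul_of_pos_left s (by omega)
  have a9 : u ≤ u * s := Nat.le_mul_of_pos_right u h15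
  have b1 : (τ + 3) * D ≤ u * (2 * s) := Nat.mul_le_mul (by omega) a3
  have b2 : (6 * τ + 9) * (D + 2) ≤ u * (2 * s + 2) := Nat.mul_le_mul h1 (by omega)
  obtain ⟨k, rfl⟩ : ∃ k, w = w0 + u + k := ⟨w - w0 - u, by omega⟩
  refine ⟨by omega, ?_, ?_⟩
  · rw [show w0 + u + k - w0 = u + k by omega]
    linarith
  rw [show w0 + u + k - w0 - u = k by omega]
  have c1 : 2 * dA ≤ A + 2 := by
    obtain ⟨j, rfl⟩ : ∃ j, dA = j + 1 := ⟨dA - 1, by omega⟩
    have := Nat.mul_le_mul_right j h3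
    linarith
  have c2 : 2 * D + A ≤ 2 * (w0 + 1) := by omega
  have c3 : A ≤ P * k + 4 * (u * P) := by
    have := Nat.mul_le_mul_left P (show dA + 1 ≤ k + 4 * u by omega)
    linarith
  have c4 : τ * D ≤ u * s * P := by
    have := Nat.mul_le_mul (show τ ≤ u by omega) a3
    have := Nat.mul_le_mul_left (u * s) h3
    linarith
  have c5 : D * P ≤ 2 * (u * s * P) := by
    have := Nat.mul_le_mul_right P (a3.trans (Nat.mul_le_mul_left 2 a8))
    linarith
  have c6 : 44 * (u * s * P) ≤ A * A := by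
    have := Nat.mul_le_mul a4 a4
    linarith
  have c7 : D * (u * P) ≤ 2 * s * (u * P) := Nat.mul_le_mul_right _ a3
  have c8 : A * (8 * (u * P)) ≤ A * A := Nat.mul_le_mul_left _ (by omega)
  have c9 := Nat.mul_le_mul_left (2 * D + A) c3
  have d1 := Nat.mul_le_mul_right (P * k) c2
  have d2 := Nat.mul_le_mul_left P (show n ≤ n0 + dE + u * s by omega)
  refine Nat.le_of_mul_le_mul_left (c := P) ?_ hP
  linarith

end Pool.Agent.MP_dbdb85_co.L
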