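import Pool.Agent.Mg.Fdbdb85.Gefe8eb

section

/-! An upper bound for the number of partitions with bounded parts. -/

namespace Pool.Agent.MP_dbdb85_co.L

open Multiset

theorem gen_ABS {x : ℝ} (h0 : 0 ≤ x) (h1 : x < 1) (Q : ℕ) (S : Finset (Multiset ℕ))
    (h : ∀ d ∈ S, ∀ v ∈ d, 1 ≤ v ∧ v ≤ Q) :
    ∑ d ∈ S, x ^ d.sum ≤ ∏ i ∈ Finset.Icc 1 Q, (1 - x ^ i)⁻¹ := by
  have e : ∀ d ∈ S, x ^ d.sum = ∏ i : Finset.Icc 1 Q, (x ^ i.1) ^ count i.1 d := fun d hd => by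
    rw [Finset.prod_coe_sort (Finset.Icc 1 Q) fun i => (x ^ i) ^ count i d,
      Finset.sum_multiset_count_of_subset d (Finset.Icc 1 Q) fun v hv =>
        Finset.mem_Icc.2 (h d hd v (mem_toFinset.1 hv)), ← Finset.prod_pow_eq_pow_sum]
    exact Finset.prod_congr rfl fun i _ => by rw [smul_eq_mul, mul_comm, pow_mul]
  have inj : Set.InjOn (fun (d : Multiset ℕ) (i : Finset.Icc 1 Q) => count i.1 d) S := by
    intro a ha b hb hab
    ext v
    by_cases hv : v ∈ Finset.Icc 1 Q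
    · exact congrFun hab ⟨v, hv⟩
    · rw [count_eq_zero_of_notMem fun m => hv (Finset.mem_Icc.2 (h a ha v m)),
        count_eq_zero_of_notMem fun m => hv (Finset.mem_Icc.2 (h b hb v m))]
  rw [Finset.sum_congr rfl e,
    ← Finset.sum_image (f := fun f : Finset.Icc 1 Q → ℕ => ∏ i, (x ^ i.1) ^ f i) inj]
  refine (Finset.sum_le_sum_of_subset_of_nonneg
    (t := Fintype.piFinset fun _ => Finset.range (S.sup card + 1)) ?_
    fun _ _ _ => by positivity).trans ?_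
  · intro f hf
    obtain ⟨d, hd, rfl⟩ := Finset.mem_image.1 hf
    exact Fintype.mem_piFinset.2 fun i => Finset.mem_range.2
      (Nat.lt_succ_of_le ((count_le_card _ _).trans (Finset.le_sup (f := card) hd)))
  · rw [← Finset.prod_univ_sum (fun _ => Finset.range (S.sup card + 1))
      fun (i : Finset.Icc 1 Q) j => (x ^ i.1) ^ j,
      ← Finset.prod_coe_sort (Finset.Icc 1 Q) fun i => (1 - x ^ i)⁻¹]
    refine Finset.prod_le_prod (fun _ _ => by positivity) fun i _ => ?_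
    have p0 : 0 ≤ x ^ i.1 := by positivity
    have p1 : x ^ i.1 < 1 := pow_lt_one₀ h0 h1 (by have := (Finset.mem_Icc.1 i.2).1; omega)
    exact sum_le_hasSum _ (fun _ _ => by positivity) (hasSum_geometric_of_lt_one p0 p1)

theorem one_ABS {u : ℝ} (hu : 0 < u) : (1 - Real.exp (-u))⁻¹ ≤ Real.exp (2 * (√u)⁻¹) := by
  have h1 : Real.exp (-u) ≤ (1 + u)⁻¹ := by
    rw [Real.exp_neg]
    exact inv_anti₀ (by positivity) (by linarith [Real.add_one_le_exp u])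
  have h2 : (1 + u⁻¹)⁻¹ = 1 - (1 + u)⁻¹ := by
    field_simp
    ring
  have h3 : (1 - Real.exp (-u))⁻¹ ≤ 1 + u⁻¹ :=
    inv_le_of_inv_le₀ (by positivity) (by linarith)
  have h4 := Real.quadratic_le_exp_of_nonneg (x := 2 * (√u)⁻¹) (by positivity)
  have h5 : (√u)⁻¹ ^ 2 = u⁻¹ := by rw [inv_pow, Real.sq_sqrt hu.le]
  have h6 : 0 ≤ (√u)⁻¹ := by positivity
  have h7 : 0 ≤ u⁻¹ := by positivity
  nlinarith

theorem sum_ABS (Q : ℕ) : ∑ i ∈ Finset.Icc 1 Q, (√(i : ℝ))⁻¹ ≤ 2 * √(Q : ℝ) := by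
  induction Q with
  | zero => simp
  | succ Q ih =>
    rw [Finset.sum_Icc_succ_top (by omega)]
    have h1 : 0 < √((Q + 1 : ℕ) : ℝ) := by positivity
    have h2 : √((Q + 1 : ℕ) : ℝ) ^ 2 = √(Q : ℝ) ^ 2 + 1 := by
      rw [Real.sq_sqrt (by positivity), Real.sq_sqrt (by positivity), Nat.cast_succ]
    have h3 : (√((Q + 1 : ℕ) : ℝ))⁻¹ ≤ 2 * √((Q + 1 : ℕ) : ℝ) - 2 * √(Q : ℝ) := by
      rw [inv_le_iff_one_le_mul₀ h1]
      nlinarith [sq_nonneg (√((Q + 1 : ℕ) : ℝ) - √(Q : ℝ))]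
    linarith

theorem ABS_pf : ABS_st := by
  intro Q m T r S hT hm hQ h
  have T0 : (0 : ℝ) < T := by exact_mod_cast hT
  have h1 := gen_ABS (x := Real.exp (-(T : ℝ)⁻¹)) (Real.exp_pos _).le
    (Real.exp_lt_one_iff.2 (neg_lt_zero.2 (by positivity))) Q S fun d hd => (h d hd).1
  have h2 : S.card • Real.exp (-(r / 4)) ≤ ∑ d ∈ S, Real.exp (-(T : ℝ)⁻¹) ^ d.sum := by
    refine Finset.card_nsmul_le_sum _ _ _ fun d hd => ?_
    rw [← Real.exp_nat_mul, Real.exp_le_exp, mul_neg, neg_le_neg_iff, mul_inv_le_iff₀ T0]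
    have : (4 * d.sum : ℝ) ≤ r * T := by
      exact_mod_cast (Nat.mul_le_mul_left 4 (h d hd).2).trans hm
    linarith
  have h3 : ∏ i ∈ Finset.Icc 1 Q, (1 - Real.exp (-(T : ℝ)⁻¹) ^ i)⁻¹ ≤
      Real.exp (∑ i ∈ Finset.Icc 1 Q, 2 * √(T : ℝ) * (√(i : ℝ))⁻¹) := by
    rw [Real.exp_sum]
    refine Finset.prod_le_prod (fun i _ => inv_nonneg.2 (sub_nonneg.2 (pow_le_one₀
      (Real.exp_pos _).le (Real.exp_le_one_iff.2 (neg_nonpos.2 (by positivity)))))) fun i hi => ?_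
    have i0 : (0 : ℝ) < i := by exact_mod_cast (Finset.mem_Icc.1 hi).1
    rw [← Real.exp_nat_mul, mul_neg]
    refine (one_ABS (by positivity)).trans_eq ?_
    rw [Real.sqrt_mul i0.le, Real.sqrt_inv, mul_inv, inv_inv, mul_assoc, mul_comm (√(T : ℝ))]
  have h4 : √(T : ℝ) * √(Q : ℝ) ≤ r / 14 := by
    refine le_of_pow_le_pow_left₀ two_ne_zero (by positivity) ?_
    rw [mul_pow, Real.sq_sqrt T0.le, Real.sq_sqrt (by positivity)]
    have : (200 * Q * T : ℝ) ≤ r ^ 2 := by exact_mod_cast hQ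
    have : (0 : ℝ) ≤ Q * T := by positivity
    nlinarith
  have h5 := mul_le_mul_of_nonneg_left (sum_ABS Q) (show 0 ≤ 2 * √(T : ℝ) by positivity)
  rw [← Finset.mul_sum] at h3
  have h6 := (h2.trans h1).trans (h3.trans (Real.exp_le_exp.2 h5))
  rw [nsmul_eq_mul, Real.exp_neg, mul_inv_le_iff₀ (Real.exp_pos _), ← Real.exp_add] at h6
  have h7 : (2 : ℝ) ^ r = Real.exp (r * Real.log 2) := by
    rw [Real.exp_nat_mul, Real.exp_log two_pos]
  have h8 := mul_le_mul_of_nonneg_left Real.log_two_gt_d9.le (Nat.cast_nonneg (α := ℝ) r)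
  have h9 : (S.card : ℝ) ≤ 2 ^ r := h7 ▸ h6.trans (Real.exp_le_exp.2 (by
    have : (0 : ℝ) ≤ r := by positivity
    linarith))
  exact_mod_cast h9

theorem AC_pf (h : ABS_st) : AC_st := by
  intro Q m T r X hT hm hQ hX
  have h1 := h Q m T r (X.image fun x => x.2.1) hT hm hQ fun d hd => by
    obtain ⟨x, hx, rfl⟩ := Finset.mem_image.1 hd
    obtain ⟨a, b, c, -⟩ := hX x hx
    exact ⟨fun v hv => ⟨(a.1 v hv).1, (a.1 v hv).2.trans b⟩, c⟩
  have h2 := h Q m T r (X.image fun x => x.2.2) hT hm hQ fun d hd => by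
    obtain ⟨x, hx, rfl⟩ := Finset.mem_image.1 hd
    obtain ⟨a, b, -, c⟩ := hX x hx
    exact ⟨fun v hv => ⟨one_le_two.trans (a.2 v hv).1, (a.2 v hv).2.trans b⟩, c⟩
  refine (Finset.card_le_card (t := Finset.range (Q + 1) ×ˢ (X.image fun x => x.2.1) ×ˢ
    X.image fun x => x.2.2) fun x hx => ?_).trans ?_
  · simp only [Finset.mem_product, Finset.mem_range]
    exact ⟨Nat.lt_succ_of_le (hX x hx).2.1, Finset.mem_image_of_mem _ hx,
      Finset.mem_image_of_mem _ hx⟩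
  · rw [Finset.card_product, Finset.card_product, Finset.card_range,
      show 4 ^ r = 2 ^ r * 2 ^ r from mul_pow 2 2 r]
    exact Nat.mul_le_mul_left _ (Nat.mul_le_mul h1 h2)

end Pool.Agent.MP_dbdb85_co.L

end

section

namespace Pool.Agent.MP_dbdb85_co.L

open Multiset

theorem div_HF (c a b s : ℕ) (hb : 0 < b) (h : c * b ≤ a) : c * (s / a) ≤ s / b := by
  rw [Nat.le_div_iff_mul_le hb]
  calc c * (s / a) * b = (c * b) * (s / a) := by ring
    _ ≤ a * (s / a) := Nat.mul_le_mul_right _ h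
    _ ≤ s := Nat.mul_div_le s a

theorem pw_HF (y k : ℕ) (hk : 2 ^ k ≤ y) (h1 : 1 ≤ y) : (y + 1) ^ k ≤ y ^ (k + 1) := by
  calc (y + 1) ^ k ≤ (2 * y) ^ k := Nat.pow_le_pow_left (by omega) k
    _ = 2 ^ k * y ^ k := by rw [mul_pow]
    _ ≤ y * y ^ k := Nat.mul_le_mul_right _ hk
    _ = y ^ (k + 1) := by ring

theorem big_HF (y s b : ℕ) (hb : 0 < b) (hby : b ≤ y) (hs : y ^ 20 ≤ s) : y ^ 19 ≤ s / b := by
  rw [Nat.le_div_iff_mul_le hb]
  calc y ^ 19 * b ≤ y ^ 19 * y := Nat.mul_le_mul_left _ hby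
    _ = y ^ 20 := by ring
    _ ≤ s := hs

theorem lt2_HF (s b : ℕ) (hb : 0 < b) (h1 : 1 ≤ s / b) : s ≤ 2 * (b * (s / b)) := by
  have h2 : s < b * (s / b + 1) := Nat.lt_mul_div_succ s hb
  have h3 : b * (s / b + 1) = b * (s / b) + b := by ring
  have h4 : b * 1 ≤ b * (s / b) := Nat.mul_le_mul_left _ h1
  omega

theorem HF_pf : HF_st := by
  intro n Δ s y lam N2 N6 C3 Θ H
  have hy40 := H.y4
  have hy1 : 1 ≤ y := le_trans (by norm_num) hy40
  have hy30 : 30 ≤ y := le_trans (by norm_num) hy40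
  have hy20 : 2 ^ 20 ≤ y := le_trans (by norm_num) hy40
  have hlam : lam ≤ y := le_trans (Nat.lt_two_pow_self).le H.l1
  have hN2 := H.n2
  have h26 : N2 ≤ N6 := by
    rw [H.n6]
    have : N2 ^ 1 ≤ N2 ^ 3 := Nat.pow_le_pow_right (by omega) (by norm_num)
    rw [pow_one] at this
    omega
  have h63 : N6 ≤ C3 := by have := H.c3; omega
  have h3T : C3 ≤ Θ := by
    have a1 : C3 < 2 ^ C3 := Nat.lt_two_pow_self
    have a2 : 2 ^ C3 ≤ 2 ^ (32 * C3 + 3) := Nat.pow_le_pow_right (by norm_num) (by omega)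
    exact le_trans (le_trans a1.le a2) H.th
  have hN6 : 0 < N6 := by omega
  have hC3 : 0 < C3 := by omega
  have hT : 0 < Θ := by omega
  have hn40 : n + 1 ≤ (y + 1) ^ 40 := by
    have a1 : s + 1 ≤ (y + 1) ^ 20 := H.y2
    have a2 : (s + 1) ^ 2 ≤ ((y + 1) ^ 20) ^ 2 := Nat.pow_le_pow_left a1 2
    have a3 : ((y + 1) ^ 20) ^ 2 = (y + 1) ^ 40 := by rw [← pow_mul]
    have a4 : n + 1 ≤ (s + 1) ^ 2 := H.s2
    rw [a3] at a2
    exact le_trans a4 a2
  have hs21 : s ≤ y ^ 21 := le_trans H.y2.le (pw_HF y 20 hy20 hy1)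
  have hLa : 2 ^ 20 * C3 * Θ ≤ y := le_trans H.l2 hlam
  have hCT : C3 * 1 ≤ C3 * Θ := Nat.mul_le_mul_left _ hT
  have hTT : 1 * Θ ≤ C3 * Θ := Nat.mul_le_mul_right _ hC3
  have hNC : N6 * C3 ≤ C3 * Θ := by
    rw [mul_comm N6 C3]; exact Nat.mul_le_mul_left _ (le_trans h63 h3T)
  have hNT : N6 * Θ ≤ C3 * Θ := Nat.mul_le_mul_right _ h63
  have eLa : 2 ^ 20 * C3 * Θ = 1048576 * (C3 * Θ) := by ring
  have e1 : N6 * (2048 * C3) = 2048 * (N6 * C3) := by ring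
  have e2 : N6 * 2 * Θ = 2 * (N6 * Θ) := by ring
  have hs1 : 1 ≤ s := le_trans (Nat.one_le_pow _ _ hy1) H.y1
  have hsy : 2 * Δ + 15 ≤ s * y := by
    have a1 : 4 * (s / (2 ^ 20 * C3 * Θ)) ≤ s / 1 := div_HF 4 _ 1 s (by norm_num) (by omega)
    rw [Nat.div_one] at a1
    have a2 : lam * (s / (2 ^ 20 * C3 * Θ)) ≤ y * (s / (2 ^ 20 * C3 * Θ)) :=
      Nat.mul_le_mul_right _ hlam
    have a3 : y * (4 * (s / (2 ^ 20 * C3 * Θ))) ≤ y * s := Nat.mul_le_mul_left _ a1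
    have a4 : y * (4 * (s / (2 ^ 20 * C3 * Θ))) = 4 * (y * (s / (2 ^ 20 * C3 * Θ))) := by ring
    have a5 : 1 * y ≤ s * y := Nat.mul_le_mul_right _ hs1
    have a6 := H.hi
    have a7 : y * s = s * y := mul_comm _ _
    omega
  have key : ∀ c b : ℕ, 0 < b → c * b ≤ 2 ^ 20 * C3 * Θ → c * Δ ≤ lam * (s / b) := by
    intro c b hb hcb
    have a1 := div_HF c _ b s hb hcb
    calc c * Δ ≤ c * (lam * (s / (2 ^ 20 * C3 * Θ))) := Nat.mul_le_mul_left _ H.hi
      _ = lam * (c * (s / (2 ^ 20 * C3 * Θ))) := by ring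
      _ ≤ lam * (s / b) := Nat.mul_le_mul_left _ a1
  refine ⟨le_trans hn40 H.y3, le_trans hn40 (pw_HF y 40 hy40 hy1), hlam, h26, h63, h3T, hs21,
    by have := H.lo; omega, hsy, ?_, ?_, ?_, ?_, ?_, ?_, ?_, ?_, ?_⟩
  · calc 2 * Δ + 15 ≤ s * y := hsy
      _ ≤ y ^ 21 * y := Nat.mul_le_mul_right _ hs21
      _ = y ^ 22 := by ring
  · rw [Nat.div_div_eq_div_mul]
    exact big_HF y s _ (by positivity) (by omega) H.y1
  · rw [Nat.div_div_eq_div_mul, Nat.div_div_eq_div_mul, ← mul_assoc]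
    exact big_HF y s _ (by positivity) (by omega) H.y1
  · exact big_HF y s _ hN6 (by omega) H.y1
  · exact Nat.div_le_div_left h26 (by omega)
  · rw [Nat.div_div_eq_div_mul, Nat.le_div_iff_mul_le (by positivity)]
    have a1 : 2 * Θ ≤ y := by omega
    have a2 : y * 1 ≤ y * y := Nat.mul_le_mul_left _ hy1
    calc y ^ 14 * (2 * Θ) ≤ y ^ 14 * (y * y) := Nat.mul_le_mul_left _ (by omega)
      _ = y ^ 16 := by ring
  · rw [Nat.div_div_eq_div_mul, Nat.div_div_eq_div_mul, ← mul_assoc]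
    exact key 128 _ (by positivity) (by omega)
  · rw [Nat.div_div_eq_div_mul]
    exact key 2 _ (by positivity) (by omega)
  · refine key (128 * C3) _ hN6 ?_
    have a1 : 128 * C3 * N6 = 128 * (N6 * C3) := by ring
    omega

theorem KG_pf (h : HF_st) : KG_st := by
  intro n Δ s y lam N2 N6 C3 Θ H u τ E hE hu hτ hl
  obtain ⟨-, -, -, h26, h63, -, -, -, -, -, -, -, hD, hDz, -, -, -, hΔ⟩ :=
    h n Δ s y lam N2 N6 C3 Θ H
  have hy40 := H.y4
  have hN2 := H.n2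
  have hy8 : 8 ≤ y := le_trans (by norm_num) hy40
  have hD8 : 8 ≤ s / N6 := by
    have a1 : y ^ 1 ≤ y ^ 19 := Nat.pow_le_pow_right (by omega) (by norm_num)
    rw [pow_one] at a1
    omega
  have hN6 : 0 < N6 := by omega
  have hC3 : 0 < C3 := by omega
  have hu0 : 0 < u := by omega
  have hCu : 0 < C3 * u := by positivity
  have hP2 : 2 ≤ s / (C3 * u) := by
    rw [Nat.le_div_iff_mul_le hCu, ← mul_assoc]; exact hu
  have hPs : C3 * u * (s / (C3 * u)) ≤ s := Nat.mul_div_le s _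
  have hsP := lt2_HF s (C3 * u) hCu (by omega)
  have hsD := lt2_HF s N6 hN6 (by omega)
  have hsz := lt2_HF s N2 (by omega) (by omega)
  have hzs : N2 * (s / N2) ≤ s := Nat.mul_div_le s _
  have hlo := H.lo
  have hn6 := H.n6
  have hc3 := H.c3
  generalize s / (C3 * u) = P at hP2 hPs hsP
  generalize s / N6 = D at hE hΔ hD hDz hD8 hsD ⊢
  generalize s / N2 = z at hDz hsz hzs hlo
  refine ⟨H.ev, H.s1, H.s2, hτ, ?_, P, 8 * z, hP2, ?_, hlo, ?_, ?_, ?_⟩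
  · have a1 : lam * D ≤ 32 * C3 * u * D := Nat.mul_le_mul_right _ hl
    have a2 : (32 * C3) * (4 * Δ) ≤ (32 * C3) * (u * D) := by
      calc (32 * C3) * (4 * Δ) = 128 * C3 * Δ := by ring
        _ ≤ lam * D := hΔ
        _ ≤ 32 * C3 * u * D := a1
        _ = (32 * C3) * (u * D) := by ring
    have a3 : 4 * Δ ≤ u * D := Nat.le_of_mul_le_mul_left a2 (by omega)
    obtain ⟨d, rfl⟩ : ∃ d, D = d + 2 := ⟨D - 2, by omega⟩
    rw [Nat.add_sub_cancel]
    have a4 : u * (d + 2) = d * u + 2 * u := by ring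
    have a5 : 6 * u ≤ d * u := Nat.mul_le_mul_right _ (by omega)
    omega
  · have a1 : (2 * N6) * (64 * (u * P)) ≤ (2 * N6) * D := by
      calc (2 * N6) * (64 * (u * P)) = (128 * N6) * u * P := by ring
        _ = C3 * u * P := by rw [hc3]
        _ ≤ s := hPs
        _ ≤ 2 * (N6 * D) := hsD
        _ = (2 * N6) * D := by ring
    have a2 : 64 * (u * P) ≤ D := Nat.le_of_mul_le_mul_left a1 (by omega)
    have a3 : s * (64 * (u * P)) ≤ s * D := Nat.mul_le_mul_left _ a2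
    have a4 : s * (64 * (u * P)) = 64 * (u * s * P) := by ring
    have a5 : 27 * u * s * P = 27 * (u * s * P) := by ring
    omega
  · have a1 : 8 * z ≤ N2 * z := Nat.mul_le_mul_right _ (by omega)
    omega
  · have a1 : (2 * N2) * (2 ^ 28 * (N2 * N2 * (u * P))) ≤ (2 * N2) * z := by
      calc (2 * N2) * (2 ^ 28 * (N2 * N2 * (u * P))) = (128 * (2 ^ 22 * N2 ^ 3)) * u * P := by ring
        _ = C3 * u * P := by rw [hc3, hn6]
        _ ≤ s := hPs
        _ ≤ 2 * (N2 * z) := hsz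
        _ = (2 * N2) * z := by ring
    have a2 : 2 ^ 28 * (N2 * N2 * (u * P)) ≤ z := Nat.le_of_mul_le_mul_left a1 (by omega)
    have a3 : 1 * N2 * (u * P) ≤ N2 * N2 * (u * P) :=
      Nat.mul_le_mul_right _ (Nat.mul_le_mul_right _ (by omega))
    have a4 : 88 * (N2 * (u * P)) ≤ 64 * z := by
      have : 1 * N2 * (u * P) = N2 * (u * P) := by ring
      omega
    calc 44 * u * s * P = 44 * (u * P) * s := by ring
      _ ≤ 44 * (u * P) * (2 * (N2 * z)) := Nat.mul_le_mul_left _ hsz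
      _ = (88 * (N2 * (u * P))) * z := by ring
      _ ≤ (64 * z) * z := Nat.mul_le_mul_right _ a4
      _ = (8 * z) ^ 2 := by ring
  · have a1 : 16 * C3 * u * P = 16 * (C3 * u * P) := by ring
    omega

end Pool.Agent.MP_dbdb85_co.L

end
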