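import Pool.Agent.Mg.Fdbdb85.Gefe8eb

namespace Pool.Agent.MP_dbdb85_co.L

open Multiset

theorem BF_pf (hA : BA_st) (hB : BB_st) (hI : DI_st) (h1 : SP_st) (h2 : FL_st) : BF_st := by
  classical
  intro n Δ s z hn s1 s2 hz z1 d1 d2
  have a1 : 60 * z ≤ s := by omega
  have a2 : s + 1 ≤ 60 * z + 60 := by omega
  have b1 : 3600 * z ^ 2 ≤ n := by nlinarith
  have b2 : n ≤ (60 * z + 60) ^ 2 := s2.le.trans (Nat.pow_le_pow_left a2 2)
  have b3 : 100 * z ≤ z ^ 2 := by nlinarith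
  obtain ⟨v, hv⟩ : ∃ v, Δ + 1 = 50 * z + v := Nat.exists_eq_add_of_le (by omega)
  obtain ⟨t, ht⟩ : ∃ t, n = 3318 * z ^ 2 + t := Nat.exists_eq_add_of_le (by omega)
  obtain ⟨q, hq⟩ : ∃ q, 48 * z = q + 1 := ⟨48 * z - 1, by omega⟩
  have v1 : 10 * z ≤ v := by omega
  have v2 : v ≤ 11 * z + 60 := by omega
  obtain ⟨S, c1, c2⟩ := h1 z (27 * z) (by omega)
  obtain ⟨F, f1, f2, f3⟩ := h2 v 1 q t (by omega) (by omega) (by
    have e1 : 10 * z * q ≤ v * q := Nat.mul_le_mul_right q v1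
    have e2 : 10 * z * q + 10 * z = 480 * z ^ 2 := by
      rw [← Nat.mul_succ, Nat.succ_eq_add_one, ← hq]
      ring
    have e3 : (60 * z + 60) ^ 2 = 3600 * z ^ 2 + 7200 * z + 3600 := by ring
    omega)
  refine ⟨S.image fun H => (48 * z, H + F, replicate (20 * z) (48 * z)), ?_, ?_⟩
  · intro y hy
    obtain ⟨H, hH, rfl⟩ := Finset.mem_image.1 hy
    obtain ⟨g1, g2, g3⟩ := c2 H hH
    have hα : ∀ x ∈ H + F, 1 ≤ x ∧ x < 48 * z := by
      intro x hx
      rcases mem_add.1 hx with h | h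
      · have := g3 x h
        omega
      · have := f3 x h
        omega
    have hc : card (H + F) + 1 ≤ 20 * z := by
      rw [card_add]
      omega
    have hV : Val (48 * z, H + F, replicate (20 * z) (48 * z)) := by
      refine ⟨fun x hx => ⟨(hα x hx).1, (hα x hx).2.le⟩, fun x hx => ?_⟩
      rw [eq_of_mem_replicate hx]
      exact ⟨by omega, le_rfl⟩
    have hs : sz (48 * z, H + F, replicate (20 * z) (48 * z)) = n := by
      simp only [sz, ms, sum_add, sum_replicate, smul_eq_mul, g2, f2, ht]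
      ring
    have hE : EGc (48 * z, H + F, replicate (20 * z) (48 * z)) := by
      intro k hk
      have e1 := Cs_le_card (H + F) k
      have e2 := Nat.mul_le_mul_right k hc
      rw [Nat.add_mul] at e2
      simp only [Cs_replicate]
      rw [min_eq_left hk]
      omega
    obtain ⟨p1, -, p3, -⟩ := hA _ hV
    simp only [card_replicate] at p3
    refine ⟨⟨hV, hs, ?_, hI _ (t_suf _ (by rw [p1, hs]; exact hn) ((hB _ hV).1.2 hE)) ?_ ?_⟩, ?_⟩
    · simp only [wd, card_add]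
      omega
    · intro h0
      rw [h0, card_zero] at p3
      omega
    · intro x hx
      rw [p3]
      rcases mem_add.1 hx with h | h
      · obtain ⟨j, -, rfl⟩ := mem_map.1 h
        simp only
        omega
      · rw [eq_of_mem_replicate h]
        omega
    · intro j _
      simp only [cn_replicate]
      split_ifs with h
      · have := cn_le_card (H + F) j
        omega
      · rw [cn_of_lt fun x hx => lt_of_lt_of_le (hα x hx).2 (by omega)]
  · rw [Finset.card_image_of_injective]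
    · exact c1
    · intro H H' e
      simpa using e

theorem R2_pf (hM : MA_st) (_hD : BD_st) (hC : AC_st) (hF : BF_st) : R2_st := by
  intro n Δ s hn s1 s2 s3 d1 d2
  obtain ⟨z, hz⟩ : ∃ z, z = s / 2 ^ 80 := ⟨_, rfl⟩
  rw [← hz] at d2
  have z1 : 2 ^ 80 * z ≤ s := hz ▸ Nat.mul_div_le s _
  have z2 : s < 2 ^ 80 * (z + 1) := hz ▸ Nat.lt_mul_div_succ s (by positivity)
  have z3 : 1 ≤ z := by omega
  have z4 : s + 1 ≤ 2 ^ 81 * z := by omega
  have d3 : s ≤ Δ + 1 := by
    by_contra h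
    have : (Δ + 2) ^ 2 ≤ s ^ 2 := Nat.pow_le_pow_left (by omega) 2
    nlinarith
  obtain ⟨Sp, p1, p2⟩ := hF n Δ s (s / 60) hn s1 s2 rfl (by omega) d3 (by omega)
  refine hM n Δ Sp (fun y hy => ⟨(p1 y hy).1, Or.inl (p1 y hy).2⟩) fun X hX => ?_
  have zs : z * s ≤ 2 ^ 81 * (z * z) := by
    have := Nat.mul_le_mul_left z (show s ≤ 2 ^ 81 * z by omega)
    linarith
  have key := hC s (2 ^ 44 * (z * s)) (2 ^ 55 * z) (2 ^ 72 * z) X (by omega)
    (by linarith) (by nlinarith) fun x hx => by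
      obtain ⟨⟨hv, h1, h2, -⟩, k, k1, k2, k3⟩ := hX x hx
      obtain ⟨-, e1, e2⟩ := near_size hv (τ := 4) k1 k2 (by omega)
      simp only [sz, ms, wd] at h1 h2
      generalize card x.2.1 = A at *
      have hD : x.1 ≤ s := by
        by_contra h
        have : (s + 1) ^ 2 ≤ x.1 ^ 2 := Nat.pow_le_pow_left (by omega) 2
        omega
      have e3 : A ^ 2 + n ≤ (Δ + 2) ^ 2 := by
        rw [← h2]
        nlinarith
      have e4 : (Δ + 2) ^ 2 ≤ (s + 8 * z) ^ 2 := Nat.pow_le_pow_left (by omega) 2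
      have e5 : A ≤ 2 ^ 43 * z := by
        by_contra h
        have : (2 ^ 43 * z) ^ 2 ≤ A ^ 2 := Nat.pow_le_pow_left (by omega) 2
        have : 1 ≤ z * z := Nat.mul_pos z3 z3
        nlinarith
      have e6 : (A + 4) * x.1 ≤ 2 ^ 44 * z * s := Nat.mul_le_mul (by omega) hD
      have e7 : A * x.1 ≤ (A + 4) * x.1 := Nat.mul_le_mul_right _ (by omega)
      rw [mul_assoc] at e6
      exact ⟨hv, hD, by omega, by omega⟩
  refine key.trans (le_trans ?_ p2)
  have hr : 81 + z + 2 * (2 ^ 72 * z) ≤ s / 60 := by omega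
  generalize 2 ^ 72 * z = r at *
  calc (s + 1) * 4 ^ r ≤ 2 ^ 81 * 2 ^ z * 4 ^ r :=
        Nat.mul_le_mul_right _ (z4.trans (Nat.mul_le_mul_left _ Nat.lt_two_pow_self.le))
    _ = 2 ^ (81 + z + 2 * r) := by rw [pow_add, pow_add, pow_mul, show 2 ^ 2 = 4 from rfl]
    _ ≤ _ := Nat.pow_le_pow_right (by norm_num) hr

end Pool.Agent.MP_dbdb85_co.L
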