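import Pool.Agent.Mg.Fdbdb85.Gefe8eb

section

namespace Pool.Agent.MP_dbdb85_co.L

open Multiset

theorem mem_B1 {n Δ k1 lo h r K D : ℕ} {α β : Multiset ℕ} (h1 : 1 ≤ h) (h2 : h ≤ lo) (h3 : 3 ≤ lo)
    (h4 : 2 ≤ k1) (h5 : lo + (h + 4 * r) ≤ K) (h6 : K ≤ k1) (hx : B1 n Δ k1 h (D, α, β + {K})) :
    Tp n (Δ + 1) (D, h ::ₘ α, β + {K - (h + 4 * r)} + replicate (2 * r) 2) ∧
      count 2 (β + {K - (h + 4 * r)} + replicate (2 * r) 2) / 2 = r := by
  obtain ⟨⟨v1, v2⟩, a1, a2, a3, a4, ⟨k, b1, b2, b3⟩, a5⟩ := hx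
  have hK := (v2 K (by simp)).2
  simp only [sz, ms, wd, sum_add, sum_singleton, Cs_add, Cs_singleton, count_add] at *
  refine ⟨⟨⟨fun v hv => ?_, fun v hv => ?_⟩, ?_, ?_, fun j hj => ?_, k, by omega, b2, ?_⟩, ?_⟩
  · rcases mem_cons.1 hv with rfl | hv
    · exact ⟨h1, show v ≤ D by omega⟩
    · exact v1 v hv
  · rcases mem_add.1 hv with hv | hv
    · rcases mem_add.1 hv with hv | hv
      · exact v2 v (mem_add.2 (Or.inl hv))
      · rw [mem_singleton.1 hv]
        exact ⟨by omega, show _ ≤ D by omega⟩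
    · rw [eq_of_mem_replicate hv]
      exact ⟨le_rfl, show _ ≤ D by omega⟩
  · simp only [sz, ms, sum_add, sum_cons, sum_singleton, sum_replicate, smul_eq_mul]
    omega
  · simp only [wd, card_cons]
    omega
  · simp only [Cs_add, Cs_cons, Cs_singleton, Cs_replicate]
    rcases le_or_gt j k1 with hk | hk
    · have := a3 j hk hj
      generalize 2 * r * min j 2 = c
      omega
    · have := a4 j hk hj
      rw [min_eq_right (show 2 ≤ j by omega)]
      omega
  · simp only [Cs_add, Cs_cons, Cs_singleton, Cs_replicate]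
    rw [min_eq_right (show 2 ≤ k by omega)]
    omega
  · rw [count_replicate_self, count_singleton, if_neg (by omega)]
    omega

theorem B1_pf (h : MV_st) : B1_st := by
  classical
  intro n Δ k1 lo len m a ρ X h1 h2 h3 h4 h5 h6 hX
  have key : ∀ r ∈ Finset.range ρ,
      X.card ≤ 2 * ((Tf n (Δ + 1)).filter fun y => count 2 y.2.2 / 2 = r).card := by
    intro r hr
    have hr := Finset.mem_range.1 hr
    have := h bS X ((Tf n (Δ + 1)).filter fun y => count 2 y.2.2 / 2 = r) lo len m (a + 4 * r)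
      (fun z => (z.1, a ::ₘ z.2.1, z.2.2 + replicate (2 * r) 2)) (fun x y e => by
        simp only [Prod.mk.injEq, add_left_inj, cons_inj_right] at e
        exact Prod.ext e.1 (Prod.ext e.2.1 e.2.2)) (fun z v hv _ => by
        rw [bS_mult, bS_mult, count_add, count_replicate, if_neg (by omega), add_zero])
      (fun x hx => (hX x hx).2) (by omega) fun z K k1 k2 hz => by
        have := mem_B1 h1 h2 h3 h4 k1 (by omega) (hX _ hz).1
        exact Finset.mem_filter.2 ⟨mem_Tf.2 this.1, this.2⟩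
    have h7 := this.trans (Nat.mul_le_mul_left _ (Finset.card_filter_le _ _))
    refine Nat.le_of_mul_le_mul_left (c := m - 1) ?_ (by omega)
    refine (Nat.mul_le_mul_right _ (show m - 1 ≤ 2 * (m - 2 - (a + 4 * r)) by omega)).trans ?_
    rw [mul_assoc, mul_left_comm (m - 1)]
    exact Nat.mul_le_mul_left _ h7
  have := Finset.sum_le_sum key
  rw [Finset.sum_const, Finset.card_range, smul_eq_mul, ← Finset.mul_sum,
    Finset.sum_card_fiberwise_eq_card_filter] at this
  exact this.trans (Nat.mul_le_mul_left _ (Finset.card_filter_le _ _))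

end Pool.Agent.MP_dbdb85_co.L

end

section

namespace Pool.Agent.MP_dbdb85_co.L

open Multiset

def M_BR (α β : Multiset ℕ) (j : ℕ) : ℤ := (cn β (j + 1) : ℤ) - cn α j

theorem far_BR (α β : Multiset ℕ) {j : ℕ} (h : (α + β).sup < j) : M_BR α β j = 0 := by
  have a : ∀ v ∈ α + β, v < j := fun v hv => lt_of_le_of_lt (Multiset.le_sup hv) h
  rw [M_BR, cn_of_lt fun v hv => a v (mem_add.2 (Or.inl hv)),
    cn_of_lt fun v hv => Nat.lt_succ_of_lt (a v (mem_add.2 (Or.inr hv)))]
  simp

theorem ex_BR (α β : Multiset ℕ) : ∃ j, ∀ i, M_BR α β j ≤ M_BR α β i := by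
  obtain ⟨j, -, hj⟩ := Finset.exists_min_image (Finset.range ((α + β).sup + 2)) (M_BR α β)
    ⟨0, by simp⟩
  refine ⟨j, fun i => ?_⟩
  rcases lt_or_ge i ((α + β).sup + 2) with h | h
  · exact hj i (Finset.mem_range.2 h)
  · rw [far_BR α β (j := i) (by omega), ← far_BR α β (Nat.lt_succ_self _)]
    exact hj _ (Finset.mem_range.2 (by omega))

open Classical in
noncomputable def f_BR (α β : Multiset ℕ) : ℕ := Nat.find (ex_BR α β)

theorem spec_BR {α β : Multiset ℕ} (hβ : ∀ v ∈ β, 1 ≤ v) (h : card α < card β) :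
    f_BR α β ∈ β ∧ 1 ≤ f_BR α β ∧
      M_BR (f_BR α β ::ₘ α) (β.erase (f_BR α β)) (f_BR α β) < 0 ∧
      (∀ j, M_BR (f_BR α β ::ₘ α) (β.erase (f_BR α β)) (f_BR α β) ≤
        M_BR (f_BR α β ::ₘ α) (β.erase (f_BR α β)) j) ∧
      ∀ j, f_BR α β < j → M_BR (f_BR α β ::ₘ α) (β.erase (f_BR α β)) (f_BR α β) <
        M_BR (f_BR α β ::ₘ α) (β.erase (f_BR α β)) j := by
  classical
  have h1 : ∀ i, M_BR α β (f_BR α β) ≤ M_BR α β i := Nat.find_spec (ex_BR α β)
  have h2 : ∀ j < f_BR α β, M_BR α β (f_BR α β) < M_BR α β j := by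
    intro j hj
    obtain ⟨i, hi⟩ := not_forall.1 (Nat.find_min (ex_BR α β) hj)
    exact lt_of_le_of_lt (h1 i) (not_le.1 hi)
  generalize f_BR α β = K at h1 h2 ⊢
  have h3 := h1 ((α + β).sup + 1)
  rw [far_BR α β (Nat.lt_succ_self _)] at h3
  have h4 : 1 ≤ K := by
    by_contra hc
    have : K = 0 := by omega
    subst this
    rw [M_BR, cn_of_ge hβ, cn_of_ge fun v _ => Nat.zero_le v] at h3
    omega
  have h5 : K ∈ β := by
    obtain ⟨k, rfl⟩ := Nat.exists_eq_add_of_le' h4
    have a := h2 k (Nat.lt_succ_self _)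
    have b := cn_succ β (k + 1)
    have c := cn_anti α (Nat.le_add_right k 1)
    rw [M_BR, M_BR] at a
    exact count_pos.1 (by omega)
  have h6 : ∀ j, M_BR (K ::ₘ α) (β.erase K) j =
      M_BR α β j - (if j + 1 ≤ K then 1 else 0) - (if j ≤ K then 1 else 0) := by
    intro j
    have a := cn_cons K (β.erase K) (j + 1)
    rw [cons_erase h5] at a
    rw [M_BR, M_BR, cn_cons, a]
    split_ifs <;> push_cast <;> ring
  refine ⟨h5, h4, ?_, fun j => ?_, fun j hj => ?_⟩
  · rw [h6]; split_ifs <;> omega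
  · have a := h1 j
    have b := h2 j
    rw [h6, h6]; split_ifs <;> omega
  · have a := h1 j
    rw [h6, h6]; split_ifs <;> omega

theorem BR_pf : BR_st := by
  refine ⟨f_BR, fun α β hβ h => ?_, fun α β α' β' hβ hβ' h h' e1 e2 => ?_⟩
  · obtain ⟨a, b, c, -, -⟩ := spec_BR hβ h
    refine ⟨a, f_BR α β, b, ?_⟩
    rw [M_BR] at c
    omega
  · obtain ⟨a, -, -, c, d⟩ := spec_BR hβ h
    obtain ⟨a', -, -, c', d'⟩ := spec_BR hβ' h'
    rw [← e1, ← e2] at c' d'
    have e : f_BR α β = f_BR α' β' := by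
      rcases lt_trichotomy (f_BR α β) (f_BR α' β') with t | t | t
      · exact absurd (d _ t) (not_lt.2 (c' _))
      · exact t
      · exact absurd (d' _ t) (not_lt.2 (c _))
    rw [← e] at e1 e2 a'
    exact ⟨(cons_inj_right _).1 e1, by rw [← cons_erase a, e2, cons_erase a']⟩

theorem MID_pf (hR : BR_st) : MID_st := by
  classical
  obtain ⟨f, f1, f2⟩ := hR
  intro γ hγ
  have mem : ∀ α, α ∈ γ.powerset.toFinset ↔ α ≤ γ := fun α => by simp
  set N : ℕ → ℕ := fun r => (γ.powerset.toFinset.filter (fun α => card α = r)).card with hN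
  have pos : ∀ α : Multiset ℕ, ∀ v ∈ γ - α, 1 ≤ v :=
    fun α v hv => hγ v (mem_of_le (Multiset.sub_le_self _ _) hv)
  have step : ∀ r, 2 * r < card γ → N r ≤ N (r + 1) := by
    intro r hr
    have lt : ∀ α ∈ γ.powerset.toFinset.filter (fun α => card α = r), card α < card (γ - α) := by
      intro α hα
      obtain ⟨a, b⟩ := Finset.mem_filter.1 hα
      rw [card_sub ((mem α).1 a)]
      omega
    have er : ∀ α ∈ γ.powerset.toFinset.filter (fun α => card α = r),
        (f α (γ - α) ::ₘ α) + (γ - α).erase (f α (γ - α)) = γ := by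
      intro α hα
      rw [cons_add, ← add_cons, cons_erase (f1 _ _ (pos α) (lt α hα)).1,
        add_tsub_cancel_of_le ((mem α).1 (Finset.mem_filter.1 hα).1)]
    refine Finset.card_le_card_of_injOn (fun α => f α (γ - α) ::ₘ α) ?_ ?_
    · intro α hα
      refine Finset.mem_coe.2 (Finset.mem_filter.2 ⟨(mem _).2 ?_, ?_⟩)
      · exact Multiset.le_iff_exists_add.2 ⟨_, (er α hα).symm⟩
      · rw [card_cons, (Finset.mem_filter.1 hα).2]
    · intro α hα α' hα' e
      refine (f2 _ _ _ _ (pos α) (pos α') (lt α hα) (lt α' hα') e ?_).1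
      have := (er α hα).trans (er α' hα').symm
      simp only at e
      rw [e] at this
      exact add_left_cancel this
  have up : ∀ c r, r + c = card γ / 2 → N r ≤ N (card γ / 2) := by
    intro c
    induction c with
    | zero => intro r h; rw [← h]; exact le_rfl
    | succ c ih => intro r h; exact (step r (by omega)).trans (ih _ (by omega))
  have sym : ∀ r, N r ≤ N (card γ - r) := by
    intro r
    refine Finset.card_le_card_of_injOn (fun α => γ - α) ?_ ?_
    · intro α hα
      obtain ⟨a, b⟩ := Finset.mem_filter.1 (Finset.mem_coe.1 hα)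
      exact Finset.mem_coe.2 (Finset.mem_filter.2 ⟨(mem _).2 (Multiset.sub_le_self _ _),
        by rw [card_sub ((mem α).1 a), b]⟩)
    · intro α hα α' hα' e
      have a := (mem _).1 (Finset.mem_filter.1 (Finset.mem_coe.1 hα)).1
      have a' := (mem _).1 (Finset.mem_filter.1 (Finset.mem_coe.1 hα')).1
      simp only at e
      rw [← tsub_tsub_cancel_of_le a, e, tsub_tsub_cancel_of_le a']
  have all : ∀ r, N r ≤ N (card γ / 2) := by
    intro r
    rcases le_or_gt r (card γ / 2) with h | h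
    · exact up (card γ / 2 - r) r (by omega)
    · exact (sym r).trans (up (card γ / 2 - (card γ - r)) _ (by omega))
  have := cover_bound γ.powerset.toFinset (Finset.range (card γ + 1)) (fun r α => card α = r) 1
    (N (card γ / 2))
    (fun α hα => ⟨card α, Finset.mem_range.2 (Nat.lt_succ_of_le (card_le_card ((mem α).1 hα))), rfl⟩)
    (fun r _ Z hZ => by
      rw [one_mul]
      exact le_trans (Finset.card_le_card fun x hx => Finset.mem_filter.2 (hZ x hx)) (all r))
  rwa [one_mul, Finset.card_range] at this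

end Pool.Agent.MP_dbdb85_co.L

end
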