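import Pool.Agent.Mg.Fdbdb85.Gefe8eb

section

namespace Pool.Agent.MP_dbdb85_co.L

open Multiset

theorem BB_pf (hA : BA_st) : BB_st := by
  intro x hv
  obtain ⟨-, -, -, h4, h5, h6, h7⟩ := hA x hv
  refine ⟨⟨fun h k hk => ?_, fun h K hK hb => ?_⟩, ?_⟩
  · obtain ⟨K, k1, k2, k3, k4⟩ := h7 k hk
    have := h K k1 fun v hv' => by rw [k2]; exact le_trans hk (k3 v hv')
    rw [k2, k4, h5 k hk, Nat.mul_comm] at this
    omega
  · have hc := big_card_le h6 hK hb
    have e1 := h4 K hK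
    have e2 := h _ hc
    rw [h5 _ hc, Nat.mul_comm]
    omega
  · rintro ⟨k, a1, hk, a3⟩
    obtain ⟨K, k1, k2, k3, k4⟩ := h7 k hk
    refine ⟨K, k1, fun v hv' => by rw [k2]; exact le_trans hk (k3 v hv'), by omega, ?_⟩
    rw [k2, k4, h5 k hk, Nat.mul_comm]
    omega

theorem part_ge_BB {x : Cfg} (hv : Val x) (h : 2 ≤ x.1) : ∀ v ∈ part x, 2 ≤ v := by
  intro v hv'
  rcases mem_add.1 hv' with a | a
  · obtain ⟨j, -, rfl⟩ := mem_map.1 a
    omega
  · exact (hv.2 v a).1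

theorem BD_pf (hA : BA_st) (hB : BB_st) : BD_st := by
  refine ⟨?_, ?_⟩
  · rintro n w x he ⟨hv, h1, h2, h3, h4⟩
    refine ⟨hv, h1, h2, t_tight _ (t_suf _ ?_ ((hB x hv).1.2 h3)) ?_ ((hB x hv).2 h4)⟩
    · rw [(hA x hv).1, h1]; exact he
    · obtain ⟨k, a1, a2, -⟩ := h4
      exact part_ge_BB hv (by omega)
  · rintro n w x ⟨hv, h1, h2, h3⟩
    obtain ⟨e1, e2⟩ := s_nec _ h3.1
    refine ⟨(hB x hv).1.1 e2, by rwa [(hA x hv).1, h1] at e1, ?_⟩
    by_contra hc
    have e3 := (t_min _ h3).1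
    have e4 : x.2.2 = 0 := eq_zero_of_forall_notMem fun v h => by have := hv.2 v h; omega
    rw [(hA x hv).2.2.1, e4, card_zero] at e3
    omega

end Pool.Agent.MP_dbdb85_co.L

end

section

namespace Pool.Agent.MP_dbdb85_co.L

open Multiset

theorem zeros_CG (m : ℕ) {d : Multiset ℕ} (h : Gr (d + replicate m 0)) : Gr d := by
  induction m with
  | zero => simpa using h
  | succ m ih =>
    rw [replicate_succ, add_cons] at h
    obtain ⟨h1, h2⟩ := s_nec _ h
    exact ih (t_suf _ (by simpa using h1) (EG_zero_Suf h2))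

theorem side_CG {V : Type} [Fintype V] (G : SimpleGraph V) (z : V) (A B : Finset V)
    (hu : Finset.univ.val = z ::ₘ (A.val + B.val)) (hz : z ∉ B) (hd : ∀ a ∈ A, a ∉ B)
    (hcl : ∀ a ∈ A, ∀ x, G.Adj a x → x ∈ A ∨ x = z) :
    Gr ({x | G.Adj z x ∧ x ∉ B}.ncard ::ₘ A.val.map fun v => (G.neighborSet v).ncard) := by
  let G1 : SimpleGraph V :=
    { Adj := fun x y => G.Adj x y ∧ x ∉ B ∧ y ∉ B
      symm := ⟨fun x y h => ⟨h.1.symm, h.2.2, h.2.1⟩⟩
      loopless := ⟨fun x h => G.irrefl h.1⟩ }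
  refine zeros_CG B.card ⟨V, inferInstance, G1, ?_⟩
  rw [degs, hu, map_cons, map_add, cons_add]
  congr 1
  · congr 1
    ext x
    exact ⟨fun h => ⟨h.1, h.2.2⟩, fun h => ⟨h.1, hz, h.2⟩⟩
  congr 1
  · refine map_congr rfl fun a ha => ?_
    congr 1
    ext x
    refine ⟨fun h => h.1, fun h => ⟨h, hd a ha, ?_⟩⟩
    rcases hcl a ha x h with h1 | rfl
    · exact hd x h1
    · exact hz
  · rw [map_congr rfl (g := fun _ => 0), map_const']
    · rfl
    · intro b hb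
      have : G1.neighborSet b = ∅ := Set.eq_empty_of_forall_notMem fun x h => h.2.1 hb
      rw [this, Set.ncard_empty]

theorem cut_CG {d : Multiset ℕ} (h0 : d ≠ 0) (h2 : ∀ x ∈ d, 2 ≤ x) {V : Type} [Fintype V]
    (G : SimpleGraph V) (hG : degs G = d) (hb : ¬ Biconn G) :
    ∃ (z : V) (A B : Finset V), Finset.univ.val = z ::ₘ (A.val + B.val) ∧ z ∉ A ∧ z ∉ B ∧
      (∀ a ∈ A, a ∉ B) ∧ A.Nonempty ∧ B.Nonempty ∧
      (∀ a ∈ A, ∀ x, G.Adj a x → x ∈ A ∨ x = z) ∧ ∀ a ∈ B, ∀ x, G.Adj a x → x ∈ B ∨ x = z := by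
  classical
  have hne : Nonempty V := by
    obtain ⟨x, hx⟩ := exists_mem_of_ne_zero h0
    obtain ⟨v, -⟩ := mem_degs_Min G (hG ▸ hx)
    exact ⟨v⟩
  have hdeg : ∀ v, 2 ≤ (G.neighborSet v).ncard := fun v =>
    h2 _ (hG ▸ mem_map.2 ⟨v, Finset.mem_univ v, rfl⟩)
  by_contra hc
  refine hb (s_cut V G hdeg fun z A hz hA hcl b hbz => ?_)
  by_contra hbA
  refine hc ⟨z, A, (insert z A)ᶜ, ?_, hz, by simp, ?_, hA, ⟨b, by simp [hbz, hbA]⟩, hcl, ?_⟩
  · rw [← cons_add, ← Finset.insert_val_of_notMem hz]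
    ext v
    rw [count_add, count_eq_of_nodup Finset.univ.nodup, count_eq_of_nodup (Finset.nodup _),
      count_eq_of_nodup (Finset.nodup _)]
    by_cases h : v ∈ insert z A
    · have h' : v ∉ (insert z A)ᶜ := fun c => Finset.mem_compl.1 c h
      simp only [Finset.mem_val, Finset.mem_univ, h, h', if_true, if_false]
    · have h' : v ∈ (insert z A)ᶜ := Finset.mem_compl.2 h
      simp only [Finset.mem_val, Finset.mem_univ, h, h', if_true, if_false]
  · intro a ha; simp [ha]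
  · intro a ha x hx
    by_contra h
    have h1 : x ∈ A := by
      by_contra h3
      simp only [Finset.mem_compl, Finset.mem_insert, not_or] at h
      tauto
    simp only [Finset.mem_compl, Finset.mem_insert, not_or] at ha
    rcases hcl x h1 a hx.symm with h4 | h4
    · exact ha.2 h4
    · exact ha.1 h4

theorem CG_pf : CG_st := by
  intro d hd h0 h2 hf
  have : ∃ (V : Type) (_ : Fintype V) (G : SimpleGraph V), degs G = d ∧ ¬ Biconn G := by
    by_contra hc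
    exact hf ⟨hd, fun V _ G hG => by_contra fun hb => hc ⟨V, _, G, hG, hb⟩⟩
  obtain ⟨V, _, G, hG, hb⟩ := this
  obtain ⟨z, A, B, hu, zA, zB, hAB, nA, nB, cA, cB⟩ := cut_CG h0 h2 G hG hb
  refine ⟨_, _, _, _, ?_, side_CG G z A B hu zB hAB cA,
    side_CG G z B A (by rw [hu, add_comm]) zA (fun b hb ha => hAB b ha hb) cB, ?_, ?_⟩
  · rw [← hG, degs, hu, map_cons, map_add]
    congr 1
    rw [← Set.ncard_union_eq ?_ (Set.toFinite _) (Set.toFinite _)]
    · congr 1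
      ext x
      refine ⟨fun h => ?_, fun h => h.elim (fun h => h.1) fun h => h.1⟩
      by_cases hx : x ∈ A
      · exact Or.inl ⟨h, hAB x hx⟩
      · exact Or.inr ⟨h, hx⟩
    · refine Set.disjoint_left.2 fun x h1 h3 => ?_
      have h4 : x ∈ (Finset.univ : Finset V).val := Finset.mem_univ x
      rw [hu] at h4
      rcases mem_cons.1 h4 with rfl | h4
      · exact G.irrefl h1.1
      · exact (mem_add.1 h4).elim h3.2 h1.2
  · obtain ⟨a, ha⟩ := nA
    exact fun h => notMem_zero _ (h ▸ mem_map_of_mem _ ha)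
  · obtain ⟨a, ha⟩ := nB
    exact fun h => notMem_zero _ (h ▸ mem_map_of_mem _ ha)

theorem DI_pf : DI_st := by
  intro d hd h0 h
  refine ⟨hd, fun V _ G hG => by_contra fun hb => ?_⟩
  obtain ⟨z, A, B, hu, -, -, -, ⟨a, ha⟩, ⟨b, hb⟩, cA, cB⟩ :=
    cut_CG h0 (fun x hx => (h x hx).1) G hG hb
  have hdeg : ∀ v, card d ≤ 2 * (G.neighborSet v).ncard := fun v =>
    (h _ (hG ▸ mem_map.2 ⟨v, Finset.mem_univ v, rfl⟩)).2
  have e : card d = A.card + B.card + 1 := by
    rw [← hG, degs, card_map, hu, card_cons, card_add]; rfl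
  have e1 := closed_Dense G z A cA a ha
  have e2 := closed_Dense G z B cB b hb
  have e3 := hdeg a
  have e4 := hdeg b
  split_ifs at e1 e2 <;> omega

end Pool.Agent.MP_dbdb85_co.L

end

section

namespace Pool.Agent.MP_dbdb85_co.L

open Multiset

theorem shell_TA (f : ℕ → ℕ) (a σ : ℕ) :
    ∑ j ∈ Finset.range σ, ∑ i ∈ Finset.Ico (2 ^ (a + j)) (2 ^ (a + j + 1)), f i =
      ∑ i ∈ Finset.Ico (2 ^ a) (2 ^ (a + σ)), f i := by
  induction σ with
  | zero => simp
  | succ σ ih =>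
    rw [Finset.sum_range_succ, ih]
    exact Finset.sum_Ico_consecutive f (Nat.pow_le_pow_right (by norm_num) (by omega))
      (Nat.pow_le_pow_right (by norm_num) (by omega))

theorem count_TA (d : Multiset ℕ) (I : Finset ℕ) : ∑ i ∈ I, count i d ≤ card d := by
  induction d using Multiset.induction_on with
  | empty => simp
  | cons a d ih =>
    simp only [count_cons, Finset.sum_add_distrib, card_cons]
    have : ∑ i ∈ I, (if i = a then 1 else 0) ≤ 1 := by
      rw [Finset.sum_ite_eq' I a]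
      split_ifs <;> simp
    omega

theorem markov_TA (Y : Finset Cfg) (μ : Cfg → ℕ → ℕ) (a σ W : ℕ) (l : ℕ → ℕ) (hσ : 1 ≤ σ)
    (h1 : ∀ y ∈ Y, ∀ I : Finset ℕ, ∑ i ∈ I, μ y i ≤ W)
    (h2 : 2 * W ≤ ∑ j ∈ Finset.range σ, 2 ^ (a + j) * (l j + 1)) :
    ∃ j < σ, ∃ i, 2 ^ (a + j) ≤ i ∧ i < 2 ^ (a + j + 1) ∧
      2 * (Y.filter (fun y => l j < μ y i)).card ≤ Y.card := by
  by_contra hc
  push Not at hc
  have e1 : ∀ j ∈ Finset.range σ, 2 ^ (a + j) * (l j + 1) * (Y.card + 1) ≤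
      ∑ i ∈ Finset.Ico (2 ^ (a + j)) (2 ^ (a + j + 1)), 2 * ∑ y ∈ Y, μ y i := by
    intro j hj
    have hcard : (Finset.Ico (2 ^ (a + j)) (2 ^ (a + j + 1))).card = 2 ^ (a + j) := by
      rw [Nat.card_Ico, pow_succ]; omega
    rw [mul_assoc]
    nth_rewrite 1 [← hcard]
    rw [← smul_eq_mul]
    refine Finset.card_nsmul_le_sum _ _ _ fun i hi => ?_
    obtain ⟨i1, i2⟩ := Finset.mem_Ico.1 hi
    have e2 := hc j (Finset.mem_range.1 hj) i i1 i2
    have e3 : (Y.filter (fun y => l j < μ y i)).card * (l j + 1) ≤ ∑ y ∈ Y, μ y i := by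
      refine le_trans ?_ (Finset.sum_le_sum_of_subset (Finset.filter_subset (fun y => l j < μ y i) Y))
      rw [← smul_eq_mul]
      exact Finset.card_nsmul_le_sum _ _ _ fun y hy => (Finset.mem_filter.1 hy).2
    have e4 := Nat.mul_le_mul_left (l j + 1) (Nat.succ_le_of_lt e2)
    calc (l j + 1) * (Y.card + 1) ≤ (l j + 1) * (2 * (Y.filter (fun y => l j < μ y i)).card) := e4
      _ = 2 * ((Y.filter (fun y => l j < μ y i)).card * (l j + 1)) := by ring
      _ ≤ _ := Nat.mul_le_mul_left 2 e3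
  have e5 := Finset.sum_le_sum e1
  rw [shell_TA (fun i => 2 * ∑ y ∈ Y, μ y i), ← Finset.sum_mul, ← Finset.mul_sum,
    Finset.sum_comm] at e5
  have e6 : ∑ y ∈ Y, ∑ i ∈ Finset.Ico (2 ^ a) (2 ^ (a + σ)), μ y i ≤ Y.card * W := by
    rw [← smul_eq_mul]
    exact Finset.sum_le_card_nsmul _ _ _ fun y hy => h1 y hy _
  have e7 : 1 ≤ ∑ j ∈ Finset.range σ, 2 ^ (a + j) * (l j + 1) := by
    refine le_trans ?_ (Finset.single_le_sum (f := fun j => 2 ^ (a + j) * (l j + 1))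
      (fun _ _ => Nat.zero_le _) (Finset.mem_range.2 hσ))
    exact Nat.mul_pos (Nat.pow_pos (by norm_num)) (Nat.succ_pos _)
  have e8 := Nat.mul_le_mul_right Y.card h2
  rw [Nat.mul_add, mul_one] at e5
  have e9 : 2 * W * Y.card = 2 * (Y.card * W) := by ring
  omega

theorem arith_TA (m p i x yp z y : ℕ) (hp : 1 ≤ p) (hm : 128 * p ≤ m) (hi : i + 1 ≤ 2 * p)
    (h1 : (m - 2 - i) * x ≤ (m - 1) * yp) (h2 : 32 * p * yp ≤ 5 * m * z) (h3 : yp + z ≤ y) :
    m * x ≤ (m - p) * y := by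
  obtain ⟨t, rfl⟩ : ∃ t, m = t + 2 * p + 1 := ⟨m - 2 * p - 1, by omega⟩
  have e1 : t * x ≤ (t + 2 * p) * yp :=
    le_trans (Nat.mul_le_mul_right x (by omega : t ≤ t + 2 * p + 1 - 2 - i)) h1
  have e2 : t + 2 * p + 1 - p = t + p + 1 := by omega
  rw [e2]
  have e3 : (32 * p + 5 * (t + 2 * p + 1)) * yp ≤ 5 * (t + 2 * p + 1) * y := by
    have := Nat.mul_le_mul_left (5 * (t + 2 * p + 1)) h3
    rw [Nat.mul_add] at this
    rw [Nat.add_mul]
    omega
  obtain ⟨u, rfl⟩ : ∃ u, t = u + 125 * p := ⟨t - 125 * p, by omega⟩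
  have e4 : (u + 125 * p + 2 * p + 1) * (u + 125 * p + 2 * p) * (5 * (u + 125 * p + 2 * p + 1)) ≤
      (u + 125 * p + p + 1) * ((u + 125 * p) * (32 * p + 5 * (u + 125 * p + 2 * p + 1))) := by
    obtain ⟨q, rfl⟩ : ∃ q, p = q + 1 := ⟨p - 1, by omega⟩
    ring_nf
    omega
  have hpos : 0 < (u + 125 * p) * (32 * p + 5 * (u + 125 * p + 2 * p + 1)) :=
    Nat.mul_pos (by omega) (by omega)
  refine Nat.le_of_mul_le_mul_right ?_ hpos
  generalize u + 125 * p = t at *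
  generalize 32 * p + 5 * (t + 2 * p + 1) = c at *
  calc (t + 2 * p + 1) * x * (t * c) = (t + 2 * p + 1) * c * (t * x) := by ring
    _ ≤ (t + 2 * p + 1) * c * ((t + 2 * p) * yp) := Nat.mul_le_mul_left _ e1
    _ = (t + 2 * p + 1) * (t + 2 * p) * (c * yp) := by ring
    _ ≤ (t + 2 * p + 1) * (t + 2 * p) * (5 * (t + 2 * p + 1) * y) := Nat.mul_le_mul_left _ e3
    _ = (t + 2 * p + 1) * (t + 2 * p) * (5 * (t + 2 * p + 1)) * y := by ring
    _ ≤ (t + p + 1) * (t * c) * y := Nat.mul_le_mul_right _ e4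
    _ = (t + p + 1) * y * (t * c) := by ring

theorem TA_pf (ha : TAa_st) (hb : TAb_st) : TA_st := by
  intro n Δ lo len m g σ X hX hg hlo hm hΔ
  obtain ⟨a, rfl⟩ : ∃ a, g = a + σ := ⟨g - σ, by omega⟩
  have hσ : 1 ≤ σ := by
    rcases Nat.eq_zero_or_pos σ with h | h
    · rw [h] at hΔ; omega
    · exact h
  obtain ⟨j, hj, i, i1, i2, hB⟩ := markov_TA
    ((Tf n (Δ + 1)).filter (fun y => m - 1 ≤ cor hS lo len y)) hS.mult a σ (Δ + 1)
    (fun j => m / (32 * 2 ^ (a + j))) hσ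
    (fun y hy I => by
      have h1 := (mem_Tf.1 (Finset.mem_filter.1 hy).1).2.2.1
      have h2 := count_TA y.2.1 I
      have h3 : ∑ i ∈ I, hS.mult y i ≤ ∑ i ∈ I, count i y.2.1 :=
        Finset.sum_le_sum fun i _ => min_le_left _ _
      unfold wd at h1
      omega)
    (by
      have h1 : σ * m ≤ ∑ j ∈ Finset.range σ, 32 * (2 ^ (a + j) * (m / (32 * 2 ^ (a + j)) + 1)) := by
        nth_rewrite 1 [← Finset.card_range σ]
        rw [← smul_eq_mul]
        refine Finset.card_nsmul_le_sum _ _ _ fun j _ => ?_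
        rw [← mul_assoc]
        exact (Nat.lt_mul_div_succ m (Nat.mul_pos (by norm_num) (Nat.pow_pos (by norm_num)))).le
      rw [← Finset.mul_sum] at h1
      omega)
  have p1 : 2 ^ (a + j + 1) ≤ 2 ^ (a + σ) := Nat.pow_le_pow_right (by norm_num) (by omega)
  have p2 : 2 ^ 1 ≤ 2 ^ (a + j) := Nat.pow_le_pow_right (by norm_num) (by omega)
  have p3 : 2 ^ a ≤ 2 ^ (a + j) := Nat.pow_le_pow_right (by norm_num) (by omega)
  have p4 := Nat.mul_div_le m (32 * 2 ^ (a + j))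
  rw [pow_succ] at p1 i2
  rw [Nat.add_sub_cancel]
  generalize 2 ^ (a + j) = p at *
  generalize 2 ^ (a + σ) = P at *
  generalize 2 ^ a = p0 at *
  generalize m / (32 * p) = l at *
  have p5 : 64 * l ≤ m := by
    have : 32 * 2 * l ≤ 32 * p * l := Nat.mul_le_mul_right l (by omega)
    omega
  have c1 := cover_bound
    (((Tf n (Δ + 1)).filter (fun y => m - 1 ≤ cor hS lo len y)).filter (fun y => ¬ l < hS.mult y i))
    (Finset.range (l + 1)) (fun k y => hS.mult y i = k) 1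
    (2 * ((Tf n (Δ + 1)).filter (fun y => hS.mult y i = 0)).card)
    (fun y hy => ⟨_, Finset.mem_range.2 (by have := (Finset.mem_filter.1 hy).2; omega), rfl⟩)
    (fun k hk Z hZ => by
      rw [one_mul]
      have hk' := Finset.mem_range.1 hk
      refine hb n (Δ + 1) lo len (m - 1) i k Z (fun y hy => ?_) (by omega) (by omega) (by omega)
      obtain ⟨h1, h2⟩ := hZ y hy
      obtain ⟨h3, h4⟩ := Finset.mem_filter.1 (Finset.mem_filter.1 h1).1
      exact ⟨mem_Tf.1 h3, h4, h2⟩)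
  have c2 := Finset.card_filter_add_card_filter_not
    (s := (Tf n (Δ + 1)).filter (fun y => m - 1 ≤ cor hS lo len y)) (fun y => l < hS.mult y i)
  have c3 := ha n Δ lo len m i X hX (by omega) (by omega) (by omega)
  have c4 : ((Tf n (Δ + 1)).filter (fun y => 1 ≤ hS.mult y i ∧ m - 1 ≤ cor hS lo len y)).card ≤
      ((Tf n (Δ + 1)).filter (fun y => m - 1 ≤ cor hS lo len y)).card :=
    Finset.card_le_card fun y hy =>
      Finset.mem_filter.2 ⟨(Finset.mem_filter.1 hy).1, (Finset.mem_filter.1 hy).2.2⟩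
  have c5 : ((Tf n (Δ + 1)).filter (fun y => 1 ≤ hS.mult y i ∧ m - 1 ≤ cor hS lo len y)).card ≤
      ((Tf n (Δ + 1)).filter (fun y => ¬ hS.mult y i = 0)).card :=
    Finset.card_le_card fun y hy =>
      Finset.mem_filter.2 ⟨(Finset.mem_filter.1 hy).1, by
        have := (Finset.mem_filter.1 hy).2.1; omega⟩
  have c6 := Finset.card_filter_add_card_filter_not
    (s := Tf n (Δ + 1)) (fun y => hS.mult y i = 0)
  rw [Finset.card_range, one_mul] at c1
  generalize ((Tf n (Δ + 1)).filter (fun y => 1 ≤ hS.mult y i ∧ m - 1 ≤ cor hS lo len y)).card = yp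
    at *
  generalize ((Tf n (Δ + 1)).filter (fun y => hS.mult y i = 0)).card = z at *
  have c7 : yp ≤ 2 * ((l + 1) * (2 * z)) := by omega
  have c8 : 32 * p * yp ≤ 5 * m * z := by
    calc 32 * p * yp ≤ 32 * p * (2 * ((l + 1) * (2 * z))) := Nat.mul_le_mul_left _ c7
      _ = (4 * (32 * p * l) + 128 * p) * z := by ring
      _ ≤ 5 * m * z := Nat.mul_le_mul_right z (by omega)
  refine le_trans (arith_TA m p i X.card yp z (Tf n (Δ + 1)).card (by omega) (by omega) (by omega)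
    c3 c8 (by omega)) (Nat.mul_le_mul_right _ (by omega))

end Pool.Agent.MP_dbdb85_co.L

end
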