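import Pool.Agent.Mg.Fdbdb85.Gefe8eb

section

/-! Removal of the small letters. -/

namespace Pool.Agent.MP_dbdb85_co.L

open Multiset

theorem split_CR1 (k1 : ℕ) {d : Multiset ℕ} (h : ∀ v ∈ d, 1 ≤ v) :
    d.filter (k1 < ·) + ∑ i : Fin k1, replicate (count (i.1 + 1) d) (i.1 + 1) = d := by
  ext a
  rw [count_add, count_filter, Multiset.count_sum']
  simp only [count_replicate]
  by_cases h1 : k1 < a
  · rw [if_pos h1, Finset.sum_eq_zero, add_zero]
    intro i _
    rw [if_neg]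
    have := i.2
    omega
  · rw [if_neg h1, zero_add]
    rcases Nat.eq_zero_or_pos a with rfl | h0
    · rw [Finset.sum_eq_zero fun i _ => if_neg (by omega)]
      exact (count_eq_zero_of_notMem fun hm => by have := h 0 hm; omega).symm
    · obtain ⟨b, rfl⟩ : ∃ b, a = b + 1 := ⟨a - 1, by omega⟩
      rw [Finset.sum_eq_single (⟨b, by omega⟩ : Fin k1)]
      · simp
      · intro i _ hi
        rw [if_neg]
        intro e
        exact hi (Fin.ext (by simpa using e))
      · intro hn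
        exact absurd (Finset.mem_univ _) hn

theorem count_le_CR1 {d : Multiset ℕ} (h : ∀ v ∈ d, 1 ≤ v) (a : ℕ) : count a d ≤ d.sum := by
  have h1 := Multiset.card_nsmul_le_sum (s := d) (a := 1) h
  have h2 := count_le_card a d
  simp only [smul_eq_mul, mul_one] at h1
  omega

theorem sum_split_CR1 (k1 : ℕ) (d : Multiset ℕ) :
    (d.filter (k1 < ·)).sum + (d.filter (fun v => ¬ k1 < v)).sum = d.sum := by
  rw [← sum_add, filter_add_not]

theorem CR1_pf : CR1_st := by
  intro n Δ k1 D0 E0 E1 X hk hE hX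
  have key := exists_red X (S1 n k1 (3 * (Δ + 15) * k1) (2 * Δ + 15) D0 E1)
    ((Fintype.piFinset fun _ : Fin k1 => Finset.range (n + 1)) ×ˢ
      (Fintype.piFinset fun _ : Fin k1 => Finset.range (n + 1)))
    (fun (y : Cfg) (c : (Fin k1 → ℕ) × (Fin k1 → ℕ)) =>
      ((y.1, y.2.1 + ∑ i : Fin k1, replicate (c.1 i) (i.1 + 1),
        y.2.2 + ∑ i : Fin k1, replicate (c.2 i) (i.1 + 1)) : Cfg)) ?_
  · obtain ⟨Y, h1, h2⟩ := key
    refine ⟨Y, h1, ?_⟩
    rw [Finset.card_product, Fintype.card_piFinset] at h2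
    simp only [Finset.card_range, Finset.prod_const, Finset.card_univ, Fintype.card_fin] at h2
    rwa [← pow_add, ← two_mul] at h2
  · intro x hx
    obtain ⟨hv, h1, h2, h3, h4, k, h5, h6, h7⟩ := hX x hx
    obtain ⟨D, α, β⟩ := x
    have hα : ∀ v ∈ α, 1 ≤ v := fun v h => (hv.1 v h).1
    have hβ : ∀ v ∈ β, 1 ≤ v := fun v h => le_trans (by norm_num) (hv.2 v h).1
    have e0 := (near_size hv h5 (h6.trans (hk.trans h3)) h7).1
    simp only [sz, ms, wd] at h1 h2 h3 h4 h7 e0
    have sa := sum_split_CR1 k1 α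
    have sb := sum_split_CR1 k1 β
    have la : (α.filter (fun v => ¬ k1 < v)).sum ≤ (Δ + 15) * k1 := by
      have a1 := sum_le_of_le (d := α.filter (fun v => ¬ k1 < v)) (b := k1)
        fun v hv' => not_lt.1 (mem_filter.1 hv').2
      have a2 : card (α.filter (fun v => ¬ k1 < v)) ≤ card α := card_le_card (filter_le _ _)
      exact a1.trans (Nat.mul_le_mul_right _ (by omega))
    have lb : (β.filter (fun v => ¬ k1 < v)).sum ≤ (Δ + 15) * k1 + (Δ + 15) * k1 := by
      have a1 := sum_le_Cs (d := β.filter (fun v => ¬ k1 < v)) (D := k1) (k := k)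
        fun v hv' => not_lt.1 (mem_filter.1 hv').2
      have a2 := Cs_mono (filter_le (fun v => ¬ k1 < v) β) k
      have a3 := cn_mono (filter_le (fun v => ¬ k1 < v) β) k
      have a4 := Cs_le_card α k
      have a5 : cn (β.filter (fun v => ¬ k1 < v)) k * (k1 - k) ≤ (Δ + 15) * k1 :=
        Nat.mul_le_mul (by omega) (Nat.sub_le _ _)
      have a6 : (card α + 15) * k ≤ (Δ + 15) * k1 := Nat.mul_le_mul (by omega) h6
      rw [Nat.add_mul] at a6
      omega
    have ca : card (α.filter (k1 < ·)) ≤ card α := card_le_card (filter_le _ _)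
    have cb : card (β.filter (k1 < ·)) ≤ cn β k := cn_anti β (show k ≤ k1 + 1 by omega)
    have e3 : 3 * (Δ + 15) * k1 = 3 * ((Δ + 15) * k1) := Nat.mul_assoc _ _ _
    refine ⟨(D, α.filter (k1 < ·), β.filter (k1 < ·)), ⟨?_, h3, ?_, ?_, ?_, ?_⟩,
      (fun i => count (i.1 + 1) α, fun i => count (i.1 + 1) β), ?_, ?_⟩
    · intro v hv'
      rcases mem_add.1 hv' with a | a
      · exact ⟨(mem_filter.1 a).2, (hv.1 v (mem_filter.1 a).1).2⟩
      · exact ⟨(mem_filter.1 a).2, (hv.2 v (mem_filter.1 a).1).2⟩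
    · simp only [ms]
      omega
    · simp only [sz, ms]
      omega
    · simp only [sz, ms]
      omega
    · simp only
      omega
    · refine Finset.mem_product.2 ⟨Fintype.mem_piFinset.2 fun i => ?_,
        Fintype.mem_piFinset.2 fun i => ?_⟩
      · have := count_le_CR1 hα (i.1 + 1)
        exact Finset.mem_range.2 (by simp only; omega)
      · have := count_le_CR1 hβ (i.1 + 1)
        exact Finset.mem_range.2 (by simp only; omega)
    · simp only [split_CR1 k1 hα, split_CR1 k1 hβ]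

end Pool.Agent.MP_dbdb85_co.L

end

section

namespace Pool.Agent.MP_dbdb85_co.L

open Multiset

theorem refine_QM {R1 R2 A B : Multiset ℕ} (h : R1 + R2 = A + B) :
    ∃ A1 A2 B1 B2, R1 = A1 + B1 ∧ R2 = A2 + B2 ∧ A = A1 + A2 ∧ B = B1 + B2 := by
  have hc : ∀ v, count v R1 + count v R2 = count v A + count v B := fun v => by
    rw [← count_add, h, count_add]
  refine ⟨R1 ∩ A, A - R1, R1 - A, B - (R1 - A), ?_, ?_, ?_, ?_⟩ <;>
  · ext v
    have := hc v
    simp only [count_add, count_inter, count_sub]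
    omega

theorem unmap_QM {A1 A2 H : Multiset ℕ} (h : H.map (· + 1) = A1 + A2) :
    ∃ H1 H2, A1 = H1.map (· + 1) ∧ A2 = H2.map (· + 1) ∧ H = H1 + H2 := by
  have p : ∀ A : Multiset ℕ, A ≤ H.map (· + 1) → A = (A.map (· - 1)).map (· + 1) := by
    intro A hA
    rw [map_map]
    refine ((map_congr rfl fun v hv => ?_).trans (map_id' A)).symm
    obtain ⟨w, -, rfl⟩ := mem_map.1 (mem_of_le hA hv)
    simp
  refine ⟨A1.map (· - 1), A2.map (· - 1), p _ (h ▸ le_add_right _ _), p _ (h ▸ le_add_left _ _), ?_⟩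
  rw [← map_add, ← h, map_map]
  simp

theorem cn_raise_QM (H : Multiset ℕ) (y : ℕ) : cn H y ≤ cn (H.map (· + 1)) y := by
  induction H using Multiset.induction_on with
  | empty => simp
  | cons a H ih => rw [map_cons, cn_cons, cn_cons]; split_ifs <;> omega

theorem core_QM (h1 : Q1_st) (h2 : Q2_st) {D K ε a1 a2 : ℕ} {H1 H2 B1 B2 : Multiset ℕ}
    (hK : 2 ≤ K) (hKD : K ≤ D) (hk : K = card H1 + card H2 + ε) (hle : card H2 ≤ card H1)
    (hε : ε ≤ 1) (hH : ∀ h ∈ H1 + H2, D ≤ h) (hHB : ∀ h ∈ H1 + H2, ∀ b ∈ B1 + B2, b ≤ h)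
    (hB : ∀ b ∈ B1 + B2, 2 ≤ b) (ha : 2 ≤ a1 + a2)
    (ha' : ε = 1 → D + 1 ≤ a1 + a2 ∧ ∀ b ∈ B1 + B2, b + 1 ≤ a1 + a2)
    (hcn : cn ((a1 + a2) ::ₘ ((H1.map (· + 1) + B1) + (H2.map (· + 1) + B2))) (D + 1) ≤ D)
    (g1 : Gr (a1 ::ₘ (H1.map (· + 1) + B1))) (g2 : Gr (a2 ::ₘ (H2.map (· + 1) + B2)))
    (n2 : H2.map (· + 1) + B2 ≠ 0) :
    ¬ FB ((a1 + a2 - ε) ::ₘ ((K ::ₘ (H1 + B1)) + (H2 + B2))) := by
  obtain ⟨p1, e1⟩ := s_nec _ g1
  obtain ⟨p2, e2⟩ := s_nec _ g2
  rw [sum_cons, sum_add, sum_map_Suf, Nat.even_iff] at p1 p2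
  have n2' : H2 + B2 ≠ 0 := fun h => n2 (card_eq_zero.1 (by
    have := congrArg card h
    simpa using this))
  have c1 := cn_raise_QM H1 (D + 1)
  have c2 := cn_raise_QM H2 (D + 1)
  simp only [cn_cons, cn_add] at hcn
  have key : ∀ b1 b2, b1 + b2 + ε = a1 + a2 → (b2 + card H2) % 2 = a2 % 2 →
      (b1 = a1 ∨ (b1 = a1 + 1 ∧ ((ε = 0 ∧ 1 ≤ card H2) ∨ a1 = 0)) ∨
        (b1 + 1 = a1 ∧ ((ε = 1 ∧ Even (card H2)) ∨ (ε = 0 ∧ 1 ≤ card H2))) ∨
        (b1 + 2 = a1 ∧ D + 1 ≤ a1 ∧ 1 ≤ card H2)) →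
      (b2 = a2 ∨ (b2 + 1 = a2 ∧ H2 ≠ 0) ∨ (a2 = 0 ∧ b2 = 1) ∨
        (b2 + 2 = a2 ∧ D + 1 ≤ a2 ∧ ∀ b ∈ B2, b + 1 ≤ a2)) →
      ¬ FB ((a1 + a2 - ε) ::ₘ ((K ::ₘ (H1 + B1)) + (H2 + B2))) := by
    intro b1 b2 k1 k2 k3 k4
    have q1 := h1 D K (card H2) ε a1 b1 H1 B1 hK hKD (fun h hh => hH h (mem_add.2 (Or.inl hh)))
      (by simp only [cn_cons, cn_add]; split_ifs at hcn ⊢ <;> omega) hk hle hε k3 e1
    have q2 := h2 D a2 b2 H2 B2 (by omega) (fun h hh => hH h (mem_add.2 (Or.inr hh)))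
      (fun h hh b hb => hHB h (mem_add.2 (Or.inr hh)) b (mem_add.2 (Or.inr hb)))
      (fun b hb => le_trans (by norm_num) (hB b (mem_add.2 (Or.inr hb)))) n2'
      (by simp only [cn_cons, cn_add]; split_ifs at hcn ⊢ <;> omega) k4 e2
    have := s_gluing b1 b2 (K ::ₘ (H1 + B1)) (H2 + B2)
      (t_suf _ (by rw [sum_cons, sum_cons, sum_add, Nat.even_iff]; omega) q1)
      (t_suf _ (by rw [sum_cons, sum_add, Nat.even_iff]; omega) q2) (cons_ne_zero) n2'
    rwa [show b1 + b2 = a1 + a2 - ε by omega] at this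
  rcases Nat.even_or_odd (card H2) with ev | od
  · have ev' := Nat.even_iff.1 ev
    rcases le_or_gt ε a1 with c | c
    · refine key (a1 - ε) a2 (by omega) (by omega) ?_ (Or.inl rfl)
      rcases Nat.eq_zero_or_pos ε with z | z
      · exact Or.inl (by omega)
      · exact Or.inr (Or.inr (Or.inl ⟨by omega, Or.inl ⟨by omega, ev⟩⟩))
    · obtain ⟨d1, d2⟩ := ha' (by omega)
      refine key 1 (a2 - 2) (by omega) (by omega) (Or.inr (Or.inl ⟨by omega, Or.inr (by omega)⟩))
        (Or.inr (Or.inr (Or.inr ⟨by omega, by omega, fun b hb => ?_⟩)))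
      have := d2 b (mem_add.2 (Or.inr hb))
      omega
  · have od' := Nat.odd_iff.1 od
    have n3 : H2 ≠ 0 := by rintro rfl; simp at od'
    rcases Nat.eq_zero_or_pos a2 with c | c
    · refine key (a1 - ε - 1) 1 (by omega) (by omega) ?_ (Or.inr (Or.inr (Or.inl ⟨c, rfl⟩)))
      rcases Nat.eq_zero_or_pos ε with z | z
      · exact Or.inr (Or.inr (Or.inl ⟨by omega, Or.inr ⟨z, by omega⟩⟩))
      · have := (ha' (by omega)).1
        exact Or.inr (Or.inr (Or.inr ⟨by omega, by omega, by omega⟩))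
    · refine key (a1 + 1 - ε) (a2 - 1) (by omega) (by omega) ?_ (Or.inr (Or.inl ⟨by omega, n3⟩))
      rcases Nat.eq_zero_or_pos ε with z | z
      · exact Or.inr (Or.inl ⟨by omega, Or.inl ⟨z, by omega⟩⟩)
      · exact Or.inl (by omega)

theorem QM_pf (hC : CG_st) (h1 : Q1_st) (h2 : Q2_st) : QM_st := by
  intro D K H R hK hKD hc hH hHR hR hcn hF hG
  by_contra hn
  have hpos : ∀ x ∈ H.map (· + 1) + R, 2 ≤ x := by
    intro x hx
    rcases mem_add.1 hx with hx | hx
    · obtain ⟨w, hw, rfl⟩ := mem_map.1 hx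
      have := hH w hw
      omega
    · exact hR x hx
  obtain ⟨a1, a2, R1, R2, e, g1, g2, n1, n2⟩ := hC _ hG (fun h => by
    have := congrArg card h
    simp only [card_add, card_map, card_zero] at this
    omega) hpos hn
  have ha : a1 + a2 ∈ H.map (· + 1) + R := e ▸ mem_cons_self _ _
  have main : ∀ (ε : ℕ) (H' R' : Multiset ℕ), ε ≤ 1 → K = card H' + ε → H' ≤ H → R' ≤ R →
      R1 + R2 = H'.map (· + 1) + R' → H + R = (a1 + a2 - ε) ::ₘ (H' + R') →
      (ε = 1 → D + 1 ≤ a1 + a2 ∧ ∀ b ∈ R', b + 1 ≤ a1 + a2) → False := by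
    intro ε H' R' m1 m2 m3 m4 m5 m6 m7
    obtain ⟨A1, A2, B1, B2, rfl, rfl, r3, rfl⟩ := refine_QM m5
    obtain ⟨H1, H2, rfl, rfl, rfl⟩ := unmap_QM r3
    rw [card_add] at m2
    have k1 : ∀ h ∈ H1 + H2, D ≤ h := fun h hh => hH h (mem_of_le m3 hh)
    have k2 : ∀ h ∈ H1 + H2, ∀ b ∈ B1 + B2, b ≤ h :=
      fun h hh b hb => hHR h (mem_of_le m3 hh) b (mem_of_le m4 hb)
    have k3 : ∀ b ∈ B1 + B2, 2 ≤ b := fun b hb => hR b (mem_of_le m4 hb)
    rw [e] at hcn
    rw [m6] at hF
    rcases le_total (card H2) (card H1) with c | c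
    · refine core_QM h1 h2 hK hKD m2 c m1 k1 k2 k3 (hpos _ ha) m7 hcn g1 g2 n2 ?_
      rwa [cons_add, cons_swap, add_add_add_comm]
    · rw [add_comm H1 H2] at k1 k2
      rw [add_comm B1 B2] at k2 k3 m7
      rw [add_comm a1 a2] at m7 ha hcn
      rw [add_comm (H1.map (· + 1) + B1)] at hcn
      refine core_QM h1 h2 hK hKD (by omega) c m1 k1 k2 k3 (hpos _ ha) m7 hcn g2 g1 n1 ?_
      rwa [cons_add, cons_swap, add_add_add_comm, add_comm H2 H1, add_comm B2 B1, add_comm a2 a1]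
  rcases mem_add.1 ha with hx | hx
  · obtain ⟨w, hw, hw'⟩ := mem_map.1 hx
    obtain ⟨H', rfl⟩ := exists_cons_of_mem hw
    refine main 1 H' R le_rfl (by rw [← hc, card_cons]) (le_cons_self _ _) le_rfl ?_ ?_ ?_
    · rw [map_cons, cons_add, hw'] at e
      exact ((cons_inj_right _).1 e).symm
    · rw [cons_add, ← hw']; rfl
    · intro _
      have := hH w hw
      exact ⟨by omega, fun b hb => by have := hHR w hw b hb; omega⟩
  · obtain ⟨R', rfl⟩ := exists_cons_of_mem hx
    refine main 0 H R' (Nat.zero_le _) hc.symm le_rfl (le_cons_self _ _) ?_ ?_ (by omega)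
    · rw [add_cons] at e
      exact ((cons_inj_right _).1 e).symm
    · rw [add_cons]; rfl

end Pool.Agent.MP_dbdb85_co.L

end

section

namespace Pool.Agent.MP_dbdb85_co.L

open Multiset

theorem le_side_TAa {n w K : ℕ} {z : Cfg} {H : Multiset ℕ} (h : Tp n w (hS.app z H))
    (hK : K ∈ H) : K ≤ z.1 :=
  (h.1.1 K (mem_add.2 (Or.inr hK))).2

theorem TAa_pf (h : MV_st) : TAa_st := by
  intro n Δ lo len m i X hX h2 hlo hm
  have key := h hS X ((Tf n (Δ + 1)).filter (fun y => 1 ≤ hS.mult y i)) lo len m i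
    (fun z => hS.app z {i}) (fun x y e => hS.app_inj x y _ e)
    (fun z v hv _ => by
      rw [hS.mult_app, count_singleton, if_neg (by omega), Nat.add_zero])
    (fun x hx => (hX x hx).2) hm
    (fun z K hK _ hz => by
      have hT := (hX _ hz).1
      have hD := le_side_TAa hT (mem_singleton_self K)
      rw [Finset.mem_filter, mem_Tf]
      refine ⟨?_, by rw [hS.mult_app, count_singleton_self]; omega⟩
      rw [hS.app_add]
      refine Tp_swap hT ?_ ?_ ?_
      · intro v hv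
        rcases mem_add.1 hv with a | a <;> rw [mem_singleton] at a <;> omega
      · simp only [sum_add, sum_singleton]; omega
      · simp only [card_add, card_singleton])
  refine key.trans (Nat.mul_le_mul_left _ (Finset.card_le_card fun y hy => ?_))
  simp only [Finset.mem_filter] at hy ⊢
  exact ⟨hy.1.1, hy.1.2, hy.2⟩

theorem TAb_pf (h : MV_st) : TAb_st := by
  classical
  intro n w lo len m i l X hX h2 hlo hm
  have hinj : Function.Injective fun z => hS.app z (replicate l i) :=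
    fun x y e => hS.app_inj x y _ e
  have hcor : ∀ z, cor hS lo len (hS.app z (replicate l i)) = cor hS lo len z := by
    intro z
    unfold cor
    congr 1
    refine Finset.filter_congr fun v hv => ?_
    have := (Finset.mem_Ico.1 hv).1
    rw [hS.mult_app, count_replicate, if_neg (by omega), Nat.add_zero]
  have hcard : X.card ≤ (X.preimage _ hinj.injOn).card := by
    refine Finset.card_le_card_of_surjOn (fun z => hS.app z (replicate l i)) fun x hx => ?_
    obtain ⟨z, rfl⟩ := hS.ex_app x i l (hX x hx).2.2.ge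
    exact ⟨z, Finset.mem_coe.2 (Finset.mem_preimage.2 hx), rfl⟩
  have key := h hS (X.preimage _ hinj.injOn) ((Tf n w).filter (fun y => hS.mult y i = 0))
    lo len m l (fun z => hS.app z (replicate l (i + 1))) (fun x y e => hS.app_inj x y _ e)
    (fun z v hv _ => by
      rw [hS.mult_app, count_replicate, if_neg (by omega), Nat.add_zero])
    (fun x hx => hcor x ▸ (hX _ (Finset.mem_preimage.1 hx)).2.1) (by omega)
    (fun z K hK _ hz => by
      obtain ⟨hT, -, hl⟩ := hX _ (Finset.mem_preimage.1 hz)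
      rw [hS.mult_app, hS.mult_app, count_replicate_self] at hl
      rw [hS.app_add] at hT
      have hD := le_side_TAa hT (mem_add.2 (Or.inl (mem_singleton_self K)))
      rw [Finset.mem_filter, mem_Tf]
      refine ⟨?_, ?_⟩
      · rw [hS.app_add]
        refine Tp_swap hT ?_ ?_ ?_
        · intro v hv
          rcases mem_add.1 hv with a | a
          · rw [mem_singleton] at a; omega
          · have := eq_of_mem_replicate a; omega
        · simp only [sum_add, sum_singleton, sum_replicate, smul_eq_mul, Nat.mul_add, Nat.mul_one]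
          omega
        · simp only [card_add, card_singleton, card_replicate]
      · rw [hS.mult_app, hS.mult_app, count_replicate, if_neg (by omega), count_singleton,
          if_neg (by omega)]
        omega)
  have h3 := key.trans (Nat.mul_le_mul_left _ (Finset.card_filter_le _ _))
  have h4 : m - 1 ≤ (m - 2 - l) * 2 := by omega
  refine hcard.trans (Nat.le_of_mul_le_mul_left (c := m - 2 - l) ?_ (by omega))
  rw [← Nat.mul_assoc]
  exact h3.trans (Nat.mul_le_mul_right _ h4)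

end Pool.Agent.MP_dbdb85_co.L

end
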