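import Pool.Agent.Mg.Fdbdb85.Gefe8eb

section

namespace Pool.Agent.MP_dbdb85_co.L

open Multiset

theorem split_Q2 {L H B : Multiset ℕ} (h : L ≤ H + B) :
    ∃ LH LB, L = LH + LB ∧ LH ≤ H ∧ LB ≤ B := by
  refine ⟨L ∩ H, L - H, ?_, inter_le_right, tsub_le_iff_left.2 h⟩
  ext v
  simp only [count_add, count_inter, count_sub]
  omega

theorem Cs_raise_Q2 {H : Multiset ℕ} {l : ℕ} (h : ∀ v ∈ H, l ≤ v) :
    Cs (H.map (· + 1)) l = Cs H l := by
  rw [Cs_of_ge h, Cs_of_ge, card_map]
  intro v hv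
  obtain ⟨w, hw, rfl⟩ := mem_map.1 hv
  have := h w hw
  omega

/-- the inequality for a raised set without the first element -/
theorem raise_Q2 {a l : ℕ} {H B LH LB : Multiset ℕ} (he : EG (a ::ₘ (H.map (· + 1) + B)))
    (h1 : LH ≤ H) (h2 : LB ≤ B) (hc : card LH + card LB = l) (hb : ∀ v ∈ LH + LB, l ≤ v) :
    LH.sum + card LH + LB.sum + l ≤ Cs (a ::ₘ (H.map (· + 1) + B)) l := by
  have e : card (LH.map (· + 1) + LB) = l := by simpa using hc
  have := he (LH.map (· + 1) + LB)
    ((add_le_add (map_le_map h1) h2).trans (le_cons_self _ _)) (by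
      intro v hv
      rw [e]
      rcases mem_add.1 hv with hv | hv
      · obtain ⟨w, hw, rfl⟩ := mem_map.1 hv
        have := hb w (mem_add.2 (Or.inl hw))
        omega
      · exact hb v (mem_add.2 (Or.inr hv)))
  rwa [e, sum_add, sum_map_Suf] at this

/-- the inequality for a raised set with the first element -/
theorem raise'_Q2 {a l : ℕ} {H B LH LB : Multiset ℕ} (he : EG (a ::ₘ (H.map (· + 1) + B)))
    (h1 : LH ≤ H) (h2 : LB ≤ B) (hc : card LH + card LB + 1 = l) (hb : ∀ v ∈ LH + LB, l ≤ v)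
    (ha : l ≤ a) :
    a + LH.sum + card LH + LB.sum + l ≤ Cs (a ::ₘ (H.map (· + 1) + B)) l := by
  have e : card (a ::ₘ (LH.map (· + 1) + LB)) = l := by simpa using hc
  have := he (a ::ₘ (LH.map (· + 1) + LB))
    (cons_le_cons _ (add_le_add (map_le_map h1) h2)) (by
      intro v hv
      rw [e]
      rcases mem_cons.1 hv with rfl | hv
      · exact ha
      rcases mem_add.1 hv with hv | hv
      · obtain ⟨w, hw, rfl⟩ := mem_map.1 hv
        have := hb w (mem_add.2 (Or.inl hw))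
        omega
      · exact hb v (mem_add.2 (Or.inr hv)))
  rw [e, sum_cons, sum_add, sum_map_Suf] at this
  omega

theorem le_cons_Q2 {a : ℕ} {L R : Multiset ℕ} (h : L ≤ a ::ₘ R) :
    L ≤ R ∨ ∃ L0, L = a ::ₘ L0 ∧ L0 ≤ R := by
  by_cases ha : a ∈ L
  · obtain ⟨L0, rfl⟩ := exists_cons_of_mem ha
    exact Or.inr ⟨L0, rfl, (cons_le_cons_iff a).1 h⟩
  · exact Or.inl ((le_cons_of_notMem ha).1 h)

theorem Q2_pf : Q2_st := by
  intro D a a' H B hD hH hHB hB h0 hcn hc he L hL hb
  have hl := big_card_le hcn hL hb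
  have e0 := Cs_raise_Q2 (H := H) (l := card L) fun v hv => le_trans hl (hH v hv)
  rcases le_cons_Q2 hL with h | ⟨L0, rfl, h⟩
  · obtain ⟨LH, LB, rfl, h1, h2⟩ := split_Q2 h
    have e1 := raise_Q2 he h1 h2 (card_add _ _).symm hb
    rw [Cs_cons, Cs_add, e0] at e1
    rw [Cs_cons, Cs_add, sum_add]
    rcases Nat.eq_zero_or_pos (card LH) with z | z
    swap
    · omega
    obtain rfl := card_eq_zero.1 z
    simp only [zero_add, sum_zero, card_zero] at *
    rcases Nat.eq_zero_or_pos (card LB) with z | z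
    · omega
    obtain ⟨b, hb'⟩ := card_pos_iff_exists_mem.1 z
    obtain ⟨L1, rfl⟩ := exists_cons_of_mem hb'
    have hb1 := hb b (mem_cons_self _ _)
    have hb2 : ∀ v ∈ L1, card (b ::ₘ L1) ≤ v := fun v hv => hb v (mem_cons_of_mem hv)
    have h3 : L1 ≤ B := (le_cons_self _ _).trans h2
    rcases hc with c | ⟨c, c'⟩ | c | ⟨c, c', c''⟩
    · omega
    · obtain ⟨x, hx⟩ := exists_mem_of_ne_zero c'
      have hx1 := hHB x hx b (mem_of_le h2 hb')
      have e2 := raise_Q2 (LH := {x}) (l := card (b ::ₘ L1)) he (singleton_le.2 hx) h3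
        (by simp [add_comm]) (by
          intro v hv
          rcases mem_add.1 hv with hv | hv
          · rw [mem_singleton.1 hv]; omega
          · exact hb2 v hv)
      rw [Cs_cons, Cs_add, e0, sum_singleton, card_singleton] at e2
      rw [sum_cons]
      omega
    · omega
    · have hx1 := c'' b (mem_of_le h2 hb')
      have e2 := raise'_Q2 (LH := 0) (l := card (b ::ₘ L1)) he (zero_le _) h3 (by simp)
        (by simpa using hb2) (by omega)
      rw [Cs_cons, Cs_add, e0, sum_zero, card_zero] at e2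
      rw [sum_cons]
      omega
  · obtain ⟨LH, LB, rfl, h1, h2⟩ := split_Q2 h
    have ha := hb a' (mem_cons_self _ _)
    have hb2 : ∀ v ∈ LH + LB, card (a' ::ₘ (LH + LB)) ≤ v := fun v hv => hb v (mem_cons_of_mem hv)
    rcases le_or_gt a' a with c | c
    · have e1 := raise'_Q2 he h1 h2 (by simp) hb2 (ha.trans c)
      rw [Cs_cons, Cs_add, e0] at e1
      rw [Cs_cons, Cs_add, sum_cons, sum_add]
      omega
    · have c1 : a' = 1 := by omega
      subst c1
      have z : LH + LB = 0 := card_eq_zero.1 (by rw [card_cons] at ha; omega)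
      have e1 : card (H + B) * 1 ≤ Cs (H + B) 1 := Cs_ge (fun v hv => by
        rcases mem_add.1 hv with hv | hv
        · exact hD.trans (hH v hv)
        · exact hB v hv) le_rfl
      have e2 : 0 < card (H + B) := card_pos.2 h0
      rw [z]
      simp only [sum_cons, sum_zero, card_cons, card_zero, Cs_cons, zero_add]
      omega

end Pool.Agent.MP_dbdb85_co.L

end

section

namespace Pool.Agent.MP_dbdb85_co.L

open Multiset

/-- sets that avoid the new part -/
theorem one_Q1 {D K a a' : ℕ} {H B L : Multiset ℕ} (hK : 2 ≤ K) (hH : ∀ h ∈ H, D ≤ h)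
    (h1 : a' ≤ a + 1) (h2 : a ≤ a' + 2) (he : EG (a ::ₘ (H.map (· + 1) + B)))
    (hL : L ≤ a' ::ₘ (H + B)) (hb : Big L) (hl : card L ≤ D) :
    L.sum + card L ≤ Cs (a' ::ₘ K ::ₘ (H + B)) (card L) := by
  have e0 := Cs_raise_Q2 (H := H) (l := card L) fun v hv => le_trans hl (hH v hv)
  rcases le_cons_Q2 hL with h | ⟨L0, rfl, h⟩
  · obtain ⟨LH, LB, rfl, a1, a2⟩ := split_Q2 h
    have e1 := raise_Q2 he a1 a2 (card_add _ _).symm hb
    rw [Cs_cons, Cs_add, e0] at e1
    rw [Cs_cons, Cs_cons, Cs_add, sum_add]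
    omega
  · obtain ⟨LH, LB, rfl, a1, a2⟩ := split_Q2 h
    have ha := hb a' (mem_cons_self _ _)
    have hb2 : ∀ v ∈ LH + LB, card (a' ::ₘ (LH + LB)) ≤ v := fun v hv => hb v (mem_cons_of_mem hv)
    rcases le_or_gt (card (a' ::ₘ (LH + LB))) a with c | c
    · have e1 := raise'_Q2 he a1 a2 (by simp) hb2 c
      rw [Cs_cons, Cs_add, e0] at e1
      rw [Cs_cons, Cs_cons, Cs_add, sum_cons, sum_add]
      have : 1 ≤ card (a' ::ₘ (LH + LB)) := by simp
      omega
    · rw [card_cons] at *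
      have e1 := raise_Q2 he a1 a2 (card_add _ _).symm fun v hv => (Nat.le_succ _).trans (hb2 v hv)
      have e2 := Cs_raise_Q2 (H := H) (l := card (LH + LB)) fun v hv =>
        le_trans (by omega) (hH v hv)
      have e3 := Cs_succ (H + B) (card (LH + LB))
      have e4 := cn_mono h (card (LH + LB) + 1)
      rw [cn_of_ge hb2] at e4
      rw [Cs_cons, Cs_add, e2, ← Cs_add] at e1
      rw [Cs_cons, Cs_cons, sum_cons, sum_add]
      omega

theorem Q1_pf : Q1_st := by
  intro D K k2 ε a a' H B hK hKD hH hcn hk hk2 hε hc he L hL hb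
  have hl := big_card_le hcn hL hb
  have h1 : a' ≤ a + 1 := by omega
  have h2 : a ≤ a' + 2 := by omega
  rw [cons_swap] at hL
  rcases le_cons_Q2 hL with h | ⟨L0, rfl, h⟩
  · exact one_Q1 hK hH h1 h2 he h hb hl
  have hKl := hb K (mem_cons_self _ _)
  have hb0 : ∀ v ∈ L0, card L0 + 1 ≤ v := fun v hv => by
    have := hb v (mem_cons_of_mem hv); rwa [card_cons] at this
  rw [card_cons] at hKl hl
  have repl : ∀ x, D ≤ x → x ::ₘ L0 ≤ a' ::ₘ (H + B) →
      (K ::ₘ L0).sum + card (K ::ₘ L0) ≤ Cs (a' ::ₘ K ::ₘ (H + B)) (card (K ::ₘ L0)) := by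
    intro x hx hle
    have := one_Q1 hK hH h1 h2 he hle (by
      intro v hv
      rw [card_cons]
      rcases mem_cons.1 hv with rfl | hv
      · omega
      · exact hb0 v hv) (by rw [card_cons]; exact hl)
    rw [card_cons, sum_cons] at this ⊢
    omega
  have full : ∀ LH LB : Multiset ℕ, LH ≤ H → LB ≤ B → LH ≠ H →
      ∃ x, D ≤ x ∧ x ::ₘ (LH + LB) ≤ H + B := by
    intro LH LB a1 a2 a3
    obtain ⟨x, hx⟩ := lt_iff_cons_le.1 (lt_of_le_of_ne a1 a3)
    exact ⟨x, hH x (mem_of_le hx (mem_cons_self _ _)), by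
      rw [← cons_add]; exact add_le_add hx a2⟩
  have e2 := Cs_raise_Q2 (H := H) (l := card L0) fun v hv => le_trans (by omega) (hH v hv)
  have e3 := Cs_succ (H + B) (card L0)
  rcases le_cons_Q2 h with h' | ⟨L1, rfl, h'⟩
  · obtain ⟨LH, LB, rfl, a1, a2⟩ := split_Q2 h'
    by_cases hf : LH = H
    · subst hf
      have e1 := raise_Q2 he a1 a2 (card_add _ _).symm fun v hv => (Nat.le_succ _).trans (hb0 v hv)
      have e4 := cn_mono h' (card (LH + LB) + 1)
      rw [cn_of_ge hb0] at e4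
      rw [Cs_cons, Cs_add, e2, ← Cs_add] at e1
      rw [Cs_cons, Cs_cons, sum_cons, sum_add, card_cons]
      have e5 := card_add LH LB
      rcases hc with c | c | ⟨c, ⟨c1, r, c2⟩ | c'⟩ | c <;> omega
    · obtain ⟨x, hx, hx'⟩ := full LH LB a1 a2 hf
      exact repl x hx (hx'.trans (le_cons_self _ _))
  · obtain ⟨LH, LB, rfl, a1, a2⟩ := split_Q2 h'
    by_cases hf : LH = H
    · subst hf
      have ha := hb0 a' (mem_cons_self _ _)
      have hb1 : ∀ v ∈ LH + LB, card (a' ::ₘ (LH + LB)) + 1 ≤ v :=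
        fun v hv => hb0 v (mem_cons_of_mem hv)
      have e1 := raise'_Q2 (l := card (a' ::ₘ (LH + LB))) he a1 a2 (by simp)
        (fun v hv => (Nat.le_succ _).trans (hb1 v hv)) (by omega)
      have e4 := cn_mono h' (card (a' ::ₘ (LH + LB)) + 1)
      rw [cn_of_ge hb1] at e4
      rw [Cs_cons, Cs_add, e2, ← Cs_add] at e1
      rw [Cs_cons, Cs_cons, sum_cons, sum_cons, sum_add, card_cons K]
      have e5 := card_add LH LB
      have e6 := card_cons a' (LH + LB)
      omega
    · obtain ⟨x, hx, hx'⟩ := full LH LB a1 a2 hf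
      exact repl x hx (by rw [cons_swap]; exact cons_le_cons _ hx')

end Pool.Agent.MP_dbdb85_co.L

end
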