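import Pool.Agent.Mg.Fdbdb85.Gefe8eb

/-! Many tight configurations. -/

namespace Pool.Agent.MP_dbdb85_co.L

open Multiset

theorem SP_pf : SP_st := by
  classical
  intro u K
  induction u with
  | zero => exact fun _ => ⟨{0}, by simp, by simp⟩
  | succ u ih =>
    intro h
    obtain ⟨S, h1, h2⟩ := ih (by omega)
    obtain ⟨a, ha⟩ : ∃ a, K = a + (u + 1) := ⟨K - (u + 1), by omega⟩
    refine ⟨S.image (fun H => K ::ₘ K ::ₘ H) ∪ S.image (fun H => (K + (u + 1)) ::ₘ a ::ₘ H), ?_,
      fun H hH => ?_⟩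
    · rw [Finset.card_union_of_disjoint, Finset.card_image_of_injective,
        Finset.card_image_of_injective, pow_succ]
      · omega
      · exact fun x y e => (cons_inj_right _).1 ((cons_inj_right _).1 e)
      · exact fun x y e => (cons_inj_right _).1 ((cons_inj_right _).1 e)
      · refine Finset.disjoint_left.2 fun H a1 a2 => ?_
        obtain ⟨x, hx, rfl⟩ := Finset.mem_image.1 a1
        obtain ⟨y, -, e⟩ := Finset.mem_image.1 a2
        have h3 : K + (u + 1) ∈ K ::ₘ K ::ₘ x := e ▸ mem_cons_self _ _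
        simp only [mem_cons] at h3
        rcases h3 with h3 | h3 | h3
        · omega
        · omega
        · have := ((h2 x hx).2.2 _ h3).2
          omega
    · rcases Finset.mem_union.1 hH with hH | hH <;>
        obtain ⟨x, hx, rfl⟩ := Finset.mem_image.1 hH <;> obtain ⟨b1, b2, b3⟩ := h2 x hx <;>
        refine ⟨by simp only [card_cons]; omega, ?_, fun v hv => ?_⟩
      · simp only [sum_cons, b2]
        ring
      · simp only [mem_cons] at hv
        rcases hv with hv | hv | hv
        · omega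
        · omega
        · have := b3 v hv
          omega
      · simp only [sum_cons, b2, ha]
        ring
      · simp only [mem_cons] at hv
        rcases hv with hv | hv | hv
        · omega
        · omega
        · have := b3 v hv
          omega

theorem FL_pf : FL_st := by
  intro v lo hi
  induction v with
  | zero => exact fun S _ _ h => ⟨0, rfl, by simpa using (Nat.le_zero.1 (by simpa using h)).symm,
      by simp⟩
  | succ v ih =>
    intro S h h1 h2
    rw [Nat.succ_mul] at h1 h2
    have h0 := Nat.mul_le_mul_left v h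
    obtain ⟨H, a1, a2, a3⟩ := ih (S - min hi (S - v * lo)) h (by omega) (by omega)
    refine ⟨min hi (S - v * lo) ::ₘ H, by rw [card_cons, a1], by rw [sum_cons, a2]; omega,
      fun x hx => ?_⟩
    rcases mem_cons.1 hx with rfl | hx
    · omega
    · exact a3 x hx

theorem TL_pf (h1 : SP_st) (h2 : FL_st) : TL_st := by
  classical
  intro n w s z hn s1 s2 hz h20 w1 w2
  obtain ⟨D, rfl⟩ : ∃ D, s = D + 8 * z := ⟨s - 8 * z, by omega⟩
  obtain ⟨v, rfl⟩ : ∃ v, w = D + 2 * z + v := ⟨w - D - 2 * z, by omega⟩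
  obtain ⟨K, k1, k2⟩ : ∃ K, 2 * K ≤ D + 8 * z ∧ D + 8 * z ≤ 2 * K + 1 :=
    ⟨(D + 8 * z) / 2, by omega, by omega⟩
  have d1 : 12 * z ≤ D := by omega
  have v1 : 14 * z ≤ v := by omega
  obtain ⟨m, hm⟩ := hn
  obtain ⟨e, he⟩ := Nat.even_mul_succ_self D
  have p1 := Nat.mul_le_mul_left z d1
  have p2 := Nat.mul_le_mul_left z k1
  have p3 := Nat.mul_le_mul_left z k2
  have p4 := Nat.mul_le_mul_right D hz
  have p5 := Nat.mul_le_mul_right D v1
  have p6 := Nat.mul_le_mul_right z hz
  obtain ⟨T, hT⟩ : ∃ T, m = e + 2 * z * K + T := ⟨m - (e + 2 * z * K), by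
    have : e + 2 * z * K ≤ m := by nlinarith
    omega⟩
  obtain ⟨S, a1, a2⟩ := h1 z K (by omega)
  obtain ⟨F, b1, b2, b3⟩ := h2 v 2 D T (by omega) (by nlinarith) (by nlinarith)
  refine a1.trans (Finset.card_le_card_of_injOn (fun H => (D, H + F, D ::ₘ (H + F)))
    (fun H hH => Finset.mem_coe.2 (mem_Tf.2 ?_)) fun x _ y _ e => ?_)
  · obtain ⟨c1, c2, c3⟩ := a2 H hH
    have c4 : ∀ x ∈ H + F, 2 ≤ x ∧ x ≤ D := fun x hx => by
      rcases mem_add.1 hx with hx | hx
      · have := c3 x hx
        omega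
      · exact b3 x hx
    refine ⟨⟨fun x hx => ⟨by have := c4 x hx; omega, (c4 x hx).2⟩, fun x hx => ?_⟩, ?_, ?_,
      fun k hk => ?_, 3, le_rfl, show 3 ≤ D by omega, ?_⟩
    · rcases mem_cons.1 hx with rfl | hx
      · exact ⟨by omega, le_rfl⟩
      · exact c4 x hx
    · simp only [sz, ms, sum_cons, sum_add, c2, b2]
      nlinarith
    · simp only [wd, card_add, c1, b1]
      omega
    · have : k ≤ D := hk
      simp only [Cs_cons]
      omega
    · simp only [Cs_cons]
      omega
  · exact add_right_cancel (congrArg (fun x : Cfg => x.2.1) e)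

end Pool.Agent.MP_dbdb85_co.L
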