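import Pool.Agent.Mg.Fdbdb85.G9f9560
import Pool.Agent.Mg.Fdbdb85.Gb4bd02
import Pool.Agent.Mg.Fdbdb85.G814dcc
import Pool.Agent.Mg.Fdbdb85.G3c43b2
import Pool.Agent.Mg.Fdbdb85.G958d39
import Pool.Agent.Mg.Fdbdb85.Gb921d4
import Pool.Agent.Mg.Fdbdb85.G838018
import Pool.Agent.Mg.Fdbdb85.Gc2198c
import Pool.Agent.Mg.Fdbdb85.G68e0b8
import Pool.Agent.Mg.Fdbdb85.G618c8d
import Pool.Agent.Mg.Fdbdb85.G98e170
import Pool.Agent.Mg.Fdbdb85.G0de99b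
import Pool.Agent.Mg.Fdbdb85.G2ac450
import Pool.Agent.Mg.Fdbdb85.Gc76935
import Pool.Agent.Mg.Fdbdb85.Ga6d991
import Pool.Agent.Mg.Fdbdb85.Gf8a8e9

section

/-! The ascending half without hypotheses. -/

namespace Pool.Agent.MP_dbdb85_co.L

theorem t_BB : BB_st := BB_pf BA_pf
theorem t_BC : BC_st := BC_pf BA_pf
theorem t_BD : BD_st := BD_pf BA_pf t_BB
theorem t_Q : Q_st := Q_pf BA_pf t_BB (QM_pf CG_pf Q1_pf Q2_pf)
theorem t_MA : MA_st := MA_pf t_BC t_BD t_Q BR_pf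
theorem t_AC : AC_st := AC_pf ABS_pf
theorem t_TL : TL_st := TL_pf SP_pf FL_pf
theorem t_R2 : R2_st := R2_pf t_MA t_BD t_AC (BF_pf BA_pf t_BB DI_pf SP_pf FL_pf)
theorem t_TA : TA_st := TA_pf (TAa_pf MV_pf) (TAb_pf MV_pf)
theorem t_FILL : FILL_st := FILL_pf BIG_pf FL_pf
theorem t_GU : GU_st := GU_pf G1_pf G2a_pf G2b_pf G3_pf t_FILL GN_pf
theorem t_KG : KG_st := KG_pf HF_pf
theorem t_R3 : R3_st :=
  R3_pf HF_pf t_MA t_BD (COV_pf t_BD (LEV_pf BA_pf)) (KA_pf HF_pf t_AC t_TL)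
    (KS_pf HF_pf CR1_pf (CR2_pf (BAL_pf (MID_pf BR_pf))) (KS1_pf HF_pf t_KG CR3_pf t_GU))
    (KBad_pf HF_pf t_KG INS_pf t_GU) (KT_pf HF_pf t_TA) (KB1_pf HF_pf (B1_pf MV_pf))
    (KB2_pf HF_pf t_KG B2_pf t_GU)

theorem left_all : FIN_st := FIN_pf t_BC t_BD (R1_pf t_MA) t_R2 t_R3

end Pool.Agent.MP_dbdb85_co.L

end

section

/-! Position of a dip. -/

namespace Pool.Agent.MP_dbdb85_co.L

theorem up_Dip {f : ℕ → ℕ} {a b : ℕ} (hab : a ≤ b) (h : ∀ x, x < b → f x ≤ f (x + 1)) :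
    f a ≤ f b := by
  induction hab with
  | refl => exact le_rfl
  | @step m _ ih => exact (ih fun x hx => h x (Nat.lt_succ_of_lt hx)).trans (h m (Nat.lt_succ_self m))

theorem down_Dip {f : ℕ → ℕ} {a b : ℕ} (hab : a ≤ b) (h : ∀ x, a ≤ x → f (x + 1) ≤ f x) :
    f b ≤ f a := by
  induction hab with
  | refl => exact le_rfl
  | @step m hm ih => exact (h m hm).trans ih

theorem dip_all : ∃ c : ℝ, 0 < c ∧ ∀ n Δ₁ Δ₂ Δ₃ : ℕ, Δ₁ < Δ₂ → Δ₂ < Δ₃ → l2 n Δ₂ < l2 n Δ₁ →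
    l2 n Δ₂ < l2 n Δ₃ →
    c * √(n : ℝ) * Real.log n < Δ₂ ∧ (Δ₂ : ℝ) < 1000 * √(n : ℝ) * Real.log n := by
  obtain ⟨c, hc, h⟩ := left_all
  refine ⟨c, hc, fun n a b e hab hbe h1 h2 => ⟨not_le.1 fun h3 => ?_, not_le.1 fun h3 => ?_⟩⟩
  · refine absurd (up_Dip (f := l2 n) hab.le fun x hx => h n x (le_trans ?_ h3)) (not_le.2 h1)
    exact_mod_cast hx.le
  · refine absurd (down_Dip (f := l2 n) hbe.le fun x hx => ?_) (not_le.2 h2)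
    rcases Nat.eq_zero_or_pos (l2 n (x + 1)) with z | z
    · rw [z]; exact Nat.zero_le _
    · exact (tail_all (h3.trans (by exact_mod_cast hx)) z).le

end Pool.Agent.MP_dbdb85_co.L

end
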