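import Pool.Agent.Mg.Fdbdb85.G32a2d7

/-! Configurations (Durfee side, columns to the right, rows below), tools and statements. -/

namespace Pool.Agent.MP_dbdb85_co.L

open Multiset

/-- Durfee side `D`, column lengths `α` to the right of the square, row lengths `β` below it -/
abbrev Cfg := ℕ × Multiset ℕ × Multiset ℕ

def Val (x : Cfg) : Prop :=
  (∀ v ∈ x.2.1, 1 ≤ v ∧ v ≤ x.1) ∧ ∀ v ∈ x.2.2, 2 ≤ v ∧ v ≤ x.1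

/-- the partition with these data -/
def part (x : Cfg) : Multiset ℕ :=
  (Multiset.range x.1).map (fun j => x.1 + cn x.2.1 (j + 1)) + x.2.2

def wd (x : Cfg) : ℕ := x.1 + card x.2.1

def ms (x : Cfg) : ℕ := x.2.1.sum + x.2.2.sum

def sz (x : Cfg) : ℕ := x.1 ^ 2 + ms x

def EGc (x : Cfg) : Prop := ∀ k ≤ x.1, Cs x.2.1 k + k ≤ Cs x.2.2 k

def Tc (x : Cfg) : Prop := ∃ k, 3 ≤ k ∧ k ≤ x.1 ∧ Cs x.2.2 k ≤ Cs x.2.1 k + k + 1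

def NT (x : Cfg) : Prop := ∃ k, 1 ≤ k ∧ k ≤ x.1 ∧ Cs x.2.2 k ≤ Cs x.2.1 k + 3 * k + 1

def Bot (x : Cfg) : Prop := ∀ j, 1 ≤ j → cn x.2.1 j ≤ cn x.2.2 (j + 1)

def Tp (n w : ℕ) (x : Cfg) : Prop := Val x ∧ sz x = n ∧ wd x = w ∧ EGc x ∧ Tc x

def Fp (n w : ℕ) (x : Cfg) : Prop := Val x ∧ sz x = n ∧ wd x = w ∧ FB (part x)

noncomputable def Cf (n : ℕ) : Finset Cfg := Finset.range (n + 1) ×ˢ Ple n ×ˢ Ple n

open Classical in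
noncomputable def Tf (n w : ℕ) : Finset Cfg := (Cf n).filter (Tp n w)

open Classical in
noncomputable def Ff (n w : ℕ) : Finset Cfg := (Cf n).filter (Fp n w)

theorem mem_Cf {n : ℕ} {x : Cfg} (hv : Val x) (hs : sz x = n) : x ∈ Cf n := by
  obtain ⟨D, α, β⟩ := x
  simp only [sz, ms] at hs
  have h1 : D ≤ D ^ 2 := Nat.le_self_pow (by norm_num) D
  simp only [Cf, Finset.mem_product, Finset.mem_range, mem_Ple]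
  exact ⟨by omega, ⟨fun v h => (hv.1 v h).1, by omega⟩,
    ⟨fun v h => lt_of_lt_of_le (by norm_num) (hv.2 v h).1, by omega⟩⟩

theorem mem_Tf {n w : ℕ} {x : Cfg} : x ∈ Tf n w ↔ Tp n w x := by
  simp only [Tf, Finset.mem_filter]
  exact ⟨fun h => h.2, fun h => ⟨mem_Cf h.1 h.2.1, h⟩⟩

theorem mem_Ff {n w : ℕ} {x : Cfg} : x ∈ Ff n w ↔ Fp n w x := by
  simp only [Ff, Finset.mem_filter]
  exact ⟨fun h => h.2, fun h => ⟨mem_Cf h.1 h.2.1, h⟩⟩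

theorem card_le_Tf {n w : ℕ} {Y : Finset Cfg} (h : ∀ y ∈ Y, Tp n w y) :
    Y.card ≤ (Tf n w).card :=
  Finset.card_le_card fun y hy => mem_Tf.2 (h y hy)

/-! Tools for `cn` and `Cs` -/

@[simp] theorem cn_zero (y : ℕ) : cn 0 y = 0 := by simp [cn]

@[simp] theorem cn_add (d e : Multiset ℕ) (y : ℕ) : cn (d + e) y = cn d y + cn e y := by
  simp [cn]

theorem cn_cons (a : ℕ) (d : Multiset ℕ) (y : ℕ) :
    cn (a ::ₘ d) y = (if y ≤ a then 1 else 0) + cn d y := by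
  simp only [cn, filter_cons]
  split_ifs <;> simp [add_comm]

theorem cn_replicate (m a y : ℕ) : cn (replicate m a) y = if y ≤ a then m else 0 := by
  induction m with
  | zero => simp
  | succ m ih => rw [replicate_succ, cn_cons, ih]; split_ifs <;> omega

theorem cn_le_card (d : Multiset ℕ) (y : ℕ) : cn d y ≤ card d := card_le_card (filter_le _ _)

theorem cn_mono {d e : Multiset ℕ} (h : d ≤ e) (y : ℕ) : cn d y ≤ cn e y :=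
  card_le_card (filter_le_filter _ h)

theorem cn_succ (d : Multiset ℕ) (y : ℕ) : cn d y = count y d + cn d (y + 1) := cn_Surj d y

theorem cn_anti (d : Multiset ℕ) {y z : ℕ} (h : y ≤ z) : cn d z ≤ cn d y := by
  induction h with
  | refl => exact le_rfl
  | @step m _ ih => exact le_trans (by rw [cn_succ d m]; exact Nat.le_add_left _ _) ih

theorem cn_of_ge {d : Multiset ℕ} {y : ℕ} (h : ∀ v ∈ d, y ≤ v) : cn d y = card d := by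
  rw [cn, filter_eq_self.2 h]

theorem cn_of_lt {d : Multiset ℕ} {y : ℕ} (h : ∀ v ∈ d, v < y) : cn d y = 0 := by
  rw [cn, filter_eq_nil.2 fun v hv => not_le.2 (h v hv), card_zero]

theorem ext_cn {d e : Multiset ℕ} (h : ∀ y, cn d y = cn e y) : d = e := by
  ext a
  have h1 := cn_succ d a
  have h2 := cn_succ e a
  have h3 := h a
  have h4 := h (a + 1)
  omega

theorem Cs_at_zero (d : Multiset ℕ) : Cs d 0 = 0 := by simp [Cs]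

theorem Cs_eq_sum (d : Multiset ℕ) (k : ℕ) : Cs d k = ∑ j ∈ Finset.range k, cn d (j + 1) := by
  induction k with
  | zero => simp [Cs_at_zero]
  | succ k ih => rw [Cs_succ, Finset.sum_range_succ, ih]

@[simp] theorem Cs_singleton (a k : ℕ) : Cs {a} k = min k a := by simp [Cs]

theorem Cs_mono {d e : Multiset ℕ} (h : d ≤ e) (k : ℕ) : Cs d k ≤ Cs e k := by
  obtain ⟨c, rfl⟩ := Multiset.le_iff_exists_add.1 h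
  simp

theorem Cs_le_card (d : Multiset ℕ) (k : ℕ) : Cs d k ≤ card d * k := by
  induction d using Multiset.induction_on with
  | empty => simp
  | cons a d ih =>
    have := min_le_left k a
    rw [Cs_cons, card_cons, Nat.succ_mul]; omega

theorem Cs_le_sum (d : Multiset ℕ) (k : ℕ) : Cs d k ≤ d.sum := by
  induction d using Multiset.induction_on with
  | empty => simp
  | cons a d ih =>
    have := min_le_right k a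
    rw [Cs_cons, sum_cons]; omega

theorem cn_mul_le (d : Multiset ℕ) (k : ℕ) : cn d k * k ≤ Cs d k := by
  induction d using Multiset.induction_on with
  | empty => simp
  | cons a d ih =>
    rw [Cs_cons, cn_cons, Nat.add_mul]
    split_ifs with h
    · rw [min_eq_left h]; omega
    · omega

theorem sum_le_Cs {d : Multiset ℕ} {D k : ℕ} (h : ∀ v ∈ d, v ≤ D) :
    d.sum ≤ Cs d k + cn d k * (D - k) := by
  induction d using Multiset.induction_on with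
  | empty => simp
  | cons a d ih =>
    have h1 := ih fun v hv => h v (mem_cons_of_mem hv)
    have h2 := h a (mem_cons_self _ _)
    rw [Cs_cons, cn_cons, Nat.add_mul, sum_cons]
    split_ifs with h3
    · rw [min_eq_left h3]; omega
    · rw [min_eq_right (by omega)]; omega

theorem Cs_map_succ (d : Multiset ℕ) (k : ℕ) :
    Cs (d.map (· + 1)) (k + 1) = Cs d k + card d := by
  induction d using Multiset.induction_on with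
  | empty => simp
  | cons a d ih => rw [map_cons, Cs_cons, Cs_cons, ih, card_cons]; omega

/-- consequences of an almost tight inequality -/
theorem near_size {x : Cfg} (hv : Val x) {k τ : ℕ} (h1 : 1 ≤ k) (h2 : k ≤ x.1)
    (h : Cs x.2.2 k ≤ Cs x.2.1 k + τ * k) :
    cn x.2.2 k ≤ card x.2.1 + τ ∧ x.2.2.sum ≤ (card x.2.1 + τ) * x.1 ∧
      x.2.1.sum ≤ card x.2.1 * x.1 := by
  have e1 := Cs_le_card x.2.1 k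
  have e2 := cn_mul_le x.2.2 k
  have e3 : cn x.2.2 k ≤ card x.2.1 + τ :=
    Nat.le_of_mul_le_mul_right (c := k) (by rw [Nat.add_mul]; omega) h1
  have e4 := sum_le_Cs (k := k) fun v hv' => (hv.2 v hv').2
  refine ⟨e3, ?_, sum_le_of_le fun v hv' => (hv.1 v hv').2⟩
  obtain ⟨c, hc⟩ := Nat.exists_eq_add_of_le h2
  have e5 := Nat.mul_le_mul_right c e3
  rw [hc, Nat.add_sub_cancel_left] at e4
  rw [hc, Nat.mul_add, Nat.add_mul _ _ k]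
  omega

/-- a big set has at most `D` elements if at most `D` elements exceed `D` -/
theorem big_card_le {d K : Multiset ℕ} {D : ℕ} (h : cn d (D + 1) ≤ D) (hK : K ≤ d) (hb : Big K) :
    card K ≤ D := by
  by_contra hc
  have h1 := cn_mono hK (D + 1)
  rw [cn_of_ge fun v hv => le_trans (by omega) (hb v hv)] at h1
  omega

/-! Systems of letters that can be added to a configuration -/

structure Sys where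
  app : Cfg → Multiset ℕ → Cfg
  mult : Cfg → ℕ → ℕ
  app_add : ∀ x H H', app (app x H) H' = app x (H + H')
  app_inj : ∀ x y H, app x H = app y H → x = y
  mult_app : ∀ x H v, mult (app x H) v = mult x v + count v H
  ex_app : ∀ x v l, l ≤ mult x v → ∃ z, x = app z (replicate l v)

/-- letters added on both sides -/
def hS : Sys where
  app x H := (x.1, x.2.1 + H, x.2.2 + H)
  mult x v := min (count v x.2.1) (count v x.2.2)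
  app_add x H H' := by simp [add_assoc]
  app_inj x y H h := by
    simp only [Prod.mk.injEq, add_left_inj] at h
    exact Prod.ext h.1 (Prod.ext h.2.1 h.2.2)
  mult_app x H v := by simp only [count_add]; omega
  ex_app x v l h := by
    obtain ⟨A, hA⟩ := exists_replicate (le_trans h (min_le_left _ _))
    obtain ⟨B, hB⟩ := exists_replicate (le_trans h (min_le_right _ _))
    exact ⟨(x.1, A, B), Prod.ext rfl (Prod.ext (by rw [hA, add_comm]) (by rw [hB, add_comm]))⟩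

/-- letters added below the square -/
def bS : Sys where
  app x H := (x.1, x.2.1, x.2.2 + H)
  mult x v := count v x.2.2
  app_add x H H' := by simp [add_assoc]
  app_inj x y H h := by
    simp only [Prod.mk.injEq, add_left_inj] at h
    exact Prod.ext h.1 (Prod.ext h.2.1 h.2.2)
  mult_app x H v := by simp only [count_add]
  ex_app x v l h := by
    obtain ⟨B, hB⟩ := exists_replicate h
    exact ⟨(x.1, x.2.1, B), Prod.ext rfl (Prod.ext rfl (by rw [hB, add_comm]))⟩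

theorem hS_app (x : Cfg) (H : Multiset ℕ) : hS.app x H = (x.1, x.2.1 + H, x.2.2 + H) := rfl

theorem hS_mult (x : Cfg) (v : ℕ) : hS.mult x v = min (count v x.2.1) (count v x.2.2) := rfl

theorem bS_app (x : Cfg) (H : Multiset ℕ) : bS.app x H = (x.1, x.2.1, x.2.2 + H) := rfl

theorem bS_mult (x : Cfg) (v : ℕ) : bS.mult x v = count v x.2.2 := rfl

/-- number of values in the window `[lo, lo + len)` that occur as letters -/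
def cor (S : Sys) (lo len : ℕ) (x : Cfg) : ℕ :=
  ((Finset.Ico lo (lo + len)).filter (fun v => 1 ≤ S.mult x v)).card

/-- exchange of letters that were added on both sides -/
theorem Tp_swap {n w n' w' : ℕ} {z : Cfg} {H H' : Multiset ℕ} (h : Tp n w (hS.app z H))
    (hv : ∀ v ∈ H', 2 ≤ v ∧ v ≤ z.1) (hn : n + 2 * H'.sum = n' + 2 * H.sum)
    (hw : w + card H' = w' + card H) : Tp n' w' (hS.app z H') := by
  obtain ⟨⟨h1, h2⟩, h3, h4, h5, k, h6, h7, h8⟩ := h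
  simp only [hS_app, sz, ms, wd, EGc, sum_add, card_add, Cs_add, mem_add] at *
  refine ⟨⟨?_, ?_⟩, ?_, ?_, ?_, k, h6, h7, ?_⟩
  · intro v hv'
    rcases mem_add.1 hv' with a | a
    · exact h1 v (Or.inl a)
    · have := hv v a; exact ⟨by omega, this.2⟩
  · intro v hv'
    rcases mem_add.1 hv' with a | a
    · exact h2 v (Or.inl a)
    · exact hv v a
  · simp only [sz, ms, sum_add]; omega
  · simp only [wd, card_add]; omega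
  · intro j hj
    have := h5 j hj
    simp only [Cs_add]; omega
  · simp only [Cs_add]; omega

/-! Counting tools -/

theorem card_le_of_dec {A B C : Type} (X : Finset A) (Y : Finset B) (I : Finset C)
    (dec : B → C → A) (h : ∀ x ∈ X, ∃ y ∈ Y, ∃ c ∈ I, dec y c = x) :
    X.card ≤ I.card * Y.card := by
  classical
  rw [← Finset.card_product]
  refine le_trans (Finset.card_le_card ?_) (Finset.card_image_le (f := fun p => dec p.2 p.1))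
  intro x hx
  obtain ⟨y, hy, c, hc, e⟩ := h x hx
  exact Finset.mem_image.2 ⟨(c, y), Finset.mem_product.2 ⟨hc, hy⟩, e⟩

/-- a map that can be decoded from the image and a code in `I` -/
theorem exists_red {A B C : Type} (X : Finset A) (P : B → Prop) (I : Finset C)
    (dec : B → C → A) (h : ∀ x ∈ X, ∃ y, P y ∧ ∃ c ∈ I, dec y c = x) :
    ∃ Y : Finset B, (∀ y ∈ Y, P y) ∧ X.card ≤ I.card * Y.card := by
  classical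
  choose f hf using h
  refine ⟨X.attach.image (fun x => f x.1 x.2), ?_, card_le_of_dec _ _ _ dec ?_⟩
  · intro y hy
    obtain ⟨x, -, rfl⟩ := Finset.mem_image.1 hy
    exact (hf x.1 x.2).1
  · intro x hx
    exact ⟨f x hx, Finset.mem_image.2 ⟨⟨x, hx⟩, Finset.mem_attach _ _, rfl⟩, (hf x hx).2⟩

/-- union bound -/
theorem cover_bound {A C : Type} (X : Finset A) (I : Finset C) (P : C → A → Prop) (a b : ℕ)
    (h1 : ∀ x ∈ X, ∃ i ∈ I, P i x)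
    (h2 : ∀ i ∈ I, ∀ Z : Finset A, (∀ x ∈ Z, x ∈ X ∧ P i x) → a * Z.card ≤ b) :
    a * X.card ≤ I.card * b := by
  classical
  have e : X ⊆ I.biUnion (fun i => X.filter (P i)) := by
    intro x hx
    obtain ⟨i, hi, hp⟩ := h1 x hx
    exact Finset.mem_biUnion.2 ⟨i, hi, Finset.mem_filter.2 ⟨hx, hp⟩⟩
  refine le_trans (Nat.mul_le_mul_left a ((Finset.card_le_card e).trans Finset.card_biUnion_le)) ?_
  rw [Finset.mul_sum, ← smul_eq_mul]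
  exact Finset.sum_le_card_nsmul _ _ _ fun i hi => h2 i hi _ fun x hx => Finset.mem_filter.1 hx

/-! Classes of configurations -/

def Low (τ : ℕ) (x : Cfg) : Prop := ∀ k ≤ x.1, Cs x.2.1 k ≤ Cs x.2.2 k + τ * k

def Upp (τ : ℕ) (x : Cfg) : Prop := ∃ k, 3 ≤ k ∧ k ≤ x.1 ∧ Cs x.2.2 k ≤ Cs x.2.1 k + τ * k

/-- almost graphical, almost tight, size and width close to `n` and `w` -/
def XG (n s w u τ D0 E0 : ℕ) (x : Cfg) : Prop :=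
  Val x ∧ D0 ≤ x.1 ∧ E0 ≤ ms x ∧ n ≤ sz x + u * s ∧ sz x ≤ n + u * s ∧ wd x ≤ w + u ∧
    Low τ x ∧ Upp τ x

def X1 (n s w u τ D0 E0 : ℕ) (x : Cfg) : Prop :=
  Val x ∧ D0 ≤ x.1 ∧ E0 ≤ ms x ∧ n ≤ sz x + u * s ∧ sz x ≤ n + u * s + 4 * (w + u) ∧
    wd x = w + u ∧ x.1 ≤ s + u ∧ Low τ x ∧ Upp τ x

/-- `y` arises from `x` by deleting every `P`-th letter on both sides -/
def Thin (P : ℕ) (x y : Cfg) : Prop :=
  y.1 = x.1 ∧ y.2.1 ≤ x.2.1 ∧ y.2.2 ≤ x.2.2 ∧ ∃ o < P, ∀ j,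
    cn y.2.1 j + (cn x.2.1 j + o) / P = cn x.2.1 j ∧ cn y.2.2 j + (cn x.2.2 j + o) / P = cn x.2.2 j

def GUok (n s w u τ D0 E0 h : ℕ) : Prop :=
  Even n ∧ s ^ 2 ≤ n ∧ n < (s + 1) ^ 2 ∧ 6 * τ + 9 ≤ u ∧ w + u + 1 ≤ (D0 - 2) * u ∧
    ∃ P A0, 2 ≤ P ∧ 27 * u * s * P ≤ E0 ∧ s + A0 ≤ w ∧ A0 ≤ s ∧ 44 * u * s * P ≤ A0 ^ 2 ∧
      8 * s ≤ h * P

/-- almost tight at a small index -/
def SM (n Δ k1 D0 E0 : ℕ) (x : Cfg) : Prop :=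
  Val x ∧ sz x = n ∧ wd x = Δ ∧ D0 ≤ x.1 ∧ E0 ≤ ms x ∧
    ∃ k, 1 ≤ k ∧ k ≤ k1 ∧ Cs x.2.2 k ≤ Cs x.2.1 k + 15 * k

def S1 (n k1 Z V D0 E1 : ℕ) (x : Cfg) : Prop :=
  (∀ v ∈ x.2.1 + x.2.2, k1 < v ∧ v ≤ x.1) ∧ D0 ≤ x.1 ∧ E1 ≤ ms x ∧ sz x ≤ n ∧ n ≤ sz x + Z ∧
    2 * x.1 + card x.2.1 + card x.2.2 ≤ V

def Bal (τ : ℕ) (x : Cfg) : Prop :=
  ∀ j, cn x.2.2 j ≤ cn x.2.1 j + τ ∧ cn x.2.1 j ≤ cn x.2.2 j + τ

def B1 (n Δ k1 h : ℕ) (x : Cfg) : Prop :=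
  Val x ∧ sz x = n ∧ wd x = Δ ∧
    (∀ k, k ≤ k1 → k ≤ x.1 → Cs x.2.1 k + 3 * k ≤ Cs x.2.2 k) ∧
    (∀ k, k1 < k → k ≤ x.1 → Cs x.2.1 k + k + 2 * h ≤ Cs x.2.2 k) ∧
    (∃ k, k1 < k ∧ k ≤ x.1 ∧ Cs x.2.2 k ≤ Cs x.2.1 k + k + 2 * h + 1) ∧ count 2 x.2.2 ≤ 1

def B2 (n Δ k1 J D0 E0 : ℕ) (x : Cfg) : Prop :=
  Val x ∧ sz x = n ∧ wd x = Δ ∧ D0 ≤ x.1 ∧ E0 ≤ ms x ∧ EGc x ∧
    (∃ k, k1 < k ∧ k ≤ x.1 ∧ Cs x.2.2 k ≤ Cs x.2.1 k + 4 * k) ∧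
    ∀ i, 2 ≤ i → i ≤ J → count i x.2.2 < i

/-- the parameters of the third range -/
structure Hyp (n Δ s y lam N2 N6 C3 Θ : ℕ) : Prop where
  ev : Even n
  s1 : s ^ 2 ≤ n
  s2 : n < (s + 1) ^ 2
  y1 : y ^ 20 ≤ s
  y2 : s < (y + 1) ^ 20
  y3 : (y + 1) ^ 40 ≤ 2 ^ y
  y4 : 2 ^ 40 ≤ y
  l1 : 2 ^ lam ≤ y
  n2 : 20 ≤ N2
  n6 : N6 = 2 ^ 22 * N2 ^ 3
  c3 : C3 = 128 * N6
  th : 2 ^ (32 * C3 + 3) ≤ Θ
  l2 : 2 ^ 20 * C3 * Θ ≤ lam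
  lo : s + 8 * (s / N2) ≤ Δ + 1
  hi : Δ ≤ lam * (s / (2 ^ 20 * C3 * Θ))

/-! Statements: configurations and partitions -/

def BA_st : Prop := ∀ x : Cfg, Val x →
  (part x).sum = sz x ∧ (part x).sup = wd x ∧ card (part x) = x.1 + card x.2.2 ∧
  (∀ K ≤ part x, K.sum ≤ card K * x.1 + Cs x.2.1 (card K)) ∧
  (∀ k ≤ x.1, Cs (part x) k = x.1 * k + Cs x.2.2 k) ∧ cn (part x) (x.1 + 1) ≤ x.1 ∧
  (∀ k ≤ x.1, ∃ K ≤ part x, card K = k ∧ (∀ v ∈ K, x.1 ≤ v) ∧ K.sum = k * x.1 + Cs x.2.1 k)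

def BB_st : Prop := ∀ x : Cfg, Val x → (EG (part x) ↔ EGc x) ∧ (Tc x → Tight (part x))

def BC_st : Prop := ∀ n w : ℕ, l2 n w = (Ff n w).card

def BD_st : Prop := (∀ n w x, Even n → Tp n w x → Fp n w x) ∧
  ∀ n w x, Fp n w x → EGc x ∧ Even n ∧ 2 ≤ x.1

/-! Statements: the move of one letter -/

def CG_st : Prop := ∀ d : Multiset ℕ, Gr d → d ≠ 0 → (∀ x ∈ d, 2 ≤ x) → ¬ FB d →
  ∃ (a₁ a₂ : ℕ) (R₁ R₂ : Multiset ℕ), d = (a₁ + a₂) ::ₘ (R₁ + R₂) ∧ Gr (a₁ ::ₘ R₁) ∧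
    Gr (a₂ ::ₘ R₂) ∧ R₁ ≠ 0 ∧ R₂ ≠ 0

def Q1_st : Prop := ∀ (D K k2 ε a a' : ℕ) (H B : Multiset ℕ), 2 ≤ K → K ≤ D →
  (∀ h ∈ H, D ≤ h) → cn (a' ::ₘ K ::ₘ (H + B)) (D + 1) ≤ D → K = card H + k2 + ε →
  k2 ≤ card H → ε ≤ 1 →
  (a' = a ∨ (a' = a + 1 ∧ ((ε = 0 ∧ 1 ≤ k2) ∨ a = 0)) ∨
    (a' + 1 = a ∧ ((ε = 1 ∧ Even k2) ∨ (ε = 0 ∧ 1 ≤ k2))) ∨ (a' + 2 = a ∧ D + 1 ≤ a ∧ 1 ≤ k2)) →
  EG (a ::ₘ (H.map (· + 1) + B)) → EG (a' ::ₘ K ::ₘ (H + B))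

def Q2_st : Prop := ∀ (D a a' : ℕ) (H B : Multiset ℕ), 1 ≤ D → (∀ h ∈ H, D ≤ h) →
  (∀ h ∈ H, ∀ b ∈ B, b ≤ h) → (∀ b ∈ B, 1 ≤ b) → H + B ≠ 0 →
  cn (a' ::ₘ (H + B)) (D + 1) ≤ D →
  (a' = a ∨ (a' + 1 = a ∧ H ≠ 0) ∨ (a = 0 ∧ a' = 1) ∨
    (a' + 2 = a ∧ D + 1 ≤ a ∧ ∀ b ∈ B, b + 1 ≤ a)) →
  EG (a ::ₘ (H.map (· + 1) + B)) → EG (a' ::ₘ (H + B))

def QM_st : Prop := ∀ (D K : ℕ) (H R : Multiset ℕ), 2 ≤ K → K ≤ D → card H = K →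
  (∀ h ∈ H, D ≤ h) → (∀ h ∈ H, ∀ r ∈ R, r ≤ h) → (∀ r ∈ R, 2 ≤ r) →
  cn (H.map (· + 1) + R) (D + 1) ≤ D → FB (K ::ₘ (H + R)) → Gr (H.map (· + 1) + R) →
  FB (H.map (· + 1) + R)

def Q_st : Prop := ∀ (D K : ℕ) (α β : Multiset ℕ), Val (D, α, K ::ₘ β) →
  FB (part (D, α, K ::ₘ β)) → EGc (D, K ::ₘ α, β) → FB (part (D, K ::ₘ α, β))

def BR_st : Prop := ∃ f : Multiset ℕ → Multiset ℕ → ℕ,
  (∀ α β : Multiset ℕ, (∀ v ∈ β, 1 ≤ v) → card α < card β → f α β ∈ β ∧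
    ∃ j, 1 ≤ j ∧ cn (β.erase (f α β)) (j + 1) < cn (f α β ::ₘ α) j) ∧
  ∀ α β α' β' : Multiset ℕ, (∀ v ∈ β, 1 ≤ v) → (∀ v ∈ β', 1 ≤ v) → card α < card β →
    card α' < card β' → f α β ::ₘ α = f α' β' ::ₘ α' →
    β.erase (f α β) = β'.erase (f α' β') → α = α' ∧ β = β'

def MA_st : Prop := ∀ (n Δ : ℕ) (Sp : Finset Cfg),
  (∀ y ∈ Sp, Fp n (Δ + 1) y ∧ (Bot y ∨ Tc y)) →
  (∀ X : Finset Cfg, (∀ x ∈ X, Fp n Δ x ∧ NT x) → X.card ≤ Sp.card) → l2 n Δ ≤ l2 n (Δ + 1)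

def R1_st : Prop := ∀ n Δ : ℕ, Δ ^ 2 + 4 * Δ < n → l2 n Δ ≤ l2 n (Δ + 1)

/-! Statements: absolute bounds and explicit families -/

def ABS_st : Prop := ∀ (Q m T r : ℕ) (S : Finset (Multiset ℕ)), 1 ≤ T → 4 * m ≤ r * T →
  200 * Q * T ≤ r ^ 2 → (∀ d ∈ S, (∀ v ∈ d, 1 ≤ v ∧ v ≤ Q) ∧ d.sum ≤ m) → S.card ≤ 2 ^ r

def AC_st : Prop := ∀ (Q m T r : ℕ) (X : Finset Cfg), 1 ≤ T → 4 * m ≤ r * T →
  200 * Q * T ≤ r ^ 2 → (∀ x ∈ X, Val x ∧ x.1 ≤ Q ∧ x.2.1.sum ≤ m ∧ x.2.2.sum ≤ m) →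
  X.card ≤ (Q + 1) * 4 ^ r

def SP_st : Prop := ∀ u K : ℕ, u ≤ K → ∃ S : Finset (Multiset ℕ), 2 ^ u ≤ S.card ∧
  ∀ H ∈ S, card H = 2 * u ∧ H.sum = 2 * u * K ∧ ∀ v ∈ H, K ≤ v + u ∧ v ≤ K + u

def FL_st : Prop := ∀ v lo hi S : ℕ, lo ≤ hi → v * lo ≤ S → S ≤ v * hi →
  ∃ H : Multiset ℕ, card H = v ∧ H.sum = S ∧ ∀ x ∈ H, lo ≤ x ∧ x ≤ hi

def DI_st : Prop := ∀ d : Multiset ℕ, Gr d → d ≠ 0 → (∀ x ∈ d, 2 ≤ x ∧ card d ≤ 2 * x) → FB d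

def BF_st : Prop := ∀ n Δ s z : ℕ, Even n → s ^ 2 ≤ n → n < (s + 1) ^ 2 → z = s / 60 →
  100 ≤ z → s ≤ Δ + 1 → Δ ≤ s + z →
  ∃ Sp : Finset Cfg, (∀ y ∈ Sp, Fp n (Δ + 1) y ∧ Bot y) ∧ 2 ^ z ≤ Sp.card

def TL_st : Prop := ∀ n w s z : ℕ, Even n → s ^ 2 ≤ n → n < (s + 1) ^ 2 → 1 ≤ z → 20 * z ≤ s →
  s + 8 * z ≤ w → w ≤ 2 * z * s → 2 ^ z ≤ (Tf n w).card

def R2_st : Prop := ∀ n Δ s : ℕ, Even n → s ^ 2 ≤ n → n < (s + 1) ^ 2 → 2 ^ 80 ≤ s →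
  n ≤ Δ ^ 2 + 4 * Δ → Δ + 1 < s + 8 * (s / 2 ^ 80) → l2 n Δ ≤ l2 n (Δ + 1)

/-! Statements: moves of letters -/

def MV_st : Prop := ∀ (S : Sys) (X Y : Finset Cfg) (lo len m t : ℕ) (g : Cfg → Cfg),
  Function.Injective g →
  (∀ z v, lo ≤ v → v < lo + len → S.mult (g z) v = S.mult z v) →
  (∀ x ∈ X, m ≤ cor S lo len x) → t + 3 ≤ m →
  (∀ z K, lo + t ≤ K → K < lo + len → S.app z {K} ∈ X → g (S.app z {K - t}) ∈ Y) →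
  (m - 2 - t) * X.card ≤ (m - 1) * (Y.filter (fun y => m - 1 ≤ cor S lo len y)).card

/-- step (a) of the ascent -/
def TAa_st : Prop := ∀ (n Δ lo len m i : ℕ) (X : Finset Cfg),
  (∀ x ∈ X, Tp n Δ x ∧ m ≤ cor hS lo len x) → 2 ≤ i → i < lo → i + 3 ≤ m →
  (m - 2 - i) * X.card ≤ (m - 1) *
    ((Tf n (Δ + 1)).filter (fun y => 1 ≤ hS.mult y i ∧ m - 1 ≤ cor hS lo len y)).card

/-- step (b) of the ascent -/
def TAb_st : Prop := ∀ (n w lo len m i l : ℕ) (X : Finset Cfg),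
  (∀ x ∈ X, Tp n w x ∧ m ≤ cor hS lo len x ∧ hS.mult x i = l) → 2 ≤ i → i + 1 < lo →
  2 * l + 3 ≤ m → X.card ≤ 2 * ((Tf n w).filter (fun y => hS.mult y i = 0)).card

def TA_st : Prop := ∀ (n Δ lo len m g σ : ℕ) (X : Finset Cfg),
  (∀ x ∈ X, Tp n Δ x ∧ m ≤ cor hS lo len x) → σ + 1 ≤ g → 2 ^ g < lo → 64 * 2 ^ g ≤ m →
  64 * (Δ + 1) ≤ σ * m → m * X.card ≤ (m - 2 ^ (g - σ)) * (Tf n (Δ + 1)).card

/-! Statements: the growth bound -/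

def G1_st : Prop := ∀ (n s w u τ D0 E0 : ℕ) (X : Finset Cfg), 2 ≤ D0 → n < (s + 1) ^ 2 →
  (∀ x ∈ X, XG n s w u τ D0 E0 x) →
  ∃ Y : Finset Cfg, (∀ y ∈ Y, X1 n s w u τ D0 E0 y) ∧ X.card ≤ (w + u + 1) * Y.card

def G2a_st : Prop := ∀ (P h Dm : ℕ) (X : Finset Cfg), 2 ≤ P → 4 * Dm ≤ h * P →
  (∀ x ∈ X, Val x ∧ x.1 ≤ Dm) →
  ∃ Y : Finset Cfg, (∀ y ∈ Y, ∃ x ∈ X, Thin P x y) ∧ X.card ≤ P * 2 ^ h * Y.card

def G2b_st : Prop := ∀ (P : ℕ) (x y : Cfg), 2 ≤ P → Val x → Thin P x y → Val y ∧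
  (∃ dA dE, card y.2.1 + dA = card x.2.1 ∧ ms y + dE = ms x ∧ card x.2.1 ≤ P * dA + P ∧
    P * dA ≤ card x.2.1 + P ∧ ms x ≤ P * dE + 2 * x.1 * P ∧ P * dE ≤ ms x + 2 * x.1 * P) ∧
  (∀ τ, Low τ x → Low (τ + 1) y) ∧ ∀ τ, Upp τ x → Upp (τ + 1) y

def G3_st : Prop := ∀ (τ Dm : ℕ) (X : Finset Cfg),
  (∀ x ∈ X, Val x ∧ x.1 ≤ Dm ∧ Low τ x ∧ Upp τ x) →
  ∃ Y : Finset Cfg, (∀ y ∈ Y, ∃ x ∈ X, y.1 = x.1 ∧ Tp (sz y) (wd y) y ∧ Even (sz y) ∧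
      wd y = wd x + (6 * τ + 3) ∧ sz x ≤ sz y ∧
      sz y ≤ sz x + (τ + 2) * x.1 + (6 * τ + 3) * (x.1 + 2)) ∧
    X.card ≤ (6 * τ + 3) * Dm * Y.card

def BIG_st : Prop := ∀ (n w D0 : ℕ) (X : Finset Cfg), (∀ x ∈ X, Tp n w x ∧ D0 ≤ x.1) →
  ∃ Y : Finset Cfg, (∀ y ∈ Y, Tp (n + 2 * (w + 1)) (w + 1) y ∧ D0 ≤ y.1) ∧ X.card ≤ Y.card

def FILL_st : Prop := ∀ (n w n0 w0 u D0 : ℕ) (X : Finset Cfg), Even n → Even n0 →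
  (∀ x ∈ X, Tp n0 w0 x ∧ D0 ≤ x.1) → w0 + u ≤ w → n0 + 4 * (w - w0) ≤ n →
  n ≤ n0 + 2 * (w0 + 1) * (w - w0 - u) → w + 1 ≤ (D0 - 2) * u → X.card ≤ (Tf n w).card

/-- the arithmetic of the growth bound -/
def GN_st : Prop := ∀ n s w u τ D0 E0 P A0 D A E z1 dA dE n0 w0 : ℕ, 6 * τ + 9 ≤ u →
  w + u + 1 ≤ (D0 - 2) * u → 2 ≤ P → 27 * u * s * P ≤ E0 → s + A0 ≤ w → A0 ≤ s →
  44 * u * s * P ≤ A0 ^ 2 → D0 ≤ D → D ≤ s + u → D + A = w + u → E0 ≤ E →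
  E ≤ (2 * A + τ) * D → n ≤ z1 + u * s → z1 ≤ n + u * s + 4 * (w + u) → 1 ≤ s →
  dA ≤ A → A ≤ P * dA + P → P * dA ≤ A + P → E ≤ P * dE + 2 * D * P → P * dE ≤ E + 2 * D * P →
  w0 + dA = w + u + (6 * τ + 9) → z1 ≤ n0 + dE →
  n0 + dE ≤ z1 + (τ + 3) * D + (6 * τ + 9) * (D + 2) →
  w0 + u ≤ w ∧ n0 + 4 * (w - w0) ≤ n ∧ n ≤ n0 + 2 * (w0 + 1) * (w - w0 - u)

def GU_st : Prop := ∀ (n s w u τ D0 E0 h : ℕ) (X : Finset Cfg), GUok n s w u τ D0 E0 h →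
  (∀ x ∈ X, XG n s w u τ D0 E0 x) → X.card ≤ (n + 1) ^ 5 * 2 ^ h * (Tf n w).card

def INS_st : Prop := ∀ (n s w u τ D0 E0 lo len Θ : ℕ) (X : Finset Cfg), 2 ≤ lo →
  lo + len ≤ D0 + 1 → D0 ≤ s → Θ * u ≤ len →
  (∀ x ∈ X, XG n s w 0 τ D0 E0 x ∧ cor hS lo len x ≤ u) →
  ∃ Y : Finset Cfg, (∀ y ∈ Y, XG n s w (2 * u) τ D0 E0 y) ∧ Θ ^ u * X.card ≤ 4 ^ u * Y.card

/-! Statements: the classes -/

def CR1_st : Prop := ∀ (n Δ k1 D0 E0 E1 : ℕ) (X : Finset Cfg), k1 ≤ D0 →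
  E1 + 3 * (Δ + 15) * k1 ≤ E0 → (∀ x ∈ X, SM n Δ k1 D0 E0 x) →
  ∃ Y : Finset Cfg, (∀ y ∈ Y, S1 n k1 (3 * (Δ + 15) * k1) (2 * Δ + 15) D0 E1 y) ∧
    X.card ≤ (n + 1) ^ (2 * k1) * Y.card

/-- the middle rank of a product of chains is the largest -/
def MID_st : Prop := ∀ γ : Multiset ℕ, (∀ v ∈ γ, 1 ≤ v) →
  γ.powerset.toFinset.card ≤ (card γ + 1) *
    (γ.powerset.toFinset.filter (fun α => card α = card γ / 2)).card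

def BAL_st : Prop := ∀ (θ t : ℕ) (γ : Multiset ℕ), (∀ v ∈ γ, 1 ≤ v) → card γ ≤ t * θ →
  ∃ S : Finset (Multiset ℕ), (∀ α ∈ S, α ≤ γ ∧
      ∀ j, cn γ j ≤ 2 * cn α j + (θ + t) ∧ 2 * cn α j ≤ cn γ j + (θ + t)) ∧
    γ.powerset.toFinset.card ≤ (card γ + 1) ^ t * S.card

def CR2_st : Prop := ∀ (n k1 Z V D0 E1 θ t : ℕ) (X : Finset Cfg), V ≤ t * θ →
  (∀ x ∈ X, S1 n k1 Z V D0 E1 x) →
  ∃ Y : Finset Cfg, (∀ y ∈ Y, S1 n k1 Z V D0 E1 y ∧ Bal (θ + t) y) ∧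
    X.card ≤ (V + 1) ^ t * Y.card

def CR3_st : Prop := ∀ (n s w u k1 Z V D0 E1 τ1 τ2 L u' : ℕ) (X : Finset Cfg), 1 ≤ k1 → 2 ≤ L →
  2 * L ≤ D0 → Z ≤ u * s → 2 * L * (u' + L) ≤ u * s → 2 * L * (u' + L) ≤ τ2 * D0 →
  V + τ1 ≤ 2 * (w + u) →
  (∀ x ∈ X, S1 n k1 Z V D0 E1 x ∧ Bal τ1 x ∧ cn x.2.2 L ≤ cn x.2.2 (2 * L) + u') →
  ∃ Y : Finset Cfg, (∀ y ∈ Y, XG n s w u (τ1 + τ2) D0 E1 y) ∧ 2 ^ L * X.card ≤ Y.card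

def LEV_st : Prop := ∀ (x : Cfg) (i k1 : ℕ), Val x → FB (part x) → 2 ≤ i →
  (∀ k, k ≤ k1 → k ≤ x.1 → Cs x.2.1 k + k + i * k ≤ Cs x.2.2 k) →
  (∀ k, k1 < k → k ≤ x.1 → Cs x.2.1 k + k + i * i ≤ Cs x.2.2 k + i) →
  cn x.2.1 (k1 + 1) + i ≤ card x.2.1 → count i x.2.2 < i

def B1_st : Prop := ∀ (n Δ k1 lo len m h ρ : ℕ) (X : Finset Cfg), 1 ≤ h → h ≤ lo → 3 ≤ lo →
  2 ≤ k1 → lo + len ≤ k1 + 1 → 2 * (h + 4 * ρ) + 3 ≤ m →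
  (∀ x ∈ X, B1 n Δ k1 h x ∧ m ≤ cor bS lo len x) → ρ * X.card ≤ 2 * (Tf n (Δ + 1)).card

def B2_st : Prop := ∀ (n Δ s w u k1 J D0 E0 : ℕ) (X : Finset Cfg), 2 ≤ k1 → 1 ≤ J → J ≤ D0 →
  k1 * J ^ 3 ≤ u * s → Δ ≤ w + u → (∀ x ∈ X, B2 n Δ k1 J D0 E0 x) →
  ∃ Y : Finset Cfg, (∀ y ∈ Y, XG n s w u (4 + J ^ 3) D0 E0 y) ∧ k1 ^ (J - 1) * X.card ≤ Y.card

/-! Statements: the third range with its parameters -/

def HF_st : Prop := ∀ n Δ s y lam N2 N6 C3 Θ : ℕ, Hyp n Δ s y lam N2 N6 C3 Θ →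
  n + 1 ≤ 2 ^ y ∧ n + 1 ≤ y ^ 41 ∧ lam ≤ y ∧ N2 ≤ N6 ∧ N6 ≤ C3 ∧ C3 ≤ Θ ∧ s ≤ y ^ 21 ∧
  s ≤ Δ + 1 ∧ 2 * Δ + 15 ≤ s * y ∧ 2 * Δ + 15 ≤ y ^ 22 ∧ y ^ 19 ≤ s / N6 / (2048 * C3) ∧
  y ^ 19 ≤ s / N6 / 2 / Θ ∧ y ^ 19 ≤ s / N6 ∧ s / N6 ≤ s / N2 ∧ y ^ 14 ≤ y ^ 16 / 2 / Θ ∧
  128 * Δ ≤ lam * (s / N6 / 2 / Θ) ∧ 2 * Δ ≤ lam * (s / N6 / (2048 * C3)) ∧
  128 * C3 * Δ ≤ lam * (s / N6)

def KA_st : Prop := ∀ n Δ s y lam N2 N6 C3 Θ : ℕ, Hyp n Δ s y lam N2 N6 C3 Θ →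
  ∀ X : Finset Cfg, (∀ x ∈ X, Val x ∧ sz x = n ∧ (x.1 < s / N6 ∨ ms x < s * (s / N6))) →
  1024 * y * X.card ≤ (Tf n (Δ + 1)).card

def KG_st : Prop := ∀ n Δ s y lam N2 N6 C3 Θ : ℕ, Hyp n Δ s y lam N2 N6 C3 Θ →
  ∀ u τ E : ℕ, s * (s / N6) ≤ 2 * E → 2 * C3 * u ≤ s → 6 * τ + 9 ≤ u → lam ≤ 32 * C3 * u →
  GUok n s (Δ + 1) u τ (s / N6) E (16 * C3 * u)

def KBad_st : Prop := ∀ n Δ s y lam N2 N6 C3 Θ : ℕ, Hyp n Δ s y lam N2 N6 C3 Θ →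
  ∀ lo len : ℕ, 2 ≤ lo → lo + len ≤ s / N6 + 1 → y ^ 2 ≤ len / Θ →
  ∀ X : Finset Cfg, (∀ x ∈ X, XG n s (Δ + 1) 0 4 (s / N6) (s * (s / N6)) x ∧
    cor hS lo len x ≤ len / Θ) → 1024 * y * X.card ≤ (Tf n (Δ + 1)).card

def KT_st : Prop := ∀ n Δ s y lam N2 N6 C3 Θ : ℕ, Hyp n Δ s y lam N2 N6 C3 Θ →
  ∀ X : Finset Cfg, (∀ x ∈ X, Tp n Δ x ∧
    s / N6 / 2 / Θ ≤ cor hS (s / N6 / 2 + 1) (s / N6 / 2) x) →
  128 * y * X.card + (Tf n (Δ + 1)).card ≤ 128 * y * (Tf n (Δ + 1)).card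

def KB1_st : Prop := ∀ n Δ s y lam N2 N6 C3 Θ : ℕ, Hyp n Δ s y lam N2 N6 C3 Θ →
  ∀ X : Finset Cfg, (∀ x ∈ X, (∃ h, 1 ≤ h ∧ h ≤ 100 ∧ B1 n Δ (y ^ 16) h x) ∧
    y ^ 16 / 2 / Θ ≤ cor hS (y ^ 16 / 2 + 1) (y ^ 16 / 2) x) →
  1024 * y * X.card ≤ (Tf n (Δ + 1)).card

def KB2_st : Prop := ∀ n Δ s y lam N2 N6 C3 Θ : ℕ, Hyp n Δ s y lam N2 N6 C3 Θ →
  ∀ X : Finset Cfg, (∀ x ∈ X, B2 n Δ (y ^ 16) 14 (s / N6) (s * (s / N6)) x) →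
  1024 * y * X.card ≤ (Tf n (Δ + 1)).card

/-- one shell of the class `SM` -/
def KS1_st : Prop := ∀ n Δ s y lam N2 N6 C3 Θ : ℕ, Hyp n Δ s y lam N2 N6 C3 Θ →
  ∀ L E1 : ℕ, y ^ 18 ≤ L → L ≤ y ^ 19 → s * (s / N6) ≤ 2 * E1 →
  ∀ X : Finset Cfg, (∀ x ∈ X,
    S1 n (y ^ 16) (3 * (Δ + 15) * y ^ 16) (2 * Δ + 15) (s / N6) E1 x ∧ Bal (y ^ 11 + y ^ 11) x ∧
      cn x.2.2 L ≤ cn x.2.2 (2 * L) + s / N6 / (2048 * C3)) →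
  2 ^ (3 * y ^ 17) * X.card ≤ (Tf n (Δ + 1)).card

def KS_st : Prop := ∀ n Δ s y lam N2 N6 C3 Θ : ℕ, Hyp n Δ s y lam N2 N6 C3 Θ →
  ∀ X : Finset Cfg, (∀ x ∈ X, SM n Δ (y ^ 16) (s / N6) (s * (s / N6)) x) →
  1024 * y * X.card ≤ (Tf n (Δ + 1)).card

/-- every almost tight configuration lies in one of the classes -/
def COV_st : Prop := ∀ (n Δ s k1 D0 E0 lo len m : ℕ) (x : Cfg), 3 ≤ k1 → k1 ≤ D0 →
  lo + len ≤ k1 + 1 → 14 ≤ m → Fp n Δ x → NT x →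
  (x.1 < D0 ∨ ms x < E0) ∨ SM n Δ k1 D0 E0 x ∨ (XG n s (Δ + 1) 0 4 D0 E0 x ∧
    (Tp n Δ x ∨ cor hS lo len x ≤ m ∨ (∃ h, 1 ≤ h ∧ h ≤ 100 ∧ B1 n Δ k1 h x) ∨
      B2 n Δ k1 14 D0 E0 x))

def R3_st : Prop := ∀ n Δ s y lam N2 N6 C3 Θ : ℕ, Hyp n Δ s y lam N2 N6 C3 Θ →
  l2 n Δ ≤ l2 n (Δ + 1)

def FIN_st : Prop := ∃ c : ℝ, 0 < c ∧ ∀ n Δ : ℕ, (Δ : ℝ) ≤ c * √(n : ℝ) * Real.log n →
  l2 n Δ ≤ l2 n (Δ + 1)

end Pool.Agent.MP_dbdb85_co.L
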